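import Pool.Agent.Helper65.GG.Thm
import Pool.Agent.Helper65.BF.Main

/-!
The Wronskian as an invariant jet differential on the Fermat covers of the plane.
-/

set_option autoImplicit false

open Filter Topology Metric MvPolynomial Set LinearAlgebra.Projectivization

namespace Pool.Agent.Helper65.GG

open Pool.Agent.W602.GT Pool.Agent.N155.BB Pool.Agent.Y190.OP Pool.Agent.N155
  Pool.Agent.N155.GD Pool.Agent.Helper65.BF

variable {n m e : ℕ} {ℓ : Fin (n + 1) → Fin 3 → ℂ}

/-- derivatives of families -/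
theorem iter_param {E V : Type*} [NormedAddCommGroup E] [NormedSpace ℂ E]
    [NormedAddCommGroup V] [NormedSpace ℂ V] [CompleteSpace V] {Γ : E → ℂ → V} {p : E} {s : ℂ}
    (h : AnalyticAt ℂ (fun q : E × ℂ => Γ q.1 q.2) (p, s)) (j : ℕ) :
    AnalyticAt ℂ (fun q : E × ℂ => iteratedDeriv j (Γ q.1) q.2) (p, s) := by
  induction j with
  | zero =>
    simpa using h
  | succ j ih =>
    have h1 : (fun q : E × ℂ => iteratedDeriv (j + 1) (Γ q.1) q.2) =ᶠ[𝓝 (p, s)]
        fun q => fderiv ℂ (fun q : E × ℂ => iteratedDeriv j (Γ q.1) q.2) q (0, 1) := by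
      filter_upwards [ih.eventually_analyticAt] with q hq
      rw [iteratedDeriv_succ]
      have h2 : HasDerivAt (fun t : ℂ => (q.1, t)) ((0 : E), (1 : ℂ)) q.2 :=
        (hasDerivAt_const q.2 q.1).prodMk (hasDerivAt_id q.2)
      have h3 := hq.differentiableAt.hasFDerivAt.comp_hasDerivAt q.2 h2
      exact h3.deriv
    refine AnalyticAt.congr ?_ h1.symm
    exact AnalyticAt.comp (g := ContinuousLinearMap.apply ℂ V ((0 : E), (1 : ℂ)))
      (f := fderiv ℂ fun q : E × ℂ => iteratedDeriv j (Γ q.1) q.2)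
      (ContinuousLinearMap.analyticAt _ _) ih.fderiv

theorem iter_param' {E V : Type*} [NormedAddCommGroup E] [NormedSpace ℂ E]
    [NormedAddCommGroup V] [NormedSpace ℂ V] [CompleteSpace V] {Γ : E → ℂ → V} {p : E}
    (h : AnalyticAt ℂ (fun q : E × ℂ => Γ q.1 q.2) (p, 0)) (j : ℕ) :
    AnalyticAt ℂ (fun q : E => iteratedDeriv j (Γ q) 0) p := by
  have h1 := iter_param h j
  exact AnalyticAt.comp (g := fun q : E × ℂ => iteratedDeriv j (Γ q.1) q.2)
    (f := fun q : E => (q, (0 : ℂ))) h1 (analyticAt_id.prod analyticAt_const)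

/-- analytic families -/
theorem qw_an2 {E : Type*} [NormedAddCommGroup E] [NormedSpace ℂ E] (hg : GeneralPosition ℓ)
    {x v w : E → Fin (n + 1) → ℂ} {p : E} (hx : AnalyticAt ℂ x p) (hv : AnalyticAt ℂ v p)
    (hw : AnalyticAt ℂ w p) {t : Fin 3 → Fin (n + 1)} (ht : Adm (Zs (x p)) t) :
    AnalyticAt ℂ (fun z => qw ℓ e t (x z) (v z) (w z)) p := by
  have hxl : ∀ l, AnalyticAt ℂ (fun z => x z l) p := fun l => (analyticAt_pi_iff.1 hx) l
  have hvl : ∀ l, AnalyticAt ℂ (fun z => v z l) p := fun l => (analyticAt_pi_iff.1 hv) l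
  have hwl : ∀ l, AnalyticAt ℂ (fun z => w z l) p := fun l => (analyticAt_pi_iff.1 hw) l
  have h0 : ∀ l, AnalyticAt ℂ (fun z => js e (x z) (v z) (w z) 0 l) p := fun l => by
    simp only [js, Matrix.cons_val_zero]
    exact (hxl l).pow 2
  have h1 : ∀ l, AnalyticAt ℂ (fun z => js e (x z) (v z) (w z) 1 l) p := fun l => by
    simp only [js, Matrix.cons_val_one, Matrix.cons_val_zero]
    exact analyticAt_const.mul ((hxl l).mul (hvl l))
  have h2 : ∀ l, AnalyticAt ℂ (fun z => js e (x z) (v z) (w z) 2 l) p := fun l => by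
    simp only [js, Matrix.cons_val]
    exact analyticAt_const.mul ((analyticAt_const.mul ((hvl l).pow 2)).add ((hxl l).mul (hwl l)))
  have hS : AnalyticAt ℂ (fun z => St (js e (x z) (v z) (w z)) t) p := by
    simp only [St_three]
    exact ((((((h0 _).mul (h1 _)).mul (h2 _)).sub (((h0 _).mul (h2 _)).mul (h1 _))).sub
      (((h1 _).mul (h0 _)).mul (h2 _))).add (((h1 _).mul (h2 _)).mul (h0 _))).add
      (((h2 _).mul (h0 _)).mul (h1 _)) |>.sub (((h2 _).mul (h1 _)).mul (h0 _))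
  have hG : AnalyticAt ℂ (fun z => Gt (fun l => x z l ^ e) t) p := by
    unfold Gt
    exact Finset.analyticAt_fun_prod _ fun l _ => (hxl l).pow e
  unfold qw Qj Qt
  refine hS.div (analyticAt_const.mul hG) (mul_ne_zero (hg.mt ht.1) ?_)
  exact Gt_ne.2 fun l hl => pow_ne_zero _ (adm_ne ht hl)

/-- the Wronskian -/
noncomputable def wj (hr : 3 ≤ n + 1) (ℓ : Fin (n + 1) → Fin 3 → ℂ) (e : ℕ)
    (j : Fin (2 + 1) → Fin (n + 1) → ℂ) : ℂ :=
  qw ℓ e (tz hr (Zs (j 0))) (j 0) (j 1) (j 2)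

theorem wj_jet {hr : 3 ≤ n + 1} {γ : ℂ → Fin (n + 1) → ℂ} {z : ℂ} : wj hr ℓ e (jet 2 γ z) =
    qw ℓ e (tz hr (Zs (γ z))) (γ z) (deriv γ z) (deriv (deriv γ) z) := by
  have h0 : jet 2 γ z 0 = γ z := by
    change iteratedDeriv 0 γ z = _
    rw [iteratedDeriv_zero]
  have h1 : jet 2 γ z 1 = deriv γ z := by
    change iteratedDeriv 1 γ z = _
    rw [iteratedDeriv_one]
  have h2 : jet 2 γ z 2 = deriv (deriv γ) z := by
    change iteratedDeriv 2 γ z = _
    rw [iteratedDeriv_succ, iteratedDeriv_one]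
  unfold wj
  rw [h0, h1, h2]

/-- the rows -/
theorem wj_rows {hr : 3 ≤ n + 1} (hg : GeneralPosition ℓ) (he : e ≠ 0)
    {γ : ℂ → Fin (n + 1) → ℂ} {z : ℂ}
    (hγ : AnalyticAt ℂ γ z) (hX : ∀ᶠ s in 𝓝 z, γ s ∈ Cone (fermatForms ℓ (e + 2)))
    {t : Fin 3 → Fin (n + 1)} (ht : Adm (Zs (γ z)) t) :
    wj hr ℓ e (jet 2 γ z) = qw ℓ e t (γ z) (deriv γ z) (deriv (deriv γ) z) := by
  rw [wj_jet]
  unfold qw Qj
  apply Qt_indep hg (js_rel hg hr hγ hX)
  · rw [Zs_pow he]
    exact tz_adm hr (exists_Adm hg (by omega) hr hX.self_of_nhds)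
  · rwa [Zs_pow he]

/-- derivatives of compositions -/
theorem deriv_comp_two {ψ : ℂ → ℂ} {γ : ℂ → Fin (n + 1) → ℂ} {z : ℂ} (hψ : AnalyticAt ℂ ψ z)
    (hγ : AnalyticAt ℂ γ (ψ z)) :
    deriv (fun w => γ (ψ w)) z = deriv ψ z • deriv γ (ψ z) ∧
    deriv (deriv fun w => γ (ψ w)) z =
      deriv (deriv ψ) z • deriv γ (ψ z) + (deriv ψ z ^ 2) • deriv (deriv γ) (ψ z) := by
  have h1 : ∀ s, AnalyticAt ℂ ψ s → AnalyticAt ℂ γ (ψ s) →
      deriv (fun w => γ (ψ w)) s = deriv ψ s • deriv γ (ψ s) := by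
    intro s hs hs'
    exact (hs'.differentiableAt.hasDerivAt.scomp s hs.differentiableAt.hasDerivAt).deriv
  refine ⟨h1 z hψ hγ, ?_⟩
  have h2 : deriv (fun w => γ (ψ w)) =ᶠ[𝓝 z] fun s => deriv ψ s • deriv γ (ψ s) := by
    filter_upwards [hψ.eventually_analyticAt,
      hψ.continuousAt.eventually hγ.eventually_analyticAt] with s hs hs'
    exact h1 s hs hs'
  rw [h2.deriv_eq]
  have h3 : HasDerivAt (fun s => deriv γ (ψ s)) (deriv ψ z • deriv (deriv γ) (ψ z)) z :=
    hγ.deriv.differentiableAt.hasDerivAt.scomp z hψ.differentiableAt.hasDerivAt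
  have h4 := (hψ.deriv.differentiableAt.hasDerivAt.smul h3).deriv
  refine Eq.trans h4 ?_
  rw [smul_smul, ← pow_two]
  exact add_comm _ _

theorem js_comp (e : ℕ) (x v w : Fin (n + 1) → ℂ) (t : Fin 3 → Fin (n + 1)) (a b : ℂ) :
    St (js e x (a • v) (b • v + (a ^ 2) • w)) t = a ^ 3 * St (js e x v w) t := by
  rw [St_three, St_three]
  simp only [js, Matrix.cons_val_zero, Matrix.cons_val_one, Matrix.cons_val, Pi.smul_apply,
    Pi.add_apply, smul_eq_mul]
  ring

theorem js_sing (e : ℕ) (x w : Fin (n + 1) → ℂ) (t : Fin 3 → Fin (n + 1)) (c : ℂ) :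
    St (js e x (c • x) w) t = 0 := by
  rw [St_three]
  simp only [js, Matrix.cons_val_zero, Matrix.cons_val_one, Matrix.cons_val, Pi.smul_apply,
    smul_eq_mul]
  ring

/-- **The Wronskian is a jet differential of order 2 and weight 3.** -/
theorem jetDiff_wj (hr : 3 ≤ n + 1) (hg : GeneralPosition ℓ) (hn : n = m + 2) (hme : m * e = 6) :
    JetDiff (Cone (fermatForms ℓ (e + 2))) 2 3 (wj hr ℓ e) := by
  have he : e ≠ 0 := by
    rintro rfl
    omega
  refine ⟨?_, ?_, ?_, ?_⟩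
  · intro E _ _ _ Γ p hΓ hX
    have h0 := iter_param' hΓ 0
    have h1 := iter_param' hΓ 1
    have h2 := iter_param' hΓ 2
    simp only [iteratedDeriv_zero] at h0
    simp only [iteratedDeriv_one] at h1
    have h2' : AnalyticAt ℂ (fun q : E => deriv (deriv (Γ q)) 0) p := by
      simpa only [iteratedDeriv_succ, iteratedDeriv_zero] using h2
    obtain ⟨t, ht⟩ := exists_Adm hg (by omega) hr hX.self_of_nhds
    have h3 := qw_an2 (e := e) hg h0 h1 h2' ht
    refine h3.congr ?_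
    have e1 : ∀ᶠ q in 𝓝 p, ∀ᶠ s in 𝓝 (0 : ℂ), Γ q s ∈ Cone (fermatForms ℓ (e + 2)) := by
      rw [nhds_prod_eq] at hX
      exact hX.curry
    have e2 : ∀ᶠ q in 𝓝 p, AnalyticAt ℂ (Γ q) 0 := by
      have h4 : Tendsto (fun q : E => (q, (0 : ℂ))) (𝓝 p) (𝓝 (p, 0)) :=
        (continuous_id.prodMk continuous_const).tendsto _
      filter_upwards [h4.eventually hΓ.eventually_analyticAt] with q hq
      exact AnalyticAt.comp (g := fun q : E × ℂ => Γ q.1 q.2) (f := fun s : ℂ => (q, s)) hq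
        (analyticAt_const.prod analyticAt_id)
    have e3 : ∀ᶠ q in 𝓝 p, Adm (Zs (Γ q 0)) t := h0.continuousAt.eventually (op_adm ht)
    filter_upwards [e1, e2, e3] with q hq1 hq2 hq3
    exact (wj_rows hg he hq2 hq1 hq3).symm
  · intro γ h z hγ hh hh0 hX
    have ht := tz_adm hr (exists_Adm hg (by omega) hr hX.self_of_nhds)
    obtain ⟨h1, h2⟩ := deriv_smul_two hh hγ
    rw [wj_jet, wj_jet, h1, h2, Zs_smul hh0]
    exact Qj_scale hn hme ht.1 _ _ hh0
  · intro γ ψ z hψ hγ hX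
    obtain ⟨h1, h2⟩ := deriv_comp_two hψ hγ
    rw [wj_jet, wj_jet, h1, h2]
    unfold qw Qj Qt
    rw [js_comp, mul_div_assoc]
  · intro γ z hγ hX ⟨c, hc⟩
    rw [wj_jet, hc]
    unfold qw Qj Qt
    rw [js_sing, zero_div]

/-- annihilated curves are degenerate -/
theorem annih_flat (hr : 3 ≤ n + 1) (hg : GeneralPosition ℓ) (hn : n = m + 2) (hme : m * e = 6)
    {f : ℂ → ℙ ℂ (Fin (n + 1) → ℂ)} (hf : HolIn (fermatForms ℓ (e + 2)) f)
    (ha : Annihilates (wj hr ℓ e) f) (ρ : ℝ)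
    (hbd : BD (TF (fermatForms ℓ (e + 2))) fun z => Phi (f (aff 0 ρ z)).rep) :
    ∀ z i t, Phi (f (aff 0 ρ z)).rep i i ≠ 0 →
      Adm (Zs (cu (fun z => Phi (f (aff 0 ρ z)).rep) i z)) t →
      vl (qw ℓ e) (fun z => Phi (f (aff 0 ρ z)).rep) i t z = 0 := by
  intro z i t hi ht
  have he : e ≠ 0 := by
    rintro rfl
    omega
  have hσ := jetDiff_wj hr hg hn hme
  have hhol := holP_of_map hf.1
  set g : ℂ → Fin (n + 1) → ℂ := cu (fun z => Phi (f z).rep) i with hgdef
  set V : Set ℂ := {w | Phi (f w).rep i i ≠ 0} with hV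
  have hVo : IsOpen V := by
    have hc : Continuous fun w => Phi (f w).rep i i := by
      rw [continuous_iff_continuousAt]
      intro w
      exact (continuous_apply_apply i i).continuousAt.comp (hhol.continuousAt (mem_univ w))
    exact isOpen_ne.preimage hc
  have hzV : aff 0 ρ z ∈ V := hi
  have h1 := ha V g hVo (fun w hw => (hhol.diff_chart (mem_univ w) hw).differentiableWithinAt)
    (fun w hw => by
      have h2 := (Phi_diag_ne (f w).rep_nonzero).1 hw
      have h3 : g w = ((f w).rep i)⁻¹ • (f w).rep := chart_Phi (f w).rep_nonzero h2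
      have h4 : g w ≠ 0 := by
        rw [h3]
        exact smul_ne_zero (inv_ne_zero h2) (f w).rep_nonzero
      refine ⟨h4, ?_⟩
      have h5 : Projectivization.mk ℂ (g w) h4 = f w := by
        conv_rhs => rw [← (f w).mk_rep]
        rw [Projectivization.mk_eq_mk_iff']
        exact ⟨((f w).rep i)⁻¹, h3.symm⟩
      exact h5.symm) _ hzV
  have hcu : cu (fun z => Phi (f (aff 0 ρ z)).rep) i = fun w => g (aff 0 ρ w) := rfl
  have hga : AnalyticAt ℂ g (aff 0 ρ z) := cu_an hhol i hi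
  have hev : ∀ᶠ w in 𝓝 (aff 0 ρ z), g w ∈ Cone (fermatForms ℓ (e + 2)) :=
    ev_cone form_fermat hhol (fun z => mem_TF (hf.2 z)) hi
  have haffd : AnalyticAt ℂ (aff 0 ρ) z := by
    have : Differentiable ℂ (aff 0 ρ) := aff_diff _ _
    exact this.analyticAt z
  have h2 := hσ.param g (aff 0 ρ) z haffd hga hev
  rw [h1, mul_zero, ← hcu] at h2
  have h3 := wj_rows (hr := hr) hg he (cu_an hbd.hol i hi)
    (ev_cone form_fermat hbd.hol hbd.mem hi) ht
  rw [h3] at h2
  exact h2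

theorem exists_rho {f : ℂ → ℙ ℂ (Fin (n + 1) → ℂ)} (hf : HolIn (fermatForms ℓ (e + 2)) f) {C : ℝ}
    (hb : DerBetween 0 C f) : ∃ ρ : ℝ, 0 < ρ ∧
      BD (TF (fermatForms ℓ (e + 2))) fun z => Phi (f (aff 0 ρ z)).rep := by
  obtain ⟨B, hB⟩ := bounded_of_between hf.1 hb
  have hB0 : 0 ≤ B := (norm_nonneg _).trans (hB 0)
  refine ⟨2 / (B + 1), by positivity, (bd_aff form_fermat hf (a := 0) (by positivity) hB ?_).1⟩
  rw [div_mul_eq_mul_div, div_le_iff₀ (by positivity)]
  linarith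

/-- **Degenerate Brody curves are constant.** -/
theorem wj_nd (hr : 3 ≤ n + 1) (hg : GeneralPosition ℓ) (hn : n = m + 2) (hme : m * e = 6)
    (hm : 2 ≤ m) {f : ℂ → ℙ ℂ (Fin (n + 1) → ℂ)} (hf : HolIn (fermatForms ℓ (e + 2)) f) {C : ℝ}
    (hb : DerBetween 0 C f) (ha : Annihilates (wj hr ℓ e) f) : ∀ z w, f z = f w := by
  obtain ⟨ρ, hρ, hbd⟩ := exists_rho hf hb
  exact const_of_flat hf.1 hρ (deg_flat hg hn hme hm hbd (annih_flat hr hg hn hme hf ha ρ hbd))

/-! ### curves in lines -/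

/-- a curve in a line is constant if its closure is not the whole line -/
theorem line_const {V : Set (Fin (n + 1) → ℂ)} (hV : ClosedCone V) (hV0 : ∀ x ∈ V, x ≠ 0)
    {P Q : Fin (n + 1) → ℂ} (hPQ : LinearIndependent ℂ ![P, Q]) {s0 t0 : ℂ}
    (h0 : s0 • P + t0 • Q ≠ 0) (hnot : s0 • P + t0 • Q ∉ V) {f : ℂ → ℙ ℂ (Fin (n + 1) → ℂ)}
    (hf : CurveIn V f) (hl : ∀ z, ∃ s t : ℂ, (f z).rep = s • P + t • Q) :
    ∀ z w, f z = f w := by
  -- coordinates on the line
  obtain ⟨L, hL⟩ : ∃ L : (Fin (n + 1) → ℂ) →ₗ[ℂ] (Fin 2 → ℂ),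
      ∀ s t : ℂ, L (s • P + t • Q) = ![s, t] := by
    set M : (Fin 2 → ℂ) →ₗ[ℂ] (Fin (n + 1) → ℂ) := Fintype.linearCombination ℂ ![P, Q] with hM
    have hker : LinearMap.ker M = ⊥ := by
      rw [LinearMap.ker_eq_bot]
      exact hPQ.fintypeLinearCombination_injective
    obtain ⟨L, hL⟩ := M.exists_leftInverse_of_injective hker
    refine ⟨L, fun s t => ?_⟩
    have h1 : M ![s, t] = s • P + t • Q := by
      rw [hM, Fintype.linearCombination_apply, Fin.sum_univ_two]
      rfl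
    rw [← h1]
    exact DFunLike.congr_fun hL _
  have h00 : s0 ≠ 0 ∨ t0 ≠ 0 := by
    by_contra hcon
    push Not at hcon
    apply h0
    rw [hcon.1, hcon.2, zero_smul, zero_smul, add_zero]
  set lam : (Fin (n + 1) → ℂ) → ℂ := fun x => L x 0 * t0 - L x 1 * s0 with hlam
  set mu : (Fin (n + 1) → ℂ) → ℂ := fun x => L x 0 * starRingEnd ℂ s0 + L x 1 * starRingEnd ℂ t0
    with hmu
  have hLc : Continuous L := L.continuous_of_finiteDimensional
  have hL0 : Continuous fun x => L x 0 := (continuous_apply 0).comp hLc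
  have hL1 : Continuous fun x => L x 1 := (continuous_apply 1).comp hLc
  have hlamc : Continuous lam := (hL0.mul continuous_const).sub (hL1.mul continuous_const)
  have hmuc : Continuous mu := (hL0.mul continuous_const).add (hL1.mul continuous_const)
  have hlams : ∀ (c : ℂ) x, lam (c • x) = c * lam x := by
    intro c x
    simp only [hlam, map_smul, Pi.smul_apply, smul_eq_mul]
    ring
  have hmus : ∀ (c : ℂ) x, mu (c • x) = c * mu x := by
    intro c x
    simp only [hmu, map_smul, Pi.smul_apply, smul_eq_mul]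
    ring
  -- the form `lam` has no zeros
  have hne : ∀ x ∈ V, (∃ s t : ℂ, x = s • P + t • Q) → lam x ≠ 0 := by
    rintro x hx ⟨s, t, hst⟩ hz
    have e0 : L x 0 = s := by
      rw [hst, hL]
      rfl
    have e1 : L x 1 = t := by
      rw [hst, hL]
      rfl
    have hz' : s * t0 = t * s0 := by
      have : s * t0 - t * s0 = 0 := by
        rw [← e0, ← e1]
        exact hz
      exact sub_eq_zero.1 this
    have hst0 : s ≠ 0 ∨ t ≠ 0 := by
      by_contra hcon
      push Not at hcon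
      apply hV0 x hx
      rw [hst, hcon.1, hcon.2, zero_smul, zero_smul, add_zero]
    obtain ⟨c, hc, h1, h2⟩ : ∃ c : ℂ, c ≠ 0 ∧ s0 = c * s ∧ t0 = c * t := by
      by_cases hs : s = 0
      · have ht : t ≠ 0 := hst0.resolve_left (not_not.2 hs)
        rw [hs, zero_mul] at hz'
        have hs00 : s0 = 0 := ((mul_eq_zero.1 hz'.symm).resolve_left ht)
        have ht00 : t0 ≠ 0 := h00.resolve_left (not_not.2 hs00)
        exact ⟨t0 / t, div_ne_zero ht00 ht, by rw [hs, hs00, mul_zero],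
          (div_mul_cancel₀ _ ht).symm⟩
      · have hs00 : s0 ≠ 0 := by
          intro h
          rw [h, mul_zero] at hz'
          exact (h00.resolve_left (not_not.2 h)) ((mul_eq_zero.1 hz').resolve_left hs)
        refine ⟨s0 / s, div_ne_zero hs00 hs, (div_mul_cancel₀ _ hs).symm, ?_⟩
        rw [div_mul_eq_mul_div, eq_div_iff hs, mul_comm t0, hz', mul_comm]
    apply hnot
    have h3 : s0 • P + t0 • Q = c • x := by
      rw [h1, h2, hst, smul_add, smul_smul, smul_smul]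
    rw [h3]
    exact hV.smul x hx c hc
  -- the quotient is bounded
  obtain ⟨C, hC⟩ : ∃ C : ℝ, ∀ x ∈ V, (∃ s t : ℂ, x = s • P + t • Q) → ‖mu x / lam x‖ ≤ C := by
    set W : Submodule ℂ (Fin (n + 1) → ℂ) := Submodule.span ℂ {P, Q} with hW
    have hWm : ∀ x, x ∈ W ↔ ∃ s t : ℂ, x = s • P + t • Q := by
      intro x
      rw [hW, Submodule.mem_span_pair]
      exact ⟨fun ⟨a, b, h⟩ => ⟨a, b, h.symm⟩, fun ⟨a, b, h⟩ => ⟨a, b, h.symm⟩⟩
    have hWc : IsClosed (W : Set (Fin (n + 1) → ℂ)) := Submodule.closed_of_finiteDimensional W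
    set K : Set (Fin (n + 1) → ℂ) := sphere 0 1 ∩ (insert 0 V ∩ W) with hK
    have hKc : IsCompact K := (isCompact_sphere 0 1).inter_right (hV.closed.inter hWc)
    have hKV : ∀ x ∈ K, x ∈ V ∧ ∃ s t : ℂ, x = s • P + t • Q := by
      rintro x ⟨h1, h2, h3⟩
      refine ⟨h2.resolve_left ?_, (hWm x).1 h3⟩
      rintro rfl
      rw [mem_sphere, dist_self] at h1
      exact zero_ne_one h1
    obtain ⟨C, hC⟩ := hKc.exists_bound_of_continuousOn (f := fun x => mu x / lam x)
      (hmuc.continuousOn.div hlamc.continuousOn fun x hx => hne x (hKV x hx).1 (hKV x hx).2)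
    refine ⟨C, fun x hx hst => ?_⟩
    have hn : (‖x‖ : ℂ) ≠ 0 := by
      have := norm_pos_iff.2 (hV0 x hx)
      exact_mod_cast this.ne'
    have h1 := hC ((‖x‖ : ℂ)⁻¹ • x) ⟨by
      rw [mem_sphere, dist_zero_right, norm_smul, norm_inv, Complex.norm_real, norm_norm]
      exact inv_mul_cancel₀ (by exact_mod_cast hn), Or.inr (hV.smul x hx _ (inv_ne_zero hn)),
      W.smul_mem _ ((hWm x).2 hst)⟩
    rw [hlams, hmus, mul_div_mul_left _ _ (inv_ne_zero hn)] at h1
    exact h1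
  -- Liouville
  set G : ℂ → ℂ := fun z => mu (f z).rep / lam (f z).rep with hG
  have hGd : Differentiable ℂ G := by
    intro z
    obtain ⟨U, g, hU, hzU, hg, hfg⟩ := hf.1 z
    have hgd : DifferentiableAt ℂ g z := hg.differentiableAt (hU.mem_nhds hzU)
    have hLd : ∀ j, DifferentiableAt ℂ (fun w => L (g w) j) z := by
      intro j
      have h1 : DifferentiableAt ℂ (fun w => L (g w)) z :=
        (L.toContinuousLinearMap.differentiableAt).comp z hgd
      exact (differentiableAt_pi.1 h1) j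
    have hlamd : DifferentiableAt ℂ (fun w => lam (g w)) z :=
      ((hLd 0).mul_const _).sub ((hLd 1).mul_const _)
    have hmud : DifferentiableAt ℂ (fun w => mu (g w)) z :=
      ((hLd 0).mul_const _).add ((hLd 1).mul_const _)
    have hrep : ∀ w ∈ U, ∃ c : ℂ, c ≠ 0 ∧ (f w).rep = c • g w := by
      intro w hw
      obtain ⟨h1, h2⟩ := hfg w hw
      obtain ⟨c, hc⟩ := Projectivization.exists_smul_eq_mk_rep ℂ (g w) h1
      rw [h2]
      exact ⟨c, c.ne_zero, hc.symm⟩
    have hev : G =ᶠ[𝓝 z] fun w => mu (g w) / lam (g w) := by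
      filter_upwards [hU.mem_nhds hzU] with w hw
      obtain ⟨c, hc, h1⟩ := hrep w hw
      change mu (f w).rep / lam (f w).rep = _
      rw [h1, hlams, hmus, mul_div_mul_left _ _ hc]
    refine (DifferentiableAt.div hmud hlamd ?_).congr_of_eventuallyEq hev
    obtain ⟨c, hc, h1⟩ := hrep z hzU
    have h2 := hne _ (hf.2 z) (hl z)
    rw [h1, hlams] at h2
    exact right_ne_zero_of_mul h2
  have hGc : ∀ z w, G z = G w := by
    intro z w
    apply hGd.apply_eq_apply_of_bounded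
    rw [isBounded_iff_forall_norm_le]
    refine ⟨C, ?_⟩
    rintro _ ⟨z, rfl⟩
    exact hC _ (hf.2 z) (hl z)
  intro z w
  set c : ℂ := G 0 with hc
  have hkey : ∀ z, ∃ a : ℂ, (f z).rep =
      a • ((starRingEnd ℂ t0 + c * s0) • P + (-(starRingEnd ℂ s0 - c * t0)) • Q) := by
    intro z
    obtain ⟨s, t, hst⟩ := hl z
    have e0 : L (f z).rep 0 = s := by
      rw [hst, hL]
      rfl
    have e1 : L (f z).rep 1 = t := by
      rw [hst, hL]
      rfl
    have h1 : mu (f z).rep = c * lam (f z).rep := by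
      rw [← div_eq_iff (hne _ (hf.2 z) (hl z))]
      exact hGc z 0
    simp only [hmu, hlam, e0, e1] at h1
    have h2 : s * (starRingEnd ℂ s0 - c * t0) + t * (starRingEnd ℂ t0 + c * s0) = 0 := by
      linear_combination h1
    -- the coefficients do not both vanish
    have h3 : starRingEnd ℂ s0 - c * t0 ≠ 0 ∨ starRingEnd ℂ t0 + c * s0 ≠ 0 := by
      by_contra hcon
      push Not at hcon
      obtain ⟨h4, h5⟩ := hcon
      have h6 : starRingEnd ℂ s0 * s0 + starRingEnd ℂ t0 * t0 = 0 := by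
        linear_combination s0 * h4 + t0 * h5
      rw [mul_comm, Complex.mul_conj, mul_comm, Complex.mul_conj, ← Complex.ofReal_add,
        Complex.ofReal_eq_zero] at h6
      have h7 := Complex.normSq_nonneg s0
      have h8 := Complex.normSq_nonneg t0
      rcases h00 with h | h
      · exact h (Complex.normSq_eq_zero.1 (by linarith))
      · exact h (Complex.normSq_eq_zero.1 (by linarith))
    set A := starRingEnd ℂ s0 - c * t0
    set B := starRingEnd ℂ t0 + c * s0
    by_cases hA : A = 0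
    · have hB : B ≠ 0 := h3.resolve_left (not_not.2 hA)
      rw [hA, mul_zero, zero_add] at h2
      have ht : t = 0 := (mul_eq_zero.1 h2).resolve_right hB
      refine ⟨s / B, ?_⟩
      rw [hst, ht, hA, neg_zero, zero_smul, add_zero, add_zero, smul_smul,
        div_mul_cancel₀ _ hB]
    · refine ⟨-(t / A), ?_⟩
      rw [hst, smul_add, smul_smul, smul_smul]
      congr 2
      · field_simp
        linear_combination h2
      · field_simp
  obtain ⟨a, ha⟩ := hkey z
  obtain ⟨b, hb⟩ := hkey w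
  have ha0 : a ≠ 0 := by
    rintro rfl
    rw [zero_smul] at ha
    exact (f z).rep_nonzero ha
  have hb0 : b ≠ 0 := by
    rintro rfl
    rw [zero_smul] at hb
    exact (f w).rep_nonzero hb
  rw [← (f z).mk_rep, ← (f w).mk_rep, Projectivization.mk_eq_mk_iff']
  refine ⟨a / b, ?_⟩
  rw [ha, hb, smul_smul, div_mul_cancel₀ _ hb0]

/-- **Degenerate Brody curves in closed sets without lines are constant.** -/
theorem wj_nd_line {ℓ : Fin (3 + 1) → Fin 3 → ℂ} (hr : 3 ≤ 3 + 1) (hg : GeneralPosition ℓ)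
    {V : Set (Fin (3 + 1) → ℂ)} (hV : ClosedCone V) (hVX : V ⊆ Cone (fermatForms ℓ (6 + 2)))
    (hline : ∀ P Q, Line (fermatForms ℓ (6 + 2)) P Q →
      ∃ s t : ℂ, s • P + t • Q ≠ 0 ∧ s • P + t • Q ∉ V)
    {f : ℂ → ℙ ℂ (Fin (3 + 1) → ℂ)} (hf : CurveIn V f) {C : ℝ}
    (hb : DerBetween 0 C f) (ha : Annihilates (wj hr ℓ 6) f) : ∀ z w, f z = f w := by
  have hf' : HolIn (fermatForms ℓ (6 + 2)) f := ⟨hf.1, fun z => hVX (hf.2 z)⟩
  obtain ⟨ρ, hρ, hbd⟩ := exists_rho hf' hb
  rcases deg_line hg hbd (by norm_num)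
    (annih_flat (m := 1) (e := 6) hr hg rfl rfl hf' ha ρ hbd) with h1 | ⟨P, Q, hL, h1⟩
  · exact const_of_flat hf.1 hρ h1
  · obtain ⟨s0, t0, h0, hnot⟩ := hline P Q hL
    have hρc : (ρ : ℂ) ≠ 0 := by exact_mod_cast hρ.ne'
    have haff : ∀ z : ℂ, aff 0 ρ (z / ρ) = z := by
      intro z
      unfold aff
      field_simp
      ring
    refine line_const hV (fun x hx => (hVX hx).1) hL.1 h0 hnot hf fun z => ?_
    obtain ⟨i, hi, hrep⟩ := rep_chart (p := f z)
    obtain ⟨s, t, hst⟩ := h1 (z / ρ) i (by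
      rw [haff]
      exact hi)
    have h2 : cu (fun z => Phi (f (aff 0 ρ z)).rep) i (z / ρ) = chart i (Phi (f z).rep) := by
      change chart i (Phi (f (aff 0 ρ (z / ρ))).rep) = _
      rw [haff]
    rw [h2] at hst
    refine ⟨(f z).rep i * s, (f z).rep i * t, ?_⟩
    rw [mul_smul, mul_smul, ← smul_add, ← hst]
    exact hrep

end Pool.Agent.Helper65.GG
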