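import Pool.Graph.R_pool_sql_team_seeded_63374d34.N155.G.Res
import Pool.Agent.Helper65.BF.Inv

/-!
Local curves, invariant jet differentials, and a Schwarz lemma.
-/

set_option autoImplicit false

open Filter Topology Metric MvPolynomial Set

namespace Pool.Agent.Helper65.GG

open Pool.Agent.W602.GT Pool.Agent.N155.BB Pool.Agent.Y190.OP Pool.Agent.N155
  Pool.Agent.Helper65.BF

variable {n : ℕ}

/-- the curves in `T` defined on `U` -/
def CvOn (T : Set (Mat (n + 1))) (U : Set ℂ) (φ : ℂ → Mat (n + 1)) : Prop :=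
  HolP U φ ∧ ∀ w ∈ U, φ w ∈ T

theorem CvOn.mono {T : Set (Mat (n + 1))} {U V : Set ℂ} {φ : ℂ → Mat (n + 1)} (h : CvOn T U φ)
    (hV : V ⊆ U) : CvOn T V φ := ⟨h.1.mono hV, fun w hw => h.2 w (hV hw)⟩

theorem CvOn.comp {T : Set (Mat (n + 1))} {U V : Set ℂ} {φ : ℂ → Mat (n + 1)} (h : CvOn T U φ)
    (hV : IsOpen V) {ψ : ℂ → ℂ} (hψ : DifferentiableOn ℂ ψ V) (hm : MapsTo ψ V U) :
    CvOn T V (fun w => φ (ψ w)) := by
  refine ⟨fun z hz => ?_, fun w hw => h.2 _ (hm hw)⟩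
  obtain ⟨W, F, hW, hzW, hd, hF⟩ := h.1 _ (hm hz)
  refine ⟨V ∩ ψ ⁻¹' W, fun w => F (ψ w), hψ.continuousOn.isOpen_inter_preimage hV hW, ⟨hz, hzW⟩,
    ?_, fun w hw => hF _ hw.2⟩
  exact hd.comp (hψ.mono inter_subset_left) fun w hw => hw.2

/-- an invariant jet differential of weight `k` on `T` -/
structure JI (T : Set (Mat (n + 1))) (k : ℕ) (G : (ℂ → Mat (n + 1)) → ℂ → ℂ) : Prop where
  hol : ∀ (φ : ℂ → Mat (n + 1)) (U : Set ℂ), IsOpen U → CvOn T U φ → DifferentiableOn ℂ (G φ) U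
  comp : ∀ (φ : ℂ → Mat (n + 1)) (U : Set ℂ), IsOpen U → CvOn T U φ → ∀ (V : Set ℂ) (ψ : ℂ → ℂ),
    IsOpen V → DifferentiableOn ℂ ψ V → MapsTo ψ V U → ∀ z ∈ V,
      G (fun w => φ (ψ w)) z = deriv ψ z ^ k * G φ (ψ z)
  bd : ∃ C : ℝ, 0 ≤ C ∧ ∀ (φ : ℂ → Mat (n + 1)) (z : ℂ), CvOn T (ball z 1) φ →
    (∀ w ∈ ball z 1, ‖fderiv ℝ φ w‖ ≤ 2) → ‖G φ z‖ ≤ C * ‖fderiv ℝ φ z‖
  lim : ∀ (𝓤 : Ultrafilter ℕ) (P : ℕ → ℂ → Mat (n + 1)) (H : ℂ → Mat (n + 1)) (r : ℝ), 0 < r →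
    (∀ᶠ m in (𝓤 : Filter ℕ), CvOn T (ball 0 r) (P m)) → CConv (𝓤 : Filter ℕ) (ball 0 r) P H →
    CvOn T (ball 0 r) H → ∀ z ∈ ball (0 : ℂ) r,
      Tendsto (fun m => G (P m) z) 𝓤 (𝓝 (G H z))

variable {T : Set (Mat (n + 1))} {k : ℕ} {G : (ℂ → Mat (n + 1)) → ℂ → ℂ}

/-- a limit of curves on growing discs -/
theorem limit_growing (hT : IsCompact T) (hTP : T ⊆ PM) {h : ℕ → ℂ → Mat (n + 1)}
    (hH : ∀ m : ℕ, CvOn T (ball 0 (m + 1 : ℝ)) (h m))
    (hHd : ∀ m : ℕ, ∀ z ∈ ball (0 : ℂ) ((m + 1 : ℝ) / 2), ‖fderiv ℝ (h m) z‖ ≤ 2) :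
    ∃ H : ℂ → Mat (n + 1), BD T H ∧
      (∀ R : ℝ, 0 < R → CConv ((hyperfilter ℕ : Ultrafilter ℕ) : Filter ℕ) (ball 0 R) h H) ∧
      (∀ R : ℝ, ∀ᶠ m : ℕ in ((hyperfilter ℕ : Ultrafilter ℕ) : Filter ℕ), R ≤ m) ∧
      ∀ z, Tendsto (fun m => fderiv ℝ (h m) z) ((hyperfilter ℕ : Ultrafilter ℕ) : Filter ℕ)
        (𝓝 (fderiv ℝ H z)) := by
  set 𝓤 : Ultrafilter ℕ := hyperfilter ℕ with h𝓤
  have hcof : ∀ R : ℝ, ∀ᶠ n : ℕ in (𝓤 : Filter ℕ), R ≤ n := by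
    intro R
    have h2 : ∀ᶠ n : ℕ in atTop, R ≤ n := by
      filter_upwards [eventually_ge_atTop ⌈R⌉₊] with n hn
      exact (Nat.le_ceil R).trans (by exact_mod_cast hn)
    have h3 : (𝓤 : Filter ℕ) ≤ atTop := by
      rw [← Nat.cofinite_eq_atTop]
      exact hyperfilter_le_cofinite
    exact h3 h2
  have hlim : ∀ z : ℂ, ∃ y ∈ T, Tendsto (fun n => h n z) 𝓤 (𝓝 y) := by
    intro z
    have h1 : (𝓤.map (fun n => h n z) : Filter (Mat (n + 1))) ≤ 𝓟 T := by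
      rw [Ultrafilter.coe_map, le_principal_iff, mem_map]
      filter_upwards [hcof ‖z‖] with n hn
      exact (hH n).2 z (mem_ball_zero_iff.2 (by linarith))
    obtain ⟨y, hy, hy'⟩ := hT.ultrafilter_le_nhds (𝓤.map (fun n => h n z)) h1
    exact ⟨y, hy, hy'⟩
  choose H hHmem hHt using hlim
  have hCC : ∀ R : ℝ, 0 < R → CConv (𝓤 : Filter ℕ) (ball 0 R) h H := by
    intro R hR z hz
    rw [Metric.tendsto_nhds]
    intro ε hε
    have h2 := Metric.tendsto_nhds.1 (hHt z) (ε / 2) (by positivity)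
    have h3 := hcof (2 * R)
    rw [eventually_prod_iff]
    refine ⟨_, h2.and h3, fun w => w ∈ ball (0 : ℂ) R ∧ dist w z < ε / 4, ?_, ?_⟩
    · have h4 : ∀ᶠ w in 𝓝 z, w ∈ ball (0 : ℂ) R := isOpen_ball.mem_nhds hz
      have h5 : ∀ᶠ w in 𝓝 z, dist w z < ε / 4 := ball_mem_nhds z (by positivity)
      exact h4.and h5
    · rintro n ⟨hn1, hn2⟩ w ⟨hw1, hw2⟩
      have h6 : ‖h n w - h n z‖ ≤ 2 * ‖w - z‖ := by
        have hsub : ball (0 : ℂ) R ⊆ ball (0 : ℂ) ((n + 1 : ℝ) / 2) :=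
          ball_subset_ball (by linarith)
        have hsub2 : ball (0 : ℂ) R ⊆ ball (0 : ℂ) (n + 1 : ℝ) :=
          ball_subset_ball (by linarith)
        exact (convex_ball (0 : ℂ) R).norm_image_sub_le_of_norm_fderiv_le
          (fun x hx => (hH n).1.differentiableAt (hsub2 hx))
          (fun x hx => hHd n x (hsub hx)) hz hw1
      calc dist (h n w) (H z) ≤ dist (h n w) (h n z) + dist (h n z) (H z) := dist_triangle _ _ _
        _ < ε / 2 + ε / 2 := by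
            refine add_lt_add ?_ hn1
            rw [dist_eq_norm]
            rw [dist_eq_norm] at hw2
            linarith
        _ = ε := by ring
  have hev : ∀ R : ℝ, 0 < R → ∀ᶠ n in (𝓤 : Filter ℕ), HolP (ball 0 R) (h n) := by
    intro R _
    filter_upwards [hcof R] with n hn
    exact (hH n).1.mono (ball_subset_ball (by linarith))
  have hl := fun (R : ℝ) (hR : 0 < R) => holP_limit isOpen_ball (hCC R hR)
    (hev R hR) (fun z _ => hTP (hHmem z))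
  have hHol : HolP univ H := by
    intro z _
    exact (hl (‖z‖ + 1) (by positivity)).1 z (mem_ball_zero_iff.2 (by linarith))
  have htd : ∀ z, Tendsto (fun n => fderiv ℝ (h n) z) 𝓤 (𝓝 (fderiv ℝ H z)) := fun z =>
    (hl (‖z‖ + 1) (by positivity)).2 z (mem_ball_zero_iff.2 (by linarith))
  refine ⟨H, ⟨hHol, hHmem, fun z => ?_⟩, hCC, hcof, htd⟩
  refine le_of_tendsto (htd z).norm ?_
  filter_upwards [hcof (2 * ‖z‖)] with n hn
  exact hHd n z (mem_ball_zero_iff.2 (by linarith))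

/-- Brody's reparametrization, with the parametrization -/
theorem rescale' {Ψ : ℂ → Mat (n + 1)} {M : ℝ} (hM : 0 < M)
    (hΨ : CvOn T (ball 0 1) Ψ) (hbig : 2 * M < ‖fderiv ℝ Ψ 0‖) :
    ∃ (a : ℂ) (ρ : ℝ), 0 < ρ ∧ ρ ≤ 1 / M ∧ MapsTo (aff a ρ) (ball 0 M) (ball 0 1) ∧
      (∀ z ∈ ball (0 : ℂ) (M / 2), ‖fderiv ℝ (fun z => Ψ (aff a ρ z)) z‖ ≤ 2) ∧
      ‖fderiv ℝ (fun z => Ψ (aff a ρ z)) 0‖ = 1 := by
  set g : ℂ → Mat (n + 1) := fun z => Ψ (aff 0 (1 / 2) z) with hg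
  have hsub : ball (0 : ℂ) 2 ⊆ aff 0 (1 / 2) ⁻¹' ball (0 : ℂ) 1 := by
    intro z hz
    rw [mem_preimage, mem_ball_zero_iff]
    rw [mem_ball_zero_iff] at hz
    unfold aff
    rw [zero_add, norm_mul, Complex.norm_real, Real.norm_of_nonneg (by norm_num)]
    linarith
  have hgH : HolP (ball 0 2) g := (hΨ.1.aff 0 (1 / 2)).mono hsub
  have hg0 : ‖fderiv ℝ g 0‖ = 1 / 2 * ‖fderiv ℝ Ψ 0‖ := by
    have h1 : aff 0 (1 / 2) 0 = 0 := by simp [aff]
    have h2 := norm_fderiv_aff (Ψ := Ψ) (a := 0) (ρ := 1 / 2) (by norm_num) (z := 0) (by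
      rw [h1]; exact hΨ.1.differentiableAt (mem_ball_self one_pos))
    rw [h1] at h2
    exact h2
  have h12 : closedBall (0 : ℂ) 1 ⊆ ball 0 2 := closedBall_subset_ball (by norm_num)
  have hcont : ContinuousOn (fun z => (1 - ‖z‖) * ‖fderiv ℝ g z‖) (closedBall (0 : ℂ) 1) := by
    intro z hz
    apply ContinuousAt.continuousWithinAt
    exact (continuousAt_const.sub continuousAt_id.norm).mul
      (hgH.continuousAt_fderiv (h12 hz)).norm
  obtain ⟨z0, hz0, hmax⟩ := (isCompact_closedBall (0 : ℂ) 1).exists_isMaxOn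
    ⟨0, mem_closedBall_self zero_le_one⟩ hcont
  have hmax' : ∀ z ∈ closedBall (0 : ℂ) 1, (1 - ‖z‖) * ‖fderiv ℝ g z‖ ≤
      (1 - ‖z0‖) * ‖fderiv ℝ g z0‖ := fun z hz => hmax hz
  set D := ‖fderiv ℝ g z0‖ with hD
  have h0 : M < (1 - ‖z0‖) * D := by
    have := hmax' 0 (mem_closedBall_self zero_le_one)
    rw [norm_zero, sub_zero, one_mul, hg0] at this
    linarith
  have hz0n : ‖z0‖ ≤ 1 := mem_closedBall_zero_iff.1 hz0
  have hDnn : 0 ≤ D := norm_nonneg _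
  have hz0lt : 0 < 1 - ‖z0‖ := by
    by_contra hcon
    push Not at hcon
    have := mul_nonpos_of_nonpos_of_nonneg hcon hDnn
    linarith
  have hDM : M < D := by
    have h1 : (1 - ‖z0‖) * D ≤ 1 * D := mul_le_mul_of_nonneg_right (by
      have := norm_nonneg z0
      linarith) hDnn
    linarith
  have hDpos : 0 < D := hM.trans hDM
  set ρ := 1 / D with hρ
  have hρpos : 0 < ρ := by positivity
  have hρD : ρ * D = 1 := by rw [hρ]; field_simp
  have hρM : ρ * M < 1 - ‖z0‖ := by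
    have := mul_lt_mul_of_pos_left h0 hρpos
    calc ρ * M < ρ * ((1 - ‖z0‖) * D) := this
      _ = (1 - ‖z0‖) * (ρ * D) := by ring
      _ = 1 - ‖z0‖ := by rw [hρD, mul_one]
  have hnorm : ∀ z : ℂ, ‖aff z0 ρ z‖ ≤ ‖z0‖ + ρ * ‖z‖ := by
    intro z
    unfold aff
    refine (norm_add_le _ _).trans ?_
    rw [norm_mul, Complex.norm_real, Real.norm_of_nonneg hρpos.le]
  have hball : ball (0 : ℂ) M ⊆ aff z0 ρ ⁻¹' ball (0 : ℂ) 2 := by
    intro z hz
    rw [mem_ball_zero_iff] at hz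
    rw [mem_preimage, mem_ball_zero_iff]
    have := hnorm z
    have h1 : ρ * ‖z‖ < ρ * M := mul_lt_mul_of_pos_left hz hρpos
    linarith
  have hderiv : ∀ z ∈ ball (0 : ℂ) M, ‖fderiv ℝ (fun z => g (aff z0 ρ z)) z‖ =
      ρ * ‖fderiv ℝ g (aff z0 ρ z)‖ := fun z hz =>
    norm_fderiv_aff hρpos.le (hgH.differentiableAt (hball hz))
  have heq : (fun z => g (aff z0 ρ z)) = fun z => Ψ (aff (z0 / 2) (ρ / 2) z) := by
    funext z
    have h1 : aff 0 (1 / 2) (aff z0 ρ z) = aff (z0 / 2) (ρ / 2) z := by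
      unfold aff
      push_cast
      ring
    show Ψ (aff 0 (1 / 2) (aff z0 ρ z)) = Ψ (aff (z0 / 2) (ρ / 2) z)
    rw [h1]
  rw [heq] at hderiv
  refine ⟨z0 / 2, ρ / 2, by positivity, ?_, ?_, fun z hz => ?_, ?_⟩
  · have h1 : ρ ≤ 1 / M := one_div_le_one_div_of_le hM hDM.le
    linarith
  · intro z hz
    have h1 : aff (z0 / 2) (ρ / 2) z = aff 0 (1 / 2) (aff z0 ρ z) := by
      unfold aff
      push_cast
      ring
    rw [h1]
    exact hsub (hball hz)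
  · have hz' : ‖z‖ < M / 2 := mem_ball_zero_iff.1 hz
    rw [hderiv z (ball_subset_ball (by linarith) hz)]
    have h1 := hnorm z
    have h2 : ρ * ‖z‖ < ρ * (M / 2) := mul_lt_mul_of_pos_left hz' hρpos
    have h3 : (1 - ‖z0‖) / 2 ≤ 1 - ‖aff z0 ρ z‖ := by linarith
    have h4 := hmax' (aff z0 ρ z) (mem_closedBall_zero_iff.2 (by linarith))
    have h5 : (1 - ‖z0‖) / 2 * ‖fderiv ℝ g (aff z0 ρ z)‖ ≤ (1 - ‖z0‖) * D :=
      (mul_le_mul_of_nonneg_right h3 (norm_nonneg _)).trans h4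
    have h6 : ‖fderiv ℝ g (aff z0 ρ z)‖ ≤ 2 * D := by
      by_contra hcon
      push Not at hcon
      have := mul_lt_mul_of_pos_left hcon (half_pos hz0lt)
      linarith
    calc ρ * ‖fderiv ℝ g (aff z0 ρ z)‖ ≤ ρ * (2 * D) := mul_le_mul_of_nonneg_left h6 hρpos.le
      _ = 2 * (ρ * D) := by ring
      _ = 2 := by rw [hρD, mul_one]
  · rw [hderiv 0 (mem_ball_self hM)]
    have : aff z0 ρ 0 = z0 := by simp [aff]
    rw [this]
    exact hρD

theorem deriv_aff (a : ℂ) (ρ : ℝ) (z : ℂ) : deriv (aff a ρ) z = ρ := by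
  have h1 : HasDerivAt (aff a ρ) ((ρ : ℂ) * 1) z := by
    have := ((hasDerivAt_id z).const_mul (ρ : ℂ)).const_add a
    exact this
  rw [h1.deriv, mul_one]

/-- no degenerate curves -/
def ND (T : Set (Mat (n + 1))) (G : (ℂ → Mat (n + 1)) → ℂ → ℂ) : Prop :=
  ∀ φ, BD T φ → (∀ z, G φ z = 0) → ∀ z, fderiv ℝ φ z = 0

/-- **A Schwarz lemma** on the unit disc. -/
theorem schwarz_one (hJ : JI T k G) (hk : 0 < k) (hT : IsCompact T) (hTP : T ⊆ PM)
    (hnd : ND T G) : ∃ C0 : ℝ, 1 ≤ C0 ∧ ∀ φ : ℂ → Mat (n + 1), CvOn T (ball 0 1) φ →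
      (∀ w ∈ ball (0 : ℂ) 1, ‖G φ w‖ ≤ 1) → ‖fderiv ℝ φ 0‖ ≤ C0 := by
  by_contra hcon
  push Not at hcon
  have h1 : ∀ m : ℕ, ∃ φ : ℂ → Mat (n + 1), CvOn T (ball 0 1) φ ∧
      (∀ w ∈ ball (0 : ℂ) 1, ‖G φ w‖ ≤ 1) ∧ 2 * ((m : ℝ) + 1) < ‖fderiv ℝ φ 0‖ := by
    intro m
    obtain ⟨φ, h1, h2, h3⟩ := hcon (2 * ((m : ℝ) + 1)) (by
      have : (0 : ℝ) ≤ m := Nat.cast_nonneg m
      linarith)
    exact ⟨φ, h1, h2, h3⟩
  choose φ hφ hφG hφd using h1
  have h2 := fun m : ℕ => rescale' (M := (m : ℝ) + 1) (by positivity) (hφ m) (hφd m)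
  choose a ρ hρ hρM hmaps hd2 hd0 using h2
  set h : ℕ → ℂ → Mat (n + 1) := fun m z => φ m (aff (a m) (ρ m) z) with hh
  have hH : ∀ m : ℕ, CvOn T (ball 0 (m + 1 : ℝ)) (h m) := fun m =>
    (hφ m).comp isOpen_ball (aff_diff _ _).differentiableOn (hmaps m)
  obtain ⟨H, hHB, hCC, hcof, htd⟩ := limit_growing hT hTP hH hd2
  have hG0 : ∀ z, G H z = 0 := by
    intro z
    set R : ℝ := ‖z‖ + 1 with hR
    have hRp : 0 < R := by positivity
    have hzR : z ∈ ball (0 : ℂ) R := mem_ball_zero_iff.2 (by linarith)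
    have h3 := hJ.lim (hyperfilter ℕ) h H R hRp (by
      filter_upwards [hcof R] with m hm
      exact (hH m).mono (ball_subset_ball (by linarith))) (hCC R hRp)
      ⟨hHB.hol.mono (subset_univ _), fun w _ => hHB.mem w⟩ z hzR
    have h4 : Tendsto (fun m => G (h m) z) ((hyperfilter ℕ : Ultrafilter ℕ) : Filter ℕ) (𝓝 0) := by
      rw [tendsto_zero_iff_norm_tendsto_zero]
      have h5 : ∀ᶠ m : ℕ in ((hyperfilter ℕ : Ultrafilter ℕ) : Filter ℕ),
          ‖G (h m) z‖ ≤ 1 / ((m : ℝ) + 1) := by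
        filter_upwards [hcof R] with m hm
        have hzm : z ∈ ball (0 : ℂ) ((m : ℝ) + 1) := ball_subset_ball (by linarith) hzR
        have h6 := hJ.comp (φ m) (ball 0 1) isOpen_ball (hφ m) (ball 0 ((m : ℝ) + 1)) (aff (a m) (ρ m))
          isOpen_ball (aff_diff _ _).differentiableOn (hmaps m) z hzm
        have h7 : G (h m) z = deriv (aff (a m) (ρ m)) z ^ k * G (φ m) (aff (a m) (ρ m) z) := h6
        rw [h7, deriv_aff, norm_mul, norm_pow, Complex.norm_real, Real.norm_of_nonneg (hρ m).le]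
        have h8 : ρ m ^ k ≤ 1 / ((m : ℝ) + 1) := by
          have h9 : (1 : ℝ) / ((m : ℝ) + 1) ≤ 1 := by
            rw [div_le_one (by positivity)]
            have : (0 : ℝ) ≤ m := Nat.cast_nonneg m
            linarith
          calc ρ m ^ k ≤ (1 / ((m : ℝ) + 1)) ^ k := pow_le_pow_left₀ (hρ m).le (hρM m) k
            _ ≤ (1 / ((m : ℝ) + 1)) ^ 1 := pow_le_pow_of_le_one (by positivity) h9 hk
            _ = _ := pow_one _
        calc ρ m ^ k * ‖G (φ m) (aff (a m) (ρ m) z)‖ ≤ ρ m ^ k * 1 :=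
              mul_le_mul_of_nonneg_left (hφG m _ (hmaps m hzm)) (pow_nonneg (hρ m).le k)
          _ ≤ _ := by rw [mul_one]; exact h8
      have hle : ((hyperfilter ℕ : Ultrafilter ℕ) : Filter ℕ) ≤ atTop := by
        rw [← Nat.cofinite_eq_atTop]
        exact hyperfilter_le_cofinite
      have h6 : Tendsto (fun m : ℕ => 1 / ((m : ℝ) + 1))
          ((hyperfilter ℕ : Ultrafilter ℕ) : Filter ℕ) (𝓝 0) :=
        tendsto_one_div_add_atTop_nhds_zero_nat.mono_left hle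
      exact squeeze_zero' (Eventually.of_forall fun m => norm_nonneg _) h5 h6
    exact tendsto_nhds_unique h3 h4
  have h5 := hnd H hHB hG0 0
  have h6 := (htd 0).norm
  rw [h5, norm_zero] at h6
  have h7 : (fun m => ‖fderiv ℝ (h m) 0‖) = fun _ => (1 : ℝ) := funext fun m => hd0 m
  rw [h7] at h6
  exact zero_ne_one (tendsto_nhds_unique h6 tendsto_const_nhds)

/-- **A Schwarz lemma.** -/
theorem schwarz (hJ : JI T k G) (hk : 0 < k) (hT : IsCompact T) (hTP : T ⊆ PM)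
    (hnd : ND T G) : ∃ C0 : ℝ, 1 ≤ C0 ∧ ∀ (φ : ℂ → Mat (n + 1)) (z : ℂ) (s : ℝ), 0 < s →
      CvOn T (ball z s) φ → (∀ w ∈ ball z s, s ^ k * ‖G φ w‖ ≤ 1) → ‖fderiv ℝ φ z‖ ≤ C0 / s := by
  obtain ⟨C0, hC0, h⟩ := schwarz_one hJ hk hT hTP hnd
  refine ⟨C0, hC0, fun φ z s hs hφ hG => ?_⟩
  have hmaps : MapsTo (aff z s) (ball 0 1) (ball z s) := by
    intro w hw
    rw [mem_ball_zero_iff] at hw
    rw [mem_ball, dist_eq_norm]
    unfold aff
    rw [add_sub_cancel_left, norm_mul, Complex.norm_real, Real.norm_of_nonneg hs.le]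
    nlinarith
  have h1 := h (fun w => φ (aff z s w)) (hφ.comp isOpen_ball (aff_diff _ _).differentiableOn hmaps)
    (fun w hw => by
      rw [hJ.comp φ (ball z s) isOpen_ball hφ (ball 0 1) (aff z s) isOpen_ball
        (aff_diff _ _).differentiableOn hmaps w hw, deriv_aff, norm_mul, norm_pow,
        Complex.norm_real, Real.norm_of_nonneg hs.le]
      exact hG _ (hmaps hw))
  have h0 : aff z s 0 = z := by simp [aff]
  have h2 := norm_fderiv_aff (Ψ := φ) (a := z) (ρ := s) hs.le (z := 0) (by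
    rw [h0]
    exact hφ.1.differentiableAt (mem_ball_self hs))
  rw [h0] at h2
  rw [h2] at h1
  rw [le_div_iff₀ hs]
  linarith

/-- **Two-sided bounds.** -/
theorem two_sided (hJ : JI T k G) (hk : 0 < k) (hT : IsCompact T) (hTP : T ⊆ PM)
    (hnd : ND T G) : ∃ c1 C1 : ℝ, 0 < c1 ∧ 0 < C1 ∧ ∀ (φ : ℂ → Mat (n + 1)) (z : ℂ),
      CvOn T (ball z 2) φ → (∀ w ∈ ball z 2, 1 / 2 ≤ ‖G φ w‖ ∧ ‖G φ w‖ ≤ 2) →
        c1 ≤ ‖fderiv ℝ φ z‖ ∧ ‖fderiv ℝ φ z‖ ≤ C1 := by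
  obtain ⟨C0, hC0, h⟩ := schwarz hJ hk hT hTP hnd
  obtain ⟨C, hC, hbd⟩ := hJ.bd
  have hC0p : 0 < C0 := by linarith
  refine ⟨1 / (2 * (C + 1) * C0 ^ k), 2 * C0, by positivity, by positivity, fun φ z hφ hG => ?_⟩
  have hup : ∀ w ∈ ball z 1, ‖fderiv ℝ φ w‖ ≤ 2 * C0 := by
    intro w hw
    have hsub : ball w (1 / 2) ⊆ ball z 2 := by
      intro v hv
      rw [mem_ball] at hw hv ⊢
      have := dist_triangle v w z
      linarith
    have h1 := h φ w (1 / 2) (by norm_num) (hφ.mono hsub) (fun v hv => by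
      have h2 := (hG v (hsub hv)).2
      have h3 : ((1 : ℝ) / 2) ^ k ≤ 1 / 2 := by
        calc ((1 : ℝ) / 2) ^ k ≤ (1 / 2) ^ 1 := pow_le_pow_of_le_one (by norm_num) (by norm_num) hk
          _ = _ := pow_one _
      have h4 := norm_nonneg (G φ v)
      have h5 : (0 : ℝ) ≤ (1 / 2) ^ k := by positivity
      nlinarith)
    linarith
  refine ⟨?_, hup z (mem_ball_self one_pos)⟩
  -- rescale
  set r : ℝ := 1 / C0 with hr
  have hrp : 0 < r := by positivity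
  have hr1 : r ≤ 1 := by
    rw [hr, div_le_one hC0p]
    exact hC0
  have hmaps : MapsTo (aff z r) (ball 0 1) (ball z 1) := by
    intro w hw
    rw [mem_ball_zero_iff] at hw
    rw [mem_ball, dist_eq_norm]
    unfold aff
    rw [add_sub_cancel_left, norm_mul, Complex.norm_real, Real.norm_of_nonneg hrp.le]
    have := norm_nonneg w
    nlinarith
  have hz2 : ball z 1 ⊆ ball z 2 := ball_subset_ball (by norm_num)
  have hφ1 := (hφ.mono hz2).comp isOpen_ball (aff_diff z r).differentiableOn hmaps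
  have hnorm : ∀ w ∈ ball (0 : ℂ) 1, ‖fderiv ℝ (fun w => φ (aff z r w)) w‖ =
      r * ‖fderiv ℝ φ (aff z r w)‖ := fun w hw =>
    norm_fderiv_aff (Ψ := φ) hrp.le (hφ.1.differentiableAt (hz2 (hmaps hw)))
  have h1 := hbd (fun w => φ (aff z r w)) 0 hφ1 (fun w hw => by
    rw [hnorm w hw]
    have h2 := hup _ (hmaps hw)
    calc r * ‖fderiv ℝ φ (aff z r w)‖ ≤ r * (2 * C0) := mul_le_mul_of_nonneg_left h2 hrp.le
      _ = 2 := by rw [hr]; field_simp)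
  have h0 : aff z r 0 = z := by simp [aff]
  rw [hnorm 0 (mem_ball_self one_pos), hJ.comp φ (ball z 1) isOpen_ball (hφ.mono hz2) (ball 0 1)
    (aff z r) isOpen_ball (aff_diff _ _).differentiableOn hmaps 0 (mem_ball_self one_pos),
    deriv_aff, norm_mul, norm_pow, Complex.norm_real, Real.norm_of_nonneg hrp.le, h0] at h1
  have h2 := (hG z (mem_ball_self two_pos)).1
  have h3 : r ^ k * (1 / 2) ≤ C * (r * ‖fderiv ℝ φ z‖) :=
    (mul_le_mul_of_nonneg_left h2 (by positivity)).trans h1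
  have h4 := norm_nonneg (fderiv ℝ φ z)
  have h5 : r ^ k = 1 / C0 ^ k := by
    rw [hr, div_pow, one_pow]
  rw [h5] at h3
  rw [div_le_iff₀ (by positivity)]
  have h6 : C * (r * ‖fderiv ℝ φ z‖) ≤ (C + 1) * ‖fderiv ℝ φ z‖ := by
    have h7 : r * ‖fderiv ℝ φ z‖ ≤ ‖fderiv ℝ φ z‖ := by nlinarith
    nlinarith
  have h8 : 1 / C0 ^ k * (1 / 2) * (2 * C0 ^ k) = 1 := by field_simp
  have h9 : 0 < C0 ^ k := by positivity
  have h10 := mul_le_mul_of_nonneg_right (h3.trans h6) (show 0 ≤ 2 * C0 ^ k by positivity)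
  rw [h8] at h10
  linarith

end Pool.Agent.Helper65.GG
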