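import Pool.Agent.Helper65.GG.Sec

/-!
The image of a doubly periodic curve is an algebraic subset of projective space.
-/

set_option autoImplicit false

open Filter Topology Metric MvPolynomial Set

namespace Pool.Agent.Helper65.GG

open Pool.Agent.W602.GT Pool.Agent.N155.BB Pool.Agent.Y190.OP Pool.Agent.N155
  Pool.Agent.N155.GD Pool.Agent.Helper65.BF

variable {n : ℕ} {φ : ℂ → Mat (n + 1)} {p q : ℂ} {m : ℕ}

/-- the linear form with the coefficients `a` -/
def la (a x : Fin (n + 1) → ℂ) : ℂ := ∑ i, a i * x i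

theorem la_smul (a x : Fin (n + 1) → ℂ) (c : ℂ) : la a (c • x) = c * la a x := by
  unfold la
  rw [Finset.mul_sum]
  refine Finset.sum_congr rfl fun i _ => ?_
  rw [Pi.smul_apply, smul_eq_mul]
  ring

theorem la_an {a : Fin (n + 1) → ℂ} {F : ℂ → Fin (n + 1) → ℂ} {z : ℂ} (hF : AnalyticAt ℂ F z) :
    AnalyticAt ℂ (fun w => la a (F w)) z := by
  unfold la
  exact Finset.analyticAt_fun_sum _ fun i _ => analyticAt_const.mul ((analyticAt_pi_iff.1 hF) i)

theorem mul_mem' {a : Fin (n + 1) → ℂ} {s : ℂ → (Fin (n + 1) → ℂ) → ℂ} (hs : s ∈ Sec φ p q m) :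
    (fun z x => la a x * s z x) ∈ Sec φ p q (m + 1) := by
  obtain ⟨h1, h2, h3, h4, h5⟩ := hs
  refine ⟨fun z x hx => ?_, fun z x c hc => ?_, fun z F hF hev => ?_, fun z x => ?_,
    fun z x => ?_⟩
  · dsimp only
    rw [h1 z x hx, mul_zero]
  · dsimp only
    rw [h2 z x c hc, la_smul]
    ring
  · exact (la_an hF).mul (h3 z F hF hev)
  · dsimp only
    rw [h4]
  · dsimp only
    rw [h5]

/-- multiplication by a linear form -/
def mu (φ : ℂ → Mat (n + 1)) (p q : ℂ) (m : ℕ) (a : Fin (n + 1) → ℂ) :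
    Sec φ p q m →ₗ[ℂ] Sec φ p q (m + 1) where
  toFun s := ⟨fun z x => la a x * s.1 z x, mul_mem' s.2⟩
  map_add' s t := by
    apply Subtype.ext
    funext z x
    exact mul_add _ _ _
  map_smul' c s := by
    apply Subtype.ext
    funext z x
    change la a x * (c * s.1 z x) = c * (la a x * s.1 z x)
    ring

theorem mu_apply (a : Fin (n + 1) → ℂ) (s : Sec φ p q m) (z : ℂ) (x : Fin (n + 1) → ℂ) :
    (mu φ p q m a s).1 z x = la a x * s.1 z x := rfl

open Classical in
/-- the power of a linear form is a section -/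
theorem pw_mem (hp : ∀ z, φ (z + p) = φ z) (hq : ∀ z, φ (z + q) = φ z) (a : Fin (n + 1) → ℂ)
    (m : ℕ) : (fun z x => if OnL (φ z) x then la a x ^ m else 0) ∈ Sec φ p q m := by
  refine ⟨fun z x hx => if_neg hx, fun z x c hc => ?_, fun z F hF hev => ?_, fun z x => ?_,
    fun z x => ?_⟩
  · dsimp only
    by_cases hx : OnL (φ z) x
    · rw [if_pos hx, if_pos (hx.smul hc), la_smul, mul_pow]
    · rw [if_neg hx, if_neg (fun h => hx ((onL_smul_iff hc).1 h)), mul_zero]
  · refine AnalyticAt.congr ((la_an (a := a) hF).pow m) ?_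
    filter_upwards [hev] with w hw
    rw [if_pos hw]
    rfl
  · dsimp only
    rw [hp]
  · dsimp only
    rw [hq]

/-- **The dimensions of the spaces of sections.** -/
theorem sec_fin (hφ : HolP univ φ) (hb : ∀ z, ‖fderiv ℝ φ z‖ ≤ 2)
    (hind : LinearIndependent ℝ ![p, q]) : ∃ c : ℕ, ∀ m,
      FiniteDimensional ℂ (Sec φ p q m) ∧ Module.finrank ℂ (Sec φ p q m) ≤ c * (m + 1) := by
  obtain ⟨A, hA, hmx⟩ := Nn_max n
  set R0 : ℝ := ‖p‖ + ‖q‖ with hR0
  have hp0 : p ≠ 0 := by
    have := hind.ne_zero 0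
    simpa using this
  have hR0p : 0 < R0 := by
    have h1 := norm_pos_iff.2 hp0
    positivity
  set κ : ℝ := 4 * R0 ^ 2 * (4 * A + 1) with hκ
  have hκ0 : 0 < κ := by positivity
  set c0 : ℕ := ⌈κ⌉₊ + 1 with hc0
  have hcκ : κ < c0 := by
    have := Nat.le_ceil κ
    rw [hc0]
    push_cast
    linarith
  refine ⟨c0 + 1, fun m => ?_⟩
  set M : ℕ := c0 * (m + 1) with hM
  have hM0 : M ≠ 0 := by positivity
  set C : ℝ := m * (A * 4) + 1 with hC
  have hC0 : 0 ≤ C := by positivity
  have hbig : 4 * C * R0 ^ 2 < M := by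
    rw [hM, hC]
    push_cast
    have h1 : κ * (m + 1) < c0 * (m + 1) := mul_lt_mul_of_pos_right hcκ (by positivity)
    refine lt_of_le_of_lt ?_ h1
    rw [hκ]
    have h2 : 0 ≤ R0 ^ 2 * A := by positivity
    have h3 : 0 ≤ R0 ^ 2 * (m : ℝ) := by positivity
    nlinarith
  obtain ⟨F, hF, hev⟩ := exists_local hφ 0
  have hev' : ∀ᶠ w in 𝓝 (0 : ℂ), OnL (φ w) (F w) := hev.mono fun w hw => hw.1
  set J : Sec φ p q m →ₗ[ℂ] (Fin (M + 1) → ℂ) :=
    { toFun := fun s l => iteratedDeriv l (fun w => s.1 w (F w)) 0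
      map_add' := fun s t => by
        funext l
        exact iteratedDeriv_fun_add (s.2.2.2.1 0 F hF hev').contDiffAt
          (t.2.2.2.1 0 F hF hev').contDiffAt
      map_smul' := fun a s => by
        funext l
        exact iteratedDeriv_const_mul_field a (fun w => s.1 w (F w)) } with hJ
  have hinj : Function.Injective J := by
    rw [← LinearMap.ker_eq_bot, LinearMap.ker_eq_bot']
    intro s hs
    have hsa : AnalyticAt ℂ (fun w => s.1 w (F w)) 0 := s.2.2.2.1 0 F hF hev'
    have hord : ((M + 1 : ℕ) : ℕ∞) ≤ analyticOrderAt (fun w => s.1 w (F w)) 0 := by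
      rw [natCast_le_analyticOrderAt_iff_iteratedDeriv_eq_zero hsa]
      intro i hi
      exact congrFun hs ⟨i, hi⟩
    rw [natCast_le_analyticOrderAt hsa] at hord
    obtain ⟨h, hh, hev2⟩ := hord
    have hNc := Nn_cont hφ s.2
    obtain ⟨zM, hzM, hmaxM⟩ := (isCompact_closedBall (0 : ℂ) R0).exists_isMaxOn
      ⟨0, mem_closedBall_self hR0p.le⟩ hNc.continuousOn
    have hper1 : ∀ z, s.1 (z + p) = s.1 z := fun z => funext fun x => s.2.2.2.2.1 z x
    have hper2 : ∀ z, s.1 (z + q) = s.1 z := fun z => funext fun x => s.2.2.2.2.2 z x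
    have hN0 : ∀ z, Nn φ m s.1 z = 0 := by
      have hON : ∀ z, ∃ x, OnL (φ z) x := fun z => by
        obtain ⟨F', -, h1⟩ := exists_local hφ z
        exact ⟨_, h1.self_of_nhds.1⟩
      by_cases hzero : ∀ z x, s.1 z x = 0
      · intro z
        obtain ⟨x, hx⟩ := hON z
        rw [Nn_eq s.2 hx, hzero, norm_zero, zero_pow two_ne_zero, zero_div]
      have hle : ∀ z, Nn φ m s.1 z ≤ Nn φ m s.1 zM := by
        intro z
        -- a nonzero section determines the line up to the periods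
        obtain ⟨w, hw, hwz⟩ := fund (g := fun z => s.1 z) hind hper1 hper2 z
        have hwz' : s.1 w = s.1 z := hwz
        by_cases h0 : Nn φ m s.1 z = 0
        · rw [h0]
          exact Nn_nonneg _ _
        obtain ⟨x, hx⟩ := hON z
        have hsx : s.1 z x ≠ 0 := by
          intro h1
          apply h0
          rw [Nn_eq s.2 hx, h1, norm_zero, zero_pow two_ne_zero, zero_div]
        have hxw : OnL (φ w) x := by
          by_contra h1
          exact hsx (by rw [← hwz']; exact s.2.1 w x h1)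
        have h1 : Nn φ m s.1 z = Nn φ m s.1 w := by
          rw [Nn_eq s.2 hx, Nn_eq s.2 hxw, hwz']
        rw [h1]
        exact hmaxM (mem_closedBall_zero_iff.2 hw)
      exact zero_est (N' := fun z => ‖h z‖ ^ 2 / (∑ k, ‖F z k‖ ^ 2) ^ m) hNc
        (fun z => Nn_nonneg _ _) hR0p hC0 (mem_closedBall_zero_iff.1 hzM) hle
        (fun p0 h C' hmax => hmx φ p q m s.1 hφ s.2 p0 h C C' (by
          have h5 := pow_le_pow_left₀ (norm_nonneg _) (hb p0) 2
          have h6 : (m : ℝ) * (A * ‖fderiv ℝ φ p0‖ ^ 2) ≤ (m : ℝ) * (A * 4) := by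
            apply mul_le_mul_of_nonneg_left _ (Nat.cast_nonneg _)
            apply mul_le_mul_of_nonneg_left _ hA.le
            linarith
          rw [hC]
          linarith) hmax) hM0 (by
          have h2 : ContinuousAt (fun w => (∑ k, ‖F w k‖ ^ 2) ^ m) 0 := by
            refine ContinuousAt.pow ?_ _
            exact tendsto_finsetSum _ fun k _ =>
              (((analyticAt_pi_iff.1 hF) k).continuousAt.norm).pow 2
          exact (hh.continuousAt.norm.pow 2).div h2
            (pow_ne_zero _ (BB.sum_pos hev.self_of_nhds.1.1).ne')) (by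
          filter_upwards [hev2, hev'] with w hw hwL
          rw [Nn_eq s.2 hwL, hw, sub_zero, smul_eq_mul, norm_mul, norm_pow]
          ring) hbig
    apply Subtype.ext
    funext z x
    by_cases hx : OnL (φ z) x
    · have h1 := hN0 z
      rw [Nn_eq s.2 hx, div_eq_zero_iff] at h1
      rcases h1 with h1 | h1
      · exact norm_eq_zero.1 ((pow_eq_zero_iff two_ne_zero).1 h1)
      · exact absurd h1 (pow_ne_zero _ (BB.sum_pos hx.1).ne')
    · exact s.2.1 z x hx
  have hfd : FiniteDimensional ℂ (Sec φ p q m) := FiniteDimensional.of_injective J hinj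
  refine ⟨hfd, ?_⟩
  have h1 := LinearMap.finrank_le_finrank_of_injective hinj
  rw [Module.finrank_fintype_fun_eq_card, Fintype.card_fin] at h1
  refine h1.trans ?_
  rw [hM]
  nlinarith

/-- convex sequences of linear growth -/
theorem exists_flat {h : ℕ → ℕ} {c : ℕ} (hc : ∀ m, h m ≤ c * (m + 1)) :
    ∃ m, h (m + 2) + h m ≤ 2 * h (m + 1) := by
  by_contra hcon
  push Not at hcon
  have h1 : ∀ m, (h 1 : ℤ) - h 0 + m ≤ h (m + 1) - h m := by
    intro m
    induction m with
    | zero => simp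
    | succ m ih =>
      have h3 := hcon m
      have h4 : h (m + 1 + 1) = h (m + 2) := rfl
      rw [h4]
      push_cast
      omega
  have h2 : ∀ m : ℕ, (m : ℤ) * ((h 1 : ℤ) - h 0) + m * (m - 1) / 2 ≤ h m - h 0 := by
    intro m
    induction m with
    | zero => simp
    | succ m ih =>
      have h3 := h1 m
      push_cast
      have h4 : ((m : ℤ) + 1) * (m + 1 - 1) / 2 = m * (m - 1) / 2 + m := by
        have h5 : ((m : ℤ) + 1) * (m + 1 - 1) = m * (m - 1) + m * 2 := by ring
        rw [h5, Int.add_mul_ediv_right _ _ two_ne_zero]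
      rw [h4]
      have h5 : ((m : ℤ) + 1) * ((h 1 : ℤ) - h 0) = m * ((h 1 : ℤ) - h 0) + ((h 1 : ℤ) - h 0) := by
        ring
      rw [h5]
      linarith
  set K : ℕ := c + h 0 + 1 with hK
  have h3 := h2 (4 * K + 1)
  have h4 := hc (4 * K + 1)
  have h5 : ((4 * K + 1 : ℕ) : ℤ) * ((4 * K + 1 : ℕ) - 1) / 2 = (4 * K + 1) * (2 * K) := by
    push_cast
    have h6 : (4 * (K : ℤ) + 1) * (4 * K + 1 - 1) = (4 * K + 1) * (2 * K) * 2 := by ring
    rw [h6, Int.mul_ediv_cancel _ two_ne_zero]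
  rw [h5] at h3
  have h6 : (h (4 * K + 1) : ℤ) ≤ c * (4 * K + 1 + 1) := by exact_mod_cast h4
  have h7 : (0 : ℤ) ≤ h 1 := Int.natCast_nonneg _
  have h8 : (0 : ℤ) ≤ h 0 := Int.natCast_nonneg _
  have hKc : (K : ℤ) = c + h 0 + 1 := by
    rw [hK]
    push_cast
    ring
  have hc0 : (0 : ℤ) ≤ c := Int.natCast_nonneg _
  push_cast at h3
  have h9 : (4 * (K : ℤ) + 1) * ((h 1 : ℤ) - h 0) ≥ -((4 * (K : ℤ) + 1) * h 0) := by
    have h10 : (0 : ℤ) ≤ (4 * (K : ℤ) + 1) * h 1 := by positivity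
    linarith
  have h10 : (4 * (K : ℤ) + 1) * (2 * K) ≤ (4 * (K : ℤ) + 1) * h 0 + c * (4 * K + 2) := by
    have h11 : (c : ℤ) * (4 * K + 1 + 1) = c * (4 * K + 2) := by ring
    linarith
  nlinarith

end Pool.Agent.Helper65.GG
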