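import Pool.Agent.Helper65.GG.Chow

/-!
The image of a doubly periodic curve is an algebraic subset of projective space.
-/

set_option autoImplicit false

open Filter Topology Metric MvPolynomial Set

namespace Pool.Agent.Helper65.GG

open Pool.Agent.W602.GT Pool.Agent.N155.BB Pool.Agent.Y190.OP Pool.Agent.N155
  Pool.Agent.N155.GD Pool.Agent.Helper65.BF

variable {n : ℕ} {φ : ℂ → Mat (n + 1)} {p q : ℂ} {m : ℕ} {a b : Fin (n + 1) → ℂ}

/-- the map `(s, t) ↦ a s + b t` -/
noncomputable def Ps (φ : ℂ → Mat (n + 1)) (p q : ℂ) (m : ℕ) (a b : Fin (n + 1) → ℂ) :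
    (Sec φ p q m × Sec φ p q m) →ₗ[ℂ] Sec φ p q (m + 1) :=
  (mu φ p q m a).coprod (mu φ p q m b)

theorem Ps_apply (s t : Sec φ p q m) (z : ℂ) (x : Fin (n + 1) → ℂ) :
    (Ps φ p q m a b (s, t)).1 z x = la a x * s.1 z x + la b x * t.1 z x := by
  unfold Ps
  rw [LinearMap.coprod_apply]
  rfl

/-- the kernel -/
theorem ker_Ps (hab : ∀ z x, OnL (φ z) x → la a x ≠ 0 ∨ la b x ≠ 0) :
    LinearMap.ker (Ps φ p q (m + 1) a b) ≤
      LinearMap.range ((mu φ p q m b).prod (-(mu φ p q m a))) := by
  rintro ⟨s, t⟩ hst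
  have h0 : ∀ z x, la a x * s.1 z x + la b x * t.1 z x = 0 := by
    intro z x
    have h1 : (Ps φ p q (m + 1) a b (s, t)).1 z x = 0 := by
      rw [LinearMap.mem_ker.1 hst]
      rfl
    rwa [Ps_apply] at h1
  classical
  set r : ℂ → (Fin (n + 1) → ℂ) → ℂ := fun z x =>
    if la b x ≠ 0 then s.1 z x / la b x else -t.1 z x / la a x with hr
  have hrb : ∀ z x, la b x ≠ 0 → r z x = s.1 z x / la b x := fun z x h => if_pos h
  have hra : ∀ z x, la a x ≠ 0 → r z x = -t.1 z x / la a x := by
    intro z x h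
    by_cases hb : la b x = 0
    · rw [hr]
      simp only [hb, ne_eq, not_true, if_false]
    · rw [hrb z x hb]
      field_simp
      have := h0 z x
      linear_combination this
  obtain ⟨s1, s2, s3, s4, s5⟩ := s.2
  obtain ⟨t1, t2, t3, t4, t5⟩ := t.2
  have hmem : r ∈ Sec φ p q m := by
    refine ⟨fun z x hx => ?_, fun z x c hc => ?_, fun z F hF hev => ?_, fun z x => ?_,
      fun z x => ?_⟩
    · rw [hr]
      simp only [s1 z x hx, t1 z x hx, neg_zero, zero_div, ite_self]
    · by_cases hb : la b x = 0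
      · by_cases ha : la a x = 0
        · have hx : ¬ OnL (φ z) x := fun h => (hab z x h).elim (fun h => h ha) fun h => h hb
          rw [hr]
          simp only [la_smul, hb, ha, mul_zero, ne_eq, not_true, if_false, div_zero]
        · rw [hra z x ha, hra z (c • x) (by
            rw [la_smul]
            exact mul_ne_zero hc ha), t2 z x c hc, la_smul]
          field_simp
          ring
      · rw [hrb z x hb, hrb z (c • x) (by
            rw [la_smul]
            exact mul_ne_zero hc hb), s2 z x c hc, la_smul]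
        field_simp
        ring
    · rcases hab z (F z) hev.self_of_nhds with ha | hb
      · have h1 : AnalyticAt ℂ (fun w => -t.1 w (F w) / la a (F w)) z :=
          ((t3 z F hF hev).neg).div (la_an hF) ha
        refine h1.congr ?_
        filter_upwards [(la_an (a := a) hF).continuousAt.eventually_ne ha] with w hw
        exact (hra w (F w) hw).symm
      · have h1 : AnalyticAt ℂ (fun w => s.1 w (F w) / la b (F w)) z :=
          (s3 z F hF hev).div (la_an hF) hb
        refine h1.congr ?_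
        filter_upwards [(la_an (a := b) hF).continuousAt.eventually_ne hb] with w hw
        exact (hrb w (F w) hw).symm
    · rw [hr]
      simp only [s4, t4]
    · rw [hr]
      simp only [s5, t5]
  refine ⟨⟨r, hmem⟩, ?_⟩
  rw [LinearMap.prod_apply]
  refine Prod.ext ?_ ?_
  · apply Subtype.ext
    funext z x
    change la b x * r z x = s.1 z x
    by_cases hb : la b x = 0
    · rw [hb, zero_mul]
      by_cases hx : OnL (φ z) x
      · have ha : la a x ≠ 0 := (hab z x hx).resolve_right fun h => h hb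
        have h1 := h0 z x
        rw [hb, zero_mul, add_zero] at h1
        exact ((mul_eq_zero.1 h1).resolve_left ha).symm
      · exact (s1 z x hx).symm
    · rw [hrb z x hb, mul_div_cancel₀ _ hb]
  · apply Subtype.ext
    funext z x
    change -(la a x * r z x) = t.1 z x
    by_cases ha : la a x = 0
    · rw [ha, zero_mul, neg_zero]
      by_cases hx : OnL (φ z) x
      · have hb : la b x ≠ 0 := (hab z x hx).resolve_left fun h => h ha
        have h1 := h0 z x
        rw [ha, zero_mul, zero_add] at h1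
        exact ((mul_eq_zero.1 h1).resolve_left hb).symm
      · exact (t1 z x hx).symm
    · rw [hra z x ha, mul_div_cancel₀ _ ha, neg_neg]

/-- surjectivity in one degree -/
theorem exists_surj (hφ : HolP univ φ) (hb : ∀ z, ‖fderiv ℝ φ z‖ ≤ 2)
    (hind : LinearIndependent ℝ ![p, q])
    (hab : ∀ z x, OnL (φ z) x → la a x ≠ 0 ∨ la b x ≠ 0) :
    ∃ m, FiniteDimensional ℂ (Sec φ p q (m + 1)) ∧
      Function.Surjective (Ps φ p q (m + 1) a b) := by
  obtain ⟨c, hc⟩ := sec_fin hφ hb hind
  obtain ⟨m, hm⟩ := exists_flat (h := fun m => Module.finrank ℂ (Sec φ p q m)) (c := c)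
    fun m => (hc m).2
  have := (hc m).1
  have := (hc (m + 1)).1
  have := (hc (m + 2)).1
  have : FiniteDimensional ℂ (Sec φ p q (m + 1 + 1)) := (hc (m + 2)).1
  refine ⟨m, (hc (m + 1)).1, ?_⟩
  rw [← LinearMap.range_eq_top]
  apply Submodule.eq_top_of_finrank_eq
  have h1 := LinearMap.finrank_range_add_finrank_ker (Ps φ p q (m + 1) a b)
  rw [Module.finrank_prod] at h1
  have h2 : Module.finrank ℂ (LinearMap.ker (Ps φ p q (m + 1) a b)) ≤
      Module.finrank ℂ (Sec φ p q m) :=
    (Submodule.finrank_mono (ker_Ps hab)).trans (LinearMap.finrank_range_le _)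
  have h3 : Module.finrank ℂ (LinearMap.range (Ps φ p q (m + 1) a b)) ≤
      Module.finrank ℂ (Sec φ p q (m + 1 + 1)) := Submodule.finrank_le _
  have h4 : Module.finrank ℂ (Sec φ p q (m + 2)) + Module.finrank ℂ (Sec φ p q m) ≤
      2 * Module.finrank ℂ (Sec φ p q (m + 1)) := hm
  have h5 : Module.finrank ℂ (Sec φ p q (m + 1 + 1)) = Module.finrank ℂ (Sec φ p q (m + 2)) := rfl
  omega

/-- **An integral equation.** -/
theorem exists_det (hφ : HolP univ φ) (hb : ∀ z, ‖fderiv ℝ φ z‖ ≤ 2)
    (hind : LinearIndependent ℝ ![p, q]) (hp : ∀ z, φ (z + p) = φ z) (hq : ∀ z, φ (z + q) = φ z)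
    (hab : ∀ z x, OnL (φ z) x → la a x ≠ 0 ∨ la b x ≠ 0) (c : Fin (n + 1) → ℂ) :
    ∃ (r : ℕ) (α β : Fin r → Fin r → ℂ), ∀ z x, OnL (φ z) x →
      Matrix.det (Matrix.of fun i j => (if i = j then la c x else 0) - α i j * la a x -
        β i j * la b x) = 0 := by
  obtain ⟨m, hfd, hsurj⟩ := exists_surj hφ hb hind hab
  set e := Module.finBasis ℂ (Sec φ p q (m + 1)) with he
  set r := Module.finrank ℂ (Sec φ p q (m + 1)) with hr
  choose st hst using fun i => hsurj (mu φ p q (m + 1) c (e i))
  refine ⟨r, fun i j => e.repr (st i).1 j, fun i j => e.repr (st i).2 j, fun z x hx => ?_⟩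
  rw [← Matrix.exists_mulVec_eq_zero_iff]
  refine ⟨fun j => (e j).1 z x, ?_, ?_⟩
  · intro h0
    have h1 : ∀ s : Sec φ p q (m + 1), s.1 z x = 0 := by
      intro s
      have h2 := e.sum_repr s
      have h3 := congrArg (fun s : Sec φ p q (m + 1) => s.1 z x) h2
      rw [← h3]
      have h4 : (∑ i, (e.repr s) i • e i : Sec φ p q (m + 1)).1 z x =
          ∑ i, (e.repr s) i * (e i).1 z x := by
        rw [AddSubmonoidClass.coe_finsetSum, Finset.sum_apply, Finset.sum_apply]
        rfl
      rw [h4]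
      refine Finset.sum_eq_zero fun i _ => ?_
      have h5 : (e i).1 z x = 0 := congrFun h0 i
      rw [h5, mul_zero]
    have h2 := h1 ⟨_, pw_mem hp hq a (m + 1)⟩
    have h3 := h1 ⟨_, pw_mem hp hq b (m + 1)⟩
    simp only [if_pos hx] at h2 h3
    rcases hab z x hx with h | h
    · exact h ((pow_eq_zero_iff (Nat.succ_ne_zero m)).1 h2)
    · exact h ((pow_eq_zero_iff (Nat.succ_ne_zero m)).1 h3)
  · funext i
    have h1 := congrArg (fun s : Sec φ p q (m + 1 + 1) => s.1 z x) (hst i)
    have h2 : (Ps φ p q (m + 1) a b (st i)).1 z x = la a x * (st i).1.1 z x +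
        la b x * (st i).2.1 z x := Ps_apply (st i).1 (st i).2 z x
    rw [h2, mu_apply] at h1
    have h4 : ∀ s : Sec φ p q (m + 1), s.1 z x = ∑ j, (e.repr s) j * (e j).1 z x := by
      intro s
      have h5 := e.sum_repr s
      have h6 := congrArg (fun s : Sec φ p q (m + 1) => s.1 z x) h5
      rw [← h6, AddSubmonoidClass.coe_finsetSum, Finset.sum_apply, Finset.sum_apply]
      rfl
    rw [h4 (st i).1, h4 (st i).2, Finset.mul_sum, Finset.mul_sum] at h1
    rw [Matrix.mulVec, dotProduct, Pi.zero_apply]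
    simp only [Matrix.of_apply, sub_mul, Finset.sum_sub_distrib, ite_mul, zero_mul,
      Finset.sum_ite_eq, Finset.mem_univ, if_true]
    rw [← h1, sub_sub, sub_eq_zero]
    congr 1
    · exact Finset.sum_congr rfl fun j _ => by ring
    · exact Finset.sum_congr rfl fun j _ => by ring

/-- the linear form as a polynomial -/
noncomputable def lp (a : Fin (n + 1) → ℂ) : MvPolynomial (Fin (n + 1)) ℂ := ∑ i, C (a i) * X i

theorem lp_eval (a x : Fin (n + 1) → ℂ) : eval x (lp a) = la a x := by
  unfold lp la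
  rw [map_sum]
  refine Finset.sum_congr rfl fun i _ => ?_
  rw [map_mul, eval_C, eval_X]

theorem lp_hom (a : Fin (n + 1) → ℂ) : (lp a).IsHomogeneous 1 := by
  refine IsHomogeneous.sum _ _ _ fun i _ => ?_
  have := (isHomogeneous_C (Fin (n + 1)) (a i)).mul (isHomogeneous_X ℂ i)
  rwa [zero_add] at this

theorem det_hom {r : ℕ} {M : Fin r → Fin r → MvPolynomial (Fin (n + 1)) ℂ}
    (hM : ∀ i j, (M i j).IsHomogeneous 1) : (Matrix.det (Matrix.of M)).IsHomogeneous r := by
  rw [Matrix.det_apply]
  refine IsHomogeneous.sum _ _ _ fun σ _ => ?_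
  have h1 : (∏ i, (Matrix.of M) (σ i) i).IsHomogeneous (∑ _i : Fin r, 1) :=
    IsHomogeneous.prod _ _ _ fun i _ => hM _ _
  rw [Finset.sum_const, Finset.card_univ, Fintype.card_fin, smul_eq_mul, mul_one] at h1
  rcases Int.units_eq_one_or (Equiv.Perm.sign σ) with h | h
  · rw [h, one_smul]
    exact h1
  · rw [h, Units.neg_smul, one_smul]
    exact h1.neg

/-- vectors in general position -/
theorem exists_form_ne {x y : Fin (n + 1) → ℂ} (hx : x ≠ 0) (hy : y ≠ 0) (h : Phi x ≠ Phi y) :
    ∃ a : Fin (n + 1) → ℂ, la a y = 0 ∧ la a x ≠ 0 := by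
  have h1 : ∃ i j, x i * y j ≠ x j * y i := by
    by_contra hcon
    push Not at hcon
    obtain ⟨j, hj⟩ := Function.ne_iff.1 hy
    have hj' : y j ≠ 0 := hj
    have h2 : x = (x j / y j) • y := by
      funext i
      rw [Pi.smul_apply, smul_eq_mul, div_mul_eq_mul_div, eq_div_iff hj']
      exact hcon i j
    have h3 : x j / y j ≠ 0 := by
      intro h0
      rw [h0, zero_smul] at h2
      exact hx h2
    apply h
    rw [h2, Phi_smul h3]
  obtain ⟨i, j, hij⟩ := h1
  have hla : ∀ v : Fin (n + 1) → ℂ, la (y j • Pi.single i 1 - y i • Pi.single j 1) v =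
      y j * v i - y i * v j := by
    intro v
    unfold la
    simp only [Pi.sub_apply, Pi.smul_apply, smul_eq_mul, sub_mul, Finset.sum_sub_distrib,
      Pi.single_apply, mul_ite, mul_one, mul_zero, ite_mul, zero_mul, Finset.sum_ite_eq',
      Finset.mem_univ, if_true]
  refine ⟨y j • Pi.single i 1 - y i • Pi.single j 1, ?_, ?_⟩
  · rw [hla]
    ring
  · rw [hla]
    intro h0
    apply hij
    linear_combination h0

/-- **The image of a doubly periodic curve is algebraic.** -/
theorem chow (hφ : HolP univ φ) (hb : ∀ z, ‖fderiv ℝ φ z‖ ≤ 2)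
    (hind : LinearIndependent ℝ ![p, q]) (hp : ∀ z, φ (z + p) = φ z) (hq : ∀ z, φ (z + q) = φ z)
    {y : Fin (n + 1) → ℂ} (hy : y ≠ 0) (hne : ∀ z, φ z ≠ Phi y) :
    ∃ (D : ℕ) (P : MvPolynomial (Fin (n + 1)) ℂ), P.IsHomogeneous D ∧
      (∀ z x, OnL (φ z) x → eval x P = 0) ∧ eval y P ≠ 0 := by
  classical
  have hON : ∀ z, ∃ x, OnL (φ z) x := fun z => by
    obtain ⟨F', -, h1⟩ := exists_local hφ z
    exact ⟨_, h1.self_of_nhds.1⟩
  -- the first form
  obtain ⟨x0, hx0⟩ := hON 0
  obtain ⟨a, hay, hax⟩ := exists_form_ne hx0.1 hy (by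
    rw [← hx0.2]
    exact hne 0)
  -- its zeros
  have hcod := nz_codis hφ (lp_hom a) (z1 := 0) (by
    rw [hx0.2, nz_Phi (lp_hom a) hx0.1, lp_eval]
    exact hax)
  have hfin : (closedBall (0 : ℂ) (‖p‖ + ‖q‖) \ {z | nz (lp a) (φ z)}).Finite :=
    (isCompact_closedBall _ _).finite_sdiff_of_mem_codiscreteWithin
      (codiscreteWithin_mono (subset_univ _) hcod)
  set Z0 := closedBall (0 : ℂ) (‖p‖ + ‖q‖) \ {z | nz (lp a) (φ z)} with hZ0
  have : Finite Z0 := hfin
  choose xs hxs using hON
  -- the second form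
  set ev : (Fin (n + 1) → ℂ) → Module.Dual ℂ (Fin (n + 1) → ℂ) := fun x =>
    { toFun := fun b => la b x
      map_add' := fun b b' => by
        unfold la
        simp only [Pi.add_apply, add_mul, Finset.sum_add_distrib]
      map_smul' := fun c b => by
        unfold la
        simp only [Pi.smul_apply, smul_eq_mul, RingHom.id_apply, Finset.mul_sum]
        exact Finset.sum_congr rfl fun i _ => by ring } with hev
  obtain ⟨b, hby, hbx⟩ := Module.Dual.exists_forall_mem_ne_zero_of_forall_exists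
    (LinearMap.ker (ev y)) (fun i : Z0 => ev (xs i)) fun i => by
      obtain ⟨b, h1, h2⟩ := exists_form_ne (hxs i).1 hy (by
        rw [← (hxs i).2]
        exact hne i)
      exact ⟨b, h1, h2⟩
  have hab : ∀ z x, OnL (φ z) x → la a x ≠ 0 ∨ la b x ≠ 0 := by
    intro z x hx
    by_contra hcon
    push Not at hcon
    obtain ⟨w, hw, hwz⟩ := fund hind hp hq z
    have hw0 : w ∈ Z0 := by
      refine ⟨mem_closedBall_zero_iff.2 hw, fun h => ?_⟩
      have h1 : nz (lp a) (φ w) := h
      rw [hwz, hx.2, nz_Phi (lp_hom a) hx.1, lp_eval] at h1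
      exact h1 hcon.1
    have h2 : la b (xs w) ≠ 0 := hbx ⟨w, hw0⟩
    have h3 : Phi (xs w) = Phi x := by rw [← (hxs w).2, hwz, hx.2]
    obtain ⟨c, hc, hcx⟩ := Phi_inj (hxs w).1 hx.1 h3
    have h4 := hcon.2
    rw [hcx, la_smul] at h4
    exact h2 ((mul_eq_zero.1 h4).resolve_left hc)
  -- the third form
  obtain ⟨k, hk⟩ := Function.ne_iff.1 hy
  have hk' : y k ≠ 0 := hk
  have hc : la (Pi.single k 1) y = y k := by
    unfold la
    simp [Pi.single_apply]
  obtain ⟨r, α, β, hdet⟩ := exists_det hφ hb hind hp hq hab (Pi.single k 1)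
  set M : Fin r → Fin r → MvPolynomial (Fin (n + 1)) ℂ := fun i j =>
    (if i = j then lp (Pi.single k 1) else 0) - C (α i j) * lp a - C (β i j) * lp b with hM
  have hMh : ∀ i j, (M i j).IsHomogeneous 1 := by
    intro i j
    have h1 : ∀ (t : ℂ) (v : Fin (n + 1) → ℂ), (C t * lp v).IsHomogeneous 1 := by
      intro t v
      have := (isHomogeneous_C (Fin (n + 1)) t).mul (lp_hom v)
      rwa [zero_add] at this
    refine (IsHomogeneous.sub ?_ (h1 _ _)).sub (h1 _ _)
    split_ifs
    · exact lp_hom _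
    · exact isHomogeneous_zero _ _ _
  have hMe : ∀ x, eval x (Matrix.det (Matrix.of M)) = Matrix.det (Matrix.of fun i j =>
      (if i = j then la (Pi.single k 1) x else 0) - α i j * la a x - β i j * la b x) := by
    intro x
    rw [RingHom.map_det]
    congr 1
    ext i j
    simp only [RingHom.mapMatrix_apply, Matrix.map_apply, Matrix.of_apply, hM, map_sub, map_mul,
      eval_C, lp_eval]
    split_ifs
    · rw [lp_eval]
    · rw [map_zero]
  refine ⟨r, Matrix.det (Matrix.of M), det_hom hMh, fun z x hx => ?_, ?_⟩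
  · rw [hMe]
    exact hdet z x hx
  · rw [hMe]
    have h1 : (Matrix.of fun i j : Fin r => (if i = j then la (Pi.single k 1) y else 0) -
        α i j * la a y - β i j * la b y) = Matrix.diagonal fun _ => y k := by
      ext i j
      rw [Matrix.of_apply, Matrix.diagonal_apply, hc, hay, show la b y = 0 from hby]
      split_ifs <;> ring
    rw [h1, Matrix.det_diagonal, Finset.prod_const]
    exact pow_ne_zero _ hk'

end Pool.Agent.Helper65.GG
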