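import Mathlib

/-!
A growth lemma for entire functions.
-/

set_option autoImplicit false

open Filter Topology Metric Set

namespace Pool.Agent.Helper65.GG

/-- the expansion of the weight -/
theorem weight_exp {q s t : ℝ} (hq : 0 < q) (hs : 0 < s) (ht : |t| ≤ s / 2) :
    4 * q ^ 3 / (s - t) ^ 2 - 4 * q ^ 3 / s ^ 2 ≤
      (2 * q / s) ^ 3 * t + 4 * (2 * q / s) ^ 4 * t ^ 2 / q := by
  obtain ⟨h1, h2⟩ := abs_le.1 ht
  have hst : 0 < s - t := by linarith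
  have e1 : 4 * q ^ 3 / (s - t) ^ 2 - 4 * q ^ 3 / s ^ 2 - (2 * q / s) ^ 3 * t =
      4 * q ^ 3 * (t ^ 2 * (3 * s - 2 * t)) / (s ^ 3 * (s - t) ^ 2) := by
    field_simp
    ring
  have e2 : 4 * (2 * q / s) ^ 4 * t ^ 2 / q = 4 * q ^ 3 * (16 * t ^ 2) / s ^ 4 := by
    field_simp
    ring
  have h3 : 4 * q ^ 3 * (t ^ 2 * (3 * s - 2 * t)) / (s ^ 3 * (s - t) ^ 2) ≤
      4 * q ^ 3 * (16 * t ^ 2) / s ^ 4 := by
    rw [div_le_div_iff₀ (by positivity) (by positivity)]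
    have h4 : s ^ 2 / 4 ≤ (s - t) ^ 2 := by nlinarith
    have h5 : (3 * s - 2 * t) ≤ 4 * s := by linarith
    have h6 : (3 * s - 2 * t) * s ≤ 16 * (s - t) ^ 2 := by nlinarith
    have h7 : t ^ 2 * ((3 * s - 2 * t) * s) ≤ t ^ 2 * (16 * (s - t) ^ 2) :=
      mul_le_mul_of_nonneg_left h6 (sq_nonneg t)
    have h8 : 0 ≤ 4 * q ^ 3 * s ^ 3 := by positivity
    have h9 := mul_le_mul_of_nonneg_left h7 h8
    calc 4 * q ^ 3 * (t ^ 2 * (3 * s - 2 * t)) * s ^ 4 =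
        4 * q ^ 3 * s ^ 3 * (t ^ 2 * ((3 * s - 2 * t) * s)) := by ring
      _ ≤ 4 * q ^ 3 * s ^ 3 * (t ^ 2 * (16 * (s - t) ^ 2)) := h9
      _ = _ := by ring
  rw [e2]
  linarith

theorem growth_nonconst {g : ℂ → ℂ} (hg : Differentiable ℂ g) (hne : ∃ z w, g z ≠ g w) {q : ℝ}
    (hq : 1 ≤ q) (R : ℝ) : ∃ (a : ℂ) (ν : ℝ), R ≤ ‖a‖ ∧ 1 ≤ ‖a‖ ∧ 0 ≤ ν ∧
      Real.exp (q * ν ^ 2) ≤ ‖g a‖ ∧ (∀ w, ‖w‖ ≤ ‖a‖ → ‖g w‖ ≤ ‖g a‖) ∧
      ∀ (w : ℂ) (t : ℝ), ‖w‖ = ‖a‖ * Real.exp t → |t| * ν ≤ q →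
        ‖g w‖ ≤ ‖g a‖ * Real.exp (ν ^ 3 * t + 4 * ν ^ 4 * t ^ 2 / q) := by
  have hq0 : 0 < q := by linarith
  set R0 : ℝ := max R 1 with hR0
  have hR1 : 1 ≤ R0 := le_max_right _ _
  have hR0p : 0 < R0 := by linarith
  obtain ⟨M0, hM0⟩ := (isCompact_closedBall (0 : ℂ) R0).exists_bound_of_continuousOn
    hg.continuous.continuousOn
  have hM00 : 0 ≤ M0 := (norm_nonneg _).trans (hM0 0 (mem_closedBall_self hR0p.le))
  -- a point with a large value
  obtain ⟨z2, hz2⟩ : ∃ z2, Real.exp 1 * (M0 + 1) < ‖g z2‖ := by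
    by_contra hcon
    push Not at hcon
    obtain ⟨z, w, hzw⟩ := hne
    apply hzw
    apply hg.apply_eq_apply_of_bounded
    rw [isBounded_iff_forall_norm_le]
    exact ⟨_, by rintro _ ⟨z, rfl⟩; exact hcon z⟩
  have he1 : 1 ≤ Real.exp 1 := by
    have := Real.add_one_le_exp (1 : ℝ)
    linarith
  have hz2R : R0 < ‖z2‖ := by
    by_contra hcon
    push Not at hcon
    have h1 := hM0 z2 (mem_closedBall_zero_iff.2 hcon)
    nlinarith
  set L2 : ℝ := Real.log ‖z2‖ with hL2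
  have hz2p : 0 < ‖z2‖ := by linarith
  have heL2 : Real.exp L2 = ‖z2‖ := Real.exp_log hz2p
  set x1 : ℝ := L2 + 2 * q ^ 2 with hx1
  set W : ℂ → ℝ := fun z => ‖g z‖ * Real.exp (-(4 * q ^ 3 / (x1 - Real.log ‖z‖) ^ 2)) with hW
  have hWz2 : M0 + 1 < W z2 := by
    have h1 : x1 - Real.log ‖z2‖ = 2 * q ^ 2 := by rw [hx1]; ring
    have h2 : 4 * q ^ 3 / (2 * q ^ 2) ^ 2 ≤ 1 := by
      rw [div_le_one (by positivity)]
      have h3 : q ^ 3 * 1 ≤ q ^ 3 * q := mul_le_mul_of_nonneg_left hq (by positivity)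
      nlinarith
    have h3 : Real.exp (-1) ≤ Real.exp (-(4 * q ^ 3 / (x1 - Real.log ‖z2‖) ^ 2)) := by
      rw [h1]
      exact Real.exp_le_exp.2 (by linarith)
    calc M0 + 1 = Real.exp 1 * (M0 + 1) * Real.exp (-1) := by
          rw [mul_assoc, mul_comm (M0 + 1), ← mul_assoc, ← Real.exp_add]
          norm_num
      _ < ‖g z2‖ * Real.exp (-1) := mul_lt_mul_of_pos_right hz2 (Real.exp_pos _)
      _ ≤ W z2 := mul_le_mul_of_nonneg_left h3 (norm_nonneg _)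
  have hWz2p : 0 < W z2 := by linarith
  obtain ⟨M1, hM1⟩ := (isCompact_closedBall (0 : ℂ) (Real.exp x1)).exists_bound_of_continuousOn
    hg.continuous.continuousOn
  have hM10 : 0 ≤ M1 := (norm_nonneg _).trans (hM1 0 (mem_closedBall_self (Real.exp_pos _).le))
  -- near the outer circle
  obtain ⟨s1, hs1, hs12, hs1W⟩ : ∃ s1 : ℝ, 0 < s1 ∧ s1 ≤ 2 * q ^ 2 ∧ ∀ s : ℝ, 0 < s → s ≤ s1 →
      M1 * Real.exp (-(4 * q ^ 3 / s ^ 2)) < W z2 := by
    set E : ℝ := max (Real.log ((M1 + 1) / W z2) ) 1 with hE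
    have hE1 : 1 ≤ E := le_max_right _ _
    have hE0 : 0 < E := by linarith
    refine ⟨min (2 * q ^ 2) (1 / E), by positivity, min_le_left _ _, fun s hs hss => ?_⟩
    have hsE : s ≤ 1 / E := hss.trans (min_le_right _ _)
    have h1 : E ≤ 1 / s ^ 2 := by
      rw [le_div_iff₀ (by positivity)]
      have h2 : s * E ≤ 1 := by rwa [le_div_iff₀ hE0] at hsE
      have h3 : s ≤ 1 := by nlinarith
      calc E * s ^ 2 = (s * E) * s := by ring
        _ ≤ 1 * 1 := mul_le_mul h2 h3 hs.le zero_le_one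
        _ = 1 := one_mul 1
    have h2 : E ≤ 4 * q ^ 3 / s ^ 2 := by
      have h3 : 1 / s ^ 2 ≤ 4 * q ^ 3 / s ^ 2 := by
        apply div_le_div_of_nonneg_right _ (by positivity)
        have : (1 : ℝ) ≤ q ^ 3 := one_le_pow₀ hq
        linarith
      exact h1.trans h3
    have h3 : Real.exp (-(4 * q ^ 3 / s ^ 2)) ≤ W z2 / (M1 + 1) := by
      have h4 : Real.log ((M1 + 1) / W z2) ≤ 4 * q ^ 3 / s ^ 2 := (le_max_left _ _).trans h2
      have h5 : (M1 + 1) / W z2 ≤ Real.exp (4 * q ^ 3 / s ^ 2) := by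
        rw [← Real.log_le_iff_le_exp (by positivity)]
        exact h4
      rw [Real.exp_neg, inv_le_comm₀ (Real.exp_pos _) (by positivity), inv_div]
      exact h5
    calc M1 * Real.exp (-(4 * q ^ 3 / s ^ 2)) ≤ M1 * (W z2 / (M1 + 1)) :=
          mul_le_mul_of_nonneg_left h3 hM10
      _ < (M1 + 1) * (W z2 / (M1 + 1)) := mul_lt_mul_of_pos_right (lt_add_one _) (by positivity)
      _ = W z2 := by field_simp
  -- the annulus
  set Kc : Set ℂ := closedBall 0 (Real.exp (x1 - s1)) ∩ {z | R0 ≤ ‖z‖} with hKc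
  have hKcc : IsCompact Kc := (isCompact_closedBall _ _).inter_right
    (isClosed_le continuous_const continuous_norm)
  have hlogK : ∀ z ∈ Kc, s1 ≤ x1 - Real.log ‖z‖ := by
    rintro z ⟨hz1, hz2⟩
    have hz2' : R0 ≤ ‖z‖ := hz2
    have h1 := Real.log_le_log (by linarith) (mem_closedBall_zero_iff.1 hz1)
    rw [Real.log_exp] at h1
    linarith
  have hWc : ContinuousOn W Kc := by
    refine hg.continuous.norm.continuousOn.mul (Real.continuous_exp.comp_continuousOn ?_)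
    refine (ContinuousOn.div continuousOn_const ((continuousOn_const.sub ?_).pow 2)
      fun z hz => ?_).neg
    · exact continuous_norm.continuousOn.log fun z hz => by
        have h1 : R0 ≤ ‖z‖ := hz.2
        intro h2
        rw [h2] at h1
        linarith
    · have := hlogK z hz
      have h2 : 0 < x1 - Real.log ‖z‖ := by linarith
      exact pow_ne_zero 2 h2.ne'
  have hz2K : z2 ∈ Kc := by
    refine ⟨mem_closedBall_zero_iff.2 ?_, hz2R.le⟩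
    rw [← heL2]
    apply Real.exp_le_exp.2
    rw [hx1]
    linarith
  obtain ⟨a, haK, hamax⟩ := hKcc.exists_isMaxOn ⟨z2, hz2K⟩ hWc
  have hamax' : ∀ z ∈ Kc, W z ≤ W a := fun z hz => hamax hz
  have haR : R0 ≤ ‖a‖ := haK.2
  have hap : 0 < ‖a‖ := by linarith
  set s : ℝ := x1 - Real.log ‖a‖ with hs
  have hs0 : 0 < s := hs1.trans_le (hlogK a haK)
  have hWa : M0 + 1 < W a := hWz2.trans_le (hamax' z2 hz2K)
  -- the inequality on the disc
  have hin : ∀ w : ℂ, ‖w‖ < R0 → ‖g w‖ ≤ W a := by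
    intro w hw
    have h1 := hM0 w (mem_closedBall_zero_iff.2 hw.le)
    linarith
  have hout : ∀ w : ℂ, R0 ≤ ‖w‖ → ‖w‖ < Real.exp x1 → W w ≤ W a := by
    intro w hw1 hw2
    by_cases h1 : ‖w‖ ≤ Real.exp (x1 - s1)
    · exact hamax' w ⟨mem_closedBall_zero_iff.2 h1, hw1⟩
    · push Not at h1
      have hwp : 0 < ‖w‖ := by linarith
      have h2 : x1 - s1 < Real.log ‖w‖ := by rwa [Real.lt_log_iff_exp_lt hwp]
      have h3 : Real.log ‖w‖ < x1 := by rwa [Real.log_lt_iff_lt_exp hwp]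
      have h4 := hs1W (x1 - Real.log ‖w‖) (by linarith) (by linarith)
      have h5 : W w ≤ M1 * Real.exp (-(4 * q ^ 3 / (x1 - Real.log ‖w‖) ^ 2)) :=
        mul_le_mul_of_nonneg_right (hM1 w (mem_closedBall_zero_iff.2 hw2.le)) (Real.exp_pos _).le
      exact (h5.trans h4.le).trans (hamax' z2 hz2K)
  have hψnn : ∀ x : ℝ, 0 ≤ 4 * q ^ 3 / x ^ 2 := fun x => by positivity
  have hWag : W a ≤ ‖g a‖ := by
    have h1 : Real.exp (-(4 * q ^ 3 / (x1 - Real.log ‖a‖) ^ 2)) ≤ 1 := by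
      rw [Real.exp_le_one_iff]
      have := hψnn (x1 - Real.log ‖a‖)
      linarith
    calc W a ≤ ‖g a‖ * 1 := mul_le_mul_of_nonneg_left h1 (norm_nonneg _)
      _ = _ := mul_one _
  have hWa' : W a = ‖g a‖ * Real.exp (-(4 * q ^ 3 / s ^ 2)) := rfl
  have hall : ∀ w : ℂ, w ≠ 0 → ‖w‖ < Real.exp x1 → ‖g w‖ ≤
      ‖g a‖ * Real.exp (4 * q ^ 3 / (x1 - Real.log ‖w‖) ^ 2 - 4 * q ^ 3 / s ^ 2) := by
    intro w hw0 hw
    have e1 : ‖g a‖ * Real.exp (4 * q ^ 3 / (x1 - Real.log ‖w‖) ^ 2 - 4 * q ^ 3 / s ^ 2) =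
        Real.exp (4 * q ^ 3 / (x1 - Real.log ‖w‖) ^ 2) * W a := by
      rw [hWa', sub_eq_add_neg, Real.exp_add]
      ring
    rw [e1]
    by_cases hwR : ‖w‖ < R0
    · have h1 := hin w hwR
      have h2 : 1 ≤ Real.exp (4 * q ^ 3 / (x1 - Real.log ‖w‖) ^ 2) :=
        Real.one_le_exp (hψnn _)
      have h3 : 0 ≤ W a := by linarith
      nlinarith
    · push Not at hwR
      have h1 := hout w hwR hw
      have h2 : ‖g w‖ = Real.exp (4 * q ^ 3 / (x1 - Real.log ‖w‖) ^ 2) * W w := by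
        rw [hW]
        simp only
        rw [mul_comm (‖g w‖), ← mul_assoc, ← Real.exp_add, add_neg_cancel, Real.exp_zero, one_mul]
      rw [h2]
      exact mul_le_mul_of_nonneg_left h1 (Real.exp_pos _).le
  refine ⟨a, 2 * q / s, (le_max_left _ _).trans haR, hR1.trans haR, by positivity, ?_,
    fun w hw => ?_, fun w t hw ht => ?_⟩
  · have h1 : q * (2 * q / s) ^ 2 = 4 * q ^ 3 / s ^ 2 := by
      field_simp
      ring
    rw [h1]
    have h2 : 1 ≤ ‖g a‖ * Real.exp (-(4 * q ^ 3 / s ^ 2)) := by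
      rw [← hWa']
      linarith
    rw [Real.exp_neg, ← div_eq_mul_inv, le_div_iff₀ (Real.exp_pos _), one_mul] at h2
    exact h2
  · by_cases hwR : ‖w‖ < R0
    · exact (hin w hwR).trans hWag
    · push Not at hwR
      have hwp : 0 < ‖w‖ := by linarith
      have h1 : Real.log ‖w‖ ≤ Real.log ‖a‖ := Real.log_le_log hwp hw
      have h2 := hall w (norm_pos_iff.1 hwp) (by
        rw [← Real.log_lt_iff_lt_exp hwp]
        linarith)
      refine h2.trans ?_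
      have h3 : 4 * q ^ 3 / (x1 - Real.log ‖w‖) ^ 2 ≤ 4 * q ^ 3 / s ^ 2 := by
        apply div_le_div_of_nonneg_left (by positivity) (by positivity)
        exact pow_le_pow_left₀ hs0.le (by linarith) 2
      calc ‖g a‖ * Real.exp (4 * q ^ 3 / (x1 - Real.log ‖w‖) ^ 2 - 4 * q ^ 3 / s ^ 2) ≤
          ‖g a‖ * 1 := by
            refine mul_le_mul_of_nonneg_left ?_ (norm_nonneg _)
            rw [Real.exp_le_one_iff]
            linarith
        _ = _ := mul_one _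
  · have hwp : 0 < ‖w‖ := by
      rw [hw]
      positivity
    have hlog : Real.log ‖w‖ = Real.log ‖a‖ + t := by
      rw [hw, Real.log_mul hap.ne' (Real.exp_pos _).ne', Real.log_exp]
    have hts : |t| ≤ s / 2 := by
      have h1 : |t| * (2 * q / s) * s ≤ q * s := mul_le_mul_of_nonneg_right ht hs0.le
      have h2 : |t| * (2 * q / s) * s = |t| * (2 * q) := by field_simp
      rw [h2] at h1
      have h3 : q * (2 * |t|) ≤ q * s := by linarith
      have h4 := le_of_mul_le_mul_left h3 hq0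
      linarith
    obtain ⟨ht1, ht2⟩ := abs_le.1 hts
    have h2 := hall w (norm_pos_iff.1 hwp) (by
      rw [← Real.log_lt_iff_lt_exp hwp, hlog]
      linarith)
    refine h2.trans ?_
    have h3 : x1 - Real.log ‖w‖ = s - t := by rw [hlog, hs]; ring
    rw [h3]
    exact mul_le_mul_of_nonneg_left (Real.exp_le_exp.2 (weight_exp hq0 hs0 hts)) (norm_nonneg _)

/-- **The growth lemma.** -/
theorem growth {g : ℂ → ℂ} (hg : Differentiable ℂ g) (hne : ∃ z, g z ≠ 0) :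
    ∃ c : ℝ, 0 < c ∧ ∀ q : ℝ, 1 ≤ q → ∀ R : ℝ, ∃ (a : ℂ) (ν : ℝ), R ≤ ‖a‖ ∧ 1 ≤ ‖a‖ ∧ 0 ≤ ν ∧
      c * Real.exp (q * ν ^ 2) ≤ ‖g a‖ ∧ (∀ w, ‖w‖ ≤ ‖a‖ → ‖g w‖ ≤ ‖g a‖) ∧
      ∀ (w : ℂ) (t : ℝ), ‖w‖ = ‖a‖ * Real.exp t → |t| * ν ≤ q →
        ‖g w‖ ≤ ‖g a‖ * Real.exp (ν ^ 3 * t + 4 * ν ^ 4 * t ^ 2 / q) := by
  obtain ⟨z0, hz0⟩ := hne
  by_cases h : ∃ z w, g z ≠ g w
  · refine ⟨1, one_pos, fun q hq R => ?_⟩
    obtain ⟨a, ν, h1, h2, h3, h4, h5, h6⟩ := growth_nonconst hg h hq R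
    exact ⟨a, ν, h1, h2, h3, by rwa [one_mul], h5, h6⟩
  · push Not at h
    refine ⟨‖g z0‖, norm_pos_iff.2 hz0, fun q hq R => ?_⟩
    have hn : ‖((max R 1 : ℝ) : ℂ)‖ = max R 1 := by
      rw [Complex.norm_real, Real.norm_of_nonneg (zero_le_one.trans (le_max_right _ _))]
    refine ⟨((max R 1 : ℝ) : ℂ), 0, ?_, ?_, le_rfl, ?_, fun w _ => ?_, fun w t _ _ => ?_⟩
    · rw [hn]
      exact le_max_left _ _
    · rw [hn]
      exact le_max_right _ _
    · rw [h ((max R 1 : ℝ) : ℂ) z0]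
      simp
    · rw [h w ((max R 1 : ℝ) : ℂ)]
    · rw [h w ((max R 1 : ℝ) : ℂ)]
      simp

end Pool.Agent.Helper65.GG
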