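import Pool.Agent.Helper65.GG.Mx

/-!
The local maximum principle.
-/

set_option autoImplicit false

open Filter Topology Metric MvPolynomial Set

namespace Pool.Agent.Helper65.GG

open Pool.Agent.W602.GT Pool.Agent.N155.BB Pool.Agent.Y190.OP Pool.Agent.N155
  Pool.Agent.N155.GD Pool.Agent.Helper65.BF

variable {n D : ℕ} {P : MvPolynomial (Fin (n + 1)) ℂ}

/-- the bound of the transversal derivative -/
theorem trans_bound (n : ℕ) : ∃ A : ℝ, 0 < A ∧ ∀ (φ : ℂ → Mat (n + 1)) (V : Set ℂ)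
    (F : ℂ → Fin (n + 1) → ℂ), IsOpen V → DifferentiableOn ℂ F V →
    (∀ w ∈ V, F w ≠ 0 ∧ φ w = Phi (F w)) → ∀ p ∈ V,
    ∑ j, ‖∑ k, (starRingEnd ℂ) (F p k) * (deriv F p j * F p k - deriv F p k * F p j) /
      ((∑ k, ‖F p k‖ ^ 2 : ℝ) : ℂ)‖ ^ 2 ≤ A * ‖fderiv ℝ φ p‖ ^ 2 * ∑ k, ‖F p k‖ ^ 2 := by
  obtain ⟨A, hA, hw⟩ := wedge_fderivOn n
  refine ⟨4 * A ^ 2 * (n + 1) ^ 2, by positivity, fun φ V F hV hF hφF p hp => ?_⟩
  have hmk : ∀ w ∈ V, ∃ h : F w ≠ 0, toProj (φ w) = Projectivization.mk ℂ (F w) h :=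
    fun w hw => ⟨(hφF w hw).1,
      (congrArg toProj (hφF w hw).2).trans (toProj_Phi (hφF w hw).1)⟩
  obtain ⟨-, h2⟩ := hw (fun z => toProj (φ z)) V F hV hF hmk p hp
  have hcong : (fun z => Phi (toProj (φ z)).rep) =ᶠ[𝓝 p] φ := by
    filter_upwards [hV.mem_nhds hp] with w hw
    rw [(hφF w hw).2]
    exact Phi_rep_toProj ⟨_, (hφF w hw).1, rfl⟩
  rw [hcong.fderiv_eq] at h2
  set x := F p with hx
  set v := deriv F p with hv
  set S : ℝ := ∑ k, ‖x k‖ ^ 2 with hS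
  have hSp : 0 < S := BB.sum_pos (hφF p hp).1
  set f : ℝ := ‖fderiv ℝ φ p‖ with hf
  have hf0 : 0 ≤ f := norm_nonneg _
  have hterm : ∀ j, ‖∑ k, (starRingEnd ℂ) (x k) * (v j * x k - v k * x j) / ((S : ℝ) : ℂ)‖ ≤
      2 * A * f * ∑ k, ‖x k‖ := by
    intro j
    refine (norm_sum_le _ _).trans ?_
    rw [Finset.mul_sum]
    refine Finset.sum_le_sum fun k _ => ?_
    rw [norm_div, norm_mul, RCLike.norm_conj, Complex.norm_real, Real.norm_of_nonneg hSp.le,
      div_le_iff₀ hSp]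
    have h3 : ‖v j * x k - v k * x j‖ ≤ 2 * wedge x v := by
      have h4 := le_wedge x v k j
      have h5 : v j * x k - v k * x j = x k * v j - x j * v k := by ring
      rw [h5]
      exact h4
    calc ‖x k‖ * ‖v j * x k - v k * x j‖ ≤ ‖x k‖ * (2 * (A * f * S)) :=
          mul_le_mul_of_nonneg_left (h3.trans (by linarith)) (norm_nonneg _)
      _ = 2 * A * f * ‖x k‖ * S := by ring
  have hCS : (∑ k, ‖x k‖) ^ 2 ≤ (n + 1) * S := by
    have h3 := sq_sum_le_card_mul_sum_sq (s := (Finset.univ : Finset (Fin (n + 1))))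
      (f := fun k => ‖x k‖)
    simpa using h3
  have hsum0 : 0 ≤ ∑ k, ‖x k‖ := Finset.sum_nonneg fun _ _ => norm_nonneg _
  have hsq : ∀ j, ‖∑ k, (starRingEnd ℂ) (x k) * (v j * x k - v k * x j) / ((S : ℝ) : ℂ)‖ ^ 2 ≤
      4 * A ^ 2 * f ^ 2 * ((n + 1) * S) := by
    intro j
    have h3 := pow_le_pow_left₀ (norm_nonneg _) (hterm j) 2
    refine h3.trans ?_
    calc (2 * A * f * ∑ k, ‖x k‖) ^ 2 = 4 * A ^ 2 * f ^ 2 * (∑ k, ‖x k‖) ^ 2 := by ring
      _ ≤ _ := mul_le_mul_of_nonneg_left hCS (by positivity)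
  refine (Finset.sum_le_card_nsmul _ _ _ fun j _ => hsq j).trans (le_of_eq ?_)
  simp only [Finset.card_univ, Fintype.card_fin, nsmul_eq_mul]
  push_cast
  ring

/-- **The local maximum principle.** -/
theorem no_max (n : ℕ) : ∃ A : ℝ, 0 < A ∧ ∀ (D : ℕ) (P : MvPolynomial (Fin (n + 1)) ℂ),
    P.IsHomogeneous D → ∀ (φ : ℂ → Mat (n + 1)) (U : Set ℂ) (p : ℂ) (h : ℂ → ℂ) (C : ℝ),
    p ∈ U → HolP U φ → AnalyticAt ℂ h p → D * (A * ‖fderiv ℝ φ p‖ ^ 2) < C →
    IsLocalMax (fun z => np P D (φ z) * Real.exp (C * ‖z‖ ^ 2) * ‖h z‖ ^ 2) p →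
    np P D (φ p) * Real.exp (C * ‖p‖ ^ 2) * ‖h p‖ ^ 2 = 0 := by
  obtain ⟨A, hA, htr⟩ := trans_bound n
  refine ⟨A, hA, fun D P hP φ U p h C hpU hφ hh hC hmax => ?_⟩
  obtain ⟨V, F, hV, hpV, hF, hφF⟩ := hφ p hpU
  have htb := htr φ V F hV hF hφF p hpV
  set x := F p with hx
  set S : ℝ := ∑ k, ‖x k‖ ^ 2 with hS
  have hSp : 0 < S := BB.sum_pos (hφF p hpV).1
  have hSc : (S : ℂ) ≠ 0 := by exact_mod_cast hSp.ne'
  set β : ℝ := A * ‖fderiv ℝ φ p‖ ^ 2 with hβ
  have hβ0 : 0 ≤ β := by positivity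
  have hFa : AnalyticAt ℂ F p := (hF.analyticOnNhd hV) p hpV
  have hFk : ∀ k, AnalyticAt ℂ (fun w => F w k) p := fun k => (analyticAt_pi_iff.1 hFa) k
  have hFd : ∀ k, HasDerivAt (fun w => F w k) (deriv F p k) p := fun k =>
    (hasDerivAt_pi.1 hFa.differentiableAt.hasDerivAt) k
  have hself : ∑ k, (starRingEnd ℂ) (x k) * x k = (S : ℂ) := by
    rw [hS]
    push_cast
    refine Finset.sum_congr rfl fun k _ => ?_
    rw [mul_comm, Complex.mul_conj, Complex.normSq_eq_norm_sq]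
    push_cast
    rfl
  -- the component along `x`
  set lam : ℂ → ℂ := fun w => (∑ k, (starRingEnd ℂ) (x k) * F w k) / S with hlam
  have hlama : AnalyticAt ℂ lam p :=
    (Finset.analyticAt_fun_sum _ fun k _ => analyticAt_const.mul (hFk k)).div_const
  have hlamp : lam p = 1 := by
    rw [hlam]
    simp only
    rw [← hx, hself, div_self hSc]
  have hlamd : HasDerivAt lam ((∑ k, (starRingEnd ℂ) (x k) * deriv F p k) / S) p :=
    (HasDerivAt.fun_sum fun k _ => (hFd k).const_mul _).div_const _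
  set y : ℂ → Fin (n + 1) → ℂ := fun w => (lam w)⁻¹ • F w with hy
  have hyp : y p = x := by
    rw [hy]
    simp only
    rw [hlamp, inv_one, one_smul]
  have hya : AnalyticAt ℂ y p := (hlama.inv (by rw [hlamp]; exact one_ne_zero)).smul hFa
  set v' : Fin (n + 1) → ℂ := fun j => ∑ k, (starRingEnd ℂ) (x k) *
    (deriv F p j * x k - deriv F p k * x j) / (S : ℂ) with hv'
  have hyd : ∀ j, HasDerivAt (fun w => y w j) (v' j) p := by
    intro j
    have h1 := (hlamd.inv (by rw [hlamp]; exact one_ne_zero)).mul (hFd j)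
    refine h1.congr_deriv ?_
    have h2 : (lam⁻¹) p = 1 := by rw [Pi.inv_apply, hlamp, inv_one]
    rw [h2, hlamp, hv']
    simp only
    have h3 : ∑ k, (starRingEnd ℂ) (x k) * (deriv F p j * x k - deriv F p k * x j) / (S : ℂ) =
        deriv F p j * ((∑ k, (starRingEnd ℂ) (x k) * x k) / S) -
          (∑ k, (starRingEnd ℂ) (x k) * deriv F p k) / S * x j := by
      rw [← Finset.sum_div, ← mul_div_assoc, Finset.mul_sum, div_mul_eq_mul_div, Finset.sum_mul,
        ← sub_div, ← Finset.sum_sub_distrib]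
      congr 1
      refine Finset.sum_congr rfl fun k _ => ?_
      ring
    rw [h3, hself, div_self hSc]
    ring
  have hvsum : ∑ j, ‖v' j‖ ^ 2 ≤ β * S := htb
  -- the orthogonal component
  set N2 : ℂ → ℝ := fun w => ∑ k, ‖y w k - x k‖ ^ 2 with hN2
  have hN20 : ∀ w, 0 ≤ N2 w := fun w => Finset.sum_nonneg fun _ _ => by positivity
  have hnear : ∀ᶠ w in 𝓝 p, lam w ≠ 0 ∧ w ∈ V := by
    refine (hlama.continuousAt.eventually_ne ?_).and (hV.mem_nhds hpV)
    rw [hlamp]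
    exact one_ne_zero
  have hpyth : ∀ w, lam w ≠ 0 → ∑ k, ‖y w k‖ ^ 2 = S + N2 w := by
    intro w hw
    have h1 : ∑ k, (starRingEnd ℂ) (x k) * y w k = (S : ℂ) := by
      have h2 : ∀ k, (starRingEnd ℂ) (x k) * y w k =
          (lam w)⁻¹ * ((starRingEnd ℂ) (x k) * F w k) := by
        intro k
        rw [hy]
        simp only [Pi.smul_apply, smul_eq_mul]
        ring
      rw [Finset.sum_congr rfl fun k _ => h2 k, ← Finset.mul_sum]
      have h3 : ∑ k, (starRingEnd ℂ) (x k) * F w k = lam w * S := by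
        rw [hlam]
        simp only
        rw [div_mul_cancel₀ _ hSc]
      rw [h3, ← mul_assoc, inv_mul_cancel₀ hw, one_mul]
    have h2 : ∑ k, (starRingEnd ℂ) (x k) * (y w k - x k) = 0 := by
      simp only [mul_sub, Finset.sum_sub_distrib]
      rw [h1, hself, sub_self]
    have h3 : ∀ k, ‖y w k‖ ^ 2 = ‖x k‖ ^ 2 + ‖y w k - x k‖ ^ 2 +
        2 * ((starRingEnd ℂ) (x k) * (y w k - x k)).re := by
      intro k
      simp only [← Complex.normSq_eq_norm_sq, Complex.normSq_apply, Complex.mul_re, Complex.conj_re,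
        Complex.conj_im, Complex.sub_re, Complex.sub_im]
      ring
    rw [Finset.sum_congr rfl fun k _ => h3 k, Finset.sum_add_distrib, Finset.sum_add_distrib,
      ← Finset.mul_sum, ← Complex.re_sum, h2]
    simp only [Complex.zero_re, mul_zero, add_zero]
    rfl
  -- the estimate of the orthogonal component
  set ε : ℝ := (C - D * β) / (2 * (D + 1)) with hε
  have hεp : 0 < ε := by
    have : 0 < C - D * β := by linarith
    positivity
  have hδ : 0 < C - D * (β + ε) := by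
    have h1 : (D : ℝ) * ε ≤ (C - D * β) / 2 := by
      rw [hε]
      have h2 : 0 < C - D * β := by linarith
      rw [mul_div_assoc', div_le_div_iff₀ (by positivity) (by norm_num)]
      nlinarith
    have h2 : 0 < C - D * β := by linarith
    have h3 : (D : ℝ) * (β + ε) = D * β + D * ε := by ring
    rw [h3]
    linarith
  set δ : ℝ := C - D * (β + ε) with hδdef
  have hN2b : ∀ᶠ w in 𝓝 p, N2 w ≤ (β + ε) * S * ‖w - p‖ ^ 2 := by
    have h1 : Tendsto (fun w => ∑ k, ‖slope (fun w => y w k) p w‖ ^ 2) (𝓝[≠] p)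
        (𝓝 (∑ k, ‖v' k‖ ^ 2)) := by
      refine tendsto_finsetSum _ fun k _ => ?_
      exact ((hasDerivAt_iff_tendsto_slope.1 (hyd k)).norm).pow 2
    have h2 : ∑ k, ‖v' k‖ ^ 2 < (β + ε) * S := by nlinarith
    have h3 := h1.eventually_lt_const h2
    rw [eventually_nhdsWithin_iff] at h3
    filter_upwards [h3] with w hw
    by_cases hwp : w = p
    · rw [hwp, sub_self, norm_zero, hN2]
      simp only
      rw [hyp]
      simp
    · have h4 := hw hwp
      have h5 : N2 w = (∑ k, ‖slope (fun w => y w k) p w‖ ^ 2) * ‖w - p‖ ^ 2 := by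
        rw [hN2]
        simp only
        rw [Finset.sum_mul]
        refine Finset.sum_congr rfl fun k _ => ?_
        rw [slope_def_field, norm_div, div_pow, hyp, div_mul_cancel₀]
        exact pow_ne_zero _ (norm_ne_zero_iff.2 (sub_ne_zero.2 hwp))
      rw [h5]
      exact mul_le_mul_of_nonneg_right h4.le (by positivity)
  -- the holomorphic comparison function
  set H : ℂ → ℂ := fun w => (eval (y w) P) ^ 2 * (h w) ^ 2 *
    Complex.exp (C * (((‖p‖ ^ 2 : ℝ) : ℂ) + 2 * ((starRingEnd ℂ) p * (w - p)))) / (S : ℂ) ^ D with hH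
  have hHa : AnalyticAt ℂ H p := by
    have h1 : AnalyticAt ℂ (fun w => eval (y w) P) p := by
      have h2 := AnalyticAt.aeval_mvPolynomial (𝕜 := ℂ) (B := ℂ) (f := y) (z := p)
        (fun i => (analyticAt_pi_iff.1 hya) i) P
      simpa [aeval_eq_eval] using h2
    have h3 : AnalyticAt ℂ (fun w : ℂ =>
        Complex.exp (C * (((‖p‖ ^ 2 : ℝ) : ℂ) + 2 * ((starRingEnd ℂ) p * (w - p))))) p := by
      apply AnalyticAt.cexp
      fun_prop
    exact (((h1.pow 2).mul (hh.pow 2)).mul h3).div_const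
  have hHn : ∀ w, ‖H w‖ = ‖eval (y w) P‖ ^ 2 / S ^ D * ‖h w‖ ^ 2 *
      Real.exp (C * (‖w‖ ^ 2 - ‖w - p‖ ^ 2)) := by
    intro w
    rw [hH]
    simp only
    rw [norm_div, norm_mul, norm_mul, norm_pow, norm_pow, norm_pow, Complex.norm_real,
      Real.norm_of_nonneg hSp.le, Complex.norm_exp, Complex.re_ofReal_mul]
    have h1 : (((‖p‖ ^ 2 : ℝ) : ℂ) + 2 * ((starRingEnd ℂ) p * (w - p))).re =
        ‖w‖ ^ 2 - ‖w - p‖ ^ 2 := by
      simp only [← Complex.normSq_eq_norm_sq, Complex.normSq_apply, Complex.mul_re, Complex.conj_re,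
        Complex.conj_im, Complex.sub_re, Complex.sub_im, Complex.add_re, Complex.ofReal_re,
        Complex.mul_im]
      have e2 : (2 : ℂ).re = 2 := rfl
      have e3 : (2 : ℂ).im = 0 := rfl
      rw [e2, e3]
      ring
    rw [h1]
    ring
  set E : ℂ → ℝ := fun z => np P D (φ z) * Real.exp (C * ‖z‖ ^ 2) * ‖h z‖ ^ 2 with hE
  have hEp : E p = ‖H p‖ := by
    rw [hHn, hyp, hE]
    simp only
    rw [(hφF p hpV).2, np_Phi hP (hφF p hpV).1, sub_self, norm_zero]
    unfold nq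
    rw [← hx, ← hS]
    have h1 : C * (‖p‖ ^ 2 - 0 ^ 2) = C * ‖p‖ ^ 2 := by ring
    rw [h1]
    ring
  have hElow : ∀ᶠ w in 𝓝 p, ‖H w‖ * Real.exp (δ * ‖w - p‖ ^ 2) ≤ E w := by
    filter_upwards [hnear, hN2b] with w hw hw2
    rw [hHn, hE]
    simp only
    rw [(hφF w hw.2).2, np_Phi hP (hφF w hw.2).1]
    have h1 : nq P D (F w) = nq P D (y w) := (nq_smul hP (inv_ne_zero hw.1) (F w)).symm
    rw [h1]
    unfold nq
    rw [hpyth w hw.1]
    have h2 : (S + N2 w) ^ D ≤ S ^ D * Real.exp (D * (β + ε) * ‖w - p‖ ^ 2) := by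
      have h3 : S + N2 w ≤ S * Real.exp ((β + ε) * ‖w - p‖ ^ 2) := by
        have h4 := Real.add_one_le_exp ((β + ε) * ‖w - p‖ ^ 2)
        have h5 := mul_le_mul_of_nonneg_left h4 hSp.le
        nlinarith
      have h6 := pow_le_pow_left₀ (by have := hN20 w; positivity) h3 D
      refine h6.trans (le_of_eq ?_)
      rw [mul_pow, ← Real.exp_nat_mul]
      congr 2
      ring
    have h3 : ‖eval (y w) P‖ ^ 2 / S ^ D * Real.exp (-(D * (β + ε) * ‖w - p‖ ^ 2)) ≤
        ‖eval (y w) P‖ ^ 2 / (S + N2 w) ^ D := by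
      have hpos : 0 < (S + N2 w) ^ D := pow_pos (by have := hN20 w; positivity) D
      rw [Real.exp_neg, ← div_eq_mul_inv, div_div]
      exact div_le_div_of_nonneg_left (by positivity) hpos h2
    calc ‖eval (y w) P‖ ^ 2 / S ^ D * ‖h w‖ ^ 2 * Real.exp (C * (‖w‖ ^ 2 - ‖w - p‖ ^ 2)) *
          Real.exp (δ * ‖w - p‖ ^ 2) =
        ‖eval (y w) P‖ ^ 2 / S ^ D * Real.exp (-(D * (β + ε) * ‖w - p‖ ^ 2)) *
          Real.exp (C * ‖w‖ ^ 2) * ‖h w‖ ^ 2 := by
          have h4 : Real.exp (C * (‖w‖ ^ 2 - ‖w - p‖ ^ 2)) * Real.exp (δ * ‖w - p‖ ^ 2) =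
              Real.exp (-(D * (β + ε) * ‖w - p‖ ^ 2)) * Real.exp (C * ‖w‖ ^ 2) := by
            rw [← Real.exp_add, ← Real.exp_add]
            congr 1
            rw [hδdef]
            ring
          calc _ = ‖eval (y w) P‖ ^ 2 / S ^ D * ‖h w‖ ^ 2 *
                (Real.exp (C * (‖w‖ ^ 2 - ‖w - p‖ ^ 2)) * Real.exp (δ * ‖w - p‖ ^ 2)) := by ring
            _ = _ := by rw [h4]; ring
      _ ≤ _ := mul_le_mul_of_nonneg_right (mul_le_mul_of_nonneg_right h3 (Real.exp_pos _).le)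
          (by positivity)
  have hEmax : ∀ᶠ w in 𝓝 p, E w ≤ E p := hmax
  have hHmax : IsLocalMax (norm ∘ H) p := by
    filter_upwards [hElow, hEmax] with w hw1 hw2
    have h1 : 1 ≤ Real.exp (δ * ‖w - p‖ ^ 2) := Real.one_le_exp (by positivity)
    have h2 := norm_nonneg (H w)
    change ‖H w‖ ≤ ‖H p‖
    rw [← hEp]
    nlinarith
  have hconst := Complex.eventually_eq_of_isLocalMax_norm
    (hHa.eventually_analyticAt.mono fun w hw => hw.differentiableAt) hHmax
  obtain ⟨w, hw, hwp⟩ := (((hElow.and (hEmax.and hconst)).filter_mono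
    (nhdsWithin_le_nhds (s := {p}ᶜ))).and (eventually_mem_nhdsWithin)).exists
  have hwp' : w ≠ p := hwp
  obtain ⟨h1, h2, h3⟩ := hw
  rw [hEp] at h2
  rw [h3] at h1
  have h4 : 1 < Real.exp (δ * ‖w - p‖ ^ 2) := by
    apply Real.one_lt_exp_iff.2
    have := norm_pos_iff.2 (sub_ne_zero.2 hwp')
    positivity
  have h5 : ‖H p‖ = 0 := by
    by_contra hcon
    have h6 : 0 < ‖H p‖ := lt_of_le_of_ne (norm_nonneg _) (Ne.symm hcon)
    nlinarith
  change E p = 0
  rw [hEp, h5]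

end Pool.Agent.Helper65.GG
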