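import Pool.Agent.Helper65.GG.Flat
import Pool.Agent.Helper65.GG.Grow
import Pool.Agent.Helper65.GG.Mx2

/-!
The forms which vanish along the doubly periodic curves vanish along all entire curves.
-/

set_option autoImplicit false

open Filter Topology Metric MvPolynomial Set

namespace Pool.Agent.Helper65.GG

open Pool.Agent.W602.GT Pool.Agent.N155.BB Pool.Agent.Y190.OP Pool.Agent.N155
  Pool.Agent.N155.GD Pool.Agent.Helper65.BF

variable {n k D : ℕ} {T : Set (Mat (n + 1))} {G : (ℂ → Mat (n + 1)) → ℂ → ℂ}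
  {P : MvPolynomial (Fin (n + 1)) ℂ} {φ : ℂ → Mat (n + 1)}

/-- the Poisson kernel -/
theorem poisson (a p : ℂ) : ((a + p) / (a - p)).re = (‖a‖ ^ 2 - ‖p‖ ^ 2) / ‖a - p‖ ^ 2 := by
  rw [Complex.div_re, ← add_div, Complex.normSq_eq_norm_sq]
  congr 1
  rw [← Complex.normSq_eq_norm_sq, ← Complex.normSq_eq_norm_sq, Complex.normSq_apply,
    Complex.normSq_apply]
  simp only [Complex.add_re, Complex.sub_re, Complex.add_im, Complex.sub_im]
  ring

/-- the bound for the derivative -/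
theorem deriv_bound (hk : 0 < k) {C0 : ℝ} (hC0 : 1 ≤ C0)
    (hsch : ∀ (φ : ℂ → Mat (n + 1)) (z : ℂ) (s : ℝ), 0 < s →
      CvOn T (ball z s) φ → (∀ w ∈ ball z s, s ^ k * ‖G φ w‖ ≤ 1) → ‖fderiv ℝ φ z‖ ≤ C0 / s)
    (hφ : CvOn T univ φ) {a : ℂ} {ν q B C2 : ℝ} (ha1 : 1 ≤ ‖a‖) (hν : 0 ≤ ν) (hq : 40 ≤ q)
    (hB : 0 < B) (hgB : ‖G φ a‖ = B ^ k) (hC2 : ν ^ 3 + k ≤ C2 * B)
    (hin : ∀ w, ‖w‖ ≤ ‖a‖ → ‖G φ w‖ ≤ ‖G φ a‖)
    (hgr : ∀ (w : ℂ) (t : ℝ), ‖w‖ = ‖a‖ * Real.exp t → |t| * ν ≤ q →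
        ‖G φ w‖ ≤ ‖G φ a‖ * Real.exp (ν ^ 3 * t + 4 * ν ^ 4 * t ^ 2 / q)) {z : ℂ}
    (hz : ‖z‖ ≤ ‖a‖) : ‖fderiv ℝ φ z‖ ≤ C0 * (2 * C2 + 3) * B := by
  have hk1 : (1 : ℝ) ≤ k := by exact_mod_cast hk
  have hM : 0 < ν ^ 3 + k := by positivity
  have hM1 : 1 ≤ ν ^ 3 + k := by
    have : 0 ≤ ν ^ 3 := by positivity
    linarith
  have hap : 0 < ‖a‖ := by linarith
  set s : ℝ := min (‖a‖ / (2 * (ν ^ 3 + k))) (1 / (3 * B)) with hs
  have hs0 : 0 < s := by positivity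
  have hs1 : s ≤ ‖a‖ / (2 * (ν ^ 3 + k)) := min_le_left _ _
  have hs2 : s * B ≤ 1 / 3 := by
    have h1 : s ≤ 1 / (3 * B) := min_le_right _ _
    rw [le_div_iff₀ (by positivity)] at h1
    linarith
  have hg : ∀ w ∈ ball z s, ‖G φ w‖ ≤ Real.exp 1 * B ^ k := by
    intro w hw
    rw [← hgB]
    have hw1 : ‖w‖ ≤ ‖a‖ * (1 + 1 / (2 * (ν ^ 3 + k))) := by
      rw [mem_ball, dist_eq_norm] at hw
      have h1 := norm_add_le (w - z) z
      rw [sub_add_cancel] at h1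
      have h2 : ‖a‖ * (1 + 1 / (2 * (ν ^ 3 + k))) = ‖a‖ + ‖a‖ / (2 * (ν ^ 3 + k)) := by ring
      rw [h2]
      linarith
    have he1 : 1 ≤ Real.exp 1 := Real.one_le_exp zero_le_one
    by_cases hwa : ‖w‖ ≤ ‖a‖
    · have h1 := hin w hwa
      have h2 := norm_nonneg (G φ a)
      nlinarith
    · push Not at hwa
      have hwp : 0 < ‖w‖ := by linarith
      set t : ℝ := Real.log (‖w‖ / ‖a‖) with ht
      have hwt : ‖w‖ = ‖a‖ * Real.exp t := by
        rw [ht, Real.exp_log (by positivity)]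
        field_simp
      have ht0 : 0 ≤ t := by
        apply Real.log_nonneg
        rw [le_div_iff₀ hap]
        linarith
      have htx : t * (2 * (ν ^ 3 + k)) ≤ 1 := by
        have h1 : t ≤ ‖w‖ / ‖a‖ - 1 := Real.log_le_sub_one_of_pos (by positivity)
        have h2 : ‖w‖ / ‖a‖ ≤ 1 + 1 / (2 * (ν ^ 3 + k)) := by
          rw [div_le_iff₀ hap]
          linarith
        have h3 : t ≤ 1 / (2 * (ν ^ 3 + k)) := by linarith
        rwa [le_div_iff₀ (by positivity)] at h3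
      have hν1 : ν ≤ ν ^ 3 + k := by nlinarith [sq_nonneg (ν - 1), sq_nonneg ν]
      have hν2 : ν ^ 2 ≤ ν ^ 3 + k := by nlinarith [sq_nonneg (ν - 1), sq_nonneg ν]
      have htν : t * ν ≤ 1 / 2 := by
        have := mul_le_mul_of_nonneg_left hν1 ht0
        linarith
      have htν2 : t * ν ^ 2 ≤ 1 / 2 := by
        have := mul_le_mul_of_nonneg_left hν2 ht0
        linarith
      have htν3 : ν ^ 3 * t ≤ 1 / 2 := by
        have h1 : ν ^ 3 ≤ ν ^ 3 + k := by linarith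
        have := mul_le_mul_of_nonneg_left h1 ht0
        linarith
      have h1 := hgr w t hwt (by
        rw [abs_of_nonneg ht0]
        linarith)
      refine h1.trans ?_
      rw [mul_comm (Real.exp 1)]
      refine mul_le_mul_of_nonneg_left (Real.exp_le_exp.2 ?_) (norm_nonneg _)
      have h2 : 4 * ν ^ 4 * t ^ 2 / q ≤ 1 / 2 := by
        rw [div_le_iff₀ (by linarith)]
        have h3 : (t * ν ^ 2) ^ 2 ≤ (1 / 2) ^ 2 := pow_le_pow_left₀ (by positivity) htν2 2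
        nlinarith
      linarith
  have h1 := hsch φ z s hs0 (hφ.mono (subset_univ _)) (fun w hw => by
    have h2 := hg w hw
    have h3 : Real.exp 1 ≤ 3 := by
      have := Real.exp_one_lt_d9
      linarith
    have h4 : (s * B) ^ k ≤ 1 / 3 := by
      calc (s * B) ^ k ≤ (1 / 3) ^ k := pow_le_pow_left₀ (by positivity) hs2 k
        _ ≤ (1 / 3) ^ 1 := pow_le_pow_of_le_one (by norm_num) (by norm_num) hk
        _ = 1 / 3 := pow_one _
    calc s ^ k * ‖G φ w‖ ≤ s ^ k * (Real.exp 1 * B ^ k) :=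
          mul_le_mul_of_nonneg_left h2 (by positivity)
      _ = Real.exp 1 * (s * B) ^ k := by rw [mul_pow]; ring
      _ ≤ 3 * (1 / 3) := mul_le_mul h3 h4 (by positivity) (by norm_num)
      _ = 1 := by norm_num)
  refine h1.trans ?_
  rw [div_le_iff₀ hs0]
  -- `1 ≤ (2 C2 + 3) B s`
  have h2 : 1 ≤ (2 * C2 + 3) * B * s := by
    rcases min_choice (‖a‖ / (2 * (ν ^ 3 + k))) (1 / (3 * B)) with h | h
    · rw [← hs] at h
      rw [h]
      have h3 : 1 ≤ 2 * C2 * B * (‖a‖ / (2 * (ν ^ 3 + k))) := by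
        rw [← mul_div_assoc, le_div_iff₀ (by positivity), one_mul]
        have h4 : 2 * (ν ^ 3 + k) * 1 ≤ 2 * (C2 * B) * ‖a‖ :=
          mul_le_mul (by linarith) ha1 zero_le_one (by linarith)
        linarith
      have h4 : 0 ≤ 3 * B * (‖a‖ / (2 * (ν ^ 3 + k))) := by positivity
      linarith
    · rw [← hs] at h
      rw [h]
      have h3 : 3 * B * (1 / (3 * B)) = 1 := by field_simp
      have h4 : 0 ≤ 2 * (C2 * B) * (1 / (3 * B)) := by
        have : 0 ≤ C2 * B := by linarith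
        positivity
      linarith
  calc C0 = C0 * 1 := (mul_one _).symm
    _ ≤ C0 * ((2 * C2 + 3) * B * s) := mul_le_mul_of_nonneg_left h2 (by linarith)
    _ = _ := by ring

/-- the global maximum principle -/
theorem max_global (hφ : HolP univ φ) (hP : P.IsHomogeneous D) {A1 : ℝ}
    (hmx : ∀ (p : ℂ) (h : ℂ → ℂ) (C : ℝ), AnalyticAt ℂ h p →
      D * (A1 * ‖fderiv ℝ φ p‖ ^ 2) < C →
      IsLocalMax (fun z => np P D (φ z) * Real.exp (C * ‖z‖ ^ 2) * ‖h z‖ ^ 2) p →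
      np P D (φ p) * Real.exp (C * ‖p‖ ^ 2) * ‖h p‖ ^ 2 = 0)
    {a : ℂ} {r0 H CP C : ℝ} (hr0 : 0 < r0) (hra : r0 < ‖a‖) (hH : 0 ≤ H) (hCP : 0 ≤ CP)
    (hC0 : 0 ≤ C) (hC : ∀ z, ‖z‖ ≤ ‖a‖ → D * (A1 * ‖fderiv ℝ φ z‖ ^ 2) < C)
    (hb : ∀ z, np P D (φ z) ≤ CP)
    (hcl : ∀ z, ‖z - a‖ ≤ r0 → np P D (φ z) ≤ CP * Real.exp (-(2 * H))) :
    np P D (φ 0) * Real.exp (H * r0 / ‖a‖) ≤ CP * Real.exp (C * ‖a‖ ^ 2) := by
  have ha : 0 < ‖a‖ := hr0.trans hra
  set H' : ℝ := H * r0 / (2 * ‖a‖) with hH'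
  set h : ℂ → ℂ := fun z => Complex.exp ((H' : ℂ) * ((a + z) / (a - z))) with hh
  have hnh : ∀ z, ‖h z‖ ^ 2 = Real.exp (2 * H' * ((‖a‖ ^ 2 - ‖z‖ ^ 2) / ‖a - z‖ ^ 2)) := by
    intro z
    rw [hh]
    simp only
    rw [Complex.norm_exp, Complex.re_ofReal_mul, poisson, ← Real.exp_nat_mul]
    congr 1
    push_cast
    ring
  set E : ℂ → ℝ := fun z => np P D (φ z) * Real.exp (C * ‖z‖ ^ 2) * ‖h z‖ ^ 2 with hE
  have hnp : ∀ z, 0 ≤ np P D (φ z) := fun z => nq_nonneg _ _ _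
  have hE0 : E 0 = np P D (φ 0) * Real.exp (H * r0 / ‖a‖) := by
    rw [hE]
    simp only
    rw [hnh, norm_zero, sub_zero]
    have e1 : 2 * H' * ((‖a‖ ^ 2 - 0 ^ 2) / ‖a‖ ^ 2) = H * r0 / ‖a‖ := by
      rw [hH']
      field_simp
      ring
    rw [e1]
    simp
  rw [← hE0]
  by_contra hcon
  push Not at hcon
  have hE0p : 0 < E 0 := lt_of_le_of_lt (by positivity) hcon
  set Kc : Set ℂ := closedBall 0 ‖a‖ ∩ {z | r0 ≤ ‖z - a‖} with hKc
  have hKcc : IsCompact Kc := (isCompact_closedBall _ _).inter_right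
    (isClosed_le continuous_const (continuous_id.sub continuous_const).norm)
  have hane : ∀ z ∈ Kc, a - z ≠ 0 := by
    rintro z ⟨-, hz⟩ h0
    have hz' : r0 ≤ ‖z - a‖ := hz
    rw [norm_sub_rev, h0, norm_zero] at hz'
    linarith
  have hha : ∀ z, a - z ≠ 0 → AnalyticAt ℂ h z := by
    intro z hz
    apply AnalyticAt.cexp
    exact analyticAt_const.mul ((analyticAt_const.add analyticAt_id).div
      (analyticAt_const.sub analyticAt_id) hz)
  have hEc : ContinuousOn E Kc := by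
    intro z hz
    refine ContinuousAt.continuousWithinAt ?_
    exact ((np_contAt hP hφ (mem_univ z)).mul (by fun_prop)).mul
      ((hha z (hane z hz)).continuousAt.norm.pow 2)
  have h0K : (0 : ℂ) ∈ Kc := by
    refine ⟨mem_closedBall_self ha.le, ?_⟩
    change r0 ≤ ‖0 - a‖
    rw [zero_sub, norm_neg]
    exact hra.le
  obtain ⟨p, hpK, hpmax⟩ := hKcc.exists_isMaxOn ⟨0, h0K⟩ hEc
  have hpmax' : ∀ z ∈ Kc, E z ≤ E p := fun z hz => hpmax hz
  have hp1 : ‖p‖ ≤ ‖a‖ := mem_closedBall_zero_iff.1 hpK.1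
  have hp2 : r0 ≤ ‖p - a‖ := hpK.2
  have hEp : E 0 ≤ E p := hpmax' 0 h0K
  have hexp : Real.exp (C * ‖p‖ ^ 2) ≤ Real.exp (C * ‖a‖ ^ 2) :=
    Real.exp_le_exp.2 (mul_le_mul_of_nonneg_left (pow_le_pow_left₀ (norm_nonneg _) hp1 2) hC0)
  have hcases : E p ≤ CP * Real.exp (C * ‖a‖ ^ 2) ∨ E p = 0 := by
    rcases hp1.eq_or_lt with h1 | h1
    · left
      have h2 : ‖h p‖ ^ 2 = 1 := by
        rw [hnh, h1]
        simp
      rw [hE]
      simp only
      rw [h2, mul_one]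
      exact mul_le_mul (hb p) hexp (Real.exp_pos _).le hCP
    · rcases hp2.eq_or_lt with h2 | h2
      · left
        have h3 : ‖h p‖ ^ 2 ≤ Real.exp (2 * H) := by
          rw [hnh]
          apply Real.exp_le_exp.2
          have h4 : (‖a‖ ^ 2 - ‖p‖ ^ 2) / ‖a - p‖ ^ 2 ≤ 2 * ‖a‖ / r0 := by
            rw [norm_sub_rev, ← h2, div_le_div_iff₀ (by positivity) hr0]
            have h5 : ‖a‖ - ‖p‖ ≤ r0 := by
              have h6 := norm_sub_norm_le a p
              rw [norm_sub_rev, ← h2] at h6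
              exact h6
            have h6 := norm_nonneg p
            have h7 : ‖a‖ ^ 2 - ‖p‖ ^ 2 ≤ 2 * ‖a‖ * r0 := by nlinarith
            nlinarith
          have h5 : 0 ≤ H' := by positivity
          calc 2 * H' * ((‖a‖ ^ 2 - ‖p‖ ^ 2) / ‖a - p‖ ^ 2) ≤ 2 * H' * (2 * ‖a‖ / r0) :=
                mul_le_mul_of_nonneg_left h4 (by positivity)
            _ = 2 * H := by
                rw [hH']
                field_simp
        have h4 := hcl p h2.ge
        rw [hE]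
        simp only
        calc np P D (φ p) * Real.exp (C * ‖p‖ ^ 2) * ‖h p‖ ^ 2 ≤
            CP * Real.exp (-(2 * H)) * Real.exp (C * ‖a‖ ^ 2) * Real.exp (2 * H) := by
              have h5 := Real.exp_pos (-(2 * H))
              exact mul_le_mul (mul_le_mul h4 hexp (Real.exp_pos _).le (by positivity)) h3
                (by positivity) (by positivity)
          _ = CP * Real.exp (C * ‖a‖ ^ 2) * (Real.exp (-(2 * H)) * Real.exp (2 * H)) := by ring
          _ = _ := by rw [← Real.exp_add]; simp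
      · right
        apply hmx p h C (hha p (hane p hpK)) (hC p hp1)
        have h3 : ∀ᶠ z in 𝓝 p, z ∈ Kc := by
          have e1 : ∀ᶠ z : ℂ in 𝓝 p, ‖z‖ < ‖a‖ := continuous_norm.continuousAt.eventually_lt_const h1
          have e2 : ∀ᶠ z : ℂ in 𝓝 p, r0 < ‖z - a‖ :=
            (continuous_id.sub continuous_const).norm.continuousAt.eventually_const_lt h2
          filter_upwards [e1, e2] with z hz1 hz2
          exact ⟨mem_closedBall_zero_iff.2 hz1.le, hz2.le⟩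
        exact h3.mono hpmax'
  rcases hcases with h1 | h1
  · linarith
  · linarith

end Pool.Agent.Helper65.GG
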