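import Pool.Agent.Helper65.GG.Base

/-!
Curves on discs along which an invariant jet differential has modulus near 1 are exponentially
close to finitely many doubly periodic curves.
-/

set_option autoImplicit false

open Filter Topology Metric MvPolynomial Set

namespace Pool.Agent.Helper65.GG

open Pool.Agent.W602.GT Pool.Agent.N155.BB Pool.Agent.Y190.OP Pool.Agent.N155
  Pool.Agent.N155.GD Pool.Agent.Helper65.BF

variable {n k : ℕ} {κ' : Type}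
  {η : κ' → (Fin (n + 1) → ℂ) → (Fin (n + 1) → ℂ) → (Fin (n + 1) → ℂ) → ℂ}
  {G : (ℂ → Mat (n + 1)) → ℂ → ℂ}

theorem gw_mono {T T' Z : Set (Mat (n + 1))} (h : GW T Z η) (hs : T' ⊆ T) : GW T' Z η where
  closed := h.closed
  homog := fun M hM => h.homog M (hs hM)
  loc := fun M0 hM0 => by
    obtain ⟨i, d, J, O, U, Ψ, h1, h2, h3, h4, h5, h6, h7⟩ := h.loc M0 (hs hM0)
    exact ⟨i, d, J, O, U, Ψ, h1, h2, h3, h4, h5, h6, fun M hM =>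
      ⟨(h7 M hM).1, (h7 M hM).2.1, fun hMT => (h7 M hM).2.2 (hs hMT)⟩⟩

theorem JI.subset {T T' : Set (Mat (n + 1))} (h : JI T k G) (hs : T' ⊆ T) : JI T' k G where
  hol := fun φ U hU hφ => h.hol φ U hU ⟨hφ.1, fun w hw => hs (hφ.2 w hw)⟩
  comp := fun φ U hU hφ => h.comp φ U hU ⟨hφ.1, fun w hw => hs (hφ.2 w hw)⟩
  bd := by
    obtain ⟨C, hC, hb⟩ := h.bd
    exact ⟨C, hC, fun φ z hφ => hb φ z ⟨hφ.1, fun w hw => hs (hφ.2 w hw)⟩⟩
  lim := fun 𝓤 P H r hr hP hc hH => h.lim 𝓤 P H r hr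
    (hP.mono fun m hm => ⟨hm.1, fun w hw => hs (hm.2 w hw)⟩) hc
    ⟨hH.1, fun w hw => hs (hH.2 w hw)⟩

/-- **Rigidity.** -/
theorem disc_engine {T Z : Set (Mat (n + 1))} (hT : IsCompact T) (hTP : T ⊆ PM)
    (hgw : GW T Z η) (hout0 : ∀ c : ℝ, 0 < c → ∀ φ, BCw T c φ → ∃ z, φ z ∉ Z) (hJ : JI T k G)
    (hk : 0 < k) (hnd : ND T G) :
    ∃ (S : Finset (ℂ → Mat (n + 1))) (R κ c0 : ℝ), 0 < R ∧ 0 < κ ∧ 0 < c0 ∧
      (∀ g ∈ S, BCw T c0 g ∧ ∃ p q : ℂ, LinearIndependent ℝ ![p, q] ∧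
        (∀ z, g (z + p) = g z) ∧ ∀ z, g (z + q) = g z) ∧
      (∀ (a : ℂ) (r : ℝ) (φ : ℂ → Mat (n + 1)), CvOn T (ball a r) φ →
        (∀ w ∈ ball a r, 1 / 2 ≤ ‖G φ w‖ ∧ ‖G φ w‖ ≤ 2) → ∀ z : ℂ, ‖z - a‖ ≤ r - R →
        ∃ g ∈ S, ∃ w : ℂ, ‖φ z - g w‖ ≤ Real.exp (-κ * ((r - 2) ^ 2 - ‖z - a‖ ^ 2))) ∧
      ∀ φ : ℂ → Mat (n + 1), CvOn T univ φ → (∀ w, 1 / 2 ≤ ‖G φ w‖ ∧ ‖G φ w‖ ≤ 2) →
        ∃ g ∈ S, ∃ α β : ℂ, α ≠ 0 ∧ ∀ z, φ z = g (α * z + β) := by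
  classical
  obtain ⟨c1, C1, hc1, hC1, htwo⟩ := two_sided hJ hk hT hTP hnd
  set ρ : ℝ := 2 / C1 with hρ
  have hρ0 : 0 < ρ := by positivity
  have hρc : (ρ : ℂ) ≠ 0 := by exact_mod_cast hρ0.ne'
  set c0 : ℝ := ρ * c1 with hc0
  have hc0p : 0 < c0 := by positivity
  have hcls := BCw.cls hT hTP hc0p
  have hdcl := dcl_of hT hTP hc0p
  have hout : ∀ φ, BCw T c0 φ → ∃ z, φ z ∉ Z := hout0 c0 hc0p
  obtain ⟨S, hS1, hS2⟩ := finite_class hgw hout hcls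
  obtain ⟨R0, κ0, hR0, hκ0, hdisc⟩ := disc_close hgw hout hdcl
  -- the rescaled curves
  have hresc : ∀ (a : ℂ) (U : Set ℂ) (φ : ℂ → Mat (n + 1)),
      CvOn T U φ → (∀ w ∈ U, 1 / 2 ≤ ‖G φ w‖ ∧ ‖G φ w‖ ≤ 2) →
      ∀ z : ℂ, ball (aff a ρ z) 2 ⊆ U →
      φ (aff a ρ z) ∈ T ∧ ‖fderiv ℝ (fun z => φ (aff a ρ z)) z‖ ≤ 2 ∧
        c0 ≤ ‖fderiv ℝ (fun z => φ (aff a ρ z)) z‖ := by
    intro a U φ hφ hG z hz
    have hzU : aff a ρ z ∈ U := hz (mem_ball_self two_pos)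
    have hnorm : ‖fderiv ℝ (fun z => φ (aff a ρ z)) z‖ = ρ * ‖fderiv ℝ φ (aff a ρ z)‖ :=
      norm_fderiv_aff (Ψ := φ) hρ0.le (hφ.1.differentiableAt hzU)
    obtain ⟨h1, h2⟩ := htwo φ (aff a ρ z) (hφ.mono hz) (fun w hw => hG w (hz hw))
    refine ⟨hφ.2 _ hzU, ?_, ?_⟩
    · rw [hnorm, hρ, div_mul_eq_mul_div, div_le_iff₀ hC1]
      linarith
    · rw [hnorm]
      exact mul_le_mul_of_nonneg_left h1 hρ0.le
  refine ⟨S, ρ * R0 + 2, κ0 / ρ ^ 2, c0, by positivity, by positivity, hc0p,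
    fun g hg => ⟨hS1 g hg, two_periods hgw hout hcls (hS1 g hg)⟩, ?_, ?_⟩
  · intro a r φ hφ hG z hz
    have hr : ρ * R0 ≤ r - 2 := by
      have := norm_nonneg (z - a)
      linarith
    have hmaps : ∀ z ∈ ball (0 : ℂ) ((r - 2) / ρ), ball (aff a ρ z) 2 ⊆ ball a r := by
      intro z hz w hw
      rw [mem_ball_zero_iff, lt_div_iff₀ hρ0] at hz
      rw [mem_ball] at hw ⊢
      have h1 : dist (aff a ρ z) a = ρ * ‖z‖ := by
        unfold aff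
        rw [dist_eq_norm, add_sub_cancel_left, norm_mul, Complex.norm_real,
          Real.norm_of_nonneg hρ0.le]
      have h2 := dist_triangle w (aff a ρ z) a
      rw [h1] at h2
      nlinarith
    have hmem : ∀ z ∈ ball (0 : ℂ) ((r - 2) / ρ), aff a ρ z ∈ ball a r := fun z hz =>
      hmaps z hz (mem_ball_self two_pos)
    have hD : Dw T c0 ((r - 2) / ρ) (fun z => φ (aff a ρ z)) :=
      ⟨(hφ.1.aff a ρ).mono hmem, fun z hz => (hresc a _ φ hφ hG z (hmaps z hz)).1,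
        fun z hz => (hresc a _ φ hφ hG z (hmaps z hz)).2.1,
        fun z hz => (hresc a _ φ hφ hG z (hmaps z hz)).2.2⟩
    obtain ⟨Q, hQ, hQ2⟩ := hdisc ((r - 2) / ρ) _ (by
      rw [le_div_iff₀ hρ0]
      linarith) hD
    obtain ⟨g, hg, α, β, hαβ⟩ := hS2 Q hQ
    have hzz : aff a ρ ((z - a) / ρ) = z := by
      unfold aff
      field_simp
      ring
    have hnz : ‖(z - a) / (ρ : ℂ)‖ = ‖z - a‖ / ρ := by
      rw [norm_div, Complex.norm_real, Real.norm_of_nonneg hρ0.le]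
    obtain ⟨w, hw2⟩ := hQ2 ((z - a) / ρ) (by
      rw [hnz, div_le_iff₀ hρ0, sub_mul, div_mul_cancel₀ _ hρ0.ne']
      linarith)
    refine ⟨g, hg, α * w + β, ?_⟩
    rw [hzz, hαβ] at hw2
    refine hw2.trans (le_of_eq ?_)
    rw [hnz]
    congr 1
    field_simp
  · intro φ hφ hG
    have hmem : BCw T c0 (fun z => φ (aff 0 ρ z)) :=
      ⟨(hφ.1.aff 0 ρ).mono fun z _ => mem_univ _,
        fun z => (hresc 0 _ φ hφ (fun w _ => hG w) z (subset_univ _)).1,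
        fun z => (hresc 0 _ φ hφ (fun w _ => hG w) z (subset_univ _)).2.1,
        fun z => (hresc 0 _ φ hφ (fun w _ => hG w) z (subset_univ _)).2.2⟩
    obtain ⟨g, hg, α, β, hαβ⟩ := hS2 _ hmem
    obtain ⟨hα, -⟩ := hcls.alpha hmem (hS1 g hg) hαβ
    have hα0 : α ≠ 0 := by
      intro h0
      rw [h0, norm_zero] at hα
      linarith
    refine ⟨g, hg, α / ρ, β, div_ne_zero hα0 hρc, fun z => ?_⟩
    have h1 := hαβ (z / ρ)
    have h3 : aff 0 ρ (z / ρ) = z := by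
      unfold aff
      rw [zero_add, mul_div_cancel₀ _ hρc]
    rw [h3] at h1
    have h2 : α / ρ * z + β = α * (z / ρ) + β := by ring
    rw [h2, ← h1]

end Pool.Agent.Helper65.GG
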