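import Pool.Agent.Helper65.GG.Mx2

/-!
A doubly periodic curve of bounded derivative lies in a hypersurface given by a form in three of
the coordinates.
-/

set_option autoImplicit false

open Filter Topology Metric MvPolynomial Set

namespace Pool.Agent.Helper65.GG

open Pool.Agent.W602.GT Pool.Agent.N155.BB Pool.Agent.Y190.OP Pool.Agent.N155
  Pool.Agent.N155.GD Pool.Agent.Helper65.BF

variable {n : ℕ}

/-- the points of a bounded set suffice -/
theorem fund {X : Type*} {g : ℂ → X} {p q : ℂ} (hind : LinearIndependent ℝ ![p, q])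
    (hp : ∀ z, g (z + p) = g z) (hq : ∀ z, g (z + q) = g z) (z : ℂ) :
    ∃ w : ℂ, ‖w‖ ≤ ‖p‖ + ‖q‖ ∧ g w = g z := by
  obtain ⟨L, hL⟩ : ∃ L : PeriodPair, L.ω₁ = p ∧ L.ω₂ = q := ⟨⟨p, q, hind⟩, rfl, rfl⟩
  have hn : ∀ {p : ℂ}, (∀ z, g (z + p) = g z) → ∀ (k : ℕ) (z : ℂ), g (z + k * p) = g z := by
    intro p hp k
    induction k with
    | zero => intro z; simp
    | succ k ih =>
      intro z
      have e : z + ((k + 1 : ℕ) : ℂ) * p = z + k * p + p := by
        push_cast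
        ring
      rw [e, hp, ih]
  have hi : ∀ {p : ℂ}, (∀ z, g (z + p) = g z) → ∀ (k : ℤ) (z : ℂ), g (z + k * p) = g z := by
    intro p hp k z
    obtain ⟨j, rfl | rfl⟩ := k.eq_nat_or_neg
    · have := hn hp j z
      simpa using this
    · have := hn hp j (z + ((-(j : ℤ) : ℤ) : ℂ) * p)
      rw [← this]
      congr 1
      push_cast
      ring
  have hspan : ⊤ ≤ Submodule.span ℝ (Set.range ![p, q]) := by
    have hcard : Fintype.card (Fin 2) = Module.finrank ℝ ℂ := by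
      rw [Complex.finrank_real_complex, Fintype.card_fin]
    exact (hind.span_eq_top_of_card_eq_finrank hcard).ge
  have hz : z ∈ Submodule.span ℝ (Set.range ![p, q]) := hspan Submodule.mem_top
  rw [Matrix.range_cons, Matrix.range_cons, Matrix.range_empty, Set.union_empty,
    Set.singleton_union, Submodule.mem_span_pair] at hz
  obtain ⟨α, β, rfl⟩ := hz
  refine ⟨(Int.fract α : ℝ) * p + (Int.fract β : ℝ) * q, ?_, ?_⟩
  · refine (norm_add_le _ _).trans ?_
    rw [norm_mul, norm_mul, Complex.norm_real, Complex.norm_real,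
      Real.norm_of_nonneg (Int.fract_nonneg α), Real.norm_of_nonneg (Int.fract_nonneg β)]
    have h1 := mul_le_mul_of_nonneg_right (Int.fract_lt_one α).le (norm_nonneg p)
    have h2 := mul_le_mul_of_nonneg_right (Int.fract_lt_one β).le (norm_nonneg q)
    linarith
  · have e1 : α • p + β • q = ((Int.fract α : ℝ) * p + (Int.fract β : ℝ) * q) +
        (⌊α⌋ : ℤ) * p + (⌊β⌋ : ℤ) * q := by
      rw [Complex.real_smul, Complex.real_smul]
      have h1 : (α : ℂ) = ((Int.fract α : ℝ) : ℂ) + ((⌊α⌋ : ℤ) : ℂ) := by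
        have h2 := Int.fract_add_floor α
        calc (α : ℂ) = ((Int.fract α + (⌊α⌋ : ℝ) : ℝ) : ℂ) := by rw [h2]
          _ = _ := by push_cast; rfl
      have h1' : (β : ℂ) = ((Int.fract β : ℝ) : ℂ) + ((⌊β⌋ : ℤ) : ℂ) := by
        have h2 := Int.fract_add_floor β
        calc (β : ℂ) = ((Int.fract β + (⌊β⌋ : ℝ) : ℝ) : ℂ) := by rw [h2]
          _ = _ := by push_cast; rfl
      rw [h1, h1']
      ring
    rw [e1, hi hq, hi hp]

/-- the exponents -/
def ex3 (m : ℕ) (x : Fin (m + 1) × Fin (m + 1)) : Fin 3 → ℕ :=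
  ![2 * m - x.1 - x.2, x.1, x.2]

/-- the form in three variables with given coefficients -/
noncomputable def R3 (m : ℕ) (c : Fin (m + 1) × Fin (m + 1) → ℂ) : MvPolynomial (Fin 3) ℂ :=
  ∑ x, monomial (Finsupp.equivFunOnFinite.symm (ex3 m x)) (c x)

theorem R3_hom (m : ℕ) (c : Fin (m + 1) × Fin (m + 1) → ℂ) : (R3 m c).IsHomogeneous (2 * m) := by
  refine IsHomogeneous.sum _ _ _ fun x _ => isHomogeneous_monomial _ ?_
  rw [Finsupp.degree_eq_sum, Fin.sum_univ_three]
  simp only [Finsupp.equivFunOnFinite_symm_apply_apply, ex3, Matrix.cons_val_zero,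
    Matrix.cons_val_one, Matrix.cons_val]
  have h1 := x.1.isLt
  have h2 := x.2.isLt
  omega

theorem R3_ne (m : ℕ) {c : Fin (m + 1) × Fin (m + 1) → ℂ} (hc : c ≠ 0) : R3 m c ≠ 0 := by
  classical
  obtain ⟨x, hx⟩ := Function.ne_iff.1 hc
  intro h0
  have h1 := congrArg (coeff (Finsupp.equivFunOnFinite.symm (ex3 m x))) h0
  rw [R3, coeff_sum, coeff_zero, Finset.sum_eq_single x] at h1
  · rw [coeff_monomial, if_pos rfl] at h1
    exact hx h1
  · intro y _ hyx
    rw [coeff_monomial, if_neg]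
    intro h2
    apply hyx
    have h3 := Finsupp.equivFunOnFinite.symm.injective h2
    have h4 := congrFun h3 1
    have h5 := congrFun h3 2
    simp only [ex3, Matrix.cons_val_one, Matrix.cons_val_zero, Matrix.cons_val] at h4 h5
    exact Prod.ext (Fin.ext h4) (Fin.ext h5)
  · intro h2
    exact absurd (Finset.mem_univ _) h2

theorem R3_eval (m : ℕ) (c : Fin (m + 1) × Fin (m + 1) → ℂ) (y : Fin 3 → ℂ) :
    eval y (R3 m c) = ∑ x, c x * (y 0 ^ ex3 m x 0 * y 1 ^ ex3 m x 1 * y 2 ^ ex3 m x 2) := by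
  unfold R3
  rw [map_sum]
  refine Finset.sum_congr rfl fun x _ => ?_
  rw [eval_monomial, Finsupp.prod_fintype _ _ (fun i => pow_zero _), Fin.prod_univ_three]
  simp only [Finsupp.equivFunOnFinite_symm_apply_apply]

/-- a form vanishing to high order -/
theorem exists_high (m : ℕ) {F : ℂ → Fin 3 → ℂ} (hF : AnalyticAt ℂ F 0) :
    ∃ c : Fin (m + 1) × Fin (m + 1) → ℂ, c ≠ 0 ∧ ∃ h : ℂ → ℂ, AnalyticAt ℂ h 0 ∧
      ∀ᶠ z in 𝓝 (0 : ℂ), eval (F z) (R3 m c) = z ^ ((m + 1) ^ 2 - 1) * h z := by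
  have hFl : ∀ l, AnalyticAt ℂ (fun z => F z l) 0 := fun l => (analyticAt_pi_iff.1 hF) l
  set mo : Fin (m + 1) × Fin (m + 1) → ℂ → ℂ := fun x z =>
    F z 0 ^ ex3 m x 0 * F z 1 ^ ex3 m x 1 * F z 2 ^ ex3 m x 2 with hmo
  have hmoa : ∀ x, AnalyticAt ℂ (mo x) 0 := fun x =>
    (((hFl 0).pow _).mul ((hFl 1).pow _)).mul ((hFl 2).pow _)
  set M : ℕ := (m + 1) ^ 2 - 1 with hM
  set L : (Fin (m + 1) × Fin (m + 1) → ℂ) →ₗ[ℂ] (Fin M → ℂ) :=
    { toFun := fun c l => ∑ x, c x * iteratedDeriv l (mo x) 0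
      map_add' := fun c c' => by
        funext l
        simp only [Pi.add_apply, add_mul, Finset.sum_add_distrib]
      map_smul' := fun a c => by
        funext l
        simp only [Pi.smul_apply, smul_eq_mul, RingHom.id_apply, Finset.mul_sum]
        exact Finset.sum_congr rfl fun x _ => by ring } with hL
  have hker : LinearMap.ker L ≠ ⊥ := by
    apply LinearMap.ker_ne_bot_of_finrank_lt
    rw [Module.finrank_fintype_fun_eq_card, Module.finrank_fintype_fun_eq_card, Fintype.card_prod,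
      Fintype.card_fin, Fintype.card_fin, hM]
    have : 0 < (m + 1) ^ 2 := by positivity
    have h2 : (m + 1) * (m + 1) = (m + 1) ^ 2 := by ring
    omega
  obtain ⟨c, hcL, hc⟩ := (Submodule.ne_bot_iff _).1 hker
  refine ⟨c, hc, ?_⟩
  have hf : AnalyticAt ℂ (fun z => eval (F z) (R3 m c)) 0 := by
    simp only [R3_eval]
    exact Finset.analyticAt_fun_sum _ fun x _ => analyticAt_const.mul (hmoa x)
  have hord : (M : ℕ∞) ≤ analyticOrderAt (fun z => eval (F z) (R3 m c)) 0 := by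
    rw [natCast_le_analyticOrderAt_iff_iteratedDeriv_eq_zero hf]
    intro i hi
    have h1 : (fun z => eval (F z) (R3 m c)) = fun z => ∑ x, c x * mo x z := by
      funext z
      rw [R3_eval]
    have h3 := iteratedDeriv_fun_sum (𝕜 := ℂ) (n := i) (x := (0 : ℂ)) (I := Finset.univ)
      (f := fun x z => c x * mo x z) fun x _ => (analyticAt_const.mul (hmoa x)).contDiffAt
    rw [h1, h3]
    simp only [iteratedDeriv_const_mul_field]
    have h2 := congrFun (LinearMap.mem_ker.1 hcL) ⟨i, hi⟩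
    exact h2
  rw [natCast_le_analyticOrderAt hf] at hord
  obtain ⟨h, hh, hev⟩ := hord
  refine ⟨h, hh, ?_⟩
  filter_upwards [hev] with z hz
  rw [hz, sub_zero, smul_eq_mul]

/-- **Doubly periodic curves are algebraic.** -/
theorem exists_form (t : Fin 3 → Fin (n + 1)) {g : ℂ → Mat (n + 1)} (hg : HolP univ g)
    (hb : ∀ z, ‖fderiv ℝ g z‖ ≤ 2) {p q : ℂ} (hind : LinearIndependent ℝ ![p, q])
    (hp : ∀ z, g (z + p) = g z) (hq : ∀ z, g (z + q) = g z) :
    ∃ (D : ℕ) (R : MvPolynomial (Fin 3) ℂ), R ≠ 0 ∧ R.IsHomogeneous D ∧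
      ∀ z, np (rename t R) D (g z) = 0 := by
  obtain ⟨A1, hA1, hmx⟩ := no_max n
  set R0 : ℝ := ‖p‖ + ‖q‖ with hR0
  have hp0 : p ≠ 0 := by
    have := hind.ne_zero 0
    simpa using this
  have hR0p : 0 < R0 := by
    have h1 := norm_pos_iff.2 hp0
    positivity
  set κ : ℝ := 4 * R0 ^ 2 * (8 * A1 + 1) with hκ
  have hκ0 : 0 < κ := by positivity
  set m : ℕ := ⌈κ⌉₊ + 1 with hm
  have hmκ : κ < m := by
    have := Nat.le_ceil κ
    rw [hm]
    push_cast
    linarith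
  have hm1 : 1 ≤ m := by omega
  have hm1' : (1 : ℝ) ≤ m := by exact_mod_cast hm1
  obtain ⟨V, F, hV, h0V, hF, hgF⟩ := hg 0 (mem_univ 0)
  have hFa : AnalyticAt ℂ F 0 := (hF.analyticOnNhd hV) 0 h0V
  obtain ⟨c, hc, h, hh, hev⟩ := exists_high m (F := fun z i => F z (t i))
    (analyticAt_pi_iff.2 fun i => (analyticAt_pi_iff.1 hFa) (t i))
  refine ⟨2 * m, R3 m c, R3_ne m hc, R3_hom m c, ?_⟩
  set P := rename t (R3 m c) with hPdef
  have hP : P.IsHomogeneous (2 * m) := (R3_hom m c).rename_isHomogeneous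
  have hPe : ∀ x, eval x P = eval (fun i => x (t i)) (R3 m c) := fun x => by
    rw [hPdef, eval_rename]
    rfl
  set N : ℂ → ℝ := fun z => np P (2 * m) (g z) with hN
  have hNc : Continuous N := continuous_iff_continuousAt.2 fun z => np_contAt hP hg (mem_univ z)
  have hN0 : ∀ z, 0 ≤ N z := fun z => nq_nonneg _ _ _
  obtain ⟨zM, hzM, hmaxM⟩ := (isCompact_closedBall (0 : ℂ) R0).exists_isMaxOn
    ⟨0, mem_closedBall_self hR0p.le⟩ hNc.continuousOn
  have hle : ∀ z, N z ≤ N zM := by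
    intro z
    obtain ⟨w, hw, hwz⟩ := fund hind hp hq z
    have h1 : N z = N w := by
      rw [hN]
      simp only
      rw [hwz]
    rw [h1]
    exact hmaxM (mem_closedBall_zero_iff.2 hw)
  by_contra hcon
  push Not at hcon
  obtain ⟨z1, hz1⟩ := hcon
  have hMp : 0 < N zM := by
    have h1 : 0 < N z1 := lt_of_le_of_ne (hN0 z1) (Ne.symm hz1)
    exact h1.trans_le (hle z1)
  -- the auxiliary function
  set M' : ℕ := (m + 1) ^ 2 - 2 with hM'
  have hM'1 : (m + 1) ^ 2 - 1 = M' + 1 := by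
    have h4 : 4 ≤ (m + 1) ^ 2 := by nlinarith
    omega
  have hM'0 : M' ≠ 0 := by
    have h4 : 4 ≤ (m + 1) ^ 2 := by nlinarith
    omega
  set C : ℝ := (2 * m : ℕ) * (A1 * 4) + 1 with hC
  have hC0 : 0 < C := by positivity
  set hf : ℂ → ℂ := fun z => (z ^ M')⁻¹ with hhf
  set E : ℂ → ℝ := fun z => np P (2 * m) (g z) * Real.exp (C * ‖z‖ ^ 2) * ‖hf z‖ ^ 2 with hE
  have hEcz : ∀ z, z ≠ 0 → ContinuousAt E z := by
    intro z hz
    refine (hNc.continuousAt.mul (by fun_prop)).mul ?_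
    exact ((continuousAt_id.pow M').inv₀ (pow_ne_zero _ hz)).norm.pow 2
  have hE0 : E 0 = 0 := by
    rw [hE]
    simp only
    rw [hhf]
    simp only
    rw [zero_pow hM'0, inv_zero, norm_zero]
    ring
  have hEc0 : ContinuousAt E 0 := by
    set E' : ℂ → ℝ := fun z => ‖z‖ ^ 2 * (‖h z‖ ^ 2 / (∑ k, ‖F z k‖ ^ 2) ^ (2 * m) *
      Real.exp (C * ‖z‖ ^ 2)) with hE'
    have h1 : E' =ᶠ[𝓝 0] E := by
      filter_upwards [hev, hV.mem_nhds h0V] with z hz hzV
      by_cases hz0 : z = 0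
      · rw [hz0, hE0, hE']
        simp
      · rw [hE, hE']
        simp only
        rw [(hgF z hzV).2, np_Phi hP (hgF z hzV).1]
        unfold nq
        rw [hPe, hz, hM'1, hhf]
        simp only
        rw [norm_mul, norm_inv, norm_pow, norm_pow]
        have h2 := norm_pos_iff.2 hz0
        field_simp
        ring
    refine ContinuousAt.congr ?_ h1
    have h2 : ContinuousAt (fun z => (∑ k, ‖F z k‖ ^ 2) ^ (2 * m)) 0 := by
      refine ContinuousAt.pow ?_ _
      exact tendsto_finsetSum _ fun k _ =>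
        (((analyticAt_pi_iff.1 hFa) k).continuousAt.norm).pow 2
    have h3 : (∑ k, ‖F 0 k‖ ^ 2) ^ (2 * m) ≠ 0 := pow_ne_zero _ (BB.sum_pos (hgF 0 h0V).1).ne'
    have h4 : ContinuousAt (fun z : ℂ => Real.exp (C * ‖z‖ ^ 2)) 0 := by fun_prop
    have h5 : ContinuousAt (fun z : ℂ => ‖z‖ ^ 2) 0 := by fun_prop
    exact h5.mul (((hh.continuousAt.norm.pow 2).div h2 h3).mul h4)
  have hEc : Continuous E := continuous_iff_continuousAt.2 fun z => by
    by_cases hz : z = 0
    · rw [hz]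
      exact hEc0
    · exact hEcz z hz
  have hzM0 : zM ≠ 0 := by
    intro h0
    rw [h0] at hMp
    have h1 : N 0 = 0 := by
      rw [hN]
      simp only
      rw [(hgF 0 h0V).2, np_Phi hP (hgF 0 h0V).1]
      unfold nq
      rw [hPe, hev.self_of_nhds, hM'1, zero_pow (Nat.succ_ne_zero _), zero_mul, norm_zero]
      simp
    linarith
  have hzMn : 0 < ‖zM‖ := norm_pos_iff.2 hzM0
  have hzMR : ‖zM‖ ≤ R0 := mem_closedBall_zero_iff.1 hzM
  have hnf : ∀ z, ‖hf z‖ ^ 2 = ((‖z‖ ^ 2) ^ M')⁻¹ := by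
    intro z
    rw [hhf]
    simp only
    rw [norm_inv, norm_pow, inv_pow, ← pow_mul, ← pow_mul, mul_comm]
  have hEM : N zM * ((R0 ^ 2) ^ M')⁻¹ ≤ E zM := by
    rw [hE]
    simp only
    rw [hnf]
    have h1 : 1 ≤ Real.exp (C * ‖zM‖ ^ 2) := Real.one_le_exp (by positivity)
    have h2 : ((R0 ^ 2) ^ M')⁻¹ ≤ ((‖zM‖ ^ 2) ^ M')⁻¹ := by
      apply inv_anti₀ (by positivity)
      exact pow_le_pow_left₀ (by positivity) (pow_le_pow_left₀ hzMn.le hzMR 2) _
    calc N zM * ((R0 ^ 2) ^ M')⁻¹ ≤ N zM * ((‖zM‖ ^ 2) ^ M')⁻¹ :=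
          mul_le_mul_of_nonneg_left h2 hMp.le
      _ = N zM * 1 * ((‖zM‖ ^ 2) ^ M')⁻¹ := by rw [mul_one]
      _ ≤ _ := by
          apply mul_le_mul_of_nonneg_right _ (by positivity)
          exact mul_le_mul_of_nonneg_left h1 hMp.le
  have hEMp : 0 < E zM := lt_of_lt_of_le (by positivity) hEM
  obtain ⟨z2, hz2, hmax2⟩ := (isCompact_closedBall (0 : ℂ) (2 * R0)).exists_isMaxOn
    ⟨0, mem_closedBall_self (by positivity)⟩ hEc.continuousOn
  have hmax2' : ∀ z, ‖z‖ ≤ 2 * R0 → E z ≤ E z2 := fun z hz =>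
    hmax2 (mem_closedBall_zero_iff.2 hz)
  have hE2 : E zM ≤ E z2 := hmax2' zM (by linarith)
  have hz20 : z2 ≠ 0 := by
    intro h0
    rw [h0, hE0] at hE2
    linarith
  have hz2n : ‖z2‖ ≤ 2 * R0 := mem_closedBall_zero_iff.1 hz2
  rcases hz2n.eq_or_lt with h1 | h1
  · -- the boundary
    have h2 : E z2 ≤ N zM * Real.exp (4 * C * R0 ^ 2) * (((2 * R0) ^ 2) ^ M')⁻¹ := by
      rw [hE]
      simp only
      rw [hnf, h1]
      have h3 : C * (2 * R0) ^ 2 = 4 * C * R0 ^ 2 := by ring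
      rw [h3]
      apply mul_le_mul_of_nonneg_right _ (by positivity)
      exact mul_le_mul_of_nonneg_right (hle z2) (Real.exp_pos _).le
    have h3 := (hEM.trans hE2).trans h2
    have h4 : (4 : ℝ) ^ M' ≤ Real.exp (4 * C * R0 ^ 2) := by
      have h5 : ((2 * R0) ^ 2) ^ M' = 4 ^ M' * (R0 ^ 2) ^ M' := by
        rw [← mul_pow]
        congr 1
        ring
      rw [h5, mul_inv] at h3
      have h6 : 0 < (R0 ^ 2) ^ M' := by positivity
      have h7 : (0 : ℝ) < 4 ^ M' := by positivity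
      have h8 : N zM * ((R0 ^ 2) ^ M')⁻¹ * (4 ^ M' * (R0 ^ 2) ^ M') ≤
          N zM * Real.exp (4 * C * R0 ^ 2) * ((4 ^ M')⁻¹ * ((R0 ^ 2) ^ M')⁻¹) *
            (4 ^ M' * (R0 ^ 2) ^ M') := mul_le_mul_of_nonneg_right h3 (by positivity)
      have h9 : N zM * ((R0 ^ 2) ^ M')⁻¹ * (4 ^ M' * (R0 ^ 2) ^ M') = N zM * 4 ^ M' := by
        field_simp
      have h10 : N zM * Real.exp (4 * C * R0 ^ 2) * ((4 ^ M')⁻¹ * ((R0 ^ 2) ^ M')⁻¹) *
            (4 ^ M' * (R0 ^ 2) ^ M') = N zM * Real.exp (4 * C * R0 ^ 2) := by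
        field_simp
      rw [h9, h10] at h8
      exact le_of_mul_le_mul_left h8 hMp
    have h5 : Real.exp (M' : ℝ) ≤ 4 ^ M' := by
      have h6 : Real.exp (M' : ℝ) = (Real.exp 1) ^ M' := by
        rw [← Real.exp_nat_mul, mul_one]
      rw [h6]
      have h7 := Real.exp_one_lt_d9
      exact pow_le_pow_left₀ (Real.exp_pos 1).le (by linarith) _
    have h6 := Real.exp_le_exp.1 (h5.trans h4)
    -- the size of the exponent
    have h7 : (m : ℝ) ^ 2 ≤ (M' : ℝ) := by
      have h8 : m ^ 2 + 2 ≤ (m + 1) ^ 2 + 1 := by nlinarith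
      have h9 : m ^ 2 ≤ M' := by
        have h10 : (m + 1) ^ 2 = m ^ 2 + 2 * m + 1 := by ring
        omega
      exact_mod_cast h9
    have h8 : 4 * C * R0 ^ 2 ≤ κ * m := by
      rw [hC, hκ]
      push_cast
      have h9 : 0 ≤ R0 ^ 2 * (m - 1) := mul_nonneg (by positivity) (by linarith)
      nlinarith
    nlinarith
  · have hloc : IsLocalMax E z2 := by
      have h2 : ∀ᶠ z : ℂ in 𝓝 z2, ‖z‖ < 2 * R0 :=
        continuous_norm.continuousAt.eventually_lt_const h1
      exact h2.mono fun z hz => hmax2' z hz.le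
    have h3 := hmx (2 * m) P hP g univ z2 hf C (mem_univ _) hg
      ((analyticAt_id.pow M').inv (pow_ne_zero _ hz20)) (by
        have h4 := hb z2
        have h5 := pow_le_pow_left₀ (norm_nonneg _) h4 2
        have h6 : ((2 * m : ℕ) : ℝ) * (A1 * ‖fderiv ℝ g z2‖ ^ 2) ≤
            ((2 * m : ℕ) : ℝ) * (A1 * 4) := by
          apply mul_le_mul_of_nonneg_left _ (Nat.cast_nonneg _)
          apply mul_le_mul_of_nonneg_left _ hA1.le
          linarith
        rw [hC]
        linarith) hloc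
    have h4 : E z2 = 0 := h3
    linarith

end Pool.Agent.Helper65.GG
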