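import Pool.Agent.Helper65.GG.Chow2
import Pool.Agent.Helper65.BF.Flat

/-!
Entire curves whose points lie on finitely many immersed doubly periodic curves factor through one
of them.
-/

set_option autoImplicit false

open Filter Topology Metric MvPolynomial Set Pointwise

namespace Pool.Agent.Helper65.GG

open Pool.Agent.W602.GT Pool.Agent.N155.BB Pool.Agent.Y190.OP Pool.Agent.N155
  Pool.Agent.N155.GD Pool.Agent.Helper65.BF

variable {n : ℕ} {φ ψ : ℂ → Mat (n + 1)} {U : Set ℂ}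

/-- local identity theorem -/
theorem holP_freq (hU : IsOpen U) (hφ : HolP U φ) (hψ : HolP U ψ) {z : ℂ} (hz : z ∈ U)
    (h : ∃ᶠ w in 𝓝[≠] z, φ w = ψ w) : ∀ᶠ w in 𝓝 z, φ w = ψ w := by
  have _ := hU
  obtain ⟨V, f, hV, hzV, hd, hf⟩ := hφ z hz
  obtain ⟨V', g, hV', hzV', hd', hg⟩ := hψ z hz
  have hiff : ∀ᶠ w in 𝓝 z, (φ w = ψ w ↔ ∀ j k, f w j * g w k = f w k * g w j) := by
    filter_upwards [hV.mem_nhds hzV, hV'.mem_nhds hzV'] with w hw hw'
    rw [(hf w hw).2, (hg w hw').2]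
    exact Phi_eq_iff (hf w hw).1 (hg w hw').1
  have han : ∀ j k, AnalyticAt ℂ (fun w => f w j * g w k - f w k * g w j) z := by
    intro j k
    have h1 : ∀ j, AnalyticAt ℂ (fun w => f w j) z := fun j =>
      ((differentiableOn_pi.1 hd) j).analyticAt (hV.mem_nhds hzV)
    have h2 : ∀ j, AnalyticAt ℂ (fun w => g w j) z := fun j =>
      ((differentiableOn_pi.1 hd') j).analyticAt (hV'.mem_nhds hzV')
    exact ((h1 j).mul (h2 k)).sub ((h1 k).mul (h2 j))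
  have hall : ∀ j k, ∀ᶠ w in 𝓝 z, f w j * g w k - f w k * g w j = 0 := by
    intro j k
    rw [← (han j k).frequently_zero_iff_eventually_zero]
    refine (h.and_eventually (hiff.filter_mono nhdsWithin_le_nhds)).mono fun w hw => ?_
    exact sub_eq_zero.2 (hw.2.1 hw.1 j k)
  have h1 : ∀ᶠ w in 𝓝 z, ∀ j k, f w j * g w k - f w k * g w j = 0 := by
    rw [eventually_all]
    intro j
    rw [eventually_all]
    exact hall j
  filter_upwards [hiff, h1] with w hw1 hw2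
  exact hw1.2 fun j k => sub_eq_zero.1 (hw2 j k)

/-- identity theorem on connected sets -/
theorem holP_ext_on (hU : IsOpen U) (hUc : IsPreconnected U) (hφ : HolP U φ) (hψ : HolP U ψ)
    {c : ℂ} (hc : c ∈ U) (h : ∀ᶠ w in 𝓝 c, φ w = ψ w) : ∀ z ∈ U, φ z = ψ z := by
  set W : Set ℂ := {z | z ∈ U ∧ ∀ᶠ w in 𝓝 z, φ w = ψ w} with hW
  have hWo : IsOpen W := by
    rw [isOpen_iff_mem_nhds]
    rintro z ⟨hz, hz'⟩
    filter_upwards [hU.mem_nhds hz, hz'.eventually_nhds] with w hw hw'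
    exact ⟨hw, hw'⟩
  have hsub := hUc.subset_of_closure_inter_subset hWo ⟨c, hc, hc, h⟩ (by
    rintro z ⟨hz, hzU⟩
    by_cases hzW : z ∈ W
    · exact hzW
    refine ⟨hzU, holP_freq hU hφ hψ hzU ?_⟩
    have h1 : ∃ᶠ w in 𝓝 z, w ∈ W := mem_closure_iff_frequently.1 hz
    have h2 : ∃ᶠ w in 𝓝[≠] z, w ∈ W := by
      rw [frequently_nhdsWithin_iff]
      refine h1.mono fun w hw => ⟨hw, fun h0 => hzW ?_⟩
      have h3 : w = z := h0
      rwa [← h3]
    exact h2.mono fun w hw => hw.2.self_of_nhds)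
  intro z hz
  exact (hsub hz).2.self_of_nhds

theorem holP_comp_on {g : ℂ → Mat (n + 1)} (hg : HolP univ g) {h : ℂ → ℂ} (hU : IsOpen U)
    (hh : DifferentiableOn ℂ h U) : HolP U fun z => g (h z) :=
  (CvOn.comp (T := univ) ⟨hg, fun _ _ => mem_univ _⟩ hU hh fun _ _ => mem_univ _).1

/-- local inverses of immersed curves -/
theorem local_inv {g : ℂ → Mat (n + 1)} (hg : HolP univ g) {w0 : ℂ} (hg0 : fderiv ℝ g w0 ≠ 0)
    (hφ : HolP univ φ) {z1 : ℂ} (h : φ z1 = g w0) : ∃ η : ℂ → ℂ, AnalyticAt ℂ η z1 ∧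
      ∃ O ∈ 𝓝 w0, ∀ᶠ z in 𝓝 z1, ∀ w ∈ O, g w = φ z → w = η z := by
  obtain ⟨i, hi⟩ := PM.exists_diag (hg.mem_PM (mem_univ w0))
  have hi' : φ z1 i i ≠ 0 := by rwa [h]
  have hd : deriv (cu g i) w0 ≠ 0 := fun h0 => hg0 (fderiv_zero_of_chart hg hi h0)
  obtain ⟨j, hj⟩ := Function.ne_iff.1 hd
  have hcu := cu_an hg i hi
  have hcul : AnalyticAt ℂ (fun w => cu g i w j) w0 := (analyticAt_pi_iff.1 hcu) j
  have hdj : deriv (fun w => cu g i w j) w0 ≠ 0 := by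
    have h1 := (hasDerivAt_pi.1 hcu.differentiableAt.hasDerivAt j).deriv
    rw [h1]
    exact hj
  set t : ℂ → ℂ := fun w => cu g i w j with ht
  set τ := hcul.hasStrictDerivAt.localInverse _ _ _ hdj with hτ
  have hτa : AnalyticAt ℂ τ (t w0) := hcul.analyticAt_localInverse hdj
  have hleft : ∀ᶠ w in 𝓝 w0, τ (t w) = w := HasStrictDerivAt.eventually_left_inverse ..
  have hφj : AnalyticAt ℂ (fun z => cu φ i z j) z1 :=
    (analyticAt_pi_iff.1 (cu_an hφ i hi')) j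
  have hval : cu φ i z1 j = t w0 := by
    rw [ht]
    unfold cu
    rw [h]
  refine ⟨fun z => τ (cu φ i z j), ?_, {w | τ (t w) = w}, hleft, ?_⟩
  · have h1 : AnalyticAt ℂ τ (cu φ i z1 j) := by rwa [hval]
    exact AnalyticAt.comp (g := τ) (f := fun z => cu φ i z j) h1 hφj
  · refine Eventually.of_forall fun z w hw hgw => ?_
    have h1 : cu φ i z j = t w := by
      change chart i (φ z) j = chart i (g w) j
      rw [hgw]
    change w = τ (cu φ i z j)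
    rw [h1]
    exact hw.symm

/-- compactness -/
theorem finite_inv {g : ℂ → Mat (n + 1)} (hg : HolP univ g) (hg0 : ∀ w, fderiv ℝ g w ≠ 0)
    (hφ : HolP univ φ) (z1 : ℂ) (R : ℝ) : ∃ I : Set (ℂ → ℂ), I.Finite ∧
      (∀ η ∈ I, AnalyticAt ℂ η z1) ∧
      ∀ᶠ z in 𝓝 z1, ∀ w ∈ closedBall (0 : ℂ) R, g w = φ z → ∃ η ∈ I, w = η z := by
  refine (isCompact_closedBall (0 : ℂ) R).induction_on
    (p := fun A => ∃ I : Set (ℂ → ℂ), I.Finite ∧ (∀ η ∈ I, AnalyticAt ℂ η z1) ∧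
      ∀ᶠ z in 𝓝 z1, ∀ w ∈ A, g w = φ z → ∃ η ∈ I, w = η z) ?_ ?_ ?_ ?_
  · exact ⟨∅, finite_empty, fun η h => absurd h (notMem_empty _),
      Eventually.of_forall fun z w hw => absurd hw (notMem_empty _)⟩
  · rintro A B hAB ⟨I, h1, h2, h3⟩
    exact ⟨I, h1, h2, h3.mono fun z hz w hw => hz w (hAB hw)⟩
  · rintro A B ⟨I, h1, h2, h3⟩ ⟨I', h1', h2', h3'⟩
    refine ⟨I ∪ I', h1.union h1', ?_, ?_⟩
    · rintro η (h | h)
      · exact h2 η h
      · exact h2' η h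
    · filter_upwards [h3, h3'] with z hz hz' w hw hgw
      rcases hw with hw | hw
      · obtain ⟨η, hη, h4⟩ := hz w hw hgw
        exact ⟨η, Or.inl hη, h4⟩
      · obtain ⟨η, hη, h4⟩ := hz' w hw hgw
        exact ⟨η, Or.inr hη, h4⟩
  · intro w0 _
    by_cases hw0 : φ z1 = g w0
    · obtain ⟨η, hη, O, hO, hev⟩ := local_inv hg (hg0 w0) hφ hw0
      refine ⟨O, mem_nhdsWithin_of_mem_nhds hO, {η}, finite_singleton _, ?_, ?_⟩
      · rintro _ rfl
        exact hη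
      · filter_upwards [hev] with z hz w hw hgw
        exact ⟨η, rfl, hz w hw hgw⟩
    · obtain ⟨A, B, hA, hB, hzA, hwB, hdis⟩ := t2_separation hw0
      have hgc : ContinuousAt g w0 := hg.continuousAt (mem_univ _)
      have hφc : ContinuousAt φ z1 := hφ.continuousAt (mem_univ _)
      refine ⟨g ⁻¹' B, mem_nhdsWithin_of_mem_nhds (hgc (hB.mem_nhds hwB)), ∅, finite_empty,
        fun η h => absurd h (notMem_empty _), ?_⟩
      filter_upwards [hφc (hA.mem_nhds hzA)] with z hz w hw hgw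
      exfalso
      have h1 : g w ∈ B := hw
      rw [hgw] at h1
      exact (disjoint_left.1 hdis hz) h1

/-- the periods near a point -/
theorem fund' {X : Type*} {g : ℂ → X} {p q : ℂ} (hind : LinearIndependent ℝ ![p, q])
    (hp : ∀ z, g (z + p) = g z) (hq : ∀ z, g (z + q) = g z) (z : ℂ) :
    ∃ l : ℂ, (∀ w, g (w + l) = g w) ∧ ‖z - l‖ ≤ ‖p‖ + ‖q‖ := by
  -- the function with the values the translates
  obtain ⟨w, hw, hwz⟩ := fund (g := fun z w => g (w + z)) hind (fun z => by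
    funext w
    have h1 := hp (w + z)
    rw [add_assoc] at h1
    exact h1) (fun z => by
    funext w
    have h1 := hq (w + z)
    rw [add_assoc] at h1
    exact h1) z
  refine ⟨z - w, fun v => ?_, ?_⟩
  · have h1 := congrFun hwz (v - w)
    simp only [sub_add_cancel] at h1
    rw [h1]
    congr 1
    ring
  · rw [sub_sub_cancel]
    exact hw

/-- doubly periodic immersed curves -/
structure Imm (g : ℂ → Mat (n + 1)) : Prop where
  hol : HolP univ g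
  im : ∀ w, fderiv ℝ g w ≠ 0
  per : ∃ p q : ℂ, LinearIndependent ℝ ![p, q] ∧ (∀ z, g (z + p) = g z) ∧ ∀ z, g (z + q) = g z

/-- the local lifts, for all base points in a bounded set -/
theorem inv_all {g : ℂ → Mat (n + 1)} (hg : Imm g) (hφ : HolP univ φ) (z1 : ℂ) :
    ∃ I : Set (ℂ → ℂ), I.Finite ∧ ∃ r : ℝ, 0 < r ∧ (∀ η ∈ I, DifferentiableOn ℂ η (ball z1 r)) ∧
      ∀ z ∈ ball z1 r, ∀ w, g w = φ z → ∃ l : ℂ, (∀ w, g (w + l) = g w) ∧
        ∀ᶠ x : ℂ × ℂ in 𝓝 (z, w), g x.2 = φ x.1 → ∃ η ∈ I, x.2 = η x.1 + l := by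
  obtain ⟨p, q, hind, hp, hq⟩ := hg.per
  obtain ⟨I, hI, hIa, hev⟩ := finite_inv hg.hol hg.im hφ z1 (‖p‖ + ‖q‖ + 1)
  have hdiff : ∀ᶠ z in 𝓝 z1, ∀ η ∈ I, DifferentiableAt ℂ η z := by
    rw [Set.Finite.eventually_all hI]
    intro η hη
    exact (hIa η hη).eventually_analyticAt.mono fun z hz => hz.differentiableAt
  obtain ⟨r, hr, hball⟩ := Metric.eventually_nhds_iff_ball.1 (hev.and hdiff)
  refine ⟨I, hI, r, hr, fun η hη z hz => ((hball z hz).2 η hη).differentiableWithinAt,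
    fun z hz w _ => ?_⟩
  obtain ⟨l, hl, hlw⟩ := fund' hind hp hq w
  refine ⟨l, hl, ?_⟩
  have h1 : ∀ᶠ x : ℂ × ℂ in 𝓝 (z, w), x.1 ∈ ball z1 r :=
    continuous_fst.continuousAt.eventually_mem (isOpen_ball.mem_nhds hz)
  have h2 : ∀ᶠ x : ℂ × ℂ in 𝓝 (z, w), x.2 - l ∈ closedBall (0 : ℂ) (‖p‖ + ‖q‖ + 1) := by
    have h3 : ContinuousAt (fun x : ℂ × ℂ => x.2 - l) (z, w) := by fun_prop
    refine h3.eventually_mem (mem_of_superset (isOpen_ball.mem_nhds ?_) ball_subset_closedBall)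
    rw [mem_ball_zero_iff]
    change ‖w - l‖ < _
    linarith
  filter_upwards [h1, h2] with x hx1 hx2 hgx
  have h3 : g (x.2 - l) = φ x.1 := by
    rw [← hgx, ← hl (x.2 - l), sub_add_cancel]
  obtain ⟨η, hη, h4⟩ := (hball x.1 hx1).1 (x.2 - l) hx2 h3
  exact ⟨η, hη, by rw [← h4, sub_add_cancel]⟩

/-- germs of lifts extend to discs -/
theorem extend_germ {S : Finset (ℂ → Mat (n + 1))} (hS : ∀ g ∈ S, Imm g) (hφ : HolP univ φ)
    (z1 : ℂ) : ∃ r : ℝ, 0 < r ∧ ∀ g ∈ S, ∀ c ∈ ball z1 r, ∀ h : ℂ → ℂ, AnalyticAt ℂ h c →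
      (∀ᶠ z in 𝓝 c, φ z = g (h z)) → ∃ H : ℂ → ℂ, DifferentiableOn ℂ H (ball z1 r) ∧
        (∀ z ∈ ball z1 r, φ z = g (H z)) ∧ ∀ᶠ z in 𝓝 c, H z = h z := by
  have hone : ∀ g ∈ S, ∃ r : ℝ, 0 < r ∧ ∀ r' : ℝ, 0 < r' → r' ≤ r → ∀ c ∈ ball z1 r', ∀ h : ℂ → ℂ,
      AnalyticAt ℂ h c → (∀ᶠ z in 𝓝 c, φ z = g (h z)) → ∃ H : ℂ → ℂ,
        DifferentiableOn ℂ H (ball z1 r') ∧ (∀ z ∈ ball z1 r', φ z = g (H z)) ∧
        ∀ᶠ z in 𝓝 c, H z = h z := by
    intro g hg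
    obtain ⟨I, hI, r, hr, hId, hIl⟩ := inv_all (hS g hg) hφ z1
    refine ⟨r, hr, fun r' _ hr' c hc h hh hφh => ?_⟩
    have hsub : ball z1 r' ⊆ ball z1 r := ball_subset_ball hr'
    obtain ⟨l, hl, hev⟩ := hIl c (hsub hc) (h c) hφh.self_of_nhds.symm
    have hcont : ContinuousAt (fun z => (z, h z)) c := continuousAt_id.prodMk hh.continuousAt
    have h1 : ∀ᶠ z in 𝓝 c, ∃ η ∈ I, h z = η z + l := by
      filter_upwards [hcont.eventually hev, hφh] with z hz hz'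
      exact hz hz'.symm
    have h2 : ∃ η ∈ I, ∃ᶠ z in 𝓝[≠] c, h z = η z + l := by
      by_contra hcon
      push Not at hcon
      have h3 : ∀ᶠ z in 𝓝[≠] c, ∀ η ∈ I, h z ≠ η z + l := by
        rw [Set.Finite.eventually_all hI]
        intro η hη
        exact hcon η hη
      obtain ⟨z, hz1, η, hη, hz2⟩ := (h3.and (h1.filter_mono nhdsWithin_le_nhds)).exists
      exact hz1 η hη hz2
    obtain ⟨η, hη, hfr⟩ := h2
    have hηc : AnalyticAt ℂ η c := ((hId η hη).mono hsub).analyticAt (isOpen_ball.mem_nhds hc)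
    have h3 : ∀ᶠ z in 𝓝 c, h z = η z + l :=
      (hh.frequently_eq_iff_eventually_eq (hηc.add analyticAt_const)).1 hfr
    have hHd : DifferentiableOn ℂ (fun z => η z + l) (ball z1 r') :=
      ((hId η hη).mono hsub).add_const l
    refine ⟨fun z => η z + l, hHd, ?_, h3.mono fun z hz => hz.symm⟩
    refine holP_ext_on isOpen_ball (convex_ball z1 r').isPreconnected (hφ.mono (subset_univ _))
      (holP_comp_on (hS g hg).hol isOpen_ball hHd) hc ?_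
    filter_upwards [h3, hφh] with z hz hz'
    rw [hz', hz]
  choose! r hr hrr using hone
  obtain ⟨r0, hr0, hmin⟩ : ∃ r0 : ℝ, 0 < r0 ∧ ∀ g ∈ S, r0 ≤ r g := by
    rcases S.eq_empty_or_nonempty with rfl | hne
    · exact ⟨1, one_pos, fun g hg => absurd hg (Finset.notMem_empty _)⟩
    · obtain ⟨g0, hg0, h0⟩ := S.exists_min_image r hne
      exact ⟨r g0, hr g0 hg0, h0⟩
  exact ⟨r0, hr0, fun g hg c hc h hh hφh => hrr g hg r0 hr0 (hmin g hg) c hc h hh hφh⟩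

/-- a uniform radius -/
theorem extend_unif {S : Finset (ℂ → Mat (n + 1))} (hS : ∀ g ∈ S, Imm g) (hφ : HolP univ φ)
    (ρ : ℝ) : ∃ δ : ℝ, 0 < δ ∧ ∀ g ∈ S, ∀ c ∈ closedBall (0 : ℂ) ρ, ∀ h : ℂ → ℂ, AnalyticAt ℂ h c →
      (∀ᶠ z in 𝓝 c, φ z = g (h z)) → ∃ H : ℂ → ℂ, DifferentiableOn ℂ H (ball c δ) ∧
        (∀ z ∈ ball c δ, φ z = g (H z)) ∧ ∀ᶠ z in 𝓝 c, H z = h z := by
  choose r hr hrr using extend_germ hS hφ
  obtain ⟨δ, hδ, hδc⟩ := lebesgue_number_lemma_of_metric (isCompact_closedBall (0 : ℂ) ρ)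
    (c := fun z1 => ball z1 (r z1)) (fun z1 => isOpen_ball) (fun z1 _ =>
      mem_iUnion.2 ⟨z1, mem_ball_self (hr z1)⟩)
  refine ⟨δ, hδ, fun g hg c hc h hh hφh => ?_⟩
  obtain ⟨z1, hz1⟩ := hδc c hc
  obtain ⟨H, h1, h2, h3⟩ := hrr z1 g hg c (hz1 (mem_ball_self hδ)) h hh hφh
  exact ⟨H, h1.mono hz1, fun z hz => h2 z (hz1 hz), h3⟩

/-- the lifts on a disc with the given germ at 0 -/
def LiftOn (φ g : ℂ → Mat (n + 1)) (h0 : ℂ → ℂ) (ρ : ℝ) (h : ℂ → ℂ) : Prop :=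
  DifferentiableOn ℂ h (ball 0 ρ) ∧ (∀ z ∈ ball (0 : ℂ) ρ, φ z = g (h z)) ∧
    ∀ᶠ z in 𝓝 (0 : ℂ), h z = h0 z

theorem LiftOn.unique {g : ℂ → Mat (n + 1)} {h0 h h' : ℂ → ℂ} {ρ ρ' : ℝ} (hρ : 0 < ρ)
    (hle : ρ ≤ ρ') (h1 : LiftOn φ g h0 ρ h) (h2 : LiftOn φ g h0 ρ' h') :
    ∀ z ∈ ball (0 : ℂ) ρ, h z = h' z := by
  have h3 : DifferentiableOn ℂ h' (ball 0 ρ) := h2.1.mono (ball_subset_ball hle)
  exact (h1.1.analyticOnNhd isOpen_ball).eqOn_of_preconnected_of_eventuallyEq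
    (h3.analyticOnNhd isOpen_ball) (convex_ball (0 : ℂ) ρ).isPreconnected (mem_ball_self hρ)
    (by filter_upwards [h1.2.2, h2.2.2] with z hz hz'; rw [hz, hz'])

/-- **One step.** -/
theorem lift_step {S : Finset (ℂ → Mat (n + 1))} {ρ δ : ℝ} (hδ : 0 < δ)
    (hext : ∀ g ∈ S, ∀ c ∈ closedBall (0 : ℂ) ρ, ∀ h : ℂ → ℂ, AnalyticAt ℂ h c →
      (∀ᶠ z in 𝓝 c, φ z = g (h z)) → ∃ H : ℂ → ℂ, DifferentiableOn ℂ H (ball c δ) ∧
        (∀ z ∈ ball c δ, φ z = g (H z)) ∧ ∀ᶠ z in 𝓝 c, H z = h z)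
    {g : ℂ → Mat (n + 1)} (hg : g ∈ S) {ρ' : ℝ} (hρ' : 0 < ρ') (hle : ρ' ≤ ρ) {h0 h : ℂ → ℂ}
    (hh : LiftOn φ g h0 ρ' h) : ∃ H, LiftOn φ g h0 (ρ' + δ) H := by
  classical
  obtain ⟨hd, hl, hgerm⟩ := hh
  have han := hd.analyticOnNhd isOpen_ball
  have hone : ∀ c ∈ ball (0 : ℂ) ρ', ∃ H : ℂ → ℂ, DifferentiableOn ℂ H (ball c δ) ∧
      (∀ z ∈ ball c δ, φ z = g (H z)) ∧ ∀ᶠ z in 𝓝 c, H z = h z := fun c hc =>
    hext g hg c (ball_subset_closedBall (ball_subset_ball hle hc)) h (han c hc) (by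
      filter_upwards [isOpen_ball.mem_nhds hc] with z hz
      exact hl z hz)
  choose! H hHd hHl hHg using hone
  -- comparison with `h`
  have hcmp : ∀ c ∈ ball (0 : ℂ) ρ', ∀ z ∈ ball c δ ∩ ball (0 : ℂ) ρ', H c z = h z := by
    intro c hc
    exact (((hHd c hc).mono inter_subset_left).analyticOnNhd
      (isOpen_ball.inter isOpen_ball)).eqOn_of_preconnected_of_eventuallyEq
      ((hd.mono inter_subset_right).analyticOnNhd (isOpen_ball.inter isOpen_ball))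
      ((convex_ball c δ).inter (convex_ball 0 ρ')).isPreconnected ⟨mem_ball_self hδ, hc⟩ (hHg c hc)
  have hcmp2 : ∀ c ∈ ball (0 : ℂ) ρ', ∀ c' ∈ ball (0 : ℂ) ρ', ∀ z ∈ ball c δ ∩ ball c' δ,
      H c z = H c' z := by
    intro c hc c' hc' z hz
    set μ : ℂ := (1 / 2 : ℝ) • c + (1 / 2 : ℝ) • c' with hμ
    have hμ0 : μ ∈ ball (0 : ℂ) ρ' :=
      (convex_ball (0 : ℂ) ρ') hc hc' (by norm_num) (by norm_num) (by norm_num)
    have hdist : dist c c' < 2 * δ := by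
      have h1 := dist_triangle c z c'
      have h2 := hz.1
      have h3 := hz.2
      rw [mem_ball] at h2 h3
      rw [dist_comm c z] at h1
      linarith
    have hμc : dist μ c = dist c c' / 2 := by
      rw [hμ, dist_eq_norm, dist_eq_norm]
      have : (1 / 2 : ℝ) • c + (1 / 2 : ℝ) • c' - c = (1 / 2 : ℝ) • (c' - c) := by
        module
      rw [this, norm_smul, norm_sub_rev]
      norm_num
      ring
    have hμc' : dist μ c' = dist c c' / 2 := by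
      rw [hμ, dist_eq_norm, dist_eq_norm]
      have : (1 / 2 : ℝ) • c + (1 / 2 : ℝ) • c' - c' = (1 / 2 : ℝ) • (c - c') := by
        module
      rw [this, norm_smul]
      norm_num
      ring
    have hμ1 : μ ∈ ball c δ := by
      rw [mem_ball, hμc]
      linarith
    have hμ2 : μ ∈ ball c' δ := by
      rw [mem_ball, hμc']
      linarith
    refine (((hHd c hc).mono inter_subset_left).analyticOnNhd
      (isOpen_ball.inter isOpen_ball)).eqOn_of_preconnected_of_eventuallyEq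
      (((hHd c' hc').mono inter_subset_right).analyticOnNhd (isOpen_ball.inter isOpen_ball))
      ((convex_ball c δ).inter (convex_ball c' δ)).isPreconnected ⟨hμ1, hμ2⟩ ?_ hz
    filter_upwards [isOpen_ball.mem_nhds hμ0, isOpen_ball.mem_nhds hμ1,
      isOpen_ball.mem_nhds hμ2] with w hw0 hw1 hw2
    rw [hcmp c hc w ⟨hw1, hw0⟩, hcmp c' hc' w ⟨hw2, hw0⟩]
  have hcen : ∀ z ∈ ball (0 : ℂ) (ρ' + δ), ∃ c ∈ ball (0 : ℂ) ρ', z ∈ ball c δ := by
    intro z hz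
    have h1 : z ∈ ball (0 : ℂ) ρ' + ball (0 : ℂ) δ := by
      rw [ball_add_ball hρ' hδ, add_zero]
      exact hz
    obtain ⟨c, hc, v, hv, rfl⟩ := mem_add.1 h1
    refine ⟨c, hc, ?_⟩
    rw [mem_ball, dist_eq_norm, add_sub_cancel_left]
    exact mem_ball_zero_iff.1 hv
  choose! cen hcen1 hcen2 using hcen
  have hnear : ∀ z0 ∈ ball (0 : ℂ) (ρ' + δ), ∀ᶠ z in 𝓝 z0, H (cen z) z = H (cen z0) z := by
    intro z0 hz0
    filter_upwards [isOpen_ball.mem_nhds hz0, isOpen_ball.mem_nhds (hcen2 z0 hz0)] with z hz hz'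
    exact hcmp2 _ (hcen1 z hz) _ (hcen1 z0 hz0) z ⟨hcen2 z hz, hz'⟩
  refine ⟨fun z => H (cen z) z, fun z0 hz0 => ?_, fun z hz => ?_, ?_⟩
  · have h1 : DifferentiableAt ℂ (H (cen z0)) z0 :=
      (hHd _ (hcen1 z0 hz0)).differentiableAt (isOpen_ball.mem_nhds (hcen2 z0 hz0))
    exact (h1.congr_of_eventuallyEq (hnear z0 hz0)).differentiableWithinAt
  · exact hHl _ (hcen1 z hz) z (hcen2 z hz)
  · have h00 : (0 : ℂ) ∈ ball (0 : ℂ) ρ' := mem_ball_self hρ'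
    filter_upwards [hgerm, isOpen_ball.mem_nhds h00] with z hz hz'
    have hz'' : z ∈ ball (0 : ℂ) (ρ' + δ) := ball_subset_ball (by linarith) hz'
    change H (cen z) z = h0 z
    rw [hcmp _ (hcen1 z hz'') z ⟨hcen2 z hz'', hz'⟩, hz]

/-- **The germ of a lift extends to the plane.** -/
theorem lift_entire {S : Finset (ℂ → Mat (n + 1))} (hS : ∀ g ∈ S, Imm g) (hφ : HolP univ φ)
    {g : ℂ → Mat (n + 1)} (hg : g ∈ S) {h0 : ℂ → ℂ} (hh0 : AnalyticAt ℂ h0 0)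
    (hg0 : ∀ᶠ z in 𝓝 (0 : ℂ), φ z = g (h0 z)) :
    ∃ h : ℂ → ℂ, Differentiable ℂ h ∧ ∀ z, φ z = g (h z) := by
  -- the first disc
  have hd0 : ∀ᶠ z in 𝓝 (0 : ℂ), DifferentiableAt ℂ h0 z :=
    hh0.eventually_analyticAt.mono fun z hz => hz.differentiableAt
  obtain ⟨r0, hr0, hball⟩ := Metric.eventually_nhds_iff_ball.1 (hg0.and hd0)
  have hL0 : LiftOn φ g h0 r0 h0 :=
    ⟨fun z hz => (hball z hz).2.differentiableWithinAt, fun z hz => (hball z hz).1,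
      Eventually.of_forall fun z => rfl⟩
  have hall : ∀ ρ : ℝ, r0 ≤ ρ → ∃ h, LiftOn φ g h0 ρ h := by
    intro ρ hρ
    obtain ⟨δ, hδ, hext⟩ := extend_unif hS hφ ρ
    have hk : ∀ k : ℕ, ∃ h, LiftOn φ g h0 (min ρ (r0 + k * δ)) h := by
      intro k
      induction k with
      | zero =>
        refine ⟨h0, ?_⟩
        simp only [Nat.cast_zero, zero_mul, add_zero, min_eq_right hρ]
        exact hL0
      | succ k ih =>
        obtain ⟨h, hh⟩ := ih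
        have hpos : 0 < min ρ (r0 + k * δ) := lt_min (by linarith) (by positivity)
        obtain ⟨H, hH⟩ := lift_step hδ hext hg hpos (min_le_left _ _) hh
        have hle : min ρ (r0 + (k + 1 : ℕ) * δ) ≤ min ρ (r0 + k * δ) + δ := by
          rcases le_total ρ (r0 + k * δ) with h1 | h1
          · rw [min_eq_left h1]
            exact (min_le_left _ _).trans (by linarith)
          · rw [min_eq_right h1]
            refine (min_le_right _ _).trans ?_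
            push_cast
            linarith
        exact ⟨H, hH.1.mono (ball_subset_ball hle), fun z hz => hH.2.1 z (ball_subset_ball hle hz),
          hH.2.2⟩
    obtain ⟨k, hk1⟩ := exists_nat_gt ((ρ - r0) / δ)
    obtain ⟨h, hh⟩ := hk k
    rw [div_lt_iff₀ hδ] at hk1
    rw [min_eq_left (by linarith)] at hh
    exact ⟨h, hh⟩
  have hallN : ∀ N : ℕ, ∃ h, LiftOn φ g h0 (r0 + N) h := fun N =>
    hall _ (by
      have : (0 : ℝ) ≤ N := Nat.cast_nonneg N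
      linarith)
  choose hN hhN using hallN
  have huniq : ∀ M N : ℕ, M ≤ N → ∀ z ∈ ball (0 : ℂ) (r0 + M), hN M z = hN N z := by
    intro M N hMN
    refine LiftOn.unique (by positivity) ?_ (hhN M) (hhN N)
    have : (M : ℝ) ≤ N := by exact_mod_cast hMN
    linarith
  set ix : ℂ → ℕ := fun z => ⌊‖z‖⌋₊ + 1 with hix
  have hmem : ∀ z, z ∈ ball (0 : ℂ) (r0 + ix z) := by
    intro z
    rw [mem_ball_zero_iff, hix]
    push_cast
    have := Nat.lt_floor_add_one ‖z‖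
    linarith
  have hval : ∀ z, ∀ N : ℕ, z ∈ ball (0 : ℂ) (r0 + N) → hN (ix z) z = hN N z := by
    intro z N hz
    rcases le_total (ix z) N with h1 | h1
    · exact huniq _ _ h1 z (hmem z)
    · exact (huniq _ _ h1 z hz).symm
  refine ⟨fun z => hN (ix z) z, fun z => ?_, fun z => (hhN (ix z)).2.1 z (hmem z)⟩
  have h1 : DifferentiableAt ℂ (hN (ix z)) z :=
    (hhN (ix z)).1.differentiableAt (isOpen_ball.mem_nhds (hmem z))
  refine h1.congr_of_eventuallyEq ?_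
  filter_upwards [isOpen_ball.mem_nhds (hmem z)] with w hw
  exact hval w _ hw

/-- **Factorization.** -/
theorem factor {S : Finset (ℂ → Mat (n + 1))} (hS : ∀ g ∈ S, Imm g) (hφ : HolP univ φ)
    (hcov : ∀ z, ∃ g ∈ S, ∃ w, φ z = g w) :
    ∃ g ∈ S, ∃ h : ℂ → ℂ, Differentiable ℂ h ∧ ∀ z, φ z = g (h z) := by
  classical
  -- a germ at 0
  have hI : ∀ g ∈ S, ∃ I : Set (ℂ → ℂ), I.Finite ∧ (∀ η ∈ I, AnalyticAt ℂ η 0) ∧
      ∀ᶠ z in 𝓝 (0 : ℂ), (∃ w, φ z = g w) → ∃ η ∈ I, φ z = g (η z) := by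
    intro g hg
    obtain ⟨p, q, hind, hp, hq⟩ := (hS g hg).per
    obtain ⟨I, h1, h2, h3⟩ := finite_inv (hS g hg).hol (hS g hg).im hφ 0 (‖p‖ + ‖q‖)
    refine ⟨I, h1, h2, ?_⟩
    filter_upwards [h3] with z hz
    rintro ⟨w, hw⟩
    obtain ⟨w', hw', hww⟩ := fund hind hp hq w
    obtain ⟨η, hη, h4⟩ := hz w' (mem_closedBall_zero_iff.2 hw') (by rw [hww, hw])
    exact ⟨η, hη, by rw [← h4, hww, hw]⟩
  choose! I hIf hIa hIe using hI
  have h1 : ∀ᶠ z in 𝓝 (0 : ℂ), ∃ g ∈ S, ∃ η ∈ I g, φ z = g (η z) := by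
    have h2 : ∀ᶠ z in 𝓝 (0 : ℂ), ∀ g ∈ S, (∃ w, φ z = g w) → ∃ η ∈ I g, φ z = g (η z) := by
      rw [Finset.eventually_all]
      exact hIe
    filter_upwards [h2] with z hz
    obtain ⟨g, hg, hw⟩ := hcov z
    exact ⟨g, hg, hz g hg hw⟩
  have h2 : ∃ g ∈ S, ∃ η ∈ I g, ∃ᶠ z in 𝓝[≠] (0 : ℂ), φ z = g (η z) := by
    by_contra hcon
    push Not at hcon
    have h3 : ∀ᶠ z in 𝓝[≠] (0 : ℂ), ∀ g ∈ S, ∀ η ∈ I g, φ z ≠ g (η z) := by
      rw [Finset.eventually_all]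
      intro g hg
      rw [Set.Finite.eventually_all (hIf g hg)]
      exact hcon g hg
    obtain ⟨z, hz1, g, hg, η, hη, hz2⟩ := (h3.and (h1.filter_mono nhdsWithin_le_nhds)).exists
    exact hz1 g hg η hη hz2
  obtain ⟨g, hg, η, hη, hfr⟩ := h2
  have hηa := hIa g hg η hη
  obtain ⟨r, hr, hball⟩ := Metric.eventually_nhds_iff_ball.1 hηa.eventually_analyticAt
  have hηd : DifferentiableOn ℂ η (ball 0 r) := fun z hz =>
    (hball z hz).differentiableAt.differentiableWithinAt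
  have h3 := holP_freq isOpen_ball (hφ.mono (subset_univ (ball (0 : ℂ) r)))
    (holP_comp_on (hS g hg).hol isOpen_ball hηd) (mem_ball_self hr) hfr
  obtain ⟨h, hh1, hh2⟩ := lift_entire hS hφ hg hηa h3
  exact ⟨g, hg, h, hh1, hh2⟩

end Pool.Agent.Helper65.GG
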