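import Pool.Agent.Helper65.GG.Disc

/-!
Large flat regions of an entire curve.
-/

set_option autoImplicit false

open Filter Topology Metric MvPolynomial Set

namespace Pool.Agent.Helper65.GG

open Pool.Agent.W602.GT Pool.Agent.N155.BB Pool.Agent.Y190.OP Pool.Agent.N155
  Pool.Agent.N155.GD Pool.Agent.Helper65.BF

/-- a variant of the Schwarz lemma -/
theorem near_one {h : ℂ → ℂ} {Δ : ℝ} (hΔ : 0 < Δ) (hd : DifferentiableOn ℂ h (ball 0 Δ))
    (hb : ∀ z ∈ ball (0 : ℂ) Δ, ‖h z‖ < 6 / 5) (h0 : h 0 = 1) :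
    ∀ z, ‖z‖ ≤ Δ / 2 → ‖h z - 1‖ ≤ 1 / 2 := by
  intro z hz
  have hden : ∀ w : ℂ, ‖w‖ < 6 / 5 → (36 / 25 : ℂ) - w ≠ 0 := by
    intro w hw h1
    have h2 : w = 36 / 25 := (sub_eq_zero.1 h1).symm
    rw [h2] at hw
    norm_num at hw
  set B : ℂ → ℂ := fun z => (6 / 5 : ℂ) * (h z - 1) / (36 / 25 - h z) with hB
  have hBd : DifferentiableOn ℂ B (ball 0 Δ) :=
    ((hd.sub_const 1).const_mul _).div (hd.const_sub _) fun w hw => hden _ (hb w hw)
  have hB0 : B 0 = 0 := by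
    simp [hB, h0]
  have hkey : ∀ w : ℂ, ‖w‖ < 6 / 5 → ‖(6 / 5 : ℂ) * (w - 1)‖ ≤ ‖(36 / 25 : ℂ) - w‖ := by
    intro w hw
    have h1 : ‖w‖ ^ 2 ≤ 36 / 25 := by nlinarith [norm_nonneg w]
    have e1 : ‖(6 / 5 : ℂ) * (w - 1)‖ ^ 2 = 36 / 25 * ((w.re - 1) ^ 2 + w.im ^ 2) := by
      rw [← Complex.normSq_eq_norm_sq, Complex.normSq_apply]
      simp only [Complex.mul_re, Complex.mul_im, Complex.sub_re, Complex.sub_im, Complex.one_re,
        Complex.one_im]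
      have h2 : (6 / 5 : ℂ).re = 6 / 5 := by norm_num
      have h3 : (6 / 5 : ℂ).im = 0 := by norm_num
      rw [h2, h3]
      ring
    have e2 : ‖(36 / 25 : ℂ) - w‖ ^ 2 = (36 / 25 - w.re) ^ 2 + w.im ^ 2 := by
      rw [← Complex.normSq_eq_norm_sq, Complex.normSq_apply]
      simp only [Complex.sub_re, Complex.sub_im]
      have h2 : (36 / 25 : ℂ).re = 36 / 25 := by norm_num
      have h3 : (36 / 25 : ℂ).im = 0 := by norm_num
      rw [h2, h3]
      ring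
    have e3 : ‖w‖ ^ 2 = w.re ^ 2 + w.im ^ 2 := by
      rw [← Complex.normSq_eq_norm_sq, Complex.normSq_apply]
      ring
    apply le_of_sq_le_sq _ (norm_nonneg _)
    rw [e1, e2]
    rw [e3] at h1
    nlinarith
  have hmaps : MapsTo B (ball 0 Δ) (closedBall (B 0) 1) := by
    intro w hw
    rw [hB0, mem_closedBall_zero_iff]
    have h1 := hb w hw
    change ‖(6 / 5 : ℂ) * (h w - 1) / (36 / 25 - h w)‖ ≤ 1
    rw [norm_div, div_le_one (norm_pos_iff.2 (hden _ h1))]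
    exact hkey _ h1
  have hzΔ : z ∈ ball (0 : ℂ) Δ := mem_ball_zero_iff.2 (by linarith)
  have h1 := Complex.dist_le_div_mul_dist_of_mapsTo_ball hBd hmaps hzΔ
  rw [hB0, dist_zero_right, dist_zero_right] at h1
  have h2 : ‖B z‖ ≤ 1 / 2 := by
    refine h1.trans ?_
    rw [div_mul_eq_mul_div, div_le_iff₀ hΔ]
    linarith
  have h3 := norm_pos_iff.2 (hden _ (hb z hzΔ))
  change ‖(6 / 5 : ℂ) * (h z - 1) / (36 / 25 - h z)‖ ≤ 1 / 2 at h2
  rw [norm_div, div_le_iff₀ h3, norm_mul] at h2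
  have h4 : ‖(6 / 5 : ℂ)‖ = 6 / 5 := by norm_num
  rw [h4] at h2
  have h5 : ‖(36 / 25 : ℂ) - h z‖ ≤ 11 / 25 + ‖h z - 1‖ := by
    have e1 : (36 / 25 : ℂ) - h z = 11 / 25 - (h z - 1) := by ring
    rw [e1]
    refine (norm_sub_le _ _).trans ?_
    have e2 : ‖(11 / 25 : ℂ)‖ = 11 / 25 := by norm_num
    rw [e2]
  linarith

variable {n k : ℕ} {T : Set (Mat (n + 1))} {G : (ℂ → Mat (n + 1)) → ℂ → ℂ}

/-- the parameters of a flat region -/
structure Par (k : ℕ) (a : ℂ) (ν q Q K A B : ℝ) (g : ℂ → ℂ) : Prop where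
  kp : 0 < k
  a0 : a ≠ 0
  ν0 : 0 ≤ ν
  Q1 : 1 ≤ Q
  qQ : 40 * Q ^ 2 ≤ q
  K0 : 0 ≤ K
  KQ : 2 * k * (K + 6) * (1 + ν ^ 2) ≤ Q * (ν ^ 3 + k)
  B0 : 0 < B
  gB : ‖g a‖ = B ^ k
  A_eq : A = k * ‖a‖ * B / (ν ^ 3 + k)
  gr : ∀ (w : ℂ) (t : ℝ), ‖w‖ = ‖a‖ * Real.exp t → |t| * ν ≤ q →
        ‖g w‖ ≤ ‖g a‖ * Real.exp (ν ^ 3 * t + 4 * ν ^ 4 * t ^ 2 / q)

variable {a : ℂ} {ν q Q K A B : ℝ} {g : ℂ → ℂ}

theorem Par.M0 (h : Par k a ν q Q K A B g) : 0 < ν ^ 3 + k := by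
  have h1 := h.ν0
  have h2 : (0 : ℝ) < k := by exact_mod_cast h.kp
  positivity

theorem Par.A0 (h : Par k a ν q Q K A B g) : 0 < A := by
  rw [h.A_eq]
  have h2 : (0 : ℝ) < k := by exact_mod_cast h.kp
  have h3 := norm_pos_iff.2 h.a0
  have h4 := h.B0
  have h5 := h.M0
  positivity

theorem Par.ga (h : Par k a ν q Q K A B g) : g a ≠ 0 := by
  rw [← norm_pos_iff, h.gB]
  exact pow_pos h.B0 _

/-- the modulus near the point `a` -/
theorem Par.near (h : Par k a ν q Q K A B g) (hg : Differentiable ℂ g) {τ : ℂ}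
    (hτ : ‖τ‖ ≤ Q / (1 + ν ^ 2) / 2) :
    ‖g a‖ * Real.exp (ν ^ 3 * τ.re) * (1 / 2) ≤ ‖g (a * Complex.exp τ)‖ ∧
      ‖g (a * Complex.exp τ)‖ ≤ ‖g a‖ * Real.exp (ν ^ 3 * τ.re) * (3 / 2) := by
  have hν := h.ν0
  have hQ := h.Q1
  have hΔ : 0 < Q / (1 + ν ^ 2) := by positivity
  have hga := norm_pos_iff.2 h.ga
  set f : ℂ → ℂ := fun τ => g (a * Complex.exp τ) * Complex.exp (-(ν ^ 3 : ℝ) * τ) / g a with hf
  have hnf : ∀ τ, ‖f τ‖ = ‖g (a * Complex.exp τ)‖ * Real.exp (-(ν ^ 3 * τ.re)) / ‖g a‖ := by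
    intro τ
    rw [hf]
    simp only
    rw [norm_div, norm_mul, Complex.norm_exp]
    congr 3
    have : (-((ν ^ 3 : ℝ) : ℂ) * τ) = ((-(ν ^ 3) : ℝ) : ℂ) * τ := by push_cast; ring
    rw [this, Complex.re_ofReal_mul]
    ring
  have hfd : Differentiable ℂ f := by
    have h1 : Differentiable ℂ fun τ : ℂ => a * Complex.exp τ :=
      Complex.differentiable_exp.const_mul a
    have h2 : Differentiable ℂ fun τ : ℂ => Complex.exp (-((ν ^ 3 : ℝ) : ℂ) * τ) :=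
      Complex.differentiable_exp.comp (differentiable_id.const_mul _)
    exact ((hg.comp h1).mul h2).div_const _
  have hfb : ∀ τ ∈ ball (0 : ℂ) (Q / (1 + ν ^ 2)), ‖f τ‖ < 6 / 5 := by
    intro τ hτ
    rw [mem_ball_zero_iff] at hτ
    have ht : |τ.re| < Q / (1 + ν ^ 2) := (Complex.abs_re_le_norm τ).trans_lt hτ
    have h40 : 40 * Q ^ 2 ≤ q := h.qQ
    have hQq : Q ≤ q := by nlinarith
    have hq : 0 < q := by linarith
    have htq : |τ.re| * (1 + ν ^ 2) ≤ Q := by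
      rw [lt_div_iff₀ (by positivity)] at ht
      exact ht.le
    have h1 : |τ.re| * ν ≤ q := by
      have h2 : ν ≤ 1 + ν ^ 2 := by nlinarith [sq_nonneg (ν - 1)]
      have h3 := mul_le_mul_of_nonneg_left h2 (abs_nonneg τ.re)
      linarith
    have h2 := h.gr (a * Complex.exp τ) τ.re (by rw [norm_mul, Complex.norm_exp]) h1
    have h3 : 4 * ν ^ 4 * τ.re ^ 2 / q ≤ 1 / 10 := by
      rw [div_le_iff₀ hq]
      have h4 : |τ.re| * ν ^ 2 ≤ Q := by
        have h5 : |τ.re| * ν ^ 2 ≤ |τ.re| * (1 + ν ^ 2) :=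
          mul_le_mul_of_nonneg_left (by linarith) (abs_nonneg _)
        linarith
      have h5 : (|τ.re| * ν ^ 2) ^ 2 ≤ Q ^ 2 := pow_le_pow_left₀ (by positivity) h4 2
      have h6 : (|τ.re| * ν ^ 2) ^ 2 = ν ^ 4 * τ.re ^ 2 := by
        rw [mul_pow, sq_abs]
        ring
      rw [h6] at h5
      linarith
    have h4 : Real.exp (1 / 10) < 6 / 5 := by
      have h5 := Real.add_one_le_exp (-(1 / 10) : ℝ)
      rw [Real.exp_neg] at h5
      have h6 := Real.exp_pos (1 / 10 : ℝ)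
      have h7 : (9 / 10 : ℝ) * Real.exp (1 / 10) ≤ 1 := by
        have h8 := mul_le_mul_of_nonneg_right h5 h6.le
        rw [inv_mul_cancel₀ h6.ne'] at h8
        linarith
      linarith
    rw [hnf, div_lt_iff₀ hga]
    calc ‖g (a * Complex.exp τ)‖ * Real.exp (-(ν ^ 3 * τ.re)) ≤
        ‖g a‖ * Real.exp (ν ^ 3 * τ.re + 4 * ν ^ 4 * τ.re ^ 2 / q) *
          Real.exp (-(ν ^ 3 * τ.re)) := mul_le_mul_of_nonneg_right h2 (Real.exp_pos _).le
      _ = ‖g a‖ * Real.exp (4 * ν ^ 4 * τ.re ^ 2 / q) := by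
          rw [mul_assoc, ← Real.exp_add]
          congr 2
          ring
      _ ≤ ‖g a‖ * Real.exp (1 / 10) :=
          mul_le_mul_of_nonneg_left (Real.exp_le_exp.2 h3) hga.le
      _ < ‖g a‖ * (6 / 5) := mul_lt_mul_of_pos_left h4 hga
      _ = 6 / 5 * ‖g a‖ := mul_comm _ _
  have hf0 : f 0 = 1 := by
    simp only [hf, Complex.exp_zero, mul_zero, mul_one]
    exact div_self h.ga
  have h1 := near_one hΔ hfd.differentiableOn hfb hf0 τ hτ
  have h2 : 1 / 2 ≤ ‖f τ‖ := by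
    have h3 := norm_sub_norm_le (1 : ℂ) (1 - f τ)
    rw [sub_sub_cancel, norm_one, norm_sub_rev] at h3
    linarith
  have h3 : ‖f τ‖ ≤ 3 / 2 := by
    have h4 := norm_add_le (f τ - 1) 1
    rw [sub_add_cancel, norm_one] at h4
    linarith
  have h4 : ‖g (a * Complex.exp τ)‖ = ‖g a‖ * Real.exp (ν ^ 3 * τ.re) * ‖f τ‖ := by
    rw [hnf]
    have h5 : Real.exp (ν ^ 3 * τ.re) * Real.exp (-(ν ^ 3 * τ.re)) = 1 := by
      rw [← Real.exp_add, add_neg_cancel, Real.exp_zero]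
    field_simp
    linear_combination (-‖g (a * Complex.exp τ)‖) * h5
  rw [h4]
  have h5 : 0 ≤ ‖g a‖ * Real.exp (ν ^ 3 * τ.re) := by positivity
  exact ⟨mul_le_mul_of_nonneg_left h2 h5, mul_le_mul_of_nonneg_left h3 h5⟩

/-- the flat coordinate -/
noncomputable def fc (k : ℕ) (a : ℂ) (ν A : ℝ) (ζ : ℂ) : ℂ :=
  a * Complex.exp (((k / (ν ^ 3 + k) : ℝ) : ℂ) * Complex.log (ζ / A))

theorem fc_deriv (k : ℕ) (a : ℂ) {ν A : ℝ} (hA : 0 < A) {ζ : ℂ} (hζ : 0 < ζ.re) :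
    HasDerivAt (fc k a ν A) (fc k a ν A ζ * (((k / (ν ^ 3 + k) : ℝ) : ℂ) * ζ⁻¹)) ζ := by
  have hA' : (A : ℂ) ≠ 0 := by exact_mod_cast hA.ne'
  have hζ0 : ζ ≠ 0 := by
    rintro rfl
    simp at hζ
  have hsl : ζ / A ∈ Complex.slitPlane := by
    left
    rw [Complex.div_ofReal_re]
    positivity
  have h1 : HasDerivAt (fun ζ : ℂ => ζ / A) (1 / A) ζ := (hasDerivAt_id ζ).div_const _
  have h2 := (Complex.hasDerivAt_log hsl).comp ζ h1
  have h3 := (h2.const_mul (((k / (ν ^ 3 + k) : ℝ) : ℂ))).cexp.const_mul a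
  refine h3.congr_deriv ?_
  unfold fc
  simp only [Function.comp]
  field_simp

variable {φ : ℂ → Mat (n + 1)}

/-- **The flat region.** -/
theorem Par.region (h : Par k a ν q Q K A B (G φ)) (hJ : JI T k G) (hφ : CvOn T univ φ) :
    CvOn T (ball ((A * Real.exp K : ℝ) : ℂ) (A * Real.exp K - A / 4))
      (fun ζ => φ (fc k a ν A ζ)) ∧
    ∀ ζ ∈ ball ((A * Real.exp K : ℝ) : ℂ) (A * Real.exp K - A / 4),
      1 / 2 ≤ ‖G (fun ζ => φ (fc k a ν A ζ)) ζ‖ ∧ ‖G (fun ζ => φ (fc k a ν A ζ)) ζ‖ ≤ 2 := by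
  have hA := h.A0
  have hM := h.M0
  have hk : (0 : ℝ) < k := by exact_mod_cast h.kp
  have hB := h.B0
  have ha := norm_pos_iff.2 h.a0
  set α : ℝ := A * Real.exp K with hα
  have hre : ∀ ζ ∈ ball (α : ℂ) (α - A / 4), A / 4 < ζ.re ∧ ‖ζ‖ < 2 * α := by
    intro ζ hζ
    rw [mem_ball, dist_eq_norm] at hζ
    have h1 := Complex.abs_re_le_norm (ζ - α)
    rw [Complex.sub_re, Complex.ofReal_re] at h1
    obtain ⟨h2, h3⟩ := abs_le.1 h1
    refine ⟨by linarith, ?_⟩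
    have h4 := norm_add_le (ζ - α) α
    have h5 : 0 < α := by positivity
    rw [sub_add_cancel, Complex.norm_real, Real.norm_of_nonneg h5.le] at h4
    linarith
  have hψ : DifferentiableOn ℂ (fc k a ν A) (ball (α : ℂ) (α - A / 4)) := fun ζ hζ =>
    (fc_deriv k a hA (by
      have := (hre ζ hζ).1
      linarith)).differentiableAt.differentiableWithinAt
  have hmaps : MapsTo (fc k a ν A) (ball (α : ℂ) (α - A / 4)) univ := fun _ _ => mem_univ _
  refine ⟨hφ.comp isOpen_ball hψ hmaps, fun ζ hζ => ?_⟩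
  obtain ⟨h1, h2⟩ := hre ζ hζ
  have hζre : 0 < ζ.re := by linarith
  have hζn : A / 4 < ‖ζ‖ := h1.trans_le ((le_abs_self _).trans (Complex.abs_re_le_norm ζ))
  have hζ0 : 0 < ‖ζ‖ := by linarith
  have hA' : (A : ℂ) ≠ 0 := by exact_mod_cast hA.ne'
  rw [hJ.comp φ univ isOpen_univ hφ _ _ isOpen_ball hψ hmaps ζ hζ, (fc_deriv k a hA hζre).deriv]
  set τ : ℂ := ((k / (ν ^ 3 + k) : ℝ) : ℂ) * Complex.log (ζ / A) with hτ
  have hfc : fc k a ν A ζ = a * Complex.exp τ := rfl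
  rw [hfc]
  have hgd : Differentiable ℂ (G φ) := fun z =>
    (hJ.hol φ univ isOpen_univ hφ z (mem_univ z)).differentiableAt Filter.univ_mem
  -- the size of the logarithm
  have hnA : ‖ζ / A‖ = ‖ζ‖ / A := by
    rw [norm_div, Complex.norm_real, Real.norm_of_nonneg hA.le]
  have hlog : ‖Complex.log (ζ / A)‖ ≤ K + 6 := by
    refine (Complex.norm_le_abs_re_add_abs_im _).trans ?_
    rw [Complex.log_re, Complex.log_im, hnA]
    have h3 := Complex.abs_arg_le_pi (ζ / A)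
    have h4 := Real.pi_lt_four
    have h5 : |Real.log (‖ζ‖ / A)| ≤ K + 2 := by
      rw [abs_le]
      have hp : 0 < ‖ζ‖ / A := by positivity
      have he2 : (4 : ℝ) ≤ Real.exp 2 := by
        have h6 := Real.add_one_le_exp (1 : ℝ)
        have h7 : Real.exp 2 = Real.exp 1 * Real.exp 1 := by
          rw [← Real.exp_add]
          norm_num
        rw [h7]
        nlinarith
      constructor
      · have h6 : -2 ≤ Real.log (‖ζ‖ / A) := by
          rw [Real.le_log_iff_exp_le hp, Real.exp_neg, le_div_iff₀ hA]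
          have h7 : (Real.exp 2)⁻¹ ≤ 1 / 4 := by
            rw [inv_le_comm₀ (by positivity) (by norm_num)]
            simpa using he2
          nlinarith
        linarith [h.K0]
      · rw [Real.log_le_iff_le_exp hp, Real.exp_add, div_le_iff₀ hA]
        have h7 := Real.exp_pos K
        calc ‖ζ‖ ≤ 2 * (A * Real.exp K) := h2.le
          _ ≤ Real.exp 2 * (A * Real.exp K) := by
              apply mul_le_mul_of_nonneg_right _ (by positivity)
              linarith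
          _ = _ := by ring
    linarith
  have hτn : ‖τ‖ ≤ Q / (1 + ν ^ 2) / 2 := by
    rw [hτ, norm_mul, Complex.norm_real, Real.norm_of_nonneg (by positivity)]
    have h3 := h.KQ
    calc (k : ℝ) / (ν ^ 3 + k) * ‖Complex.log (ζ / A)‖ ≤ k / (ν ^ 3 + k) * (K + 6) :=
          mul_le_mul_of_nonneg_left hlog (by positivity)
      _ ≤ Q / (1 + ν ^ 2) / 2 := by
          rw [div_mul_eq_mul_div, div_div, div_le_div_iff₀ hM (by positivity)]
          linarith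
  obtain ⟨h3, h4⟩ := h.near hgd hτn
  -- the factor
  have hτre : τ.re = k / (ν ^ 3 + k) * Real.log (‖ζ‖ / A) := by
    rw [hτ, Complex.re_ofReal_mul, Complex.log_re, hnA]
  have hζe : ‖ζ‖ = A * Real.exp ((ν ^ 3 + k) / k * τ.re) := by
    rw [hτre]
    have h5 : (ν ^ 3 + k) / k * (k / (ν ^ 3 + k) * Real.log (‖ζ‖ / A)) = Real.log (‖ζ‖ / A) := by
      field_simp
    rw [h5, Real.exp_log (by positivity)]
    field_simp
  have hfac : ‖a * Complex.exp τ * (((k / (ν ^ 3 + k) : ℝ) : ℂ) * ζ⁻¹)‖ ^ k =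
      (‖G φ a‖ * Real.exp (ν ^ 3 * τ.re))⁻¹ := by
    rw [norm_mul, norm_mul, norm_mul, Complex.norm_exp, Complex.norm_real,
      Real.norm_of_nonneg (by positivity : (0 : ℝ) ≤ k / (ν ^ 3 + k)), norm_inv, hζe, h.A_eq, h.gB]
    have h5 : ‖a‖ * Real.exp τ.re * (k / (ν ^ 3 + k) *
        (k * ‖a‖ * B / (ν ^ 3 + k) * Real.exp ((ν ^ 3 + k) / k * τ.re))⁻¹) =
        B⁻¹ * Real.exp (-(ν ^ 3 * τ.re / k)) := by
      have h6 : Real.exp ((ν ^ 3 + k) / k * τ.re) = Real.exp τ.re * Real.exp (ν ^ 3 * τ.re / k) := by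
        rw [← Real.exp_add]
        congr 1
        field_simp
        ring
      rw [h6, Real.exp_neg]
      have h7 := Real.exp_pos τ.re
      have h8 := Real.exp_pos (ν ^ 3 * τ.re / k)
      field_simp
    rw [h5, mul_pow, inv_pow, mul_inv, ← Real.exp_nat_mul, ← Real.exp_neg]
    congr 2
    field_simp
  have hp := norm_pos_iff.2 h.ga
  have hE : 0 < ‖G φ a‖ * Real.exp (ν ^ 3 * τ.re) := by positivity
  rw [norm_mul, norm_pow, hfac, inv_mul_eq_div, le_div_iff₀ hE, div_le_iff₀ hE]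
  constructor
  · linarith
  · linarith

/-- the points near `a` -/
theorem Par.point (h : Par k a ν q Q K A B g) {z : ℂ}
    (hz : ‖z - a‖ ≤ ‖a‖ / (8 * (ν ^ 3 + k))) :
    ∃ ζ : ℂ, ‖ζ - A‖ ≤ A / 4 ∧ fc k a ν A ζ = z := by
  have hA := h.A0
  have hM := h.M0
  have hk : (0 : ℝ) < k := by exact_mod_cast h.kp
  have hk1 : (1 : ℝ) ≤ k := by exact_mod_cast h.kp
  have ha := norm_pos_iff.2 h.a0
  have ha0 := h.a0
  have hA' : (A : ℂ) ≠ 0 := by exact_mod_cast hA.ne'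
  have hM1 : 1 ≤ ν ^ 3 + k := by
    have := h.ν0
    have h1 : 0 ≤ ν ^ 3 := by positivity
    linarith
  set v : ℂ := (z - a) / a with hv
  have hvn : ‖v‖ ≤ 1 / (8 * (ν ^ 3 + k)) := by
    rw [hv, norm_div, div_le_iff₀ ha]
    refine hz.trans (le_of_eq ?_)
    ring
  have hv8 : ‖v‖ ≤ 1 / 2 := by
    refine hvn.trans ?_
    rw [div_le_div_iff₀ (by positivity) (by norm_num)]
    linarith
  have hav : a * (1 + v) = z := by
    rw [hv]
    field_simp
    ring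
  have h1v : (1 : ℂ) + v ≠ 0 := by
    intro h0
    have h1 : v = -1 := by linear_combination h0
    rw [h1, norm_neg, norm_one] at hv8
    norm_num at hv8
  set u : ℂ := (((ν ^ 3 + k) / k : ℝ) : ℂ) * Complex.log (1 + v) with hu
  have hun : ‖u‖ ≤ 3 / 16 := by
    rw [hu, norm_mul, Complex.norm_real, Real.norm_of_nonneg (by positivity)]
    have h1 := Complex.norm_log_one_add_half_le_self hv8
    calc (ν ^ 3 + (k : ℝ)) / (k : ℝ) * ‖Complex.log (1 + v)‖ ≤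
        (ν ^ 3 + (k : ℝ)) / (k : ℝ) * (3 / 2 * (1 / (8 * (ν ^ 3 + (k : ℝ))))) := by
          apply mul_le_mul_of_nonneg_left _ (by positivity)
          linarith
      _ = 3 / 16 / (k : ℝ) := by
          field_simp
          norm_num
      _ ≤ 3 / 16 := by
          rw [div_le_iff₀ hk]
          linarith
  refine ⟨A * Complex.exp u, ?_, ?_⟩
  · have h1 : (A : ℂ) * Complex.exp u - A = A * (Complex.exp u - 1) := by ring
    rw [h1, norm_mul, Complex.norm_real, Real.norm_of_nonneg hA.le]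
    have h2 : ‖Complex.exp u - 1‖ ≤ 1 / 4 := by
      have h3 := Complex.norm_exp_sub_one_sub_id_le (x := u) (by linarith)
      have h4 := norm_add_le (Complex.exp u - 1 - u) u
      rw [sub_add_cancel] at h4
      have h5 : ‖u‖ ^ 2 ≤ (3 / 16) ^ 2 := pow_le_pow_left₀ (norm_nonneg _) hun 2
      norm_num at h5
      linarith
    calc A * ‖Complex.exp u - 1‖ ≤ A * (1 / 4) := mul_le_mul_of_nonneg_left h2 hA.le
      _ = A / 4 := by ring
  · unfold fc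
    have h1 : (A : ℂ) * Complex.exp u / A = Complex.exp u := by field_simp
    have him := (Complex.abs_im_le_norm u).trans hun
    obtain ⟨h2, h3⟩ := abs_le.1 him
    have hpi := Real.pi_gt_three
    rw [h1, Complex.log_exp (by linarith) (by linarith), hu]
    have h4 : ((k / (ν ^ 3 + k) : ℝ) : ℂ) * ((((ν ^ 3 + k) / k : ℝ) : ℂ) *
        Complex.log (1 + v)) = Complex.log (1 + v) := by
      rw [← mul_assoc, ← Complex.ofReal_mul]
      have h5 : (k : ℝ) / (ν ^ 3 + k) * ((ν ^ 3 + k) / k) = 1 := by field_simp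
      rw [h5, Complex.ofReal_one, one_mul]
    rw [h4, Complex.exp_log h1v, hav]

/-- **Exponential closeness near the point `a`.** -/
theorem Par.close (h : Par k a ν q Q K A B (G φ)) (hJ : JI T k G) (hφ : CvOn T univ φ)
    {S : Finset (ℂ → Mat (n + 1))} {R κ : ℝ} (hκ : 0 < κ)
    (hS : ∀ (a : ℂ) (r : ℝ) (φ : ℂ → Mat (n + 1)), CvOn T (ball a r) φ →
        (∀ w ∈ ball a r, 1 / 2 ≤ ‖G φ w‖ ∧ ‖G φ w‖ ≤ 2) → ∀ z : ℂ, ‖z - a‖ ≤ r - R →
        ∃ g ∈ S, ∃ w : ℂ, ‖φ z - g w‖ ≤ Real.exp (-κ * ((r - 2) ^ 2 - ‖z - a‖ ^ 2)))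
    (hAR : 2 * R ≤ A) (hA8 : 8 ≤ A) (hK1 : 1 ≤ K) {z : ℂ}
    (hz : ‖z - a‖ ≤ ‖a‖ / (8 * (ν ^ 3 + k))) :
    ∃ g ∈ S, ∃ w : ℂ, ‖φ z - g w‖ ≤ Real.exp (-(κ * A ^ 2 * Real.exp K / 4)) := by
  obtain ⟨h1, h2⟩ := h.region hJ hφ
  obtain ⟨ζ, hζ, hζz⟩ := h.point hz
  have hA := h.A0
  set α : ℝ := A * Real.exp K with hα
  have hα2 : 2 * A ≤ α := by
    have h3 := Real.add_one_le_exp K
    rw [hα]
    nlinarith
  have hd : ‖ζ - α‖ ≤ α - 3 * A / 4 := by
    have h3 : ζ - (α : ℂ) = (ζ - A) - ((α - A : ℝ) : ℂ) := by push_cast; ring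
    rw [h3]
    refine (norm_sub_le _ _).trans ?_
    rw [Complex.norm_real, Real.norm_of_nonneg (by linarith)]
    linarith
  obtain ⟨g, hg, w, hw⟩ := hS _ _ _ h1 h2 ζ (by linarith)
  refine ⟨g, hg, w, ?_⟩
  rw [hζz] at hw
  refine hw.trans (Real.exp_le_exp.2 ?_)
  have h3 : ‖ζ - α‖ ^ 2 ≤ (α - 3 * A / 4) ^ 2 := pow_le_pow_left₀ (norm_nonneg _) hd 2
  have h4 : A * α / 4 ≤ (α - A / 4 - 2) ^ 2 - ‖ζ - α‖ ^ 2 := by
    have h5 : (α - A / 4 - 2) ^ 2 - (α - 3 * A / 4) ^ 2 = (A / 2 - 2) * (2 * α - A - 2) := by ring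
    have h6 : A / 4 * α ≤ (A / 2 - 2) * (2 * α - A - 2) :=
      mul_le_mul (by linarith) (by linarith) (by linarith) (by linarith)
    linarith
  have h5 := mul_le_mul_of_nonneg_left h4 hκ.le
  have h6 : κ * A ^ 2 * Real.exp K / 4 = κ * (A * α / 4) := by rw [hα]; ring
  rw [h6]
  linarith

end Pool.Agent.Helper65.GG
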