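import Pool.Graph.R_pool_sql_team_seeded_63374d34.N155.B.Defs

/-!
Invariant jet differentials on projective varieties.
-/

set_option autoImplicit false

open Filter Topology LinearAlgebra.Projectivization Pool.Agent.W602.GT Pool.Agent.N155

namespace Pool.Agent.Helper65.GG

variable {n : ℕ}

/-- The jet of order `r` of the curve `γ` at the point `z`: the derivatives of orders `0, …, r`. -/
noncomputable def jet (r : ℕ) (γ : ℂ → Fin (n + 1) → ℂ) (z : ℂ) :
    Fin (r + 1) → Fin (n + 1) → ℂ :=
  fun j => iteratedDeriv j γ z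

/-- `σ` is a holomorphic invariant jet differential of order `r` and weight `k` on the projective
set with the cone `X`, with values in the trivial line bundle. It is a function of the jets of order
`r` of the curves in `X`, which

* is holomorphic: it is a holomorphic function of the parameter in each holomorphic family of curves
  in `X`;
* does not change when the curve is multiplied by a function without zeros: it only depends on the
  jet of the curve in projective space;
* is invariant under changes of the variable, up to the factor `ψ' ^ k`;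
* vanishes when the derivative of the curve in projective space is zero (for `r ≤ 2` this follows
  from the other conditions).

For example, a symmetric differential of degree `k`, that is, a holomorphic section of `Sym ^ k Ω`,
is one of order 1 and weight `k`. -/
structure JetDiff (X : Set (Fin (n + 1) → ℂ)) (r k : ℕ)
    (σ : (Fin (r + 1) → Fin (n + 1) → ℂ) → ℂ) : Prop where
  hol : ∀ (E : Type) [NormedAddCommGroup E] [NormedSpace ℂ E] [FiniteDimensional ℂ E]
    (Γ : E → ℂ → Fin (n + 1) → ℂ) (p : E), AnalyticAt ℂ (fun q : E × ℂ => Γ q.1 q.2) (p, 0) →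
    (∀ᶠ q : E × ℂ in 𝓝 (p, 0), Γ q.1 q.2 ∈ X) → AnalyticAt ℂ (fun q => σ (jet r (Γ q) 0)) p
  twist : ∀ (γ : ℂ → Fin (n + 1) → ℂ) (h : ℂ → ℂ) (z : ℂ), AnalyticAt ℂ γ z → AnalyticAt ℂ h z →
    h z ≠ 0 → (∀ᶠ w in 𝓝 z, γ w ∈ X) → σ (jet r (fun w => h w • γ w) z) = σ (jet r γ z)
  param : ∀ (γ : ℂ → Fin (n + 1) → ℂ) (ψ : ℂ → ℂ) (z : ℂ), AnalyticAt ℂ ψ z →
    AnalyticAt ℂ γ (ψ z) → (∀ᶠ w in 𝓝 (ψ z), γ w ∈ X) →
    σ (jet r (fun w => γ (ψ w)) z) = deriv ψ z ^ k * σ (jet r γ (ψ z))
  sing : ∀ (γ : ℂ → Fin (n + 1) → ℂ) (z : ℂ), AnalyticAt ℂ γ z → (∀ᶠ w in 𝓝 z, γ w ∈ X) →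
    (∃ c : ℂ, deriv γ z = c • γ z) → σ (jet r γ z) = 0

/-- The curve `f` is annihilated by the jet differential `σ`: `σ` vanishes at the jets of the local
homogeneous coordinates of `f`. -/
def Annihilates {r : ℕ} (σ : (Fin (r + 1) → Fin (n + 1) → ℂ) → ℂ)
    (f : ℂ → ℙ ℂ (Fin (n + 1) → ℂ)) : Prop :=
  ∀ (V : Set ℂ) (g : ℂ → Fin (n + 1) → ℂ), IsOpen V → DifferentiableOn ℂ g V →
    (∀ w ∈ V, ∃ h : g w ≠ 0, f w = Projectivization.mk ℂ (g w) h) → ∀ z ∈ V, σ (jet r g z) = 0

/-- The curve `f` is a holomorphic map from the complex plane to the projective set with the cone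
`V`. -/
def CurveIn (V : Set (Fin (n + 1) → ℂ)) (f : ℂ → ℙ ℂ (Fin (n + 1) → ℂ)) : Prop :=
  HolMap f ∧ ∀ z, (f z).rep ∈ V

/-- The set `V` of vectors is closed under multiplication by nonzero scalars, and `V ∪ {0}` is a
closed set: `V` (without `0`) is the cone over a closed subset of projective space. -/
structure ClosedCone (V : Set (Fin (n + 1) → ℂ)) : Prop where
  smul : ∀ x ∈ V, ∀ c : ℂ, c ≠ 0 → c • x ∈ V
  closed : IsClosed (insert 0 V)

end Pool.Agent.Helper65.GG
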