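import Pool.Agent.Helper65.GG.JDefs
import Pool.Agent.Helper65.GG.Base

/-!
Jets of compositions.
-/

set_option autoImplicit false

open Filter Topology Metric MvPolynomial Set

namespace Pool.Agent.Helper65.GG

open Pool.Agent.W602.GT Pool.Agent.N155.BB Pool.Agent.Y190.OP Pool.Agent.N155
  Pool.Agent.N155.GD Pool.Agent.Helper65.BF

variable {n d : ℕ}

theorem order_of_small {E : Type*} [NormedAddCommGroup E] [NormedSpace ℂ E] [CompleteSpace E]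
    {f : ℂ → E} (hf : AnalyticAt ℂ f 0) {m : ℕ} {C : ℝ}
    (hb : ∀ᶠ s in 𝓝 (0 : ℂ), ‖f s‖ ≤ C * ‖s‖ ^ m) {i : ℕ} (hi : i < m) :
    iteratedDeriv i f 0 = 0 := by
  have key : (m : ℕ∞) ≤ analyticOrderAt f 0 := by
    by_contra hcon
    push Not at hcon
    obtain ⟨j, hj⟩ := ENat.ne_top_iff_exists.1 (hcon.trans (ENat.natCast_lt_top m)).ne
    rw [← hj] at hcon
    have hjm : j < m := by exact_mod_cast hcon
    obtain ⟨g, hg, hg0, hev⟩ := (hf.analyticOrderAt_eq_natCast (n := j)).1 hj.symm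
    have h1 : Tendsto g (𝓝[≠] 0) (𝓝 (g 0)) := hg.continuousAt.tendsto.mono_left nhdsWithin_le_nhds
    have h2 : Tendsto g (𝓝[≠] 0) (𝓝 0) := by
      rw [tendsto_zero_iff_norm_tendsto_zero]
      have h3 : Tendsto (fun s : ℂ => C * ‖s‖ ^ (m - j)) (𝓝[≠] 0) (𝓝 0) := by
        have h4 : Tendsto (fun s : ℂ => C * ‖s‖ ^ (m - j)) (𝓝 0) (𝓝 (C * ‖(0 : ℂ)‖ ^ (m - j))) := by
          have : Continuous fun s : ℂ => C * ‖s‖ ^ (m - j) := by fun_prop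
          exact this.tendsto 0
        rw [norm_zero, zero_pow (by omega), mul_zero] at h4
        exact h4.mono_left nhdsWithin_le_nhds
      refine squeeze_zero' (Eventually.of_forall fun s => norm_nonneg _) ?_ h3
      have h4 := (hb.and hev).filter_mono (nhdsWithin_le_nhds (s := {(0 : ℂ)}ᶜ))
      filter_upwards [h4, self_mem_nhdsWithin] with s hs hs0
      have hs0' : s ≠ 0 := hs0
      obtain ⟨h5, h6⟩ := hs
      rw [h6, sub_zero, norm_smul, norm_pow] at h5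
      have h7 : 0 < ‖s‖ := norm_pos_iff.2 hs0'
      have h8 : ‖s‖ ^ m = ‖s‖ ^ j * ‖s‖ ^ (m - j) := by
        rw [← pow_add]
        congr 1
        omega
      rw [h8] at h5
      have h9 : ‖s‖ ^ j * ‖g s‖ ≤ ‖s‖ ^ j * (C * ‖s‖ ^ (m - j)) := by linarith
      exact le_of_mul_le_mul_left h9 (by positivity)
    exact hg0 (tendsto_nhds_unique h1 h2)
  exact (natCast_le_analyticOrderAt_iff_iteratedDeriv_eq_zero hf).1 key i hi

/-- the jets of curves which are close to high order -/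
theorem jet_congr {r : ℕ} {γ₁ γ₂ : ℂ → Fin (n + 1) → ℂ} (h1 : AnalyticAt ℂ γ₁ 0)
    (h2 : AnalyticAt ℂ γ₂ 0) {C : ℝ}
    (hb : ∀ᶠ s in 𝓝 (0 : ℂ), ‖γ₁ s - γ₂ s‖ ≤ C * ‖s‖ ^ (r + 1)) : jet r γ₁ 0 = jet r γ₂ 0 := by
  funext j
  have h3 := order_of_small (h1.fun_sub h2) hb j.isLt
  rw [iteratedDeriv_fun_sub h1.contDiffAt h2.contDiffAt, sub_eq_zero] at h3
  exact h3

theorem jet_ev {r : ℕ} {γ₁ γ₂ : ℂ → Fin (n + 1) → ℂ} {z : ℂ} (h : γ₁ =ᶠ[𝓝 z] γ₂) :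
    jet r γ₁ z = jet r γ₂ z := funext fun j => h.iteratedDeriv_eq j

/-- the polynomial curve with given coefficients -/
def pc {r : ℕ} (p : Fin d → ℂ) (a : Fin r → Fin d → ℂ) (s : ℂ) : Fin d → ℂ :=
  p + ∑ j : Fin r, s ^ ((j : ℕ) + 1) • a j

/-- the coefficients of the Taylor polynomial -/
noncomputable def co (r : ℕ) (ξ : ℂ → Fin d → ℂ) (z : ℂ) : Fin r → Fin d → ℂ :=
  fun j => (((j : ℕ) + 1).factorial : ℂ)⁻¹ • iteratedDeriv ((j : ℕ) + 1) ξ z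

theorem taylor_curve {ξ : ℂ → Fin d → ℂ} {z : ℂ} (hξ : AnalyticAt ℂ ξ z) (r : ℕ) :
    ∃ R : ℂ → Fin d → ℂ, AnalyticAt ℂ R 0 ∧
      ∀ᶠ s in 𝓝 (0 : ℂ), ξ (z + s) = pc (ξ z) (co r ξ z) s + s ^ (r + 1) • R s := by
  have h1 : AnalyticAt ℂ (fun s => ξ (z + s)) 0 := by
    have h2 : AnalyticAt ℂ ξ (z + 0) := by rwa [add_zero]
    exact AnalyticAt.comp (g := ξ) (f := fun s => z + s) h2 (by fun_prop)
  obtain ⟨R, hR, hev⟩ := h1.exists_eventuallyEq_sum_add_pow_mul (r + 1)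
  refine ⟨R, hR, ?_⟩
  filter_upwards [hev] with s hs
  rw [hs]
  congr 1
  simp only [iteratedDeriv_comp_const_add, add_zero]
  rw [Finset.sum_range_succ', Finset.sum_range]
  unfold pc co
  rw [add_comm]
  congr 1
  · simp
  · refine Finset.sum_congr rfl fun j _ => ?_
    rw [smul_smul, div_eq_mul_inv]

theorem pc_analytic {r : ℕ} (p : Fin d → ℂ) (a : Fin r → Fin d → ℂ) (s : ℂ) :
    AnalyticAt ℂ (pc p a) s := by
  unfold pc
  fun_prop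

theorem pc_zero {r : ℕ} (p : Fin d → ℂ) (a : Fin r → Fin d → ℂ) : pc p a 0 = p := by
  unfold pc
  simp

/-- **The jet of a composition.** -/
theorem jet_comp {r : ℕ} {Ψ : (Fin d → ℂ) → Fin (n + 1) → ℂ} {ξ : ℂ → Fin d → ℂ} {z : ℂ}
    (hΨ : AnalyticAt ℂ Ψ (ξ z)) (hξ : AnalyticAt ℂ ξ z) :
    jet r (fun w => Ψ (ξ w)) z = jet r (fun s => Ψ (pc (ξ z) (co r ξ z) s)) 0 := by
  have h1 : jet r (fun w => Ψ (ξ w)) z = jet r (fun s => Ψ (ξ (z + s))) 0 := by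
    funext j
    unfold jet
    have h2 := congrFun (iteratedDeriv_comp_const_add (j : ℕ) (fun w => Ψ (ξ w)) z) 0
    simp only [add_zero] at h2
    exact h2.symm
  rw [h1]
  obtain ⟨R, hR, hev⟩ := taylor_curve hξ r
  have ha1 : AnalyticAt ℂ (fun s => ξ (z + s)) 0 := by
    have h2 : AnalyticAt ℂ ξ (z + 0) := by rwa [add_zero]
    exact AnalyticAt.comp (g := ξ) (f := fun s => z + s) h2 (by fun_prop)
  have ha1' : AnalyticAt ℂ (fun s => Ψ (ξ (z + s))) 0 := by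
    have h2 : AnalyticAt ℂ Ψ (ξ (z + 0)) := by rwa [add_zero]
    exact AnalyticAt.comp (g := Ψ) (f := fun s => ξ (z + s)) h2 ha1
  have ha2 := pc_analytic (ξ z) (co r ξ z) 0
  have ha2' : AnalyticAt ℂ (fun s => Ψ (pc (ξ z) (co r ξ z) s)) 0 := by
    have h2 : AnalyticAt ℂ Ψ (pc (ξ z) (co r ξ z) 0) := by rwa [pc_zero]
    exact AnalyticAt.comp (g := Ψ) (f := pc (ξ z) (co r ξ z)) h2 ha2
  obtain ⟨L, O, hO, hL⟩ := (hΨ.contDiffAt (n := 1)).exists_lipschitzOnWith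
  have hc1 : ∀ᶠ s in 𝓝 (0 : ℂ), ξ (z + s) ∈ O := by
    apply ha1.continuousAt.eventually_mem
    rwa [add_zero]
  have hc2 : ∀ᶠ s in 𝓝 (0 : ℂ), pc (ξ z) (co r ξ z) s ∈ O := by
    apply ha2.continuousAt.eventually_mem
    rwa [pc_zero]
  have hRb : ∀ᶠ s in 𝓝 (0 : ℂ), ‖R s‖ < ‖R 0‖ + 1 :=
    hR.continuousAt.norm.eventually_lt_const (lt_add_one _)
  apply jet_congr ha1' ha2' (C := L * (‖R 0‖ + 1))
  filter_upwards [hev, hc1, hc2, hRb] with s hs h3 h4 h5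
  have h6 := hL.dist_le_mul _ h3 _ h4
  rw [dist_eq_norm, dist_eq_norm, hs, add_sub_cancel_left, norm_smul, norm_pow] at h6
  rw [hs]
  refine h6.trans ?_
  have h7 : ‖s‖ ^ (r + 1) * ‖R s‖ ≤ ‖s‖ ^ (r + 1) * (‖R 0‖ + 1) :=
    mul_le_mul_of_nonneg_left h5.le (by positivity)
  calc (L : ℝ) * (‖s‖ ^ (r + 1) * ‖R s‖) ≤ L * (‖s‖ ^ (r + 1) * (‖R 0‖ + 1)) :=
        mul_le_mul_of_nonneg_left h7 L.coe_nonneg
    _ = _ := by ring

theorem iter_analytic {E : Type*} [NormedAddCommGroup E] [NormedSpace ℂ E] [CompleteSpace E]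
    {f : ℂ → E} {z : ℂ} (hf : AnalyticAt ℂ f z) (j : ℕ) : AnalyticAt ℂ (iteratedDeriv j f) z := by
  rw [iteratedDeriv_eq_iterate]
  exact hf.iterated_deriv j

theorem co_analytic {r : ℕ} {ξ : ℂ → Fin d → ℂ} {z : ℂ} (hξ : AnalyticAt ℂ ξ z) :
    AnalyticAt ℂ (co r ξ) z := by
  refine analyticAt_pi_iff.2 fun j => ?_
  exact (analyticAt_const (𝕜 := ℂ) (v := ((((j : ℕ) + 1).factorial : ℂ)⁻¹))).smul
    (iter_analytic hξ ((j : ℕ) + 1))

end Pool.Agent.Helper65.GG
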