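import Pool.Agent.Helper65.GG.Jet0

/-!
Jet differentials along curves of projection matrices.
-/

set_option autoImplicit false

open Filter Topology Metric MvPolynomial Set

namespace Pool.Agent.Helper65.GG

open Pool.Agent.W602.GT Pool.Agent.N155.BB Pool.Agent.Y190.OP Pool.Agent.N155
  Pool.Agent.N155.GD Pool.Agent.Helper65.BF

variable {n d r k : ℕ} {ι : Type} {F : ι → MvPolynomial (Fin (n + 1)) ℂ}
  {σ : (Fin (r + 1) → Fin (n + 1) → ℂ) → ℂ} {U : Set ℂ} {φ : ℂ → Mat (n + 1)}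

/-- an index for the chart -/
noncomputable def ix (M : Mat (n + 1)) : Fin (n + 1) := by
  classical
  exact if h : ∃ i, M i i ≠ 0 then h.choose else 0

theorem ix_ne {M : Mat (n + 1)} (hM : M ∈ (PM : Set (Mat (n + 1)))) : M (ix M) (ix M) ≠ 0 := by
  classical
  have h : ∃ i, M i i ≠ 0 := PM.exists_diag hM
  unfold ix
  rw [dif_pos h]
  exact h.choose_spec

/-- the value of the jet differential along a curve of matrices -/
noncomputable def GJ (σ : (Fin (r + 1) → Fin (n + 1) → ℂ) → ℂ) (φ : ℂ → Mat (n + 1)) (z : ℂ) : ℂ :=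
  σ (jet r (cu φ (ix (φ z))) z)

theorem ev_diag' (hφ : HolP U φ) {i : Fin (n + 1)} {s : ℂ} (hs : s ∈ U) (hi : φ s i i ≠ 0) :
    ∀ᶠ s' in 𝓝 s, φ s' i i ≠ 0 := by
  have : ContinuousAt (fun s' => φ s' i i) s :=
    (continuous_apply_apply i i).continuousAt.comp (hφ.continuousAt hs)
  exact this.eventually_ne hi

theorem cu_an' (hU : IsOpen U) (hφ : HolP U φ) {i : Fin (n + 1)} {s : ℂ} (hs : s ∈ U)
    (hi : φ s i i ≠ 0) : AnalyticAt ℂ (cu φ i) s := by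
  rw [Complex.analyticAt_iff_eventually_differentiableAt]
  filter_upwards [ev_diag' hφ hs hi, hU.mem_nhds hs] with s' hs' hsU
  exact hφ.diff_chart hsU hs'

theorem deriv_chart_le' (hφ : HolP U φ) {i : Fin (n + 1)} {s : ℂ} (hs : s ∈ U)
    (hi : φ s i i ≠ 0) {L : ℝ} (hL : ‖fderiv ℝ (chart i) (φ s)‖ ≤ L) :
    ‖deriv (cu φ i) s‖ ≤ L * ‖fderiv ℝ φ s‖ := by
  have h1 : HasFDerivAt (cu φ i) ((fderiv ℂ (cu φ i) s).restrictScalars ℝ) s :=
    (hφ.diff_chart hs hi).hasFDerivAt.restrictScalars ℝ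
  have h2 : HasFDerivAt (cu φ i) ((fderiv ℝ (chart i) (φ s)).comp (fderiv ℝ φ s)) s :=
    (((BB.contDiffAt_chart hi).differentiableAt (by norm_num)).hasFDerivAt).comp s
      (hφ.differentiableAt hs).hasFDerivAt
  have h3 := h1.unique h2
  rw [norm_deriv_eq_norm_fderiv, ← ContinuousLinearMap.norm_restrictScalars (𝕜' := ℝ), h3]
  refine (ContinuousLinearMap.opNorm_comp_le _ _).trans ?_
  exact mul_le_mul_of_nonneg_right hL (norm_nonneg _)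

/-- the value computed with any local lift -/
theorem GJ_lift (hF : ∀ i, IsForm (F i)) (hσ : JetDiff (Cone F) r k σ) (hU : IsOpen U)
    (hφ : CvOn (TF F) U φ) {z : ℂ} (hz : z ∈ U) {γ : ℂ → Fin (n + 1) → ℂ} (hγ : AnalyticAt ℂ γ z)
    (hφγ : ∀ᶠ w in 𝓝 z, γ w ≠ 0 ∧ φ w = Phi (γ w)) : GJ σ φ z = σ (jet r γ z) := by
  unfold GJ
  set i := ix (φ z) with hi
  have hii : φ z i i ≠ 0 := ix_ne (TF_PM (hφ.2 z hz))
  obtain ⟨h0, h1⟩ := hφγ.self_of_nhds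
  have hγi : γ z i ≠ 0 := by
    rw [h1] at hii
    exact (Phi_diag_ne h0).1 hii
  have hγia : AnalyticAt ℂ (fun w => γ w i) z := (analyticAt_pi_iff.1 hγ) i
  have h2 : cu φ i =ᶠ[𝓝 z] fun w => (γ w i)⁻¹ • γ w := by
    filter_upwards [hφγ, hγia.continuousAt.eventually_ne hγi] with w hw hwi
    unfold cu
    rw [hw.2]
    exact chart_Phi hw.1 hwi
  rw [jet_ev h2]
  refine hσ.twist γ (fun w => (γ w i)⁻¹) z hγ (hγia.inv hγi) (inv_ne_zero hγi) ?_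
  filter_upwards [hφγ, hU.mem_nhds hz] with w hw hwU
  have h3 := hφ.2 w hwU
  rw [hw.2] at h3
  exact (Phi_mem hF hw.1).1 h3

/-- the lift given by a chart -/
theorem cu_lift (hU : IsOpen U) (hφ : HolP U φ) {z : ℂ} (hz : z ∈ U) {i : Fin (n + 1)}
    (hi : φ z i i ≠ 0) : ∀ᶠ w in 𝓝 z, cu φ i w ≠ 0 ∧ φ w = Phi (cu φ i w) := by
  filter_upwards [ev_diag' hφ hz hi, hU.mem_nhds hz] with w hw hwU
  exact ⟨PM.chart_ne hw, (PM.Phi_chart (hφ.mem_PM hwU) hw).symm⟩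

/-- invariance under changes of the variable -/
theorem GJ_comp (hF : ∀ i, IsForm (F i)) (hσ : JetDiff (Cone F) r k σ) (hU : IsOpen U)
    (hφ : CvOn (TF F) U φ) {V : Set ℂ} {ψ : ℂ → ℂ} (hV : IsOpen V)
    (hψ : DifferentiableOn ℂ ψ V) (hm : MapsTo ψ V U) {z : ℂ} (hz : z ∈ V) :
    GJ σ (fun w => φ (ψ w)) z = deriv ψ z ^ k * GJ σ φ (ψ z) := by
  obtain ⟨i, hi⟩ := PM.exists_diag (TF_PM (hφ.2 _ (hm hz)))
  have hψa : AnalyticAt ℂ ψ z := (hψ.analyticOnNhd hV) z hz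
  have h1 := cu_lift hU hφ.1 (hm hz) hi
  have h2 := cu_an' hU hφ.1 (hm hz) hi
  rw [GJ_lift hF hσ hU hφ (hm hz) h2 h1, GJ_lift hF hσ hV (hφ.comp hV hψ hm) hz
    (γ := fun w => cu φ i (ψ w)) (h2.comp hψa) (hψa.continuousAt.eventually h1)]
  refine hσ.param _ ψ z hψa h2 ?_
  filter_upwards [h1, hU.mem_nhds (hm hz)] with w hw hwU
  have h3 := hφ.2 w hwU
  rw [hw.2] at h3
  exact (Phi_mem hF hw.1).1 h3

/-- the local parametrizations -/
theorem loc_graph (hX : ProjManifold F d) {M0 : Mat (n + 1)} (hM0 : M0 ∈ TF F) :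
    ∃ (i : Fin (n + 1)) (J : Fin d → Fin (n + 1)) (O : Set (Mat (n + 1)))
      (W : Set (Fin d → ℂ)) (Ψ : (Fin d → ℂ) → Fin (n + 1) → ℂ), IsOpen O ∧ M0 ∈ O ∧ IsOpen W ∧
      AnalyticOnNhd ℂ Ψ W ∧ (∀ x ∈ W, Ψ x ∈ Cone F) ∧
      ∀ M ∈ O, M i i ≠ 0 ∧ (fun k => chart i M (J k)) ∈ W ∧ (M ∈ TF F →
        chart i M = Ψ (fun k => chart i M (J k))) := by
  obtain ⟨x0, hx0, rfl⟩ := hM0
  obtain ⟨i, J, U, Ψ, hxi, hU, hxU, hΨ, hΨX, hev⟩ := hX.smooth x0 hx0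
  have hi : Phi x0 i i ≠ 0 := (Phi_diag_ne hx0.1).2 hxi
  have hch : chart i (Phi x0) = (x0 i)⁻¹ • x0 := chart_Phi hx0.1 hxi
  have hξ0 : (fun k => chart i (Phi x0) (J k)) = fun k => x0 (J k) / x0 i := by
    funext k
    rw [hch, Pi.smul_apply, smul_eq_mul]
    ring
  have hU0 : (fun k => chart i (Phi x0) (J k)) ∈ U := by rwa [hξ0]
  have hcξ : ContinuousAt (fun (M : Mat (n + 1)) k => chart i M (J k)) (Phi x0) := by
    rw [continuousAt_pi]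
    intro k
    exact (continuous_apply (J k)).continuousAt.comp (continuousAt_chart hi)
  have h2 : ∀ᶠ M : Mat (n + 1) in 𝓝 (Phi x0), M i i ≠ 0 ∧
      (fun k => chart i M (J k)) ∈ U ∧
      (x0 i • chart i M ∈ Cone F → x0 i • chart i M =
        (x0 i • chart i M) i • Ψ (fun k => (x0 i • chart i M) (J k) / (x0 i • chart i M) i)) := by
    refine ((continuous_apply_apply i i).continuousAt.eventually_ne hi).and
      ((hcξ.eventually (hU.mem_nhds hU0)).and ?_)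
    have h3 : Tendsto (fun M : Mat (n + 1) => x0 i • chart i M) (𝓝 (Phi x0)) (𝓝 x0) := by
      have h4 := (continuousAt_chart hi).tendsto.const_smul (x0 i)
      rwa [hch, smul_smul, mul_inv_cancel₀ hxi, one_smul] at h4
    exact h3.eventually hev
  obtain ⟨O, hOs, hO, hMO⟩ := _root_.mem_nhds_iff.1 h2
  refine ⟨i, J, O, U, Ψ, hO, hMO, hU, hΨ, fun z hz => (hΨX z hz).1, fun M hM => ?_⟩
  obtain ⟨e1, e3, e4⟩ := hOs hM
  refine ⟨e1, e3, fun hMT => ?_⟩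
  have hcone := chart_cone hX.form hMT e1
  have h5 := e4 (cone_smul hX.form hcone hxi)
  have h7 : (fun k => (x0 i • chart i M) (J k) / (x0 i • chart i M) i) =
      fun k => chart i M (J k) := by
    funext k
    rw [Pi.smul_apply, Pi.smul_apply, smul_eq_mul, smul_eq_mul, PM.chart_self e1, mul_one,
      mul_div_cancel_left₀ _ hxi]
  rw [h7, Pi.smul_apply, smul_eq_mul, PM.chart_self e1, mul_one] at h5
  exact smul_right_injective _ hxi h5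

/-- the jet differential in a local parametrization -/
noncomputable def SJ (σ : (Fin (r + 1) → Fin (n + 1) → ℂ) → ℂ)
    (Ψ : (Fin d → ℂ) → Fin (n + 1) → ℂ) (q : (Fin d → ℂ) × (Fin r → Fin d → ℂ)) : ℂ :=
  σ (jet r (fun s => Ψ (pc q.1 q.2 s)) 0)

variable {W : Set (Fin d → ℂ)} {Ψ : (Fin d → ℂ) → Fin (n + 1) → ℂ} {X : Set (Fin (n + 1) → ℂ)}

theorem pc_joint (q0 : (Fin d → ℂ) × (Fin r → Fin d → ℂ)) (s0 : ℂ) :
    AnalyticAt ℂ (fun q : ((Fin d → ℂ) × (Fin r → Fin d → ℂ)) × ℂ => pc q.1.1 q.1.2 q.2)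
      (q0, s0) := by
  unfold pc
  refine AnalyticAt.fun_add ?_ ?_
  · exact ((ContinuousLinearMap.fst ℂ (Fin d → ℂ) (Fin r → Fin d → ℂ)).comp
      (ContinuousLinearMap.fst ℂ ((Fin d → ℂ) × (Fin r → Fin d → ℂ)) ℂ)).analyticAt (q0, s0)
  · refine Finset.analyticAt_fun_sum _ fun j _ => ?_
    refine AnalyticAt.fun_smul (analyticAt_snd.pow _) ?_
    have h1 : AnalyticAt ℂ (fun q : ((Fin d → ℂ) × (Fin r → Fin d → ℂ)) × ℂ => q.1.2)
      (q0, s0) := ((ContinuousLinearMap.snd ℂ (Fin d → ℂ) (Fin r → Fin d → ℂ)).comp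
      (ContinuousLinearMap.fst ℂ ((Fin d → ℂ) × (Fin r → Fin d → ℂ)) ℂ)).analyticAt (q0, s0)
    exact (analyticAt_pi_iff.1 h1) j

theorem SJ_an (hσ : JetDiff X r k σ) (hW : IsOpen W) (hΨ : AnalyticOnNhd ℂ Ψ W)
    (hΨX : ∀ x ∈ W, Ψ x ∈ X) {q : (Fin d → ℂ) × (Fin r → Fin d → ℂ)} (hq : q.1 ∈ W) :
    AnalyticAt ℂ (SJ σ Ψ) q := by
  have hj := pc_joint (d := d) (r := r) q 0
  have h0 : pc q.1 q.2 0 = q.1 := pc_zero _ _
  apply hσ.hol ((Fin d → ℂ) × (Fin r → Fin d → ℂ)) (fun q s => Ψ (pc q.1 q.2 s)) q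
  · refine AnalyticAt.comp (g := Ψ)
      (f := fun q : ((Fin d → ℂ) × (Fin r → Fin d → ℂ)) × ℂ => pc q.1.1 q.1.2 q.2) ?_ hj
    change AnalyticAt ℂ Ψ (pc q.1 q.2 0)
    rw [h0]
    exact hΨ _ hq
  · have h1 := hj.continuousAt.eventually_mem (hW.mem_nhds (show pc q.1 q.2 0 ∈ W by rwa [h0]))
    exact h1.mono fun q' hq' => hΨX _ hq'

theorem pc_deriv (hr : 0 < r) (p : Fin d → ℂ) (a : Fin r → Fin d → ℂ) :
    HasDerivAt (pc p a) (a ⟨0, hr⟩) 0 := by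
  have h1 : HasDerivAt (fun s : ℂ => ∑ j : Fin r, s ^ ((j : ℕ) + 1) • a j)
      (∑ j : Fin r, ((((j : ℕ) + 1 : ℕ) : ℂ) * (0 : ℂ) ^ (j : ℕ)) • a j) 0 := by
    refine HasDerivAt.fun_sum fun j _ => ?_
    have h2 := hasDerivAt_pow ((j : ℕ) + 1) (0 : ℂ)
    exact h2.smul_const (a j)
  have h3 : ∑ j : Fin r, ((((j : ℕ) + 1 : ℕ) : ℂ) * (0 : ℂ) ^ (j : ℕ)) • a j = a ⟨0, hr⟩ := by
    rw [Finset.sum_eq_single ⟨0, hr⟩]
    · simp
    · intro j _ hj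
      have h4 : (j : ℕ) ≠ 0 := fun h5 => hj (Fin.ext h5)
      rw [zero_pow h4, mul_zero, zero_smul]
    · intro h
      exact absurd (Finset.mem_univ _) h
  rw [h3] at h1
  exact h1.const_add p

theorem SJ_zero (hσ : JetDiff X r k σ) (hr : 0 < r) (hW : IsOpen W) (hΨ : AnalyticOnNhd ℂ Ψ W)
    (hΨX : ∀ x ∈ W, Ψ x ∈ X) {q : (Fin d → ℂ) × (Fin r → Fin d → ℂ)} (hq : q.1 ∈ W)
    (h0 : q.2 ⟨0, hr⟩ = 0) : SJ σ Ψ q = 0 := by
  have e0 : pc q.1 q.2 0 = q.1 := pc_zero _ _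
  have hΨ0 : AnalyticAt ℂ Ψ (pc q.1 q.2 0) := by
    rw [e0]
    exact hΨ _ hq
  apply hσ.sing
  · exact AnalyticAt.comp (g := Ψ) (f := pc q.1 q.2) hΨ0 (pc_analytic _ _ _)
  · have h1 := (pc_analytic q.1 q.2 0).continuousAt.eventually_mem
      (hW.mem_nhds (show pc q.1 q.2 0 ∈ W by rwa [e0]))
    exact h1.mono fun q' hq' => hΨX _ hq'
  · refine ⟨0, ?_⟩
    rw [zero_smul]
    have h1 := pc_deriv hr q.1 q.2
    rw [h0] at h1
    have h2 := (hΨ0.differentiableAt.hasFDerivAt).comp_hasDerivAt (0 : ℂ) h1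
    have h3 := h2.deriv
    rw [map_zero] at h3
    exact h3

/-- the value in a local parametrization -/
theorem GJ_loc (hF : ∀ i, IsForm (F i)) (hσ : JetDiff (Cone F) r k σ) (hU : IsOpen U)
    (hφ : CvOn (TF F) U φ) {i : Fin (n + 1)} {J : Fin d → Fin (n + 1)} {O : Set (Mat (n + 1))}
    (hO : IsOpen O) (hΨ : AnalyticOnNhd ℂ Ψ W)
    (hOM : ∀ M ∈ O, M i i ≠ 0 ∧ (fun k => chart i M (J k)) ∈ W ∧ (M ∈ TF F →
        chart i M = Ψ (fun k => chart i M (J k)))) {z : ℂ} (hz : z ∈ U) (hzO : φ z ∈ O) :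
    GJ σ φ z = SJ σ Ψ (fun k => cu φ i z (J k), co r (fun w k => cu φ i w (J k)) z) ∧
      (fun k => cu φ i z (J k)) ∈ W ∧ AnalyticAt ℂ (fun w k => cu φ i w (J k)) z := by
  obtain ⟨hi, hW, -⟩ := hOM _ hzO
  have han := cu_an' hU hφ.1 hz hi
  set ξ : ℂ → Fin d → ℂ := fun w k => cu φ i w (J k) with hξ
  have hξa : AnalyticAt ℂ ξ z := analyticAt_pi_iff.2 fun k => (analyticAt_pi_iff.1 han) (J k)
  refine ⟨?_, hW, hξa⟩
  rw [GJ_lift hF hσ hU hφ hz han (cu_lift hU hφ.1 hz hi)]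
  have h1 : cu φ i =ᶠ[𝓝 z] fun w => Ψ (ξ w) := by
    have h2 := (hφ.1.continuousAt hz).eventually_mem (hO.mem_nhds hzO)
    filter_upwards [h2, hU.mem_nhds hz] with w hw hwU
    exact (hOM _ hw).2.2 (hφ.2 w hwU)
  rw [jet_ev h1]
  exact congrArg σ (jet_comp (hΨ _ hW) hξa)

end Pool.Agent.Helper65.GG
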