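import Pool.Agent.Helper65.GG.Jet1

/-!
Jet differentials on projective manifolds give invariants of curves.
-/

set_option autoImplicit false

open Filter Topology Metric MvPolynomial Set

namespace Pool.Agent.Helper65.GG

open Pool.Agent.W602.GT Pool.Agent.N155.BB Pool.Agent.Y190.OP Pool.Agent.N155
  Pool.Agent.N155.GD Pool.Agent.Helper65.BF

variable {n d r k : ℕ} {ι : Type} {F : ι → MvPolynomial (Fin (n + 1)) ℂ}
  {σ : (Fin (r + 1) → Fin (n + 1) → ℂ) → ℂ} {U : Set ℂ} {φ : ℂ → Mat (n + 1)}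

/-- the local bound -/
theorem GJ_bd_loc (hX : ProjManifold F d) (hσ : JetDiff (Cone F) r k σ) (hr : 0 < r)
    {M0 : Mat (n + 1)} (hM0 : M0 ∈ TF F) :
    ∃ (O : Set (Mat (n + 1))) (C : ℝ), IsOpen O ∧ M0 ∈ O ∧ ∀ (φ : ℂ → Mat (n + 1)) (z : ℂ),
      CvOn (TF F) (ball z 1) φ → (∀ w ∈ ball z 1, ‖fderiv ℝ φ w‖ ≤ 2) → φ z ∈ O →
        ‖GJ σ φ z‖ ≤ C * ‖fderiv ℝ φ z‖ := by
  obtain ⟨i, J, O, W, Ψ, hO, hMO, hW, hΨ, hΨX, hOM⟩ := loc_graph hX hM0
  have hi : M0 i i ≠ 0 := (hOM M0 hMO).1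
  obtain ⟨L, O1, hL, hO1, hMO1, hO1i, hO1l, hO1f⟩ := lip_chart hi
  set x0 : Fin d → ℂ := fun k => chart i M0 (J k) with hx0
  have hx0W : x0 ∈ W := (hOM M0 hMO).2.1
  obtain ⟨ρ0, hρ0, hρ0W⟩ := Metric.nhds_basis_closedBall.mem_iff.1 (hW.mem_nhds hx0W)
  have hcξ : ContinuousAt (fun (M : Mat (n + 1)) k => chart i M (J k)) M0 := by
    rw [continuousAt_pi]
    intro k
    exact (continuous_apply (J k)).continuousAt.comp (continuousAt_chart hi)
  have hev : ∀ᶠ M in 𝓝 M0, (fun k => chart i M (J k)) ∈ closedBall x0 ρ0 :=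
    hcξ.eventually_mem (closedBall_mem_nhds x0 hρ0)
  obtain ⟨ρ, hρ, hsub⟩ := Metric.mem_nhds_iff.1
    ((hO.eventually_mem hMO).and ((hO1.eventually_mem hMO1).and hev))
  have hsub' : ∀ M ∈ ball M0 ρ, M ∈ O ∧ M ∈ O1 ∧ (fun k => chart i M (J k)) ∈ closedBall x0 ρ0 :=
    fun M hM => hsub hM
  set ρ' : ℝ := min (ρ / 4) 1 with hρ'
  have hρ'0 : 0 < ρ' := by positivity
  set B : ℝ := ‖x0‖ + ρ0 with hB
  have hB0 : 0 ≤ B := by positivity
  set K : ℝ := ∑ j : Fin r, B / (ρ' / 2) ^ ((j : ℕ) + 1) with hK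
  have hK0 : 0 ≤ K := Finset.sum_nonneg fun j _ => by positivity
  set Kc : Set ((Fin d → ℂ) × (Fin r → Fin d → ℂ)) := closedBall x0 ρ0 ×ˢ closedBall 0 K with hKc
  have hKcc : IsCompact Kc := (isCompact_closedBall _ _).prod (isCompact_closedBall _ _)
  have hKcv : Convex ℝ Kc := (convex_closedBall _ _).prod (convex_closedBall _ _)
  have hSa : ∀ q ∈ Kc, AnalyticAt ℂ (SJ σ Ψ) q := fun q hq =>
    SJ_an hσ hW hΨ hΨX (hρ0W hq.1)
  obtain ⟨C, hC⟩ := hKcc.exists_bound_of_continuousOn (f := fderiv ℂ (SJ σ Ψ))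
    fun q hq => (hSa q hq).fderiv.continuousAt.continuousWithinAt
  refine ⟨ball M0 (ρ / 2), |C| * L, isOpen_ball, mem_ball_self (by positivity),
    fun φ z hφ hφd hz => ?_⟩
  have hzz : z ∈ ball z (1 : ℝ) := mem_ball_self one_pos
  have hzρ : φ z ∈ ball M0 ρ := ball_subset_ball (by linarith) hz
  obtain ⟨hzO, hzO1, -⟩ := hsub' _ hzρ
  obtain ⟨h1, h2, h3⟩ := GJ_loc hX.form hσ isOpen_ball hφ hO hΨ hOM hzz hzO
  rw [h1]
  set ξ : ℂ → Fin d → ℂ := fun w k => cu φ i w (J k) with hξ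
  -- the curve stays near `M0`
  have hnear : ∀ w ∈ ball z ρ', φ w ∈ ball M0 ρ := by
    intro w hw
    have hw1 : w ∈ ball z (1 : ℝ) := ball_subset_ball (min_le_right _ _) hw
    have hlip : ‖φ w - φ z‖ ≤ 2 * ‖w - z‖ :=
      (convex_ball z 1).norm_image_sub_le_of_norm_fderiv_le
        (fun x hx => hφ.1.differentiableAt hx) (fun x hx => hφd x hx) hzz hw1
    have hw4 : ‖w - z‖ < ρ / 4 := by
      rw [mem_ball, dist_eq_norm] at hw
      exact hw.trans_le (min_le_left _ _)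
    rw [mem_ball, dist_eq_norm] at hz ⊢
    have e1 : φ w - M0 = (φ w - φ z) + (φ z - M0) := by abel
    rw [e1]
    have e2 := norm_add_le (φ w - φ z) (φ z - M0)
    linarith
  have hξd : ∀ w ∈ ball z ρ', DifferentiableAt ℂ ξ w := by
    intro w hw
    have hw1 : w ∈ ball z (1 : ℝ) := ball_subset_ball (min_le_right _ _) hw
    have h4 := hφ.1.diff_chart hw1 (hO1i _ (hsub' _ (hnear w hw)).2.1)
    exact differentiableAt_pi.2 fun k => (differentiableAt_pi.1 h4) (J k)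
  have hξb : ∀ w ∈ ball z ρ', ‖ξ w‖ ≤ B := by
    intro w hw
    have h4 := (hsub' _ (hnear w hw)).2.2
    rw [mem_closedBall, dist_eq_norm] at h4
    have h5 := norm_add_le (ξ w - x0) x0
    rw [sub_add_cancel] at h5
    have h6 : ‖ξ w - x0‖ ≤ ρ0 := h4
    linarith
  have hco : ∀ j, ‖co r ξ z j‖ ≤ K := by
    intro j
    have h4 := Complex.norm_iteratedDeriv_le_of_forall_mem_sphere_norm_le (f := ξ) (c := z)
      (R := ρ' / 2) (C := B) ((j : ℕ) + 1) (by positivity) (by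
        apply DifferentiableOn.diffContOnCl
        intro w hw
        refine (hξd w ?_).differentiableWithinAt
        have h5 := mem_closedBall.1 (closure_ball_subset_closedBall hw)
        rw [mem_ball]
        linarith) (fun w hw => hξb w (by
        rw [mem_sphere] at hw
        rw [mem_ball, hw]
        linarith))
    have h5 : ‖co r ξ z j‖ ≤ B / (ρ' / 2) ^ ((j : ℕ) + 1) := by
      unfold co
      rw [norm_smul, norm_inv, Complex.norm_natCast]
      have h6 : (0 : ℝ) < (((j : ℕ) + 1).factorial : ℝ) := by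
        exact_mod_cast Nat.factorial_pos _
      rw [inv_mul_le_iff₀ h6]
      refine h4.trans (le_of_eq ?_)
      ring
    refine h5.trans ?_
    exact Finset.single_le_sum (f := fun j : Fin r => B / (ρ' / 2) ^ ((j : ℕ) + 1))
      (fun j _ => by positivity) (Finset.mem_univ j)
  -- the point with zero derivative
  set a' : Fin r → Fin d → ℂ := Function.update (co r ξ z) ⟨0, hr⟩ 0 with ha'
  have ha'K : ∀ j, ‖a' j‖ ≤ K := by
    intro j
    by_cases hj : j = ⟨0, hr⟩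
    · rw [hj, ha', Function.update_self, norm_zero]
      exact hK0
    · rw [ha', Function.update_of_ne hj]
      exact hco j
  have hξz : ξ z ∈ closedBall x0 ρ0 := (hsub' _ hzρ).2.2
  have hq1 : (ξ z, co r ξ z) ∈ Kc :=
    ⟨hξz, mem_closedBall_zero_iff.2 ((pi_norm_le_iff_of_nonneg hK0).2 hco)⟩
  have hq2 : (ξ z, a') ∈ Kc :=
    ⟨hξz, mem_closedBall_zero_iff.2 ((pi_norm_le_iff_of_nonneg hK0).2 ha'K)⟩
  have h4 := Convex.norm_image_sub_le_of_norm_fderiv_le (𝕜 := ℂ)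
    (fun q hq => (hSa q hq).differentiableAt) (fun q hq => hC q hq) hKcv hq2 hq1
  have h5 : SJ σ Ψ (ξ z, a') = 0 := SJ_zero hσ hr hW hΨ hΨX h2 (by
    change a' ⟨0, hr⟩ = 0
    rw [ha', Function.update_self])
  rw [h5, sub_zero] at h4
  have h6 : ‖(ξ z, co r ξ z) - (ξ z, a')‖ ≤ L * ‖fderiv ℝ φ z‖ := by
    rw [Prod.mk_sub_mk, sub_self, Prod.norm_mk, norm_zero]
    refine max_le (by positivity) ?_
    rw [pi_norm_le_iff_of_nonneg (by positivity)]
    intro j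
    by_cases hj : j = ⟨0, hr⟩
    · rw [hj]
      simp only [Pi.sub_apply, ha', Function.update_self, sub_zero]
      have h7 : co r ξ z ⟨0, hr⟩ = deriv ξ z := by
        unfold co
        simp [iteratedDeriv_one]
      rw [h7]
      have h8 := deriv_chart_le' (U := ball z (1 : ℝ)) hφ.1 hzz (hO1i _ hzO1) (hO1f _ hzO1)
      refine le_trans ?_ h8
      rw [pi_norm_le_iff_of_nonneg (norm_nonneg _)]
      intro k'
      have h9 := (hφ.1.diff_chart hzz (hO1i _ hzO1)).hasDerivAt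
      have h10 : deriv ξ z k' = deriv (cu φ i) z (J k') := by
        have e1 := (hasDerivAt_pi.1 h3.differentiableAt.hasDerivAt) k'
        have e2 := (hasDerivAt_pi.1 h9) (J k')
        exact e1.unique e2
      rw [h10]
      exact norm_le_pi_norm _ _
    · simp only [Pi.sub_apply, ha', Function.update_of_ne hj, sub_self, norm_zero]
      positivity
  calc ‖SJ σ Ψ (ξ z, co r ξ z)‖ ≤ C * ‖(ξ z, co r ξ z) - (ξ z, a')‖ := h4
    _ ≤ |C| * ‖(ξ z, co r ξ z) - (ξ z, a')‖ :=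
        mul_le_mul_of_nonneg_right (le_abs_self C) (norm_nonneg _)
    _ ≤ |C| * (L * ‖fderiv ℝ φ z‖) := mul_le_mul_of_nonneg_left h6 (abs_nonneg C)
    _ = _ := by ring

/-- the bound -/
theorem GJ_bd (hX : ProjManifold F d) (hσ : JetDiff (Cone F) r k σ) (hr : 0 < r) :
    ∃ C : ℝ, 0 ≤ C ∧ ∀ (φ : ℂ → Mat (n + 1)) (z : ℂ), CvOn (TF F) (ball z 1) φ →
      (∀ w ∈ ball z 1, ‖fderiv ℝ φ w‖ ≤ 2) → ‖GJ σ φ z‖ ≤ C * ‖fderiv ℝ φ z‖ := by
  have hbd : ∃ C : ℝ, ∀ M ∈ TF F, ∀ (φ : ℂ → Mat (n + 1)) (z : ℂ), φ z = M →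
      CvOn (TF F) (ball z 1) φ → (∀ w ∈ ball z 1, ‖fderiv ℝ φ w‖ ≤ 2) →
      ‖GJ σ φ z‖ ≤ C * ‖fderiv ℝ φ z‖ := by
    refine (isCompact_TF hX.form).induction_on
      (p := fun s => ∃ C : ℝ, ∀ M ∈ s, ∀ (φ : ℂ → Mat (n + 1)) (z : ℂ), φ z = M →
      CvOn (TF F) (ball z 1) φ → (∀ w ∈ ball z 1, ‖fderiv ℝ φ w‖ ≤ 2) →
      ‖GJ σ φ z‖ ≤ C * ‖fderiv ℝ φ z‖) ?_ ?_ ?_ ?_
    · exact ⟨0, fun M hM => absurd hM (notMem_empty _)⟩
    · rintro s s' hss ⟨C, hC⟩
      exact ⟨C, fun M hM => hC M (hss hM)⟩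
    · rintro s s' ⟨C, hC⟩ ⟨C', hC'⟩
      refine ⟨max C C', fun M hM φ z hz h1 h2 => ?_⟩
      rcases hM with hM | hM
      · exact (hC M hM φ z hz h1 h2).trans
          (mul_le_mul_of_nonneg_right (le_max_left _ _) (norm_nonneg _))
      · exact (hC' M hM φ z hz h1 h2).trans
          (mul_le_mul_of_nonneg_right (le_max_right _ _) (norm_nonneg _))
    · intro M hM
      obtain ⟨O, C, hO, hMO, h1⟩ := GJ_bd_loc hX hσ hr hM
      refine ⟨O, mem_nhdsWithin_of_mem_nhds (hO.mem_nhds hMO), C,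
        fun M' hM' φ z hz h2 h3 => h1 φ z h2 h3 (by rwa [hz])⟩
  obtain ⟨C, hC⟩ := hbd
  refine ⟨max C 0, le_max_right _ _, fun φ z h1 h2 => ?_⟩
  exact (hC _ (h1.2 z (mem_ball_self one_pos)) φ z rfl h1 h2).trans
    (mul_le_mul_of_nonneg_right (le_max_left _ _) (norm_nonneg _))

/-- convergence of all derivatives -/
theorem iter_tendsto {E : Type*} [NormedAddCommGroup E] [NormedSpace ℂ E] [CompleteSpace E]
    {l : Filter ℕ} {W : Set ℂ} (hW : IsOpen W) (j : ℕ) : ∀ {f : ℕ → ℂ → E} {g : ℂ → E},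
    TendstoLocallyUniformlyOn f g l W → (∀ᶠ m in l, DifferentiableOn ℂ (f m) W) →
    TendstoLocallyUniformlyOn (fun m => iteratedDeriv j (f m)) (iteratedDeriv j g) l W := by
  induction j with
  | zero =>
    intro f g h _
    simpa only [iteratedDeriv_zero] using h
  | succ j ih =>
    intro f g h hd
    have h1 := h.deriv hd hW
    have h2 : ∀ᶠ m in l, DifferentiableOn ℂ ((deriv ∘ f) m) W := by
      filter_upwards [hd] with m hm
      exact hm.deriv hW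
    have h3 := ih h1 h2
    simp only [iteratedDeriv_succ']
    exact h3

/-- the convergence -/
theorem GJ_lim (hX : ProjManifold F d) (hσ : JetDiff (Cone F) r k σ)
    (𝓤 : Ultrafilter ℕ) (P : ℕ → ℂ → Mat (n + 1)) (H : ℂ → Mat (n + 1)) (ρ : ℝ)
    (hP : ∀ᶠ m in (𝓤 : Filter ℕ), CvOn (TF F) (ball 0 ρ) (P m))
    (hPH : CConv (𝓤 : Filter ℕ) (ball 0 ρ) P H) (hH : CvOn (TF F) (ball 0 ρ) H) (z : ℂ)
    (hz : z ∈ ball (0 : ℂ) ρ) : Tendsto (fun m => GJ σ (P m) z) 𝓤 (𝓝 (GJ σ H z)) := by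
  obtain ⟨i, J, O, W, Ψ, hO, hMO, hW, hΨ, hΨX, hOM⟩ := loc_graph hX (hH.2 z hz)
  obtain ⟨h1, h2, h3⟩ := GJ_loc hX.form hσ isOpen_ball hH hO hΨ hOM hz hMO
  -- a neighbourhood of the point
  have h4 : ∀ᶠ p : ℕ × ℂ in (𝓤 : Filter ℕ) ×ˢ 𝓝 z, P p.1 p.2 ∈ O :=
    (hPH z hz).eventually_mem (hO.mem_nhds hMO)
  rw [eventually_prod_iff] at h4
  obtain ⟨pa, hpa, pb, hpb, hab⟩ := h4
  have hHev : ∀ᶠ w in 𝓝 z, H w ∈ O := (hH.1.continuousAt hz).eventually_mem (hO.mem_nhds hMO)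
  obtain ⟨V, hVs, hV, hzV⟩ := _root_.mem_nhds_iff.1
    ((hpb.and hHev).and (isOpen_ball.eventually_mem hz))
  have hVs' : ∀ w ∈ V, (pb w ∧ H w ∈ O) ∧ w ∈ ball (0 : ℂ) ρ := fun w hw => hVs hw
  set ξ : ℂ → Fin d → ℂ := fun w k => cu H i w (J k) with hξ
  set ξm : ℕ → ℂ → Fin d → ℂ := fun m w k => cu (P m) i w (J k) with hξm
  have hcc : CConv (𝓤 : Filter ℕ) V ξm ξ := by
    refine CConv.comp (g := fun (M : Mat (n + 1)) k => chart i M (J k))
      (fun w hw => hPH w (hVs' w hw).2) fun w hw => ?_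
    rw [continuousAt_pi]
    intro k
    exact (continuous_apply (J k)).continuousAt.comp
      (continuousAt_chart (hOM _ (hVs' w hw).1.2).1)
  have hd : ∀ᶠ m in (𝓤 : Filter ℕ), DifferentiableOn ℂ (ξm m) V := by
    filter_upwards [hP, hpa] with m hm hma w hw
    have h5 := hm.1.diff_chart (hVs' w hw).2 (hOM _ (hab hma (hVs' w hw).1.1)).1
    exact (differentiableAt_pi.2 fun k => (differentiableAt_pi.1 h5) (J k)).differentiableWithinAt
  have hLU := hcc.locUnif hV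
  have hco : Tendsto (fun m => co r (ξm m) z) 𝓤 (𝓝 (co r ξ z)) := by
    rw [tendsto_pi_nhds]
    intro j
    exact ((iter_tendsto hV ((j : ℕ) + 1) hLU hd).tendsto_at hzV).const_smul _
  have hxi : Tendsto (fun m => ξm m z) 𝓤 (𝓝 (ξ z)) := hLU.tendsto_at hzV
  have h5 : Tendsto (fun m => SJ σ Ψ (ξm m z, co r (ξm m) z)) 𝓤 (𝓝 (SJ σ Ψ (ξ z, co r ξ z))) := by
    have h6 : ContinuousAt (SJ σ Ψ) (ξ z, co r ξ z) :=
      (SJ_an hσ hW hΨ hΨX (q := (ξ z, co r ξ z)) h2).continuousAt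
    exact h6.tendsto.comp (hxi.prodMk_nhds hco)
  rw [h1]
  refine h5.congr' ?_
  filter_upwards [hP, hpa] with m hm hma
  exact (GJ_loc hX.form hσ isOpen_ball hm hO hΨ hOM hz (hab hma (hVs' z hzV).1.1)).1.symm

/-- **Jet differentials give invariants of curves.** -/
theorem ji_of (hX : ProjManifold F d) (hσ : JetDiff (Cone F) r k σ) (hr : 0 < r) :
    JI (TF F) k (GJ σ) where
  hol := by
    intro φ U hU hφ z hz
    refine DifferentiableAt.differentiableWithinAt ?_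
    obtain ⟨i, J, O, W, Ψ, hO, hMO, hW, hΨ, hΨX, hOM⟩ := loc_graph hX (hφ.2 z hz)
    obtain ⟨h1, h2, h3⟩ := GJ_loc hX.form hσ hU hφ hO hΨ hOM hz hMO
    have h4 : AnalyticAt ℂ (fun w => SJ σ Ψ (fun k => cu φ i w (J k),
        co r (fun w k => cu φ i w (J k)) w)) z := by
      have h5 := SJ_an hσ hW hΨ hΨX (q := (fun k => cu φ i z (J k),
        co r (fun w k => cu φ i w (J k)) z)) h2
      exact AnalyticAt.comp (g := SJ σ Ψ) (f := fun w => ((fun k => cu φ i w (J k) : Fin d → ℂ),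
        co r (fun w k => cu φ i w (J k)) w)) h5 (h3.prod (co_analytic h3))
    refine h4.differentiableAt.congr_of_eventuallyEq ?_
    filter_upwards [(hφ.1.continuousAt hz).eventually_mem (hO.mem_nhds hMO),
      hU.mem_nhds hz] with w hw hwU
    exact (GJ_loc hX.form hσ hU hφ hO hΨ hOM hwU hw).1
  comp := fun φ U hU hφ V ψ hV hψ hm z hz => GJ_comp hX.form hσ hU hφ hV hψ hm hz
  bd := GJ_bd hX hσ hr
  lim := fun 𝓤 P H ρ _ hP hPH hH z hz => GJ_lim hX hσ 𝓤 P H ρ hP hPH hH z hz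

end Pool.Agent.Helper65.GG
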