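import Pool.Agent.Helper65.GG.Deg

/-!
The forms which vanish along the doubly periodic curves vanish along all entire curves.
-/

set_option autoImplicit false

open Filter Topology Metric MvPolynomial Set

namespace Pool.Agent.Helper65.GG

open Pool.Agent.W602.GT Pool.Agent.N155.BB Pool.Agent.Y190.OP Pool.Agent.N155
  Pool.Agent.N155.GD Pool.Agent.Helper65.BF

variable {n k D : ℕ} {T : Set (Mat (n + 1))} {G : (ℂ → Mat (n + 1)) → ℂ → ℂ}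
  {P : MvPolynomial (Fin (n + 1)) ℂ} {φ : ℂ → Mat (n + 1)}

theorem JI.entire (hJ : JI T k G) (hφ : CvOn T univ φ) : Differentiable ℂ (G φ) := fun z =>
  (hJ.hol φ univ isOpen_univ hφ z (mem_univ z)).differentiableAt Filter.univ_mem

/-- curves annihilated by the invariant are constant -/
theorem const_of_zero (hJ : JI T k G) (hk : 0 < k) (hT : IsCompact T) (hTP : T ⊆ PM)
    (hnd : ND T G) (hφ : CvOn T univ φ) (h0 : ∀ z, G φ z = 0) (z : ℂ) : fderiv ℝ φ z = 0 := by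
  obtain ⟨C0, hC0, hsch⟩ := schwarz hJ hk hT hTP hnd
  have h1 : ∀ s : ℝ, 0 < s → ‖fderiv ℝ φ z‖ ≤ C0 / s := fun s hs =>
    hsch φ z s hs (hφ.mono (subset_univ _)) fun w _ => by
      rw [h0 w, norm_zero, mul_zero]
      exact zero_le_one
  by_contra hcon
  have h2 := norm_pos_iff.2 hcon
  have h3 := h1 (2 * C0 / ‖fderiv ℝ φ z‖) (by positivity)
  have h4 : C0 / (2 * C0 / ‖fderiv ℝ φ z‖) = ‖fderiv ℝ φ z‖ / 2 := by
    field_simp
  rw [h4] at h3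
  linarith

/-- the choice of the parameters -/
theorem exists_par {q' : ℝ} (hq' : 3 ≤ q') (hk : 0 < k) : ∃ Q q : ℝ, 1 ≤ Q ∧ 40 * Q ^ 2 ≤ q ∧
    40 ≤ q ∧ (k : ℝ) ≤ q ∧ ∀ ν : ℝ, 0 ≤ ν → 1 ≤ Real.log (q' * (ν ^ 3 + k) ^ 3) ∧
      2 * k * (Real.log (q' * (ν ^ 3 + k) ^ 3) + 6) * (1 + ν ^ 2) ≤ Q * (ν ^ 3 + k) := by
  have hk1 : (1 : ℝ) ≤ k := by exact_mod_cast hk
  have hlq : 1 ≤ Real.log q' := by
    rw [Real.le_log_iff_exp_le (by linarith)]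
    have := Real.exp_one_lt_d9
    linarith
  set Q : ℝ := 4 * k * (Real.log q' + 9 * k + 15) with hQ
  have hQ1 : 1 ≤ Q := by
    rw [hQ]
    nlinarith
  refine ⟨Q, max (40 * Q ^ 2) k, hQ1, le_max_left _ _, ?_, le_max_right _ _, fun ν hν => ?_⟩
  · refine le_trans ?_ (le_max_left _ _)
    nlinarith
  have hν3 : 0 ≤ ν ^ 3 := by positivity
  have hM1 : 1 ≤ ν ^ 3 + k := by linarith
  have hlM : 0 ≤ Real.log (ν ^ 3 + k) := Real.log_nonneg hM1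
  have hK : Real.log (q' * (ν ^ 3 + k) ^ 3) = Real.log q' + 3 * Real.log (ν ^ 3 + k) := by
    rw [Real.log_mul (by positivity) (by positivity), Real.log_pow]
    push_cast
    ring
  rw [hK]
  refine ⟨by linarith, ?_⟩
  have h1 : Real.log (ν ^ 3 + k) ≤ 3 * (ν + k) := by
    have h2 : ν ^ 3 + k ≤ (ν + k) ^ 3 := by
      have h3 : (k : ℝ) ≤ (k : ℝ) ^ 3 := le_self_pow₀ hk1 (by norm_num)
      have h4 : (ν + k) ^ 3 = ν ^ 3 + (k : ℝ) ^ 3 + 3 * ν * k * (ν + k) := by ring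
      have h5 : 0 ≤ 3 * ν * k * (ν + k) := by positivity
      linarith
    have h3 := Real.log_le_log (by linarith) h2
    rw [Real.log_pow] at h3
    have h4 := Real.log_le_sub_one_of_pos (show 0 < ν + k by linarith)
    push_cast at h3
    linarith
  have h2 : 1 + ν ^ 2 ≤ 2 * (ν ^ 3 + k) := by nlinarith [sq_nonneg (ν - 1)]
  have h3 : ν * (1 + ν ^ 2) ≤ 2 * (ν ^ 3 + k) := by nlinarith [sq_nonneg (ν - 1)]
  have h4 : 2 * (k : ℝ) * (Real.log q' + 3 * Real.log (ν ^ 3 + k) + 6) * (1 + ν ^ 2) ≤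
      2 * k * (Real.log q' + 9 * (ν + k) + 6) * (1 + ν ^ 2) := by
    apply mul_le_mul_of_nonneg_right _ (by positivity)
    apply mul_le_mul_of_nonneg_left _ (by positivity)
    linarith
  refine h4.trans ?_
  have h5 : 2 * (k : ℝ) * (Real.log q' + 9 * (ν + k) + 6) * (1 + ν ^ 2) =
      2 * k * (Real.log q' + 9 * k + 6) * (1 + ν ^ 2) + 18 * k * (ν * (1 + ν ^ 2)) := by ring
  rw [h5]
  have h6 : 2 * (k : ℝ) * (Real.log q' + 9 * k + 6) * (1 + ν ^ 2) ≤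
      2 * k * (Real.log q' + 9 * k + 6) * (2 * (ν ^ 3 + k)) :=
    mul_le_mul_of_nonneg_left h2 (by positivity)
  have h7 : 18 * (k : ℝ) * (ν * (1 + ν ^ 2)) ≤ 18 * k * (2 * (ν ^ 3 + k)) :=
    mul_le_mul_of_nonneg_left h3 (by positivity)
  rw [hQ]
  linarith

theorem cube_le_exp (ν : ℝ) : ν ^ 3 + 1 ≤ Real.exp (ν ^ 2) := by
  have h1 := Real.add_one_le_exp (ν ^ 2 / 2)
  have h2 : Real.exp (ν ^ 2) = Real.exp (ν ^ 2 / 2) * Real.exp (ν ^ 2 / 2) := by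
    rw [← Real.exp_add]
    ring_nf
  have h3 : (ν ^ 2 / 2 + 1) * (ν ^ 2 / 2 + 1) ≤ Real.exp (ν ^ 2 / 2) * Real.exp (ν ^ 2 / 2) :=
    mul_le_mul h1 h1 (by positivity) (Real.exp_pos _).le
  rw [h2]
  nlinarith [sq_nonneg (ν ^ 2 / 2 - ν)]

/-- **Vanishing at one point.** -/
theorem core_zero (hT : IsCompact T) (hTP : T ⊆ PM) (hJ : JI T k G) (hk : 0 < k)
    (hnd : ND T G) {S : Finset (ℂ → Mat (n + 1))} {R κ : ℝ} (hκ : 0 < κ)
    (hS : ∀ (a : ℂ) (r : ℝ) (φ : ℂ → Mat (n + 1)), CvOn T (ball a r) φ →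
        (∀ w ∈ ball a r, 1 / 2 ≤ ‖G φ w‖ ∧ ‖G φ w‖ ≤ 2) → ∀ z : ℂ, ‖z - a‖ ≤ r - R →
        ∃ g ∈ S, ∃ w : ℂ, ‖φ z - g w‖ ≤ Real.exp (-κ * ((r - 2) ^ 2 - ‖z - a‖ ^ 2)))
    (hφ : CvOn T univ φ) (hne : ∃ z, G φ z ≠ 0) (hP : P.IsHomogeneous D)
    (hPS : ∀ g ∈ S, ∀ w, g w ∈ (PM : Set (Mat (n + 1))) ∧ np P D (g w) = 0) :
    np P D (φ 0) = 0 := by
  by_contra hcon
  have hnp : 0 < np P D (φ 0) := lt_of_le_of_ne (nq_nonneg _ _ _) (Ne.symm hcon)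
  set N0 := np P D (φ 0) with hN0
  obtain ⟨C0, hC0, hsch⟩ := schwarz hJ hk hT hTP hnd
  obtain ⟨A1, hA1, hmx⟩ := no_max n
  obtain ⟨CP, hCP, hCPb⟩ := np_close hP
  obtain ⟨c, hc, hgrow⟩ := growth (hJ.entire hφ) hne
  have hk1 : (1 : ℝ) ≤ k := by exact_mod_cast hk
  have hk0 : (0 : ℝ) < k := by linarith
  have hkne : k ≠ 0 := hk.ne'
  -- constants
  set c' : ℝ := c ^ ((1 : ℝ) / k) with hc'
  have hc'0 : 0 < c' := Real.rpow_pos_of_pos hc _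
  have hc'k : c' ^ k = c := by
    rw [hc', one_div]
    exact Real.rpow_inv_natCast_pow hc.le hkne
  set C2 : ℝ := (k + 1) / c' with hC2
  have hC20 : 0 < C2 := by positivity
  set C4 : ℝ := D * A1 * (C0 * (2 * C2 + 3)) ^ 2 + 1 with hC4
  have hC40 : 0 < C4 := by positivity
  set q' : ℝ := max 3 (32 * (C4 + 1) / (κ * k ^ 2)) with hq'
  have hq'3 : 3 ≤ q' := le_max_left _ _
  have hq'C : 32 * (C4 + 1) ≤ κ * k ^ 2 * q' := by
    have h1 : 32 * (C4 + 1) / (κ * k ^ 2) ≤ q' := le_max_right _ _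
    rw [div_le_iff₀ (by positivity)] at h1
    linarith
  obtain ⟨Q, q, hQ1, hqQ, hq40, hkq, hpar⟩ := exists_par hq'3 hk
  set R1 : ℝ := max (C2 * 8) (max (C2 * (2 * R)) (CP / (N0 * c' ^ 2) + 1)) with hR1
  obtain ⟨a, ν, haR, ha1, hν, hga, hin, hgr⟩ := hgrow q (by linarith) R1
  obtain ⟨hK1, hKQ⟩ := hpar ν hν
  have hap : 0 < ‖a‖ := by linarith
  have ha0 : a ≠ 0 := norm_pos_iff.1 hap
  have hν3 : 0 ≤ ν ^ 3 := by positivity
  have hM : 0 < ν ^ 3 + k := by linarith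
  have hM1 : 1 ≤ ν ^ 3 + k := by linarith
  set K : ℝ := Real.log (q' * (ν ^ 3 + k) ^ 3) with hK
  have heK : Real.exp K = q' * (ν ^ 3 + k) ^ 3 := Real.exp_log (by positivity)
  have hgap : 0 < ‖G φ a‖ := lt_of_lt_of_le (by positivity) hga
  set B : ℝ := ‖G φ a‖ ^ ((1 : ℝ) / k) with hB
  have hB0 : 0 < B := Real.rpow_pos_of_pos hgap _
  have hBk : B ^ k = ‖G φ a‖ := by
    rw [hB, one_div]
    exact Real.rpow_inv_natCast_pow hgap.le hkne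
  have hcB : c' * Real.exp (ν ^ 2) ≤ B := by
    apply le_of_pow_le_pow_left₀ hkne hB0.le
    rw [mul_pow, hc'k, hBk, ← Real.exp_nat_mul]
    refine le_trans ?_ hga
    refine mul_le_mul_of_nonneg_left (Real.exp_le_exp.2 ?_) hc.le
    exact mul_le_mul_of_nonneg_right hkq (sq_nonneg ν)
  have hMB : ν ^ 3 + k ≤ C2 * B := by
    have h1 := cube_le_exp ν
    have h2 : 1 ≤ Real.exp (ν ^ 2) := Real.one_le_exp (sq_nonneg ν)
    have h3 : ν ^ 3 + k ≤ (k + 1) * Real.exp (ν ^ 2) := by nlinarith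
    have h4 : (k + 1 : ℝ) * Real.exp (ν ^ 2) = C2 * (c' * Real.exp (ν ^ 2)) := by
      rw [hC2]
      field_simp
    rw [h4] at h3
    exact h3.trans (mul_le_mul_of_nonneg_left hcB hC20.le)
  have hc'B : c' ≤ B := by
    have h2 : 1 ≤ Real.exp (ν ^ 2) := Real.one_le_exp (sq_nonneg ν)
    nlinarith
  set A : ℝ := k * ‖a‖ * B / (ν ^ 3 + k) with hA
  have hA0 : 0 < A := by positivity
  have hPar : Par k a ν q Q K A B (G φ) :=
    ⟨hk, ha0, hν, hQ1, hqQ, by linarith, hKQ, hB0, hBk.symm, hA, hgr⟩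
  have hAa : ‖a‖ ≤ C2 * A := by
    rw [hA, mul_div_assoc', le_div_iff₀ hM]
    have h1 : ‖a‖ * (ν ^ 3 + k) ≤ ‖a‖ * (C2 * B) := mul_le_mul_of_nonneg_left hMB hap.le
    have h2 : ‖a‖ * (C2 * B) * 1 ≤ ‖a‖ * (C2 * B) * k :=
      mul_le_mul_of_nonneg_left hk1 (by positivity)
    linarith
  have hA8 : 8 ≤ A := by
    have h1 : C2 * 8 ≤ C2 * A := ((le_max_left _ _).trans haR).trans hAa
    exact le_of_mul_le_mul_left h1 hC20
  have hA2R : 2 * R ≤ A := by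
    have h1 : C2 * (2 * R) ≤ C2 * A :=
      ((le_max_left _ _).trans ((le_max_right _ _).trans haR)).trans hAa
    exact le_of_mul_le_mul_left h1 hC20
  -- the derivative
  have hder : ∀ z, ‖z‖ ≤ ‖a‖ → ‖fderiv ℝ φ z‖ ≤ C0 * (2 * C2 + 3) * B := fun z hz =>
    deriv_bound hk hC0 hsch hφ ha1 hν hq40 hB0 hBk.symm hMB hin hgr hz
  set r0 : ℝ := ‖a‖ / (8 * (ν ^ 3 + k)) with hr0
  have hr0p : 0 < r0 := by positivity
  have hr0a : r0 < ‖a‖ := by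
    rw [hr0, div_lt_iff₀ (by positivity)]
    nlinarith
  set H : ℝ := κ * A ^ 2 * Real.exp K / 4 with hH
  have hH0 : 0 ≤ H := by positivity
  have hPM : ∀ z, φ z ∈ (PM : Set (Mat (n + 1))) := fun z => hTP (hφ.2 z (mem_univ z))
  have hfin := max_global (φ := φ) (P := P) (D := D) (A1 := A1) (a := a) (r0 := r0) (H := H)
    (CP := CP) (C := C4 * B ^ 2) hφ.1 hP
    (fun p h C hh hC hm => hmx D P hP φ univ p h C (mem_univ p) hφ.1 hh hC hm)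
    hr0p hr0a hH0 hCP (by positivity) (fun z hz => by
      have h1 := hder z hz
      have h2 := pow_le_pow_left₀ (norm_nonneg _) h1 2
      have h3 : (D : ℝ) * (A1 * ‖fderiv ℝ φ z‖ ^ 2) ≤
          D * (A1 * (C0 * (2 * C2 + 3) * B) ^ 2) :=
        mul_le_mul_of_nonneg_left (mul_le_mul_of_nonneg_left h2 hA1.le) (Nat.cast_nonneg D)
      have h4 : 0 < B ^ 2 := by positivity
      rw [hC4]
      nlinarith) (fun z => (hCPb _ (hPM z)).1) (fun z hz => by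
      obtain ⟨g, hg, w, hw⟩ := hPar.close hJ hφ hκ hS hA2R hA8 hK1 hz
      refine ((hCPb _ (hPM z)).2 _ (hPS g hg w).1 (hPS g hg w).2).trans ?_
      refine mul_le_mul_of_nonneg_left ?_ hCP
      have h1 := pow_le_pow_left₀ (norm_nonneg _) hw 2
      refine h1.trans (le_of_eq ?_)
      rw [← Real.exp_nat_mul]
      congr 1
      rw [hH]
      push_cast
      ring)
  -- the contradiction
  have hHr : H * r0 / ‖a‖ = κ * k ^ 2 * q' / 32 * (‖a‖ ^ 2 * B ^ 2) := by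
    rw [hH, heK, hr0, hA]
    field_simp
    ring
  have hexp : Real.exp (C4 * B ^ 2 * ‖a‖ ^ 2) * Real.exp (‖a‖ ^ 2 * B ^ 2) ≤
      Real.exp (H * r0 / ‖a‖) := by
    rw [← Real.exp_add]
    apply Real.exp_le_exp.2
    rw [hHr]
    have h1 : C4 + 1 ≤ κ * k ^ 2 * q' / 32 := by linarith
    have h2 : 0 ≤ ‖a‖ ^ 2 * B ^ 2 := by positivity
    have h3 := mul_le_mul_of_nonneg_right h1 h2
    linarith
  have h1 : N0 * (Real.exp (C4 * B ^ 2 * ‖a‖ ^ 2) * Real.exp (‖a‖ ^ 2 * B ^ 2)) ≤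
      CP * Real.exp (C4 * B ^ 2 * ‖a‖ ^ 2) :=
    (mul_le_mul_of_nonneg_left hexp hnp.le).trans hfin
  have h2 : N0 * Real.exp (‖a‖ ^ 2 * B ^ 2) ≤ CP := by
    have h3 := Real.exp_pos (C4 * B ^ 2 * ‖a‖ ^ 2)
    have h4 : N0 * Real.exp (‖a‖ ^ 2 * B ^ 2) * Real.exp (C4 * B ^ 2 * ‖a‖ ^ 2) ≤
        CP * Real.exp (C4 * B ^ 2 * ‖a‖ ^ 2) := by linarith
    exact le_of_mul_le_mul_right h4 h3
  have h3 : CP / (N0 * c' ^ 2) + 1 ≤ ‖a‖ :=
    (le_max_right _ _).trans ((le_max_right _ _).trans haR)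
  have h4 : CP < N0 * (‖a‖ ^ 2 * B ^ 2) := by
    have h5 : CP / (N0 * c' ^ 2) < ‖a‖ ^ 2 := by nlinarith
    rw [div_lt_iff₀ (by positivity)] at h5
    have h6 : c' ^ 2 ≤ B ^ 2 := pow_le_pow_left₀ hc'0.le hc'B 2
    have h7 : ‖a‖ ^ 2 * (N0 * c' ^ 2) ≤ N0 * (‖a‖ ^ 2 * B ^ 2) := by
      have h8 : 0 ≤ ‖a‖ ^ 2 * N0 := by positivity
      nlinarith
    linarith
  have h5 := Real.add_one_le_exp (‖a‖ ^ 2 * B ^ 2)
  nlinarith

/-- **The forms which vanish along the doubly periodic curves vanish along all entire curves.** -/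
theorem main_zero (hT : IsCompact T) (hTP : T ⊆ PM) (hJ : JI T k G) (hk : 0 < k)
    (hnd : ND T G) {S : Finset (ℂ → Mat (n + 1))} {R κ : ℝ} (hκ : 0 < κ)
    (hS : ∀ (a : ℂ) (r : ℝ) (φ : ℂ → Mat (n + 1)), CvOn T (ball a r) φ →
        (∀ w ∈ ball a r, 1 / 2 ≤ ‖G φ w‖ ∧ ‖G φ w‖ ≤ 2) → ∀ z : ℂ, ‖z - a‖ ≤ r - R →
        ∃ g ∈ S, ∃ w : ℂ, ‖φ z - g w‖ ≤ Real.exp (-κ * ((r - 2) ^ 2 - ‖z - a‖ ^ 2)))
    (hφ : CvOn T univ φ) (hne : ∃ z, fderiv ℝ φ z ≠ 0) (hP : P.IsHomogeneous D)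
    (hPS : ∀ g ∈ S, ∀ w, g w ∈ (PM : Set (Mat (n + 1))) ∧ np P D (g w) = 0) (z : ℂ) :
    np P D (φ z) = 0 := by
  have hG : ∃ z, G φ z ≠ 0 := by
    by_contra hcon
    push Not at hcon
    obtain ⟨z, hz⟩ := hne
    exact hz (const_of_zero hJ hk hT hTP hnd hφ hcon z)
  have hmaps : MapsTo (fun w : ℂ => w + z) univ univ := fun _ _ => mem_univ _
  have hd : DifferentiableOn ℂ (fun w : ℂ => w + z) univ :=
    (differentiable_id.add_const z).differentiableOn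
  have h1 := core_zero hT hTP hJ hk hnd hκ hS (hφ.comp isOpen_univ hd hmaps) (by
    obtain ⟨w, hw⟩ := hG
    refine ⟨w - z, ?_⟩
    rw [hJ.comp φ univ isOpen_univ hφ univ _ isOpen_univ hd hmaps (w - z) (mem_univ _)]
    have h2 : deriv (fun w : ℂ => w + z) (w - z) = 1 := by
      rw [deriv_add_const]
      exact deriv_id _
    rw [h2, one_pow, one_mul, sub_add_cancel]
    exact hw) hP hPS
  simpa using h1

end Pool.Agent.Helper65.GG
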