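import Pool.Agent.Helper65.GG.Main
import Pool.Agent.Helper65.GG.Fac

/-!
Several invariant jet differentials, and the factorization of all entire curves.
-/

set_option autoImplicit false

open Filter Topology Metric MvPolynomial Set

namespace Pool.Agent.Helper65.GG

open Pool.Agent.W602.GT Pool.Agent.N155.BB Pool.Agent.Y190.OP Pool.Agent.N155
  Pool.Agent.N155.GD Pool.Agent.Helper65.BF

variable {n k : ℕ} {T : Set (Mat (n + 1))} {κ' : Type}
  {η : κ' → (Fin (n + 1) → ℂ) → (Fin (n + 1) → ℂ) → (Fin (n + 1) → ℂ) → ℂ}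

theorem JI.pow {G : (ℂ → Mat (n + 1)) → ℂ → ℂ} (h : JI T k G) {e : ℕ} (he : 0 < e) :
    JI T (k * e) (fun φ z => G φ z ^ e) where
  hol := fun φ U hU hφ => (h.hol φ U hU hφ).pow e
  comp := fun φ U hU hφ V ψ hV hψ hm z hz => by
    rw [h.comp φ U hU hφ V ψ hV hψ hm z hz, mul_pow, pow_mul]
  bd := by
    obtain ⟨C, hC, hb⟩ := h.bd
    refine ⟨C ^ e * 2 ^ (e - 1), by positivity, fun φ z hφ hd => ?_⟩
    have h1 := hb φ z hφ hd
    have h2 := hd z (mem_ball_self one_pos)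
    rw [norm_pow]
    have h3 := norm_nonneg (fderiv ℝ φ z)
    calc ‖G φ z‖ ^ e ≤ (C * ‖fderiv ℝ φ z‖) ^ e := pow_le_pow_left₀ (norm_nonneg _) h1 e
      _ = C ^ e * (‖fderiv ℝ φ z‖ ^ (e - 1) * ‖fderiv ℝ φ z‖) := by
          rw [mul_pow, ← pow_succ]
          congr 3
          omega
      _ ≤ C ^ e * (2 ^ (e - 1) * ‖fderiv ℝ φ z‖) := by
          apply mul_le_mul_of_nonneg_left _ (by positivity)
          exact mul_le_mul_of_nonneg_right (pow_le_pow_left₀ h3 h2 _) h3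
      _ = _ := by ring
  lim := fun 𝓤 P H r hr hP hc hH z hz => (h.lim 𝓤 P H r hr hP hc hH z hz).pow e

theorem JI.sum {N : ℕ} {G : Fin N → (ℂ → Mat (n + 1)) → ℂ → ℂ} (h : ∀ i, JI T k (G i))
    (c : Fin N → ℂ) : JI T k (fun φ z => ∑ i, c i * G i φ z) where
  hol := fun φ U hU hφ => DifferentiableOn.fun_sum fun i _ =>
    ((h i).hol φ U hU hφ).const_mul (c i)
  comp := fun φ U hU hφ V ψ hV hψ hm z hz => by
    rw [Finset.mul_sum]
    refine Finset.sum_congr rfl fun i _ => ?_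
    rw [(h i).comp φ U hU hφ V ψ hV hψ hm z hz]
    ring
  bd := by
    choose C hC hb using fun i => (h i).bd
    refine ⟨∑ i, ‖c i‖ * C i, Finset.sum_nonneg fun i _ => mul_nonneg (norm_nonneg _) (hC i),
      fun φ z hφ hd => ?_⟩
    rw [Finset.sum_mul]
    refine (norm_sum_le _ _).trans (Finset.sum_le_sum fun i _ => ?_)
    rw [norm_mul, mul_assoc]
    exact mul_le_mul_of_nonneg_left (hb i φ z hφ hd) (norm_nonneg _)
  lim := fun 𝓤 P H r hr hP hc hH z hz => tendsto_finsetSum _ fun i _ =>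
    ((h i).lim 𝓤 P H r hr hP hc hH z hz).const_mul (c i)

theorem _root_.Pool.Agent.Helper65.BF.BD.cv {φ : ℂ → Mat (n + 1)} (h : BD T φ) (U : Set ℂ) : CvOn T U φ :=
  ⟨h.hol.mono (subset_univ _), fun w _ => h.mem w⟩

/-- the invariant is constant along curves of bounded derivative -/
theorem JI.const_bd {G : (ℂ → Mat (n + 1)) → ℂ → ℂ} (hJ : JI T k G) {φ : ℂ → Mat (n + 1)}
    (hφ : BD T φ) (z w : ℂ) : G φ z = G φ w := by
  obtain ⟨C, hC, hb⟩ := hJ.bd
  apply (hJ.entire (hφ.cv univ)).apply_eq_apply_of_bounded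
  rw [isBounded_iff_forall_norm_le]
  refine ⟨C * 2, ?_⟩
  rintro _ ⟨z, rfl⟩
  exact (hb φ z (hφ.cv _) fun w _ => hφ.bd w).trans (mul_le_mul_of_nonneg_left (hφ.bd z) hC)

/-- no curve is degenerate for all the invariants -/
def NDf (T : Set (Mat (n + 1))) {N : ℕ} (G : Fin N → (ℂ → Mat (n + 1)) → ℂ → ℂ) : Prop :=
  ∀ φ, BD T φ → (∀ i z, G i φ z = 0) → ∀ z, fderiv ℝ φ z = 0

/-- a uniform lower bound -/
theorem low_fam {N : ℕ} {G : Fin N → (ℂ → Mat (n + 1)) → ℂ → ℂ} (hJ : ∀ i, JI T k (G i))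
    (hT : IsCompact T) (hTP : T ⊆ PM) (hnd : NDf T G) : ∃ c0 : ℝ, 0 < c0 ∧
      ∀ φ, BD T φ → 1 ≤ ‖fderiv ℝ φ 0‖ → ∀ z, c0 ≤ ‖fderiv ℝ φ z‖ := by
  have key : ∃ δ : ℝ, 0 < δ ∧ ∀ φ, BD T φ → 1 ≤ ‖fderiv ℝ φ 0‖ → ∃ i, δ ≤ ‖G i φ 0‖ := by
    by_contra hcon
    push Not at hcon
    have h1 : ∀ m : ℕ, ∃ φ : ℂ → Mat (n + 1), BD T φ ∧ 1 ≤ ‖fderiv ℝ φ 0‖ ∧
        ∀ i, ‖G i φ 0‖ < 1 / ((m : ℝ) + 1) := fun m => hcon _ (by positivity)
    choose φ hφ hφ1 hφG using h1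
    obtain ⟨H, hHB, hCC, hcof, htd⟩ := limit_growing hT hTP (h := φ)
      (fun m => (hφ m).cv _) (fun m z _ => (hφ m).bd z)
    have h0 : ∀ i z, G i H z = 0 := by
      intro i z
      set R : ℝ := ‖z‖ + 1 with hR
      have hRp : 0 < R := by positivity
      have hzR : z ∈ ball (0 : ℂ) R := mem_ball_zero_iff.2 (by linarith)
      have h3 := (hJ i).lim (hyperfilter ℕ) φ H R hRp (Eventually.of_forall fun m => (hφ m).cv _)
        (hCC R hRp) (hHB.cv _) z hzR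
      have h4 : Tendsto (fun m => G i (φ m) z) ((hyperfilter ℕ : Ultrafilter ℕ) : Filter ℕ)
          (𝓝 0) := by
        rw [tendsto_zero_iff_norm_tendsto_zero]
        have hle : ((hyperfilter ℕ : Ultrafilter ℕ) : Filter ℕ) ≤ atTop := by
          rw [← Nat.cofinite_eq_atTop]
          exact hyperfilter_le_cofinite
        have h6 : Tendsto (fun m : ℕ => 1 / ((m : ℝ) + 1))
            ((hyperfilter ℕ : Ultrafilter ℕ) : Filter ℕ) (𝓝 0) :=
          tendsto_one_div_add_atTop_nhds_zero_nat.mono_left hle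
        refine squeeze_zero (fun m => norm_nonneg _) (fun m => ?_) h6
        rw [(hJ i).const_bd (hφ m) z 0]
        exact (hφG m i).le
      exact tendsto_nhds_unique h3 h4
    have h5 := hnd H hHB h0 0
    have h6 := (htd 0).norm
    rw [h5, norm_zero] at h6
    have h7 := ge_of_tendsto h6 (Eventually.of_forall hφ1)
    linarith
  obtain ⟨δ, hδ, hδG⟩ := key
  choose C hC hb using fun i => (hJ i).bd
  refine ⟨δ / (∑ i, C i + 1), ?_, fun φ hφ h1 z => ?_⟩
  · have := Finset.sum_nonneg fun i (_ : i ∈ Finset.univ) => hC i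
    positivity
  · obtain ⟨i, hi⟩ := hδG φ hφ h1
    rw [(hJ i).const_bd hφ 0 z] at hi
    have h2 := hb i φ z (hφ.cv _) fun w _ => hφ.bd w
    have h3 : C i ≤ ∑ i, C i := Finset.single_le_sum (fun i _ => hC i) (Finset.mem_univ i)
    have h4 := norm_nonneg (fderiv ℝ φ z)
    rw [div_le_iff₀ (by have := (hC i).trans h3; positivity)]
    nlinarith

/-- nonconstant curves of bounded derivative, rescaled -/
theorem rescale_bd {φ : ℂ → Mat (n + 1)} (hφ : BD T φ) {z0 : ℂ} (h : fderiv ℝ φ z0 ≠ 0) :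
    ∃ (a : ℂ) (ρ : ℝ), 0 < ρ ∧ BD T (fun z => φ (aff a ρ z)) ∧
      1 ≤ ‖fderiv ℝ (fun z => φ (aff a ρ z)) 0‖ := by
  have hbdd : BddAbove (Set.range fun z => ‖fderiv ℝ φ z‖) := ⟨2, by
    rintro _ ⟨z, rfl⟩
    exact hφ.bd z⟩
  set B : ℝ := ⨆ z, ‖fderiv ℝ φ z‖ with hB
  have hle : ∀ z, ‖fderiv ℝ φ z‖ ≤ B := fun z => le_ciSup hbdd z
  have hB0 : 0 < B := (norm_pos_iff.2 h).trans_le (hle z0)
  obtain ⟨a, ha⟩ := exists_lt_of_lt_ciSup (show B / 2 < ⨆ z, ‖fderiv ℝ φ z‖ by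
    rw [← hB]
    linarith)
  have hnorm : ∀ z, ‖fderiv ℝ (fun z => φ (aff a (2 / B) z)) z‖ =
      2 / B * ‖fderiv ℝ φ (aff a (2 / B) z)‖ := fun z =>
    norm_fderiv_aff (by positivity) (hφ.hol.differentiableAt (mem_univ _))
  refine ⟨a, 2 / B, by positivity, ⟨?_, fun z => hφ.mem _, fun z => ?_⟩, ?_⟩
  · have := hφ.hol.aff a (2 / B)
    rwa [preimage_univ] at this
  · rw [hnorm, div_mul_eq_mul_div, div_le_iff₀ hB0]
    have := hle (aff a (2 / B) z)
    linarith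
  · have h2 : aff a (2 / B) 0 = a := by simp [aff]
    rw [hnorm, h2, div_mul_eq_mul_div, le_div_iff₀ hB0]
    linarith

/-- a linear combination without degenerate curves -/
theorem exists_comb {N : ℕ} {G : Fin N → (ℂ → Mat (n + 1)) → ℂ → ℂ} {Z : Set (Mat (n + 1))}
    (hJ : ∀ i, JI T k (G i)) (hT : IsCompact T) (hTP : T ⊆ PM) (hnd : NDf T G)
    (hgw : GW T Z η) (hout0 : ∀ c : ℝ, 0 < c → ∀ φ, BCw T c φ → ∃ z, φ z ∉ Z) :
    ∃ c : Fin N → ℂ, ND T (fun φ z => ∑ i, c i * G i φ z) := by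
  classical
  obtain ⟨c0, hc0, hlow⟩ := low_fam hJ hT hTP hnd
  have hcls := BCw.cls hT hTP hc0
  obtain ⟨S, hS1, hS2⟩ := finite_class hgw (hout0 c0 hc0) hcls
  have hSbd : ∀ g ∈ S, BD T g := fun g hg => ⟨(hS1 g hg).hol, (hS1 g hg).mem, (hS1 g hg).bd⟩
  -- the vectors of the values
  set ev : S → Module.Dual ℂ (Fin N → ℂ) := fun g =>
    { toFun := fun c => ∑ i, c i * G i g.1 0
      map_add' := fun c c' => by
        simp only [Pi.add_apply, add_mul, Finset.sum_add_distrib]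
      map_smul' := fun a c => by
        simp only [Pi.smul_apply, smul_eq_mul, RingHom.id_apply, Finset.mul_sum]
        exact Finset.sum_congr rfl fun i _ => by ring } with hev
  obtain ⟨c, hc⟩ := Module.Dual.exists_forall_ne_zero_of_forall_exists ev fun g => by
    by_contra hcon
    push Not at hcon
    have h1 : ∀ i, G i g.1 0 = 0 := by
      intro i
      have h2 : ∑ j, (Pi.single i 1 : Fin N → ℂ) j * G j g.1 0 = 0 := hcon (Pi.single i 1)
      simpa [Pi.single_apply] using h2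
    have h2 := hnd g.1 (hSbd g.1 g.2) (fun i z => by
      rw [(hJ i).const_bd (hSbd g.1 g.2) z 0, h1]) 0
    have h3 := (hS1 g.1 g.2).low 0
    rw [h2, norm_zero] at h3
    linarith
  refine ⟨c, fun φ hφ h0 z => ?_⟩
  by_contra hz
  obtain ⟨a, ρ, hρ, hbd, h1⟩ := rescale_bd hφ hz
  obtain ⟨g, hg, α, β, hαβ⟩ := hS2 _ ⟨hbd.hol, hbd.mem, hbd.bd, hlow _ hbd h1⟩
  have hJc := JI.sum hJ c
  -- the value along the rescaled curve
  have h2 : ∑ i, c i * G i (fun z => φ (aff a ρ z)) 0 = 0 := by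
    have h3 := hJc.comp φ univ isOpen_univ (hφ.cv _) univ (aff a ρ) isOpen_univ
      (aff_diff _ _).differentiableOn (fun _ _ => mem_univ _) 0 (mem_univ _)
    have h3' : ∑ i, c i * G i φ (aff a ρ 0) = 0 := h0 _
    exact h3.trans (by rw [h3', mul_zero])
  have h4 : (fun z => φ (aff a ρ z)) = fun z => g (α * z + β) := funext hαβ
  have hd : DifferentiableOn ℂ (fun z : ℂ => α * z + β) univ :=
    ((differentiable_id.const_mul α).add_const β).differentiableOn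
  have h5 := hJc.comp g univ isOpen_univ ((hSbd g hg).cv _) univ (fun z => α * z + β) isOpen_univ
    hd (fun _ _ => mem_univ _) 0 (mem_univ _)
  have hder : deriv (fun z : ℂ => α * z + β) 0 = α := by
    have h6 : HasDerivAt (fun z : ℂ => α * z + β) (α * 1) 0 :=
      ((hasDerivAt_id (0 : ℂ)).const_mul α).add_const β
    rw [h6.deriv, mul_one]
  rw [hder] at h5
  rw [h4] at h2
  have h6 : α ^ k * ∑ i, c i * G i g (α * 0 + β) = 0 := h5.symm.trans h2
  have hα : α ≠ 0 := by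
    intro hα0
    have h7 : (fun z => φ (aff a ρ z)) = fun _ => g β := by
      rw [h4]
      funext z
      rw [hα0, zero_mul, zero_add]
    rw [h7] at h1
    simp at h1
    linarith
  have h7 : ∑ i, c i * G i g (α * 0 + β) = ∑ i, c i * G i g 0 :=
    Finset.sum_congr rfl fun i _ => by rw [(hJ i).const_bd (hSbd g hg) _ 0]
  rw [h7] at h6
  exact hc ⟨g, hg⟩ ((mul_eq_zero.1 h6).resolve_left (pow_ne_zero _ hα))

/-- **All entire curves factor through finitely many doubly periodic curves.** -/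
theorem core_all {N : ℕ} {k : Fin N → ℕ} {G : Fin N → (ℂ → Mat (n + 1)) → ℂ → ℂ}
    {Z : Set (Mat (n + 1))} (hT : IsCompact T) (hTP : T ⊆ PM) (hJ : ∀ i, JI T (k i) (G i))
    (hk : ∀ i, 0 < k i) (hnd : NDf T G) (hgw : GW T Z η)
    (hout0 : ∀ c : ℝ, 0 < c → ∀ φ, BCw T c φ → ∃ z, φ z ∉ Z) :
    ∃ (S : Finset (ℂ → Mat (n + 1))) (c0 : ℝ), 0 < c0 ∧
      (∀ g ∈ S, BCw T c0 g ∧ ∃ p q : ℂ, LinearIndependent ℝ ![p, q] ∧
        (∀ z, g (z + p) = g z) ∧ ∀ z, g (z + q) = g z) ∧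
      ∀ φ : ℂ → Mat (n + 1), CvOn T univ φ → (∃ z, fderiv ℝ φ z ≠ 0) →
        ∃ g ∈ S, ∃ h : ℂ → ℂ, Differentiable ℂ h ∧ ∀ z, φ z = g (h z) := by
  classical
  set K : ℕ := ∏ i, k i with hK
  have hKp : 0 < K := Finset.prod_pos fun i _ => hk i
  have hdvd : ∀ i, k i ∣ K := fun i => Finset.dvd_prod_of_mem k (Finset.mem_univ i)
  have hpos : ∀ i, 0 < K / k i := fun i => Nat.div_pos (Nat.le_of_dvd hKp (hdvd i)) (hk i)
  set G' : Fin N → (ℂ → Mat (n + 1)) → ℂ → ℂ := fun i φ z => G i φ z ^ (K / k i) with hG'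
  have hJ' : ∀ i, JI T K (G' i) := by
    intro i
    have h1 := (hJ i).pow (hpos i)
    rwa [Nat.mul_div_cancel' (hdvd i)] at h1
  have hnd' : NDf T G' := fun φ hφ h0 => hnd φ hφ fun i z =>
    (pow_eq_zero_iff (hpos i).ne').1 (h0 i z)
  obtain ⟨c, hc⟩ := exists_comb hJ' hT hTP hnd' hgw hout0
  have hJc := JI.sum hJ' c
  obtain ⟨S, R, κ, c0, hR, hκ, hc0, hS, hdisc, -⟩ := disc_engine hT hTP hgw hout0 hJc hKp hc
  refine ⟨S, c0, hc0, hS, fun φ hφ hne => ?_⟩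
  have hhol : ∀ g ∈ S, HolP univ g := fun g hg => (hS g hg).1.hol
  refine factor (fun g hg => ⟨(hS g hg).1.hol, fun w h0 => ?_, (hS g hg).2⟩) hφ.1 fun z => ?_
  · have h1 := (hS g hg).1.low w
    rw [h0, norm_zero] at h1
    linarith
  · by_contra hcon
    push Not at hcon
    obtain ⟨F, -, hF⟩ := exists_local hφ.1 z
    have hy := hF.self_of_nhds.1
    have hchow : ∀ g ∈ S, ∃ (D : ℕ) (P : MvPolynomial (Fin (n + 1)) ℂ), P.IsHomogeneous D ∧
        (∀ z x, OnL (g z) x → eval x P = 0) ∧ eval (F z) P ≠ 0 := by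
      intro g hg
      obtain ⟨p, q, hind, hp, hq⟩ := (hS g hg).2
      refine chow (hhol g hg) (hS g hg).1.bd hind hp hq hy.1 fun w hw => ?_
      exact hcon g hg w (by rw [hw]; exact hy.2)
    choose! D P hPh hPg hPy using hchow
    have hPS : (∏ g ∈ S, P g).IsHomogeneous (∑ g ∈ S, D g) := IsHomogeneous.prod _ _ _ hPh
    have h1 := main_zero hT hTP hJc hKp hc hκ hdisc hφ hne hPS (fun g hg w => by
      refine ⟨(hhol g hg).mem_PM (mem_univ w), ?_⟩
      obtain ⟨F', -, hF'⟩ := exists_local (hhol g hg) w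
      have hx := hF'.self_of_nhds.1
      rw [hx.2, np_Phi hPS hx.1]
      unfold nq
      rw [map_prod, Finset.prod_eq_zero hg (hPg g hg w _ hx), norm_zero,
        zero_pow two_ne_zero, zero_div]) z
    rw [hy.2, np_Phi hPS hy.1] at h1
    unfold nq at h1
    rw [div_eq_zero_iff] at h1
    rcases h1 with h1 | h1
    · rw [pow_eq_zero_iff two_ne_zero, norm_eq_zero, map_prod, Finset.prod_eq_zero_iff] at h1
      obtain ⟨g, hg, h2⟩ := h1
      exact hPy g hg h2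
    · exact (pow_ne_zero _ (BB.sum_pos hy.1).ne') h1

end Pool.Agent.Helper65.GG
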