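import Pool.Agent.Helper65.GG.Base

/-!
A maximum principle for the size of a form along a curve.
-/

set_option autoImplicit false

open Filter Topology Metric MvPolynomial Set

namespace Pool.Agent.Helper65.GG

open Pool.Agent.W602.GT Pool.Agent.N155.BB Pool.Agent.Y190.OP Pool.Agent.N155
  Pool.Agent.N155.GD Pool.Agent.Helper65.BF

variable {n D : ℕ} {P : MvPolynomial (Fin (n + 1)) ℂ}

/-- the square of the size of a form at a vector -/
noncomputable def nq (P : MvPolynomial (Fin (n + 1)) ℂ) (D : ℕ) (x : Fin (n + 1) → ℂ) : ℝ :=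
  ‖eval x P‖ ^ 2 / (∑ k, ‖x k‖ ^ 2) ^ D

/-- the square of the size of a form at a point -/
noncomputable def np (P : MvPolynomial (Fin (n + 1)) ℂ) (D : ℕ) (M : Mat (n + 1)) : ℝ :=
  nq P D (toProj M).rep

theorem nq_nonneg (P : MvPolynomial (Fin (n + 1)) ℂ) (D : ℕ) (x : Fin (n + 1) → ℂ) :
    0 ≤ nq P D x := by
  unfold nq
  have : 0 ≤ ∑ k, ‖x k‖ ^ 2 := Finset.sum_nonneg fun _ _ => by positivity
  positivity

theorem nq_smul (hP : P.IsHomogeneous D) {c : ℂ} (hc : c ≠ 0) (x : Fin (n + 1) → ℂ) :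
    nq P D (c • x) = nq P D x := by
  unfold nq
  rw [eval_smul hP, norm_mul, norm_pow]
  have h1 : ∑ k, ‖(c • x) k‖ ^ 2 = ‖c‖ ^ 2 * ∑ k, ‖x k‖ ^ 2 := by
    rw [Finset.mul_sum]
    refine Finset.sum_congr rfl fun k _ => ?_
    rw [Pi.smul_apply, smul_eq_mul, norm_mul, mul_pow]
  rw [h1, mul_pow, mul_pow, ← pow_mul, ← pow_mul, mul_comm D 2]
  apply mul_div_mul_left
  exact pow_ne_zero _ (norm_ne_zero_iff.2 hc)

theorem np_Phi (hP : P.IsHomogeneous D) {u : Fin (n + 1) → ℂ} (hu : u ≠ 0) :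
    np P D (Phi u) = nq P D u := by
  unfold np
  rw [toProj_Phi hu]
  obtain ⟨c, hc⟩ := Projectivization.exists_smul_eq_mk_rep ℂ u hu
  rw [← hc]
  exact nq_smul hP c.ne_zero u

theorem nq_contAt {x : Fin (n + 1) → ℂ} (hx : x ≠ 0) : ContinuousAt (nq P D) x := by
  have h1 : Continuous fun x : Fin (n + 1) → ℂ => eval x P := by
    simp only [eval_eq']
    fun_prop
  have h2 : Continuous fun x : Fin (n + 1) → ℂ => ∑ k, ‖x k‖ ^ 2 := by fun_prop
  exact (h1.norm.pow 2).continuousAt.div (h2.pow D).continuousAt (pow_ne_zero _ (BB.sum_pos hx).ne')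

theorem np_contAt (hP : P.IsHomogeneous D) {φ : ℂ → Mat (n + 1)} {U : Set ℂ} (hφ : HolP U φ)
    {z : ℂ} (hz : z ∈ U) : ContinuousAt (fun z => np P D (φ z)) z := by
  obtain ⟨V, F, hV, hzV, hF, hφF⟩ := hφ z hz
  have h1 : (fun w => nq P D (F w)) =ᶠ[𝓝 z] fun z => np P D (φ z) := by
    filter_upwards [hV.mem_nhds hzV] with w hw
    rw [(hφF w hw).2, np_Phi hP (hφF w hw).1]
  refine ContinuousAt.congr ?_ h1
  exact ContinuousAt.comp (f := F) (nq_contAt (hφF z hzV).1)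
    ((hF z hzV).differentiableAt (hV.mem_nhds hzV)).continuousAt

/-- polynomials are Lipschitz on the unit ball -/
theorem eval_lip (P : MvPolynomial (Fin (n + 1)) ℂ) : ∃ L : ℝ, 0 ≤ L ∧
    ∀ x y : Fin (n + 1) → ℂ, ‖x‖ ≤ 1 → ‖y‖ ≤ 1 → ‖eval x P - eval y P‖ ≤ L * ‖x - y‖ := by
  have hcd : ContDiff ℂ 1 fun x : Fin (n + 1) → ℂ => eval x P :=
    (AnalyticOnNhd.eval_mvPolynomial P).contDiff
  obtain ⟨L, hL⟩ := (isCompact_closedBall (0 : Fin (n + 1) → ℂ) 1).exists_bound_of_continuousOn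
    (hcd.continuous_fderiv one_ne_zero).continuousOn
  refine ⟨L, (norm_nonneg _).trans (hL 0 (mem_closedBall_self zero_le_one)), fun x y hx hy => ?_⟩
  exact Convex.norm_image_sub_le_of_norm_fderiv_le (𝕜 := ℂ)
    (fun z _ => (hcd.differentiable one_ne_zero) z) (fun z hz => hL z hz)
    (convex_closedBall (0 : Fin (n + 1) → ℂ) 1) (mem_closedBall_zero_iff.2 hy)
    (mem_closedBall_zero_iff.2 hx)

theorem Phi_entry (x : Fin (n + 1) → ℂ) (i j : Fin (n + 1)) : ‖Phi x i j‖ ≤ 1 := by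
  unfold Phi
  rw [nsq_eq, norm_div, norm_mul, Complex.norm_real, RCLike.norm_conj, Real.norm_of_nonneg
    (Finset.sum_nonneg fun _ _ => by positivity)]
  rcases (Finset.sum_nonneg fun l _ => by positivity :
    (0 : ℝ) ≤ ∑ l, ‖x l‖ ^ 2).eq_or_lt with h0 | h0
  · rw [← h0, div_zero]
    exact zero_le_one
  rw [div_le_one h0]
  have h1 : ‖x i‖ ^ 2 ≤ ∑ l, ‖x l‖ ^ 2 :=
    Finset.single_le_sum (f := fun l => ‖x l‖ ^ 2) (fun _ _ => by positivity) (Finset.mem_univ i)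
  have h2 : ‖x j‖ ^ 2 ≤ ∑ l, ‖x l‖ ^ 2 :=
    Finset.single_le_sum (f := fun l => ‖x l‖ ^ 2) (fun _ _ => by positivity) (Finset.mem_univ j)
  nlinarith [sq_nonneg (‖x i‖ - ‖x j‖)]

/-- a form is small near its zeros -/
theorem np_close (hP : P.IsHomogeneous D) : ∃ C : ℝ, 0 ≤ C ∧ ∀ M ∈ (PM : Set (Mat (n + 1))),
    np P D M ≤ C ∧ ∀ M' ∈ (PM : Set (Mat (n + 1))), np P D M' = 0 →
      np P D M ≤ C * ‖M - M'‖ ^ 2 := by
  obtain ⟨L, hL, hlip⟩ := eval_lip P
  obtain ⟨B, hB⟩ := (isCompact_closedBall (0 : Fin (n + 1) → ℂ) 1).exists_bound_of_continuousOn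
    (f := fun x : Fin (n + 1) → ℂ => eval x P) (by
      have h1 : Continuous fun x : Fin (n + 1) → ℂ => eval x P := by
        simp only [eval_eq']
        fun_prop
      exact h1.continuousOn)
  have hB0 : 0 ≤ B := (norm_nonneg _).trans (hB 0 (mem_closedBall_self zero_le_one))
  set C : ℝ := (n + 1) ^ D * (L ^ 2 + B ^ 2) with hC
  have key : ∀ x : Fin (n + 1) → ℂ, x ≠ 0 → ∃ i, nq P D x ≤
      (n + 1) ^ D * ‖eval (fun j => Phi x j i) P‖ ^ 2 := by
    intro x hx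
    obtain ⟨i, hi⟩ := Finite.exists_max fun i => ‖x i‖
    have hS := BB.sum_pos hx
    have hsum : ∑ k, ‖x k‖ ^ 2 ≤ (n + 1) * ‖x i‖ ^ 2 := by
      refine (Finset.sum_le_card_nsmul _ _ (‖x i‖ ^ 2) fun k _ => ?_).trans ?_
      · exact pow_le_pow_left₀ (norm_nonneg _) (hi k) 2
      · simp
    refine ⟨i, ?_⟩
    have h1 : (fun j => Phi x j i) = ((starRingEnd ℂ) (x i) / nsq x) • x := by
      funext j
      unfold Phi
      rw [Pi.smul_apply, smul_eq_mul]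
      ring
    rw [h1, eval_smul hP, norm_mul, norm_pow, norm_div, RCLike.norm_conj, nsq_eq,
      Complex.norm_real, Real.norm_of_nonneg hS.le]
    unfold nq
    rw [div_le_iff₀ (pow_pos hS D)]
    set s : ℝ := ∑ k, ‖x k‖ ^ 2 with hs
    have h2 : (n + 1 : ℝ) ^ D * ((‖x i‖ / s) ^ D * ‖eval x P‖) ^ 2 * s ^ D =
        ((n + 1) * ‖x i‖ ^ 2 / s) ^ D * ‖eval x P‖ ^ 2 := by
      rw [mul_pow, ← pow_mul, mul_comm D 2, pow_mul, div_pow (‖x i‖) s 2]
      have h3 : (n + 1 : ℝ) ^ D * (((‖x i‖ ^ 2 / s ^ 2) ^ D) * ‖eval x P‖ ^ 2) * s ^ D =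
          ((n + 1 : ℝ) ^ D * (‖x i‖ ^ 2 / s ^ 2) ^ D * s ^ D) * ‖eval x P‖ ^ 2 := by ring
      rw [h3, ← mul_pow, ← mul_pow]
      congr 2
      field_simp
    rw [h2]
    have h3 : 1 ≤ ((n + 1) * ‖x i‖ ^ 2 / s) ^ D := by
      apply one_le_pow₀
      rwa [le_div_iff₀ hS, one_mul]
    nlinarith [sq_nonneg ‖eval x P‖]
  have hcol : ∀ (x : Fin (n + 1) → ℂ) i, ‖(fun j => Phi x j i)‖ ≤ 1 := fun x i =>
    (pi_norm_le_iff_of_nonneg zero_le_one).2 fun j => Phi_entry x j i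
  refine ⟨C, by positivity, ?_⟩
  rintro M ⟨x, hx, rfl⟩
  rw [np_Phi hP hx]
  obtain ⟨i, hi⟩ := key x hx
  refine ⟨hi.trans ?_, ?_⟩
  · rw [hC]
    refine mul_le_mul_of_nonneg_left ?_ (by positivity)
    have h1 := hB _ (mem_closedBall_zero_iff.2 (hcol x i))
    have h2 := pow_le_pow_left₀ (norm_nonneg _) h1 2
    nlinarith [sq_nonneg L]
  · rintro M' ⟨y, hy, rfl⟩ h0
    rw [np_Phi hP hy] at h0
    have hy0 : eval y P = 0 := by
      unfold nq at h0
      rw [div_eq_zero_iff] at h0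
      rcases h0 with h0 | h0
      · exact norm_eq_zero.1 (pow_eq_zero_iff two_ne_zero |>.1 h0)
      · exact absurd h0 (pow_ne_zero _ (BB.sum_pos hy).ne')
    have h1 : eval (fun j => Phi y j i) P = 0 := by
      have h2 : (fun j => Phi y j i) = ((starRingEnd ℂ) (y i) / nsq y) • y := by
        funext j
        unfold Phi
        rw [Pi.smul_apply, smul_eq_mul]
        ring
      rw [h2, eval_smul hP, hy0, mul_zero]
    have h2 := hlip _ _ (hcol x i) (hcol y i)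
    rw [h1, sub_zero] at h2
    have h3 : ‖(fun j => Phi x j i) - fun j => Phi y j i‖ ≤ ‖Phi x - Phi y‖ := by
      rw [pi_norm_le_iff_of_nonneg (norm_nonneg _)]
      intro j
      exact (norm_le_pi_norm ((Phi x - Phi y) j) i).trans (norm_le_pi_norm (Phi x - Phi y) j)
    have h4 : ‖eval (fun j => Phi x j i) P‖ ≤ L * ‖Phi x - Phi y‖ :=
      h2.trans (mul_le_mul_of_nonneg_left h3 hL)
    have h5 := pow_le_pow_left₀ (norm_nonneg _) h4 2
    rw [mul_pow] at h5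
    refine hi.trans ?_
    rw [hC, mul_assoc]
    refine mul_le_mul_of_nonneg_left (h5.trans ?_) (by positivity)
    exact mul_le_mul_of_nonneg_right (by nlinarith [sq_nonneg B]) (by positivity)

end Pool.Agent.Helper65.GG
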