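import Pool.Agent.Helper65.GG.Ell

/-!
Sections along doubly periodic curves.
-/

set_option autoImplicit false

open Filter Topology Metric MvPolynomial Set

namespace Pool.Agent.Helper65.GG

open Pool.Agent.W602.GT Pool.Agent.N155.BB Pool.Agent.Y190.OP Pool.Agent.N155
  Pool.Agent.N155.GD Pool.Agent.Helper65.BF

variable {n : ℕ}

/-- **A zero estimate.** -/
theorem zero_est {N : ℂ → ℝ} (hNc : Continuous N) (hN0 : ∀ z, 0 ≤ N z) {R0 C : ℝ} (hR0 : 0 < R0)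
    (hC : 0 ≤ C) {zM : ℂ} (hzM : ‖zM‖ ≤ R0) (hle : ∀ z, N z ≤ N zM)
    (hmx : ∀ (p : ℂ) (h : ℂ → ℂ), AnalyticAt ℂ h p →
      IsLocalMax (fun z => N z * Real.exp (C * ‖z‖ ^ 2) * ‖h z‖ ^ 2) p →
      N p * Real.exp (C * ‖p‖ ^ 2) * ‖h p‖ ^ 2 = 0)
    {M : ℕ} (hM : M ≠ 0) {N' : ℂ → ℝ} (hN' : ContinuousAt N' 0)
    (hev : ∀ᶠ z in 𝓝 (0 : ℂ), N z = ‖z‖ ^ (2 * (M + 1)) * N' z)
    (hbig : 4 * C * R0 ^ 2 < M) (z : ℂ) : N z = 0 := by
  by_contra hcon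
  have hMp : 0 < N zM := (lt_of_le_of_ne (hN0 z) (Ne.symm hcon)).trans_le (hle z)
  set hf : ℂ → ℂ := fun z => (z ^ M)⁻¹ with hhf
  set E : ℂ → ℝ := fun z => N z * Real.exp (C * ‖z‖ ^ 2) * ‖hf z‖ ^ 2 with hE
  have hEcz : ∀ z, z ≠ 0 → ContinuousAt E z := by
    intro z hz
    refine (hNc.continuousAt.mul (by fun_prop)).mul ?_
    exact ((continuousAt_id.pow M).inv₀ (pow_ne_zero _ hz)).norm.pow 2
  have hE0 : E 0 = 0 := by
    rw [hE]
    simp only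
    rw [hhf]
    simp only
    rw [zero_pow hM, inv_zero, norm_zero]
    ring
  have hEc0 : ContinuousAt E 0 := by
    set E' : ℂ → ℝ := fun z => ‖z‖ ^ 2 * (N' z * Real.exp (C * ‖z‖ ^ 2)) with hE'
    have h1 : E' =ᶠ[𝓝 0] E := by
      filter_upwards [hev] with z hz
      by_cases hz0 : z = 0
      · rw [hz0, hE0, hE']
        simp
      · rw [hE, hE']
        simp only
        rw [hz, hhf]
        simp only
        rw [norm_inv, norm_pow]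
        have h2 := norm_pos_iff.2 hz0
        field_simp
        ring
    refine ContinuousAt.congr ?_ h1
    have h4 : ContinuousAt (fun z : ℂ => Real.exp (C * ‖z‖ ^ 2)) 0 := by fun_prop
    have h5 : ContinuousAt (fun z : ℂ => ‖z‖ ^ 2) 0 := by fun_prop
    exact h5.mul (hN'.mul h4)
  have hEc : Continuous E := continuous_iff_continuousAt.2 fun z => by
    by_cases hz : z = 0
    · rw [hz]
      exact hEc0
    · exact hEcz z hz
  have hzM0 : zM ≠ 0 := by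
    intro h0
    rw [h0, hev.self_of_nhds, norm_zero, zero_pow (by omega), zero_mul] at hMp
    exact lt_irrefl _ hMp
  have hzMn : 0 < ‖zM‖ := norm_pos_iff.2 hzM0
  have hnf : ∀ z, ‖hf z‖ ^ 2 = ((‖z‖ ^ 2) ^ M)⁻¹ := by
    intro z
    rw [hhf]
    simp only
    rw [norm_inv, norm_pow, inv_pow, ← pow_mul, ← pow_mul, mul_comm]
  have hEM : N zM * ((R0 ^ 2) ^ M)⁻¹ ≤ E zM := by
    rw [hE]
    simp only
    rw [hnf]
    have h1 : 1 ≤ Real.exp (C * ‖zM‖ ^ 2) := Real.one_le_exp (by positivity)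
    have h2 : ((R0 ^ 2) ^ M)⁻¹ ≤ ((‖zM‖ ^ 2) ^ M)⁻¹ := by
      apply inv_anti₀ (by positivity)
      exact pow_le_pow_left₀ (by positivity) (pow_le_pow_left₀ hzMn.le hzM 2) _
    calc N zM * ((R0 ^ 2) ^ M)⁻¹ ≤ N zM * ((‖zM‖ ^ 2) ^ M)⁻¹ :=
          mul_le_mul_of_nonneg_left h2 hMp.le
      _ = N zM * 1 * ((‖zM‖ ^ 2) ^ M)⁻¹ := by rw [mul_one]
      _ ≤ _ := by
          apply mul_le_mul_of_nonneg_right _ (by positivity)
          exact mul_le_mul_of_nonneg_left h1 hMp.le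
  have hEMp : 0 < E zM := lt_of_lt_of_le (by positivity) hEM
  obtain ⟨z2, hz2, hmax2⟩ := (isCompact_closedBall (0 : ℂ) (2 * R0)).exists_isMaxOn
    ⟨0, mem_closedBall_self (by positivity)⟩ hEc.continuousOn
  have hmax2' : ∀ z, ‖z‖ ≤ 2 * R0 → E z ≤ E z2 := fun z hz =>
    hmax2 (mem_closedBall_zero_iff.2 hz)
  have hE2 : E zM ≤ E z2 := hmax2' zM (by linarith)
  have hz20 : z2 ≠ 0 := by
    intro h0
    rw [h0, hE0] at hE2
    linarith
  have hz2n : ‖z2‖ ≤ 2 * R0 := mem_closedBall_zero_iff.1 hz2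
  rcases hz2n.eq_or_lt with h1 | h1
  · have h2 : E z2 ≤ N zM * Real.exp (4 * C * R0 ^ 2) * (((2 * R0) ^ 2) ^ M)⁻¹ := by
      rw [hE]
      simp only
      rw [hnf, h1]
      have h3 : C * (2 * R0) ^ 2 = 4 * C * R0 ^ 2 := by ring
      rw [h3]
      apply mul_le_mul_of_nonneg_right _ (by positivity)
      exact mul_le_mul_of_nonneg_right (hle z2) (Real.exp_pos _).le
    have h3 := (hEM.trans hE2).trans h2
    have h4 : (4 : ℝ) ^ M ≤ Real.exp (4 * C * R0 ^ 2) := by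
      have h5 : ((2 * R0) ^ 2) ^ M = 4 ^ M * (R0 ^ 2) ^ M := by
        rw [← mul_pow]
        congr 1
        ring
      rw [h5, mul_inv] at h3
      have h6 : 0 < (R0 ^ 2) ^ M := by positivity
      have h7 : (0 : ℝ) < 4 ^ M := by positivity
      have h8 : N zM * ((R0 ^ 2) ^ M)⁻¹ * (4 ^ M * (R0 ^ 2) ^ M) ≤
          N zM * Real.exp (4 * C * R0 ^ 2) * ((4 ^ M)⁻¹ * ((R0 ^ 2) ^ M)⁻¹) *
            (4 ^ M * (R0 ^ 2) ^ M) := mul_le_mul_of_nonneg_right h3 (by positivity)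
      have h9 : N zM * ((R0 ^ 2) ^ M)⁻¹ * (4 ^ M * (R0 ^ 2) ^ M) = N zM * 4 ^ M := by
        field_simp
      have h10 : N zM * Real.exp (4 * C * R0 ^ 2) * ((4 ^ M)⁻¹ * ((R0 ^ 2) ^ M)⁻¹) *
            (4 ^ M * (R0 ^ 2) ^ M) = N zM * Real.exp (4 * C * R0 ^ 2) := by
        field_simp
      rw [h9, h10] at h8
      exact le_of_mul_le_mul_left h8 hMp
    have h5 : Real.exp (M : ℝ) ≤ 4 ^ M := by
      have h6 : Real.exp (M : ℝ) = (Real.exp 1) ^ M := by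
        rw [← Real.exp_nat_mul, mul_one]
      rw [h6]
      have h7 := Real.exp_one_lt_d9
      exact pow_le_pow_left₀ (Real.exp_pos 1).le (by linarith) _
    have h6 := Real.exp_le_exp.1 (h5.trans h4)
    linarith
  · have hloc : IsLocalMax E z2 := by
      have h2 : ∀ᶠ z : ℂ in 𝓝 z2, ‖z‖ < 2 * R0 :=
        continuous_norm.continuousAt.eventually_lt_const h1
      exact h2.mono fun z hz => hmax2' z hz.le
    have h3 := hmx z2 hf ((analyticAt_id.pow M).inv (pow_ne_zero _ hz20)) hloc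
    have h4 : E z2 = 0 := h3
    linarith

/-- the vector is a nonzero vector of the line -/
def OnL (M : Mat (n + 1)) (x : Fin (n + 1) → ℂ) : Prop := x ≠ 0 ∧ M = Phi x

theorem OnL.smul {M : Mat (n + 1)} {x : Fin (n + 1) → ℂ} (h : OnL M x) {c : ℂ} (hc : c ≠ 0) :
    OnL M (c • x) := ⟨smul_ne_zero hc h.1, by rw [Phi_smul hc]; exact h.2⟩

theorem onL_smul_iff {M : Mat (n + 1)} {x : Fin (n + 1) → ℂ} {c : ℂ} (hc : c ≠ 0) :
    OnL M (c • x) ↔ OnL M x := by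
  refine ⟨fun h => ?_, fun h => h.smul hc⟩
  have := h.smul (inv_ne_zero hc)
  rwa [smul_smul, inv_mul_cancel₀ hc, one_smul] at this

/-- the sections of degree `m` along the curve `φ` with the periods `p`, `q` -/
def Sec (φ : ℂ → Mat (n + 1)) (p q : ℂ) (m : ℕ) :
    Submodule ℂ (ℂ → (Fin (n + 1) → ℂ) → ℂ) where
  carrier := {s | (∀ z x, ¬ OnL (φ z) x → s z x = 0) ∧
    (∀ z x (c : ℂ), c ≠ 0 → s z (c • x) = c ^ m * s z x) ∧
    (∀ z (F : ℂ → Fin (n + 1) → ℂ), AnalyticAt ℂ F z → (∀ᶠ w in 𝓝 z, OnL (φ w) (F w)) →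
      AnalyticAt ℂ (fun w => s w (F w)) z) ∧
    (∀ z x, s (z + p) x = s z x) ∧ ∀ z x, s (z + q) x = s z x}
  add_mem' := by
    rintro s t ⟨h1, h2, h3, h4, h5⟩ ⟨g1, g2, g3, g4, g5⟩
    refine ⟨fun z x hx => ?_, fun z x c hc => ?_, fun z F hF hev => ?_, fun z x => ?_,
      fun z x => ?_⟩
    · simp only [Pi.add_apply, h1 z x hx, g1 z x hx, add_zero]
    · simp only [Pi.add_apply, h2 z x c hc, g2 z x c hc]
      ring
    · exact (h3 z F hF hev).add (g3 z F hF hev)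
    · simp only [Pi.add_apply, h4, g4]
    · simp only [Pi.add_apply, h5, g5]
  zero_mem' := by
    refine ⟨fun z x hx => rfl, fun z x c hc => ?_, fun z F hF hev => analyticAt_const,
      fun z x => rfl, fun z x => rfl⟩
    simp only [Pi.zero_apply, mul_zero]
  smul_mem' := by
    rintro a s ⟨h1, h2, h3, h4, h5⟩
    refine ⟨fun z x hx => ?_, fun z x c hc => ?_, fun z F hF hev => ?_, fun z x => ?_,
      fun z x => ?_⟩
    · simp only [Pi.smul_apply, h1 z x hx, smul_zero]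
    · simp only [Pi.smul_apply, h2 z x c hc, smul_eq_mul]
      ring
    · exact (analyticAt_const (𝕜 := ℂ) (v := a)).mul (h3 z F hF hev)
    · simp only [Pi.smul_apply, h4]
    · simp only [Pi.smul_apply, h5]

variable {φ : ℂ → Mat (n + 1)} {p q : ℂ} {m : ℕ}

/-- the square of the size of a section -/
noncomputable def Nn (φ : ℂ → Mat (n + 1)) (m : ℕ) (s : ℂ → (Fin (n + 1) → ℂ) → ℂ) (z : ℂ) : ℝ :=
  ‖s z (toProj (φ z)).rep‖ ^ 2 / (∑ k, ‖(toProj (φ z)).rep k‖ ^ 2) ^ m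

theorem Nn_eq {s : ℂ → (Fin (n + 1) → ℂ) → ℂ} (hs : s ∈ Sec φ p q m) {z : ℂ}
    {x : Fin (n + 1) → ℂ} (hx : OnL (φ z) x) :
    Nn φ m s z = ‖s z x‖ ^ 2 / (∑ k, ‖x k‖ ^ 2) ^ m := by
  unfold Nn
  rw [hx.2, toProj_Phi hx.1]
  obtain ⟨c, hc⟩ := Projectivization.exists_smul_eq_mk_rep ℂ x hx.1
  rw [← hc]
  have hc0 : (c : ℂ) ≠ 0 := c.ne_zero
  have h0 : c • x = (c : ℂ) • x := rfl
  rw [h0, hs.2.1 z x c hc0, norm_mul, norm_pow]
  have h1 : ∑ k, ‖((c : ℂ) • x) k‖ ^ 2 = ‖(c : ℂ)‖ ^ 2 * ∑ k, ‖x k‖ ^ 2 := by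
    rw [Finset.mul_sum]
    refine Finset.sum_congr rfl fun k _ => ?_
    rw [Pi.smul_apply, smul_eq_mul, norm_mul, mul_pow]
  rw [h1, mul_pow, mul_pow, ← pow_mul, ← pow_mul, mul_comm m 2]
  apply mul_div_mul_left
  exact pow_ne_zero _ (norm_ne_zero_iff.2 hc0)

/-- local lifts -/
theorem exists_local (hφ : HolP univ φ) (z : ℂ) : ∃ F : ℂ → Fin (n + 1) → ℂ, AnalyticAt ℂ F z ∧
    ∀ᶠ w in 𝓝 z, OnL (φ w) (F w) ∧ AnalyticAt ℂ F w := by
  obtain ⟨V, F, hV, hzV, hF, hφF⟩ := hφ z (mem_univ z)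
  refine ⟨F, (hF.analyticOnNhd hV) z hzV, ?_⟩
  filter_upwards [hV.mem_nhds hzV] with w hw
  exact ⟨hφF w hw, (hF.analyticOnNhd hV) w hw⟩

theorem Nn_cont (hφ : HolP univ φ) {s : ℂ → (Fin (n + 1) → ℂ) → ℂ} (hs : s ∈ Sec φ p q m) :
    Continuous (Nn φ m s) := by
  rw [continuous_iff_continuousAt]
  intro z
  obtain ⟨F, hF, hev⟩ := exists_local hφ z
  have h1 : (fun w => ‖s w (F w)‖ ^ 2 / (∑ k, ‖F w k‖ ^ 2) ^ m) =ᶠ[𝓝 z] Nn φ m s := by
    filter_upwards [hev] with w hw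
    exact (Nn_eq hs hw.1).symm
  refine ContinuousAt.congr ?_ h1
  have h2 : ContinuousAt (fun w => (∑ k, ‖F w k‖ ^ 2) ^ m) z := by
    refine ContinuousAt.pow ?_ _
    exact tendsto_finsetSum _ fun k _ =>
      (((analyticAt_pi_iff.1 hF) k).continuousAt.norm).pow 2
  have h3 : (∑ k, ‖F z k‖ ^ 2) ^ m ≠ 0 := pow_ne_zero _ (BB.sum_pos hev.self_of_nhds.1.1).ne'
  exact ((hs.2.2.1 z F hF (hev.mono fun w hw => hw.1)).continuousAt.norm.pow 2).div h2 h3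

theorem Nn_nonneg (s : ℂ → (Fin (n + 1) → ℂ) → ℂ) (z : ℂ) : 0 ≤ Nn φ m s z := by
  unfold Nn
  have : 0 ≤ ∑ k, ‖(toProj (φ z)).rep k‖ ^ 2 := Finset.sum_nonneg fun _ _ => by positivity
  positivity

/-- the local maximum principle for sections -/
theorem Nn_max (n : ℕ) : ∃ A : ℝ, 0 < A ∧ ∀ (φ : ℂ → Mat (n + 1)) (p q : ℂ) (m : ℕ)
    (s : ℂ → (Fin (n + 1) → ℂ) → ℂ), HolP univ φ → s ∈ Sec φ p q m → ∀ (p0 : ℂ) (h : ℂ → ℂ) (C : ℝ),
    AnalyticAt ℂ h p0 → m * (A * ‖fderiv ℝ φ p0‖ ^ 2) < C →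
    IsLocalMax (fun z => Nn φ m s z * Real.exp (C * ‖z‖ ^ 2) * ‖h z‖ ^ 2) p0 →
    Nn φ m s p0 * Real.exp (C * ‖p0‖ ^ 2) * ‖h p0‖ ^ 2 = 0 := by
  obtain ⟨A, hA, hmx⟩ := no_max n
  refine ⟨A, hA, fun φ p q m s hφ hs p0 h C hh hC hmax => ?_⟩
  obtain ⟨F, hF, hev⟩ := exists_local hφ p0
  obtain ⟨i, hi⟩ := Function.ne_iff.1 hev.self_of_nhds.1.1
  have hi' : F p0 i ≠ 0 := hi
  have hFi : AnalyticAt ℂ (fun w => F w i) p0 := (analyticAt_pi_iff.1 hF) i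
  set P : MvPolynomial (Fin (n + 1)) ℂ := X i ^ m with hP
  have hPh : P.IsHomogeneous m := by
    have := (isHomogeneous_X ℂ i).pow m
    rwa [one_mul] at this
  set h' : ℂ → ℂ := fun w => h w * (s w (F w) / F w i ^ m) with hh'
  have hsa := hs.2.2.1 p0 F hF (hev.mono fun w hw => hw.1)
  have hh'a : AnalyticAt ℂ h' p0 := hh.mul (hsa.div (hFi.pow m) (pow_ne_zero _ hi'))
  have hE : (fun z => Nn φ m s z * Real.exp (C * ‖z‖ ^ 2) * ‖h z‖ ^ 2) =ᶠ[𝓝 p0]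
      fun z => np P m (φ z) * Real.exp (C * ‖z‖ ^ 2) * ‖h' z‖ ^ 2 := by
    filter_upwards [hev, hFi.continuousAt.eventually_ne hi'] with w hw hwi
    rw [Nn_eq hs hw.1, hw.1.2, np_Phi hPh hw.1.1]
    unfold nq
    rw [hP, map_pow, eval_X, hh']
    simp only
    rw [norm_mul, norm_div, norm_pow]
    have h1 := norm_pos_iff.2 hwi
    have h2 := BB.sum_pos hw.1.1
    field_simp
  have h1 := hmx m P hPh φ univ p0 h' C (mem_univ _) hφ hh'a hC (hmax.congr hE)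
  rw [← h1]
  exact hE.self_of_nhds

end Pool.Agent.Helper65.GG
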