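import Pool.Agent.Helper65.GG.Multi
import Pool.Agent.Helper65.GG.Ell
import Pool.Agent.Helper65.GG.Jet2

/-!
Entire curves in closed subsets of projective manifolds with invariant jet differentials.
-/

set_option autoImplicit false

open Filter Topology Metric MvPolynomial Set LinearAlgebra.Projectivization

namespace Pool.Agent.Helper65.GG

open Pool.Agent.W602.GT Pool.Agent.N155.BB Pool.Agent.Y190.OP Pool.Agent.N155
  Pool.Agent.N155.GD Pool.Agent.Helper65.BF

variable {n d r k : ℕ} {ι ι' κ' : Type} {F : ι → MvPolynomial (Fin (n + 1)) ℂ}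
  {Z : ι' → MvPolynomial (Fin (n + 1)) ℂ}
  {η : κ' → (Fin (n + 1) → ℂ) → (Fin (n + 1) → ℂ) → (Fin (n + 1) → ℂ) → ℂ}
  {σ : (Fin (r + 1) → Fin (n + 1) → ℂ) → ℂ} {V : Set (Fin (n + 1) → ℂ)}

/-- from matrices to projective space -/
theorem np_eq_zero {P : MvPolynomial (Fin (n + 1)) ℂ} {D : ℕ}
    {p : ℙ ℂ (Fin (n + 1) → ℂ)} : nq P D p.rep = 0 ↔ eval p.rep P = 0 := by
  unfold nq
  have h := BB.sum_pos p.rep_nonzero
  rw [div_eq_zero_iff]
  constructor
  · rintro (h1 | h1)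
    · exact norm_eq_zero.1 ((pow_eq_zero_iff two_ne_zero).1 h1)
    · exact absurd h1 (pow_ne_zero _ h.ne')
  · intro h1
    left
    rw [h1, norm_zero, zero_pow two_ne_zero]

theorem nonconst_of {f : ℂ → ℙ ℂ (Fin (n + 1) → ℂ)} (h : HolMap f) (hne : ¬ ∀ z w, f z = f w) :
    ∃ z, fderiv ℝ (fun z => Phi (f z).rep) z ≠ 0 := by
  by_contra hcon
  push Not at hcon
  apply hne
  intro z w
  exact proj_ext (is_const_of_fderiv_eq_zero (𝕜 := ℝ)
    (fun w => (holP_of_map h).differentiableAt (mem_univ w)) hcon z w)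

/-! ### closed sets -/

theorem Phi_mem_V (hV : ClosedCone V) (hVX : V ⊆ Cone F) {u : Fin (n + 1) → ℂ} (hu : u ≠ 0) :
    Phi u ∈ Phi '' V ↔ u ∈ V := by
  constructor
  · rintro ⟨v, hv, hvu⟩
    obtain ⟨c, hc, rfl⟩ := Phi_inj (hVX hv).1 hu hvu
    exact hV.smul v hv c hc
  · intro h
    exact ⟨u, h, rfl⟩

theorem compact_V (hV : ClosedCone V) (hVX : V ⊆ Cone F) : IsCompact (Phi '' V) := by
  set S : Set (Fin (n + 1) → ℂ) := sphere 0 1 ∩ insert 0 V with hS
  have hSc : IsCompact S := (isCompact_sphere 0 1).inter_right hV.closed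
  have hne : ∀ u ∈ S, u ≠ 0 := by
    rintro u ⟨hu, -⟩ rfl
    rw [mem_sphere, dist_self] at hu
    exact zero_ne_one hu
  have himg : Phi '' V = Phi '' S := by
    ext M
    constructor
    · rintro ⟨u, hu, rfl⟩
      have hn : (‖u‖ : ℂ) ≠ 0 := by
        have := norm_pos_iff.2 (hVX hu).1
        exact_mod_cast this.ne'
      refine ⟨(‖u‖ : ℂ)⁻¹ • u, ⟨?_, Or.inr (hV.smul u hu _ (inv_ne_zero hn))⟩,
        Phi_smul (inv_ne_zero hn) u⟩
      rw [mem_sphere, dist_zero_right, norm_smul, norm_inv, Complex.norm_real, norm_norm]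
      exact inv_mul_cancel₀ (by exact_mod_cast hn)
    · rintro ⟨u, hu, rfl⟩
      exact ⟨u, hu.2.resolve_left (hne u hu), rfl⟩
  rw [himg]
  exact hSc.image_of_continuousOn fun u hu => (continuousAt_Phi (hne u hu)).continuousWithinAt

theorem V_sub (hVX : V ⊆ Cone F) : Phi '' V ⊆ TF F := image_mono hVX

theorem rep_V (hV : ClosedCone V) (hVX : V ⊆ Cone F) {M : Mat (n + 1)} (hM : M ∈ Phi '' V) :
    (toProj M).rep ∈ V := by
  rw [← Phi_mem_V hV hVX (Projectivization.rep_nonzero _),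
    Phi_rep_toProj (TF_PM (V_sub hVX hM))]
  exact hM

/-- curves of matrices and curves in projective space -/
theorem curve_of (hV : ClosedCone V) (hVX : V ⊆ Cone F) {φ : ℂ → Mat (n + 1)}
    (hφ : BD (Phi '' V) φ) : CurveIn V (fun z => toProj (φ z)) ∧
      (∃ C : ℝ, DerBetween 0 C fun z => toProj (φ z)) ∧
      (fun z => Phi (toProj (φ z)).rep) = φ := by
  obtain ⟨A, hA, hw⟩ := wedge_fderiv n
  have hh := holMap_of hφ.hol
  have hphi : (fun z => Phi (toProj (φ z)).rep) = φ := funext fun z =>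
    Phi_rep_toProj (TF_PM (V_sub hVX (hφ.mem z)))
  refine ⟨⟨hh, fun z => rep_V hV hVX (hφ.mem z)⟩, ⟨A * 2, ?_⟩, hphi⟩
  intro V g hV hg hfg z hz
  obtain ⟨-, h2⟩ := hw _ hh V g hV hg hfg z hz
  rw [hphi] at h2
  have hS := (BB.sum_pos (hfg z hz).1).le
  refine ⟨by rw [zero_mul]; exact wedge_nonneg _ _, h2.trans ?_⟩
  exact mul_le_mul_of_nonneg_right (mul_le_mul_of_nonneg_left (hφ.bd z) hA.le) hS

theorem const_of_toProj (hVX : V ⊆ Cone F) {φ : ℂ → Mat (n + 1)} (hφ : ∀ z, φ z ∈ Phi '' V)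
    (hc : ∀ z w, toProj (φ z) = toProj (φ w)) (z : ℂ) : fderiv ℝ φ z = 0 := by
  have h1 : φ = fun _ => φ 0 := by
    funext w
    have h2 := congrArg (fun p : ℙ ℂ (Fin (n + 1) → ℂ) => Phi p.rep) (hc w 0)
    rwa [Phi_rep_toProj (TF_PM (V_sub hVX (hφ w))), Phi_rep_toProj (TF_PM (V_sub hVX (hφ 0)))]
      at h2
  rw [h1]
  exact fderiv_const_apply _

/-- annihilated curves -/
theorem annih_of (hF : ∀ i, IsForm (F i)) (hσ : JetDiff (Cone F) r k σ) (hVX : V ⊆ Cone F)
    {φ : ℂ → Mat (n + 1)} (hφ : BD (Phi '' V) φ) (h0 : ∀ z, GJ σ φ z = 0) :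
    Annihilates σ fun z => toProj (φ z) := by
  intro V g hV hg hfg z hz
  have hga : AnalyticAt ℂ g z := (hg.analyticOnNhd hV) z hz
  rw [← GJ_lift hF hσ isOpen_univ ⟨hφ.hol, fun w _ => V_sub hVX (hφ.mem w)⟩ (mem_univ z) hga (by
    filter_upwards [hV.mem_nhds hz] with w hw
    obtain ⟨h1, h2⟩ := hfg w hw
    refine ⟨h1, ?_⟩
    have h3 := Phi_rep_toProj (TF_PM (V_sub hVX (hφ.mem w)))
    have h4 : toProj (φ w) = Projectivization.mk ℂ (g w) h1 := h2
    rw [h4, Phi_rep_mk] at h3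
    exact h3.symm)]
  exact h0 z

/-- **Entire curves in closed sets.** -/
theorem entire_closed {N : ℕ} {r k : Fin N → ℕ}
    {σ : (i : Fin N) → (Fin (r i + 1) → Fin (n + 1) → ℂ) → ℂ} (hX : ProjManifold F d)
    (hZf : ∀ i, IsForm (Z i)) (hη : PositiveTwoForms (Cone F) (Cone Z) d η)
    (hσ : ∀ i, JetDiff (Cone F) (r i) (k i) (σ i)) (hr : ∀ i, 0 < r i) (hk : ∀ i, 0 < k i)
    (hV : ClosedCone V) (hVX : V ⊆ Cone F)
    (hnd : ∀ f, CurveIn V f → ∀ C : ℝ, DerBetween 0 C f →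
      ((∀ i, Annihilates (σ i) f) ∨ CurveIn (Cone Z) f) → ∀ z w, f z = f w) :
    ∃ S : Finset (ℂ → ℙ ℂ (Fin (n + 1) → ℂ)),
      (∀ g ∈ S, CurveIn V g ∧ DoublyPeriodic g ∧ ¬ ∀ z w, g z = g w) ∧
      (∀ f, CurveIn V f → (¬ ∀ z w, f z = f w) →
        ∃ g ∈ S, ∃ h : ℂ → ℂ, Differentiable ℂ h ∧ ∀ z, f z = g (h z)) ∧
      (2 ≤ d → ∀ x ∈ Cone F, ∃ P : MvPolynomial (Fin (n + 1)) ℂ, IsForm P ∧
        (∃ᶠ y in 𝓝 x, y ∈ Cone F ∧ eval y P ≠ 0) ∧ ∀ g ∈ S, ∀ z, eval (g z).rep P = 0) := by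
  classical
  have hsub : Phi '' V ⊆ TF F := V_sub hVX
  have hTP : Phi '' V ⊆ PM := hsub.trans TF_PM
  have hT := compact_V hV hVX
  have hJ : ∀ i, JI (Phi '' V) (k i) (GJ (σ i)) := fun i => (ji_of hX (hσ i) (hr i)).subset hsub
  have hND : NDf (Phi '' V) fun i => GJ (σ i) := by
    intro φ hφ h0 z
    obtain ⟨h1, ⟨C, h2⟩, h3⟩ := curve_of hV hVX hφ
    exact const_of_toProj hVX hφ.mem (hnd _ h1 C h2 (Or.inl fun i =>
      annih_of hX.form (hσ i) hVX hφ (h0 i))) z
  have hgw := gw_mono (gw_of hX hZf hη) hsub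
  have hout : ∀ c : ℝ, 0 < c → ∀ φ, BCw (Phi '' V) c φ → ∃ z, φ z ∉ TF Z := by
    intro c hc φ hφ
    by_contra hcon
    push Not at hcon
    obtain ⟨h1, ⟨C, h2⟩, h3⟩ := curve_of hV hVX ⟨hφ.hol, hφ.mem, hφ.bd⟩
    have h4 := const_of_toProj hVX hφ.mem (hnd _ h1 C h2 (Or.inr ⟨h1.1, fun z =>
      rep_toProj hZf (hcon z)⟩)) 0
    have h5 := hφ.low 0
    rw [h4, norm_zero] at h5
    linarith
  obtain ⟨S, c0, hc0, hS, hfac⟩ := core_all hT hTP hJ hk hND hgw hout
  refine ⟨S.image fun φ z => toProj (φ z), fun g hg => ?_, fun f hf hne => ?_, fun hd x hx => ?_⟩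
  · obtain ⟨φ, hφ, rfl⟩ := Finset.mem_image.1 hg
    obtain ⟨h1, p, q, hind, hp, hq⟩ := hS φ hφ
    obtain ⟨h2, -, -⟩ := curve_of hV hVX ⟨h1.hol, h1.mem, h1.bd⟩
    refine ⟨h2, ?_, fun hcon => ?_⟩
    · obtain ⟨L, hL⟩ := pair_periods hind hp hq
      exact ⟨L, fun l hl z => by
        change toProj (φ (z + l)) = toProj (φ z)
        rw [hL l hl z]⟩
    · have h3 := h1.low 0
      rw [const_of_toProj hVX h1.mem hcon, norm_zero] at h3
      linarith
  · obtain ⟨g, hg, h, hh, hfg⟩ := hfac (fun z => Phi (f z).rep)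
      ⟨holP_of_map hf.1, fun z _ => ⟨_, hf.2 z, rfl⟩⟩ (nonconst_of hf.1 hne)
    refine ⟨_, Finset.mem_image_of_mem _ hg, h, hh, fun z => ?_⟩
    rw [← hfg z, toProj_Phi_rep]
  · obtain ⟨i, J, U, Ψ, hxi, hU, hxU, hΨ, hΨX, hev⟩ := hX.smooth x hx
    set j0 : Fin d := ⟨0, by omega⟩ with hj0
    set j1 : Fin d := ⟨1, by omega⟩ with hj1
    have hj01 : j0 ≠ j1 := by
      intro h
      have := congrArg Fin.val h
      simp [hj0, hj1] at this
    set t : Fin 3 → Fin (n + 1) := ![i, J j0, J j1] with ht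
    have hform : ∀ g ∈ S, ∃ (D : ℕ) (Q : MvPolynomial (Fin 3) ℂ), Q ≠ 0 ∧ Q.IsHomogeneous D ∧
        ∀ z, np (rename t Q) D (g z) = 0 := by
      intro g hg
      obtain ⟨h1, p, q, hind, hp, hq⟩ := hS g hg
      exact exists_form t h1.hol h1.bd hind hp hq
    choose! D Q hQ0 hQh hQz using hform
    set Q0 : MvPolynomial (Fin 3) ℂ := ∏ g ∈ S, Q g with hQ0def
    have hQ0ne : Q0 ≠ 0 := Finset.prod_ne_zero_iff.2 hQ0
    have hQ0h : Q0.IsHomogeneous (∑ g ∈ S, D g) := IsHomogeneous.prod _ _ _ hQh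
    refine ⟨rename t Q0, ⟨_, hQ0h.rename_isHomogeneous⟩, ?_, fun g hg z => ?_⟩
    · intro hcon
      -- the form vanishes near a point
      have hcon' : ∀ᶠ y in 𝓝 x, y ∈ Cone F → eval y (rename t Q0) = 0 := by
        filter_upwards [hcon] with y hy hyF
        by_contra h1
        exact hy ⟨hyF, h1⟩
      apply hQ0ne
      set y0 : Fin 3 → ℂ := fun a => x (t a) with hy0
      have hy00 : y0 0 = x i := rfl
      set u : (Fin 3 → ℂ) → Fin d → ℂ := fun y k => if k = j0 then y 1 / y 0 else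
        if k = j1 then y 2 / y 0 else x (J k) / x i with hu
      have hu0 : u y0 = fun k => x (J k) / x i := by
        funext k
        rw [hu]
        simp only
        split_ifs with h1 h2
        · rw [h1]
          rfl
        · rw [h2]
          rfl
        · rfl
      have huc : ContinuousAt u y0 := by
        rw [continuousAt_pi]
        intro k
        rw [hu]
        simp only
        have hc0 : ContinuousAt (fun y : Fin 3 → ℂ => y 0) y0 := (continuous_apply 0).continuousAt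
        split_ifs with h1 h2
        · exact ContinuousAt.div (continuous_apply 1).continuousAt hc0 hxi
        · exact ContinuousAt.div (continuous_apply 2).continuousAt hc0 hxi
        · exact continuousAt_const
      have hself := hev.self_of_nhds hx
      have hXc : ContinuousAt (fun y : Fin 3 → ℂ => y 0 • Ψ (u y)) y0 := by
        refine ContinuousAt.smul (continuous_apply 0).continuousAt ?_
        have h1 : ContinuousAt Ψ (u y0) := by
          rw [hu0]
          exact (hΨ _ hxU).continuousAt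
        exact ContinuousAt.comp (f := u) h1 huc
      have hX0 : y0 0 • Ψ (u y0) = x := by
        rw [hu0, hy00]
        exact hself.symm
      have h1 : ∀ᶠ y in 𝓝 y0, eval y Q0 = 0 := by
        have e1 : ∀ᶠ y in 𝓝 y0, (y 0 • Ψ (u y) ∈ Cone F → eval (y 0 • Ψ (u y)) (rename t Q0) = 0) := by
          have h2 : Tendsto (fun y : Fin 3 → ℂ => y 0 • Ψ (u y)) (𝓝 y0) (𝓝 x) := by
            have := hXc.tendsto
            rwa [hX0] at this
          exact h2.eventually hcon'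
        have e2 : ∀ᶠ y in 𝓝 y0, u y ∈ U := huc.eventually_mem (hU.mem_nhds (by rwa [hu0]))
        have e3 : ∀ᶠ y in 𝓝 y0, y 0 ≠ 0 :=
          (continuous_apply (0 : Fin 3)).continuousAt.eventually_ne hxi
        filter_upwards [e1, e2, e3] with y hy1 hy2 hy3
        obtain ⟨h3, h4, h5⟩ := hΨX _ hy2
        have h6 := hy1 (cone_smul hX.form h3 hy3)
        rw [eval_rename] at h6
        rw [← h6]
        congr 1
        have h7 : (y 0 • Ψ (u y)) ∘ t = y := by
          funext a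
          simp only [Function.comp, Pi.smul_apply, smul_eq_mul]
          fin_cases a
          · change y 0 * Ψ (u y) i = y 0
            rw [h4, mul_one]
          · change y 0 * Ψ (u y) (J j0) = y 1
            rw [h5 j0, hu]
            simp only [if_true]
            field_simp
          · change y 0 * Ψ (u y) (J j1) = y 2
            rw [h5 j1, hu]
            simp only [if_neg hj01.symm, if_true]
            field_simp
        rw [h7]
      have h2 : (fun y : Fin 3 → ℂ => eval y Q0) = fun _ => 0 :=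
        (AnalyticOnNhd.eval_mvPolynomial Q0).eq_of_eventuallyEq analyticOnNhd_const h1
      exact MvPolynomial.funext fun y => by
        rw [map_zero]
        exact congrFun h2 y
    · obtain ⟨φ, hφ, rfl⟩ := Finset.mem_image.1 hg
      have h1 := hQz φ hφ z
      have h2 : eval (toProj (φ z)).rep (rename t (Q φ)) = 0 := np_eq_zero.1 h1
      rw [hQ0def, map_prod, map_prod]
      exact Finset.prod_eq_zero hφ h2

end Pool.Agent.Helper65.GG
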